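import Mathlib

/-!
# A Luzin type structure from the continuum hypothesis

Under CH we construct points `p (δ, i)` of the real line, `δ < ω₁`, `i < ω`, together with
decreasing sequences of open sets, such that the resulting topology on the set of the points is
hereditarily Lindelöf, first countable and zero-dimensional, while all initial pieces are closed.
-/

set_option autoImplicit false

namespace Pool.Agent.R827.CL

open Set Topology Filter MeasureTheory Cardinal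

/-- The well-ordered set of the countable ordinals. -/
abbrev Om : Type := (ℵ₁ : Cardinal.{0}).ord.ToType

theorem countable_Iio (a : Om) : (Iio a).Countable := by
  have h : #(Iio a) < ℵ₁ := by
    have := Cardinal.mk_Iio_toType_ord_lt a
    exact this
  rw [← Cardinal.le_aleph0_iff_set_countable]
  have h2 : #(Iio a) < Order.succ ℵ₀ := by rwa [Cardinal.succ_aleph0]
  exact Order.lt_succ_iff.1 h2

theorem countable_Iic (a : Om) : (Iic a).Countable := by
  have : Iic a = insert a (Iio a) := by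
    ext x
    simp [le_iff_eq_or_lt]
  rw [this]
  exact (countable_Iio a).insert a

theorem not_countable_Om : ¬ (univ : Set Om).Countable := by
  intro h3
  rw [← Cardinal.le_aleph0_iff_set_countable] at h3
  have h4 : Cardinal.mk (univ : Set Om) = Cardinal.aleph 1 := by simp
  rw [h4] at h3
  exact absurd Cardinal.aleph0_lt_aleph_one (not_lt.2 h3)

theorem exists_ub (s : Set Om) (hs : s.Countable) : ∃ a : Om, ∀ b ∈ s, b < a := by
  by_contra hcon
  push Not at hcon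
  have h1 : (univ : Set Om) ⊆ ⋃ b ∈ s, Iic b := by
    intro a _
    obtain ⟨b, hb, hab⟩ := hcon a
    exact mem_iUnion₂.2 ⟨b, hb, hab⟩
  have h2 : (⋃ b ∈ s, Iic b).Countable := hs.biUnion fun b _ => countable_Iic b
  exact not_countable_Om (h2.mono h1)

theorem exists_rec {ι : Type} [LinearOrder ι] [WellFoundedLT ι] {D : Type}
    (R : (δ : ι) → (∀ γ, γ < δ → D) → D → Prop) (h : ∀ δ d, ∃ x, R δ d x) :
    ∃ F : ι → D, ∀ δ, R δ (fun γ _ => F γ) (F δ) := by
  let F : ι → D := (wellFounded_lt (α := ι)).fix (fun δ d => (h δ d).choose)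
  refine ⟨F, fun δ => ?_⟩
  have : F δ = (h δ (fun γ _ => F γ)).choose := wellFounded_lt.fix_eq _ δ
  rw [this]
  exact (h δ _).choose_spec

theorem exists_inj (S : ℕ → Set ℝ) (hS : ∀ i, (S i).Infinite) :
    ∃ x : ℕ → ℝ, Function.Injective x ∧ ∀ i, x i ∈ S i := by
  obtain ⟨F, hF⟩ := exists_rec (ι := ℕ) (D := ℝ) (fun n d x => x ∈ S n ∧ ∀ k (h : k < n), x ≠ d k h)
    (by
      intro n d
      have h1 : (range fun k : Fin n => d k k.2).Finite := finite_range _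
      obtain ⟨x, hx, hx2⟩ := (hS n).exists_notMem_finite h1
      exact ⟨x, hx, fun k hk h => hx2 ⟨⟨k, hk⟩, h.symm⟩⟩)
  refine ⟨F, ?_, fun i => (hF i).1⟩
  intro a b hab
  rcases lt_trichotomy a b with h | h | h
  · exact absurd hab.symm ((hF b).2 a h)
  · exact h
  · exact absurd hab ((hF a).2 b h)

/-- The measure: Lebesgue measure on the unit interval. -/
noncomputable abbrev μ : Measure ℝ := volume.restrict (Icc 0 1)

open Classical in
/-- The index of the first of the sets `G n` which misses `r`. -/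
noncomputable def ev (G : ℕ → Set ℝ) (r : ℝ) : ℕ∞ :=
  if h : ∃ n, r ∉ G n then (Nat.find h : ℕ∞) else ⊤

theorem le_ev (G : ℕ → Set ℝ) (r : ℝ) (n : ℕ) : (n : ℕ∞) ≤ ev G r ↔ ∀ k < n, r ∈ G k := by
  classical
  unfold ev
  split_ifs with h
  · rw [Nat.cast_le, Nat.le_find_iff]
    simp
  · push Not at h
    simp [h]

theorem ev_eq_top (G : ℕ → Set ℝ) (r : ℝ) : ev G r = ⊤ ↔ ∀ k, r ∈ G k := by
  constructor
  · intro h k
    exact (le_ev G r (k + 1)).1 (by rw [h]; exact le_top) k (Nat.lt_succ_self k)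
  · intro h
    unfold ev
    rw [dif_neg]
    push Not
    exact h

/-- The data chosen at one stage: countably many points and countably many open sets. -/
abbrev Dt : Type := {x : (ℕ → ℝ) × (ℕ → Set ℝ) // (∀ n, IsOpen (x.2 n)) ∧ μ (⋂ n, x.2 n) = 0}

/-- The code of the basic set of level `m` around `r`. -/
noncomputable def code (j : Om → Om → ℕ) (δ : Om) (d : ∀ γ, γ < δ → Dt) (m : ℕ) (r : ℝ) :
    (Fin (m + 1) → ℤ) × ({γ : Om // γ < δ ∧ j δ γ < m} → ℕ∞) :=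
  (fun k => ⌊(2 : ℝ) ^ (k : ℕ) * r⌋, fun γ => ev (d γ.1 γ.2.1).1.2 r)

/-- The basic set of level `m` around `r`. -/
def fib (j : Om → Om → ℕ) (δ : Om) (d : ∀ γ, γ < δ → Dt) (m : ℕ) (r : ℝ) : Set ℝ :=
  {r' | code j δ d m r' = code j δ d m r}

/-- The requirements at stage `δ`. -/
def Req (M : Om → Set ℝ) (j : Om → Om → ℕ) (δ : Om) (d : ∀ γ, γ < δ → Dt) (x : Dt) : Prop :=
  Function.Injective x.1.1 ∧
  (∀ i, ∀ γ (h : γ < δ), ev (d γ h).1.2 (x.1.1 i) ≠ ⊤) ∧
  (∀ i m, ∀ ζ < δ, μ (fib j δ d m (x.1.1 i) \ M ζ) = 0 → x.1.1 i ∈ M ζ) ∧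
  (∀ ζ < δ, 0 < μ (M ζ) → ∃ i, x.1.1 i ∈ M ζ) ∧
  (∀ n i, x.1.1 i ∈ x.1.2 n) ∧
  (∀ n i, ∀ γ (h : γ < δ), (d γ h).1.1 i ∈ x.1.2 n)

theorem finite_idx (j : Om → Om → ℕ) (hj : ∀ δ, InjOn (j δ) (Iio δ)) (δ : Om) (m : ℕ) :
    Finite {γ : Om // γ < δ ∧ j δ γ < m} := by
  refine Finite.of_injective (β := Fin m) (fun γ => ⟨j δ γ.1, γ.2.2⟩) ?_
  intro a b hab
  exact Subtype.ext (hj δ a.2.1 b.2.1 (congrArg Fin.val hab))

theorem exists_step (M : Om → Set ℝ) (j : Om → Om → ℕ) (hj : ∀ δ, InjOn (j δ) (Iio δ))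
    (δ : Om) (d : ∀ γ, γ < δ → Dt) : ∃ x : Dt, Req M j δ d x := by
  classical
  have hcnt : Countable (Iio δ) := (countable_Iio δ).to_subtype
  -- the null set to avoid
  set N1 : Set ℝ := ⋃ γ : Iio δ, ⋂ n, (d γ.1 γ.2).1.2 n with hN1
  have hN1' : μ N1 = 0 := measure_iUnion_null fun γ => (d γ.1 γ.2).2.2
  let bad : (m : ℕ) → Iio δ → ((Fin (m + 1) → ℤ) × ({γ : Om // γ < δ ∧ j δ γ < m} → ℕ∞)) →
      Set ℝ := fun m ζ c => if μ ((code j δ d m) ⁻¹' {c} \ M ζ) = 0 then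
        (code j δ d m) ⁻¹' {c} \ M ζ else ∅
  have hbad : ∀ m ζ c, μ (bad m ζ c) = 0 := by
    intro m ζ c
    simp only [bad]
    split_ifs with h
    · exact h
    · exact measure_empty
  set N2 : Set ℝ := ⋃ m, ⋃ ζ, ⋃ c, bad m ζ c with hN2
  have hN2' : μ N2 = 0 := by
    refine measure_iUnion_null fun m => measure_iUnion_null fun ζ => ?_
    have := finite_idx j hj δ m
    exact measure_iUnion_null fun c => hbad m ζ c
  have hN : μ (N1 ∪ N2) = 0 := measure_union_null hN1' hN2'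
  -- the targets
  set TT : Set (Set ℝ) := insert Set.univ ((fun ζ : Iio δ => M ζ) '' {ζ | 0 < μ (M ζ)}) with hTT
  have hTTc : TT.Countable := ((to_countable _).image _).insert _
  obtain ⟨T, hT⟩ := hTTc.exists_eq_range ⟨Set.univ, mem_insert _ _⟩
  have hTpos : ∀ i, 0 < μ (T i) := by
    intro i
    have h1 : T i ∈ TT := by rw [hT]; exact ⟨i, rfl⟩
    rcases h1 with h1 | ⟨ζ, hζ, h1⟩
    · rw [h1]
      simp [μ]
    · rw [← h1]
      exact hζ
  have hinf : ∀ i, (T i \ (N1 ∪ N2)).Infinite := by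
    intro i hfin
    have h1 : μ (T i \ (N1 ∪ N2)) = 0 := hfin.measure_zero _
    have h2 : μ (T i) = 0 := by
      refine measure_mono_null (t := (T i \ (N1 ∪ N2)) ∪ (N1 ∪ N2)) ?_ (measure_union_null h1 hN)
      intro z hz
      by_cases h : z ∈ N1 ∪ N2
      · exact Or.inr h
      · exact Or.inl ⟨hz, h⟩
    exact absurd h2 (hTpos i).ne'
  obtain ⟨x, hxinj, hx⟩ := exists_inj _ hinf
  -- the open sets
  set Q : Set ℝ := range x ∪ ⋃ γ : Iio δ, range (d γ.1 γ.2).1.1 with hQ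
  have hQc : Q.Countable := (countable_range x).union
    (countable_iUnion fun γ => countable_range _)
  have hQ0 : μ Q = 0 := hQc.measure_zero _
  have hG : ∀ n : ℕ, ∃ U ⊇ Q, IsOpen U ∧ μ U < ((n : ENNReal) + 1)⁻¹ := by
    intro n
    refine Q.exists_isOpen_lt_of_lt _ ?_
    rw [hQ0]
    exact ENNReal.inv_pos.2 (by simp [ENNReal.add_eq_top])
  choose G hGQ hGo hGμ using hG
  have hG0 : μ (⋂ n, G n) = 0 := by
    refine le_antisymm (ENNReal.le_of_forall_pos_le_add ?_) zero_le'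
    intro ε hε _
    obtain ⟨n, hn⟩ := ENNReal.exists_inv_nat_lt (a := (ε : ENNReal)) (by simpa using hε.ne')
    calc μ (⋂ n, G n) ≤ μ (G n) := measure_mono (iInter_subset _ n)
      _ ≤ ((n : ENNReal) + 1)⁻¹ := (hGμ n).le
      _ ≤ (n : ENNReal)⁻¹ := ENNReal.inv_le_inv.2 le_self_add
      _ ≤ 0 + ε := by rw [zero_add]; exact hn.le
  refine ⟨⟨(x, G), hGo, hG0⟩, hxinj, ?_, ?_, ?_, ?_, ?_⟩
  · intro i γ h hev
    rw [ev_eq_top] at hev
    exact (hx i).2 (Or.inl (mem_iUnion.2 ⟨⟨γ, h⟩, mem_iInter.2 hev⟩))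
  · intro i m ζ hζ h0
    by_contra hcon
    refine (hx i).2 (Or.inr (mem_iUnion.2 ⟨m, mem_iUnion.2 ⟨⟨ζ, hζ⟩,
      mem_iUnion.2 ⟨code j δ d m (x i), ?_⟩⟩⟩))
    have h1 : μ ((code j δ d m) ⁻¹' {code j δ d m (x i)} \ M ζ) = 0 := h0
    simp only [bad]
    rw [if_pos h1]
    exact ⟨rfl, hcon⟩
  · intro ζ hζ h0
    have h1 : M ζ ∈ TT := Or.inr ⟨⟨ζ, hζ⟩, h0, rfl⟩
    rw [hT] at h1
    obtain ⟨i, hi⟩ := h1
    exact ⟨i, by rw [← hi]; exact (hx i).1⟩
  · intro n i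
    exact hGQ n (Or.inl ⟨i, rfl⟩)
  · intro n i γ h
    exact hGQ n (Or.inr (mem_iUnion.2 ⟨⟨γ, h⟩, ⟨i, rfl⟩⟩))

theorem exists_enum (CH : (𝔠 : Cardinal.{0}) = ℵ₁) : ∃ M : Om → Set ℝ, (∀ ζ, MeasurableSet (M ζ)) ∧
    ∀ s, MeasurableSet s → ∃ ζ, M ζ = s := by
  have h1 : #{s : Set ℝ // MeasurableSet s} ≤ #Om := by
    have h2 : #{s : Set ℝ // MeasurableSet s} ≤ 𝔠 := by
      have h3 := MeasurableSpace.cardinal_measurableSet_le_continuum
        (s := MeasurableSpace.countableGeneratingSet ℝ)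
        ((MeasurableSpace.countable_countableGeneratingSet (α := ℝ)).le_aleph0.trans
          Cardinal.aleph0_le_continuum)
      rw [MeasurableSpace.generateFrom_countableGeneratingSet] at h3
      exact h3
    rw [CH] at h2
    simpa using h2
  obtain ⟨f⟩ := Cardinal.le_def _ _ |>.1 h1
  have hne : Nonempty {s : Set ℝ // MeasurableSet s} := ⟨⟨∅, MeasurableSet.empty⟩⟩
  refine ⟨fun ζ => (Function.invFun f ζ).1, fun ζ => (Function.invFun f ζ).2, fun s hs => ?_⟩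
  refine ⟨f ⟨s, hs⟩, ?_⟩
  change (Function.invFun f (f ⟨s, hs⟩)).1 = s
  rw [Function.leftInverse_invFun f.injective]

theorem exists_j : ∃ j : Om → Om → ℕ, ∀ δ, InjOn (j δ) (Iio δ) := by
  have h : ∀ δ : Om, ∃ f : Om → ℕ, InjOn f (Iio δ) := fun δ =>
    (countable_iff_exists_injOn.1 (countable_Iio δ))
  choose j hj using h
  exact ⟨j, hj⟩

theorem exists_F (CH : (𝔠 : Cardinal.{0}) = ℵ₁) : ∃ (M : Om → Set ℝ) (j : Om → Om → ℕ) (F : Om → Dt),
    (∀ s, MeasurableSet s → ∃ ζ, M ζ = s) ∧ (∀ δ, InjOn (j δ) (Iio δ)) ∧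
    ∀ δ, Req M j δ (fun γ _ => F γ) (F δ) := by
  obtain ⟨M, -, hM⟩ := exists_enum CH
  obtain ⟨j, hj⟩ := exists_j
  obtain ⟨F, hF⟩ := exists_rec (ι := Om) (D := Dt) (Req M j) (exists_step M j hj)
  exact ⟨M, j, F, hM, hj, hF⟩

end Pool.Agent.R827.CL
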