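import Pool.Agent.R827.CL1

/-!
# The combinatorial structure extracted from CH
-/

set_option autoImplicit false

namespace Pool.Agent.R827.CL

open Set Topology Filter MeasureTheory Cardinal

/-- The basic neighbourhood of level `m` of the point `x`. -/
def V (p : Om × ℕ → ℝ) (e : Om → Om × ℕ → ℕ∞) (j : Om → Om → ℕ) (m : ℕ) (x : Om × ℕ) :
    Set (Om × ℕ) :=
  {y | (∀ k ≤ m, ⌊(2 : ℝ) ^ k * p y⌋ = ⌊(2 : ℝ) ^ k * p x⌋) ∧
    ∀ γ < x.1, j x.1 γ < m → e γ y = e γ x}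

/-- The combinatorial structure. -/
structure Good (p : Om × ℕ → ℝ) (e : Om → Om × ℕ → ℕ∞) (j : Om → Om → ℕ) : Prop where
  inj : Function.Injective p
  top : ∀ γ y, e γ y = ⊤ ↔ y.1 ≤ γ
  near : ∀ γ y, y.1 ≤ γ → ∀ n : ℕ, ∃ k, ∀ z ∈ V p e j k y, (n : ℕ∞) ≤ e γ z
  jinj : ∀ δ, InjOn (j δ) (Iio δ)
  luz : ∀ (Y : Set (Om × ℕ)) (m : Om × ℕ → ℕ), ∃ Y0 ⊆ Y, Y0.Countable ∧
    {y ∈ Y | ∀ y' ∈ Y0, y ∉ V p e j (m y') y'}.Countable
  club : ∀ (A : Set (Om × ℕ)), ¬ A.Countable → ∀ f : Om × ℕ → Set (Om × ℕ),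
    (∀ y, (f y).Countable) → ∃ x, ∀ m, ∃ y ∈ V p e j m x, y ∈ A ∧ y.1 < x.1 ∧ ∀ z ∈ f y, z.1 < x.1

theorem exists_max {I : Type} (B : I → Set ℝ) (hB : ∀ i, MeasurableSet (B i)) (Y : Set I) :
    ∃ t ⊆ Y, t.Countable ∧ ∀ i ∈ Y, μ (B i \ ⋃ k ∈ t, B k) = 0 := by
  set S : Set ENNReal := {a | ∃ t ⊆ Y, t.Countable ∧ μ (⋃ k ∈ t, B k) = a} with hS
  have hne : S.Nonempty := ⟨_, ∅, empty_subset _, countable_empty, rfl⟩
  obtain ⟨u, -, hu1, hu2⟩ := exists_seq_tendsto_sSup hne (OrderTop.bddAbove S)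
  choose t ht1 ht2 ht3 using hu2
  refine ⟨⋃ n, t n, iUnion_subset ht1, countable_iUnion ht2, fun i hi => ?_⟩
  set T := ⋃ n, t n with hT
  have hTc : T.Countable := countable_iUnion ht2
  have hTm : MeasurableSet (⋃ k ∈ T, B k) := MeasurableSet.biUnion hTc fun k _ => hB k
  have h1 : sSup S ≤ μ (⋃ k ∈ T, B k) := by
    refine le_of_tendsto' hu1 fun n => ?_
    rw [← ht3 n]
    exact measure_mono (biUnion_subset_biUnion_left (subset_iUnion t n))
  have h2 : μ (⋃ k ∈ T, B k) + μ (B i \ ⋃ k ∈ T, B k) ≤ μ (⋃ k ∈ T, B k) := by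
    rw [← measure_union disjoint_sdiff_self_right ((hB i).diff hTm), union_sdiff_self]
    refine le_trans (le_sSup ?_) h1
    refine ⟨insert i T, insert_subset hi (iUnion_subset ht1), hTc.insert i, ?_⟩
    rw [biUnion_insert, union_comm]
  have h3 : μ (⋃ k ∈ T, B k) ≠ ⊤ := measure_ne_top _ _
  have h4 : μ (⋃ k ∈ T, B k) + μ (B i \ ⋃ k ∈ T, B k) ≤ μ (⋃ k ∈ T, B k) + 0 := by
    rw [add_zero]
    exact h2
  exact le_antisymm ((ENNReal.add_le_add_iff_left h3).1 h4) bot_le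

theorem exists_close (h : Om → Om) (ζ ζ' : Om) : ∃ δ, ζ < δ ∧ ζ' < δ ∧ ∀ γ < δ, h γ < δ := by
  obtain ⟨δ0, hδ0⟩ := exists_ub {ζ, ζ'} (by simp)
  have hstep : ∀ a : Om, ∃ b : Om, a < b ∧ ∀ γ ≤ a, h γ < b := by
    intro a
    obtain ⟨b, hb⟩ := exists_ub (insert a (h '' Iic a)) (((countable_Iic a).image h).insert a)
    exact ⟨b, hb a (mem_insert _ _), fun γ hγ => hb _ (mem_insert_of_mem _ ⟨γ, hγ, rfl⟩)⟩
  choose g hg1 hg2 using hstep
  let s : ℕ → Om := fun n => g^[n] δ0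
  have hs : ∀ n, s (n + 1) = g (s n) := fun n => Function.iterate_succ_apply' g n δ0
  have hne : {b : Om | ∀ n, s n < b}.Nonempty := by
    obtain ⟨b, hb⟩ := exists_ub (range s) (countable_range s)
    exact ⟨b, fun n => hb _ ⟨n, rfl⟩⟩
  set δ := wellFounded_lt.min _ hne with hδ
  have hmem : ∀ n, s n < δ := wellFounded_lt.min_mem _ hne
  refine ⟨δ, (hδ0 ζ (by simp)).trans (hmem 0), (hδ0 ζ' (by simp)).trans (hmem 0), fun γ hγ => ?_⟩
  have h1 : ¬ ∀ n, s n < γ := fun h2 => by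
    have h3 : γ ∈ {b : Om | ∀ n, s n < b} := h2
    exact wellFounded_lt.not_lt_min _ h3 hγ
  push Not at h1
  obtain ⟨n, hn⟩ := h1
  calc h γ < g (s n) := hg2 _ _ hn
    _ = s (n + 1) := (hs n).symm
    _ < δ := hmem _

theorem floor_near (r : ℝ) (G : Set ℝ) (hG : IsOpen G) (hr : r ∈ G) :
    ∃ k : ℕ, ∀ r', ⌊(2 : ℝ) ^ k * r'⌋ = ⌊(2 : ℝ) ^ k * r⌋ → r' ∈ G := by
  obtain ⟨ε, hε, hball⟩ := Metric.isOpen_iff.1 hG r hr
  obtain ⟨k, hk⟩ := exists_pow_lt_of_lt_one hε (by norm_num : (1 / 2 : ℝ) < 1)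
  refine ⟨k, fun r' h => hball ?_⟩
  rw [Metric.mem_ball, Real.dist_eq]
  have h1 := Int.abs_sub_lt_one_of_floor_eq_floor h
  have h2 : (0 : ℝ) < 2 ^ k := by positivity
  rw [← mul_sub, abs_mul, abs_of_pos h2] at h1
  have h3 : |r' - r| < (1 / 2) ^ k := by
    rw [one_div, inv_pow, ← one_div, lt_div_iff₀ h2, mul_comm]
    exact h1
  exact h3.trans hk

theorem ev_eq_iff (G : ℕ → Set ℝ) (r r' : ℝ) :
    ev G r' = ev G r ↔ ∀ n : ℕ, ((∀ k < n, r' ∈ G k) ↔ (∀ k < n, r ∈ G k)) := by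
  constructor
  · intro h n
    rw [← le_ev, ← le_ev, h]
  · intro h
    refine ENat.eq_of_forall_natCast_le_iff fun n => ?_
    rw [le_ev, le_ev]
    exact h n

theorem measurable_ev (G : ℕ → Set ℝ) (hG : ∀ n, IsOpen (G n)) (r : ℝ) :
    MeasurableSet {r' | ev G r' = ev G r} := by
  have h1 : {r' | ev G r' = ev G r} =
      ⋂ n : ℕ, {r' | (∀ k < n, r' ∈ G k) ↔ (∀ k < n, r ∈ G k)} := by
    ext r'
    simp only [mem_ofPred_eq, mem_iInter]
    exact ev_eq_iff G r r'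
  rw [h1]
  refine MeasurableSet.iInter fun n => ?_
  have h2 : MeasurableSet {r' | ∀ k < n, r' ∈ G k} := by
    have : {r' | ∀ k < n, r' ∈ G k} = ⋂ k, ⋂ _ : k < n, G k := by
      ext r'
      simp
    rw [this]
    exact MeasurableSet.iInter fun k => MeasurableSet.iInter fun _ => (hG k).measurableSet
  by_cases h : ∀ k < n, r ∈ G k
  · have h3 : {r' | (∀ k < n, r' ∈ G k) ↔ (∀ k < n, r ∈ G k)} = {r' | ∀ k < n, r' ∈ G k} := by
      ext r'
      exact ⟨fun h' => h'.2 h, fun h' => ⟨fun _ => h, fun _ => h'⟩⟩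
    rw [h3]
    exact h2
  · have h3 : {r' | (∀ k < n, r' ∈ G k) ↔ (∀ k < n, r ∈ G k)} = {r' | ∀ k < n, r' ∈ G k}ᶜ := by
      ext r'
      simp only [mem_ofPred_eq, mem_compl_iff]
      tauto
    rw [h3]
    exact h2.compl

theorem measurable_fib (j : Om → Om → ℕ) (hj : ∀ δ, InjOn (j δ) (Iio δ)) (δ : Om)
    (d : ∀ γ, γ < δ → Dt) (m : ℕ) (r : ℝ) : MeasurableSet (fib j δ d m r) := by
  have h1 : fib j δ d m r = (⋂ k : Fin (m + 1),
      {r' : ℝ | ⌊(2 : ℝ) ^ (k : ℕ) * r'⌋ = ⌊(2 : ℝ) ^ (k : ℕ) * r⌋}) ∩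
      ⋂ γ : {γ : Om // γ < δ ∧ j δ γ < m},
        {r' | ev (d γ.1 γ.2.1).1.2 r' = ev (d γ.1 γ.2.1).1.2 r} := by
    ext r'
    simp only [fib, code, Prod.mk.injEq, mem_ofPred_eq, mem_inter_iff, mem_iInter, funext_iff]
  rw [h1]
  have := finite_idx j hj δ m
  refine MeasurableSet.inter (MeasurableSet.iInter fun k => ?_)
    (MeasurableSet.iInter fun γ => measurable_ev _ (d γ.1 γ.2.1).2.1 r)
  have h2 : Measurable fun r' : ℝ => ⌊(2 : ℝ) ^ (k : ℕ) * r'⌋ :=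
    Int.measurable_floor.comp (measurable_const.mul measurable_id)
  exact h2 (measurableSet_singleton _)

theorem exists_good (CH : (𝔠 : Cardinal.{0}) = ℵ₁) : ∃ p e j, Good p e j := by
  classical
  obtain ⟨M, j, F, hM, hj, hF⟩ := exists_F CH
  set p : Om × ℕ → ℝ := fun y => (F y.1).1.1 y.2 with hp
  set e : Om → Om × ℕ → ℕ∞ := fun γ y => ev (F γ).1.2 (p y) with he
  have hlow : ∀ γ (y : Om × ℕ), y.1 ≤ γ → ∀ n, p y ∈ (F γ).1.2 n := by
    intro γ y hy n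
    rcases hy.eq_or_lt with h | h
    · subst h
      exact (hF y.1).2.2.2.2.1 n y.2
    · exact (hF γ).2.2.2.2.2 n y.2 y.1 h
  have htop : ∀ γ (y : Om × ℕ), e γ y = ⊤ ↔ y.1 ≤ γ := by
    intro γ y
    constructor
    · intro h
      by_contra hcon
      exact (hF y.1).2.1 y.2 γ (not_le.1 hcon) h
    · intro h
      exact (ev_eq_top _ _).2 (hlow γ y h)
  have hV : ∀ m x y, y ∈ V p e j m x ↔ p y ∈ fib j x.1 (fun γ _ => F γ) m (p x) := by
    intro m x y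
    simp only [V, fib, code, Prod.mk.injEq, mem_ofPred_eq, funext_iff, Subtype.forall]
    constructor
    · rintro ⟨h1, h2⟩
      exact ⟨fun k => h1 k (Nat.lt_succ_iff.1 k.2), fun γ hγ => h2 γ hγ.1 hγ.2⟩
    · rintro ⟨h1, h2⟩
      exact ⟨fun k hk => h1 ⟨k, Nat.lt_succ_of_le hk⟩, fun γ hγ hγ2 => h2 γ ⟨hγ, hγ2⟩⟩
  have hcnt : ∀ ζ : Om, {y : Om × ℕ | y.1 ≤ ζ}.Countable := by
    intro ζ
    have : {y : Om × ℕ | y.1 ≤ ζ} = Iic ζ ×ˢ (Set.univ : Set ℕ) := by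
      ext y
      simp
    rw [this]
    exact (countable_Iic ζ).prod (to_countable _)
  have key : ∀ (Y : Set (Om × ℕ)) (m : Om × ℕ → ℕ), ∃ t ⊆ Y, t.Countable ∧ ∃ ζ,
      M ζ = ⋃ y ∈ t, fib j y.1 (fun γ _ => F γ) (m y) (p y) ∧
      ∀ y ∈ Y, ζ < y.1 → p y ∈ M ζ := by
    intro Y m
    obtain ⟨t, ht1, ht2, ht3⟩ := exists_max
      (fun y : Om × ℕ => fib j y.1 (fun γ _ => F γ) (m y) (p y))
      (fun y => measurable_fib j hj _ _ _ _) Y
    obtain ⟨ζ, hζ⟩ := hM (⋃ y ∈ t, fib j y.1 (fun γ _ => F γ) (m y) (p y))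
      (MeasurableSet.biUnion ht2 fun y _ => measurable_fib j hj _ _ _ _)
    refine ⟨t, ht1, ht2, ζ, hζ, fun y hy hζy => ?_⟩
    refine (hF y.1).2.2.1 y.2 (m y) ζ hζy ?_
    rw [hζ]
    exact ht3 y hy
  refine ⟨p, e, j, ?_, htop, ?_, hj, ?_, ?_⟩
  · -- injectivity
    have haux : ∀ x y : Om × ℕ, x.1 < y.1 → p x ≠ p y := by
      intro x y hxy h
      have h1 := (htop x.1 x).2 le_rfl
      have h2 : e x.1 y = ⊤ := by
        simp only [he] at h1 ⊢
        rw [← h]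
        exact h1
      exact absurd ((htop x.1 y).1 h2) (not_le.2 hxy)
    intro x y hxy
    rcases lt_trichotomy x.1 y.1 with h | h | h
    · exact absurd hxy (haux x y h)
    · have h1 : (F x.1).1.1 x.2 = (F x.1).1.1 y.2 := by
        have : p y = (F x.1).1.1 y.2 := by
          simp only [hp]
          rw [h]
        rw [← this]
        exact hxy
      exact Prod.ext h ((hF x.1).1 h1)
    · exact absurd hxy.symm (haux y x h)
  · -- near
    intro γ y hy n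
    have h1 : IsOpen (⋂ k ∈ Finset.range n, (F γ).1.2 k) :=
      isOpen_biInter_finset fun k _ => (F γ).2.1 k
    obtain ⟨k, hk⟩ := floor_near (p y) _ h1 (mem_iInter₂.2 fun k _ => hlow γ y hy k)
    refine ⟨k, fun z hz => ?_⟩
    have h2 := hk (p z) (hz.1 k le_rfl)
    simp only [he]
    rw [le_ev]
    intro i hi
    exact mem_iInter₂.1 h2 i (Finset.mem_range.2 hi)
  · -- luz
    intro Y m
    obtain ⟨t, ht1, ht2, ζ, hζ, h⟩ := key Y m
    refine ⟨t, ht1, ht2, (hcnt ζ).mono ?_⟩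
    rintro y ⟨hy, hy2⟩
    by_contra hcon
    have h1 := h y hy (not_le.1 hcon)
    rw [hζ] at h1
    obtain ⟨y', hy', h2⟩ := mem_iUnion₂.1 h1
    exact hy2 y' hy' ((hV _ _ _).2 h2)
  · -- club
    intro A hA f hf
    set Y : Set (Om × ℕ) := {y | ∃ m, (V p e j m y ∩ A).Countable} with hY
    let m : Om × ℕ → ℕ := fun y => if h : ∃ m, (V p e j m y ∩ A).Countable then h.choose else 0
    have hm : ∀ y ∈ Y, (V p e j (m y) y ∩ A).Countable := by
      intro y hy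
      have hy' : ∃ m, (V p e j m y ∩ A).Countable := hy
      simp only [m]
      rw [dif_pos hy']
      exact hy'.choose_spec
    obtain ⟨t, ht1, ht2, ζ, hζ, h⟩ := key Y m
    have hM2 : MeasurableSet (M ζ)ᶜ := by
      rw [hζ]
      exact (MeasurableSet.biUnion ht2 fun y _ => measurable_fib j hj _ _ _ _).compl
    obtain ⟨ζ', hζ'⟩ := hM _ hM2
    -- the set has positive measure
    have hpos : 0 < μ (M ζ') := by
      rw [pos_iff_ne_zero]
      intro h0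
      apply hA
      refine ((hcnt ζ).union (ht2.biUnion fun y hy => hm y (ht1 hy))).mono ?_
      intro y hy
      by_cases hyζ : y.1 ≤ ζ
      · exact Or.inl hyζ
      · right
        have h1 : p y ∈ M ζ := by
          refine (hF y.1).2.2.1 y.2 0 ζ (not_le.1 hyζ) ?_
          refine measure_mono_null ?_ h0
          rw [hζ']
          exact fun r hr => hr.2
        rw [hζ] at h1
        obtain ⟨y', hy', h2⟩ := mem_iUnion₂.1 h1
        exact mem_iUnion₂.2 ⟨y', hy', (hV _ _ _).2 h2, hy⟩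
    -- closing off
    let Cd : Om → Type := fun γ => (m : ℕ) × ((Fin (m + 1) → ℤ) × Finset (Iic γ × ℕ))
    have hCd : ∀ γ, Countable (Cd γ) := by
      intro γ
      have : Countable (Iic γ) := (countable_Iic γ).to_subtype
      exact inferInstanceAs (Countable ((m : ℕ) × ((Fin (m + 1) → ℤ) × Finset (Iic γ × ℕ))))
    let W : (γ : Om) → Cd γ → Set (Om × ℕ) := fun γ c =>
      {y | (∀ k : Fin (c.1 + 1), ⌊(2 : ℝ) ^ (k : ℕ) * p y⌋ = c.2.1 k) ∧
        ∀ s ∈ c.2.2, e s.1 y = (s.2 : ℕ∞)}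
    have hh : ∀ γ : Om, ∃ b : Om, ∀ c : Cd γ, (W γ c ∩ A).Nonempty →
        ∃ y ∈ W γ c ∩ A, y.1 < b ∧ ∀ z ∈ f y, z.1 < b := by
      intro γ
      have := hCd γ
      let yy : Cd γ → Om × ℕ := fun c => if h : (W γ c ∩ A).Nonempty then h.choose else (γ, 0)
      have hyy : ∀ c, (W γ c ∩ A).Nonempty → yy c ∈ W γ c ∩ A := by
        intro c hc
        simp only [yy]
        rw [dif_pos hc]
        exact hc.choose_spec
      obtain ⟨b, hb⟩ := exists_ub (⋃ c : Cd γ, insert (yy c).1 (Prod.fst '' f (yy c)))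
        (countable_iUnion fun c => ((hf _).image _).insert _)
      refine ⟨b, fun c hc => ⟨yy c, hyy c hc, hb _ (mem_iUnion.2 ⟨c, mem_insert _ _⟩),
        fun z hz => hb _ (mem_iUnion.2 ⟨c, mem_insert_of_mem _ ⟨z, hz, rfl⟩⟩)⟩⟩
    choose g hg using hh
    obtain ⟨δ, hδ1, hδ2, hδ3⟩ := exists_close g ζ ζ'
    obtain ⟨i, hi⟩ := (hF δ).2.2.2.1 ζ' hδ2 hpos
    have hpx : p (δ, i) ∈ M ζ' := hi
    refine ⟨(δ, i), fun n => ?_⟩
    have hne : (V p e j n (δ, i) ∩ A).Nonempty := by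
      by_contra hcon
      rw [not_nonempty_iff_eq_empty] at hcon
      have hxY : ((δ, i) : Om × ℕ) ∈ Y := ⟨n, by rw [hcon]; exact countable_empty⟩
      have h1 := h _ hxY hδ1
      rw [hζ'] at hpx
      exact hpx h1
    -- the parameters
    have hfin : {γ : Om | γ < δ ∧ j δ γ < n}.Finite := by
      refine Set.Finite.of_finite_image (f := j δ) ((Set.finite_Iio n).subset ?_) ?_
      · rintro _ ⟨γ, hγ, rfl⟩
        exact hγ.2
      · exact (hj δ).mono fun γ hγ => hγ.1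
    set P := hfin.toFinset with hP
    set γ0 := (insert ζ P).max' (Finset.insert_nonempty _ _) with hγ0
    have hγ0δ : γ0 < δ := by
      have h1 := (insert ζ P).max'_mem (Finset.insert_nonempty _ _)
      rw [← hγ0, Finset.mem_insert] at h1
      rcases h1 with h1 | h1
      · rw [h1]
        exact hδ1
      · rw [hP, Set.Finite.mem_toFinset] at h1
        exact h1.1
    have hle : ∀ γ ∈ P, γ ≤ γ0 := fun γ hγ => (insert ζ P).le_max' γ (Finset.mem_insert_of_mem hγ)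
    let c : Cd γ0 := ⟨n, (fun k => ⌊(2 : ℝ) ^ (k : ℕ) * p (δ, i)⌋,
      P.attach.image fun γ => ((⟨γ.1, hle γ.1 γ.2⟩ : Iic γ0), (e γ.1 (δ, i)).toNat))⟩
    have hWV : W γ0 c = V p e j n (δ, i) := by
      ext y
      constructor
      · rintro ⟨h1, h2⟩
        refine ⟨fun k hk => h1 ⟨k, Nat.lt_succ_of_le hk⟩, fun γ hγ hγ2 => ?_⟩
        have hγP : γ ∈ P := by
          rw [hP, Set.Finite.mem_toFinset]
          exact ⟨hγ, hγ2⟩
        have h3 := h2 ((⟨γ, hle γ hγP⟩ : Iic γ0), (e γ (δ, i)).toNat)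
          (Finset.mem_image.2 ⟨⟨γ, hγP⟩, Finset.mem_attach _ _, rfl⟩)
        rw [h3]
        refine ENat.natCast_toNat ?_
        intro h4
        exact absurd ((htop γ (δ, i)).1 h4) (not_le.2 hγ)
      · rintro ⟨h1, h2⟩
        refine ⟨fun k => h1 k (Nat.lt_succ_iff.1 k.2), fun s hs => ?_⟩
        obtain ⟨γ, -, rfl⟩ := Finset.mem_image.1 hs
        have h3 := hfin.mem_toFinset.1 γ.2
        refine (h2 γ.1 h3.1 h3.2).trans ?_
        refine (ENat.natCast_toNat ?_).symm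
        intro h4
        exact absurd ((htop γ.1 (δ, i)).1 h4) (not_le.2 h3.1)
    rw [← hWV] at hne
    obtain ⟨y, hy, hy1, hy2⟩ := hg γ0 c hne
    have hgδ := hδ3 γ0 hγ0δ
    rw [hWV] at hy
    exact ⟨y, hy.1, hy.2, hy1.trans hgδ, fun z hz => (hy2 z hz).trans hgδ⟩

end Pool.Agent.R827.CL
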