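import Pool.Agent.R827.CL2

/-!
# The space `Z`

The points are pairs `(x, w)` of a point of the structure and a finite sequence of natural numbers.
-/

set_option autoImplicit false

namespace Pool.Agent.R827.CL

open Set Topology Filter Cardinal

/-- The points of the structure. -/
abbrev K : Type := Om × ℕ

variable {p : K → ℝ} {e : Om → K → ℕ∞} {j : Om → Om → ℕ}

section basics

theorem mem_V_self (m : ℕ) (x : K) : x ∈ V p e j m x := ⟨fun _ _ => rfl, fun _ _ _ => rfl⟩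

theorem V_anti {m n : ℕ} (h : m ≤ n) (x : K) : V p e j n x ⊆ V p e j m x :=
  fun _ hy => ⟨fun k hk => hy.1 k (hk.trans h), fun γ hγ hγ2 => hy.2 γ hγ (hγ2.trans_le h)⟩

/-- `P` holds near `y`. -/
def Ev (p : K → ℝ) (e : Om → K → ℕ∞) (j : Om → Om → ℕ) (y : K) (P : K → Prop) : Prop :=
  ∃ k, ∀ z ∈ V p e j k y, P z

theorem Ev.and {y : K} {P Q : K → Prop} (h1 : Ev p e j y P) (h2 : Ev p e j y Q) :
    Ev p e j y (fun z => P z ∧ Q z) := by
  obtain ⟨k, hk⟩ := h1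
  obtain ⟨l, hl⟩ := h2
  exact ⟨max k l, fun z hz => ⟨hk z (V_anti (le_max_left _ _) y hz),
    hl z (V_anti (le_max_right _ _) y hz)⟩⟩

theorem Ev.mono {y : K} {P Q : K → Prop} (h1 : Ev p e j y P) (h2 : ∀ z, P z → Q z) :
    Ev p e j y Q := by
  obtain ⟨k, hk⟩ := h1
  exact ⟨k, fun z hz => h2 z (hk z hz)⟩

theorem Ev.fin {ι : Type} {y : K} {s : Set ι} (hs : s.Finite) {P : ι → K → Prop}
    (h : ∀ i ∈ s, Ev p e j y (P i)) : Ev p e j y (fun z => ∀ i ∈ s, P i z) := by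
  classical
  induction s, hs using Set.Finite.induction_on with
  | empty => exact ⟨0, fun z _ i hi => absurd hi (notMem_empty i)⟩
  | insert _ _ ih =>
    rename_i a s _ _
    have h1 := ih fun i hi => h i (mem_insert_of_mem _ hi)
    have h2 := h a (mem_insert _ _)
    refine (h2.and h1).mono ?_
    rintro z ⟨hz1, hz2⟩ i (rfl | hi)
    · exact hz1
    · exact hz2 i hi

variable (hG : Good p e j)
include hG

theorem ev_e_eq (γ : Om) (y : K) (h : γ < y.1) : Ev p e j y (fun z => e γ z = e γ y) :=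
  ⟨j y.1 γ + 1, fun _ hz => hz.2 γ h (Nat.lt_succ_self _)⟩

theorem ev_e_ge (γ : Om) (y : K) (n : ℕ) (h : (n : ℕ∞) ≤ e γ y) :
    Ev p e j y (fun z => (n : ℕ∞) ≤ e γ z) := by
  by_cases h1 : y.1 ≤ γ
  · exact hG.near γ y h1 n
  · refine (ev_e_eq hG γ y (not_le.1 h1)).mono fun z hz => ?_
    rw [hz]
    exact h

theorem e_ne_top (γ : Om) (y : K) (h : γ < y.1) : e γ y ≠ ⊤ := fun h1 =>
  absurd ((hG.top γ y).1 h1) (not_le.2 h)

/-- The basic sets are open. -/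
theorem V_open (m : ℕ) (x y : K) (hy : y ∈ V p e j m x) : Ev p e j y (fun z => z ∈ V p e j m x) := by
  have hfin : {γ : Om | γ < x.1 ∧ j x.1 γ < m}.Finite := by
    refine Set.Finite.of_finite_image (f := j x.1) ((Set.finite_Iio m).subset ?_) ?_
    · rintro _ ⟨γ, hγ, rfl⟩
      exact hγ.2
    · exact (hG.jinj x.1).mono fun γ hγ => hγ.1
  have h1 : Ev p e j y (fun z => ∀ γ ∈ {γ : Om | γ < x.1 ∧ j x.1 γ < m}, e γ z = e γ y) := by
    refine Ev.fin hfin fun γ hγ => ev_e_eq hG γ y ?_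
    by_contra hcon
    have h2 := (hG.top γ y).2 (not_lt.1 hcon)
    rw [hy.2 γ hγ.1 hγ.2] at h2
    exact e_ne_top hG γ x hγ.1 h2
  have h2 : Ev p e j y (fun z => z ∈ V p e j m y) := ⟨m, fun z hz => hz⟩
  refine (h1.and h2).mono ?_
  rintro z ⟨hz1, hz2⟩
  refine ⟨fun k hk => (hz2.1 k hk).trans (hy.1 k hk), fun γ hγ hγ2 => ?_⟩
  rw [hz1 γ ⟨hγ, hγ2⟩, hy.2 γ hγ hγ2]

/-- The basic sets are closed. -/
theorem V_closed (m : ℕ) (x y : K) (hy : y ∉ V p e j m x) :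
    Ev p e j y (fun z => z ∉ V p e j m x) := by
  by_cases h1 : ∀ k ≤ m, ⌊(2 : ℝ) ^ k * p y⌋ = ⌊(2 : ℝ) ^ k * p x⌋
  · have h2 : ¬ ∀ γ < x.1, j x.1 γ < m → e γ y = e γ x := fun h => hy ⟨h1, h⟩
    push Not at h2
    obtain ⟨γ, hγ, hγ2, h3⟩ := h2
    have h4 : Ev p e j y (fun z => e γ z ≠ e γ x) := by
      by_cases h5 : γ < y.1
      · refine (ev_e_eq hG γ y h5).mono fun z hz => ?_
        rw [hz]
        exact h3
      · obtain ⟨n, hn⟩ := ENat.ne_top_iff_exists.1 (e_ne_top hG γ x hγ)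
        refine (ev_e_ge hG γ y (n + 1) ?_).mono fun z hz => ?_
        · rw [(hG.top γ y).2 (not_lt.1 h5)]
          exact le_top
        · rw [← hn]
          intro h6
          rw [h6] at hz
          exact absurd (Nat.cast_le.1 hz) (Nat.not_succ_le_self n)
    exact h4.mono fun z hz h => hz (h.2 γ hγ hγ2)
  · push Not at h1
    obtain ⟨k, hk, h2⟩ := h1
    refine ⟨m, fun z hz h3 => h2 ?_⟩
    rw [← hz.1 k hk, h3.1 k hk]

theorem exists_not_mem_V (x y : K) (h : x ≠ y) : ∃ m, y ∉ V p e j m x := by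
  have h1 : p x ≠ p y := fun h2 => h (hG.inj h2)
  obtain ⟨k, hk⟩ := floor_near (p x) {p y}ᶜ isOpen_compl_singleton h1
  exact ⟨k, fun hy => hk (p y) (hy.1 k le_rfl) rfl⟩

end basics

section tower

/-- The recursive definition of the coherent tower. -/
noncomputable def uF (ev : Om → ℕ∞) (j : Om → Om → ℕ) (δ : Om) (r : (γ : Om) → γ < δ → ℕ∞) :
    ℕ∞ := ev δ ⊔ ⨆ γ : {γ : Om // γ < δ ∧ (j δ γ : ℕ∞) ≤ ev δ}, r γ.1 γ.2.1

/-- The coherent tower. -/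
noncomputable def u (ev : Om → ℕ∞) (j : Om → Om → ℕ) : Om → ℕ∞ :=
  (wellFounded_lt (α := Om)).fix (uF ev j)

theorem u_eq (ev : Om → ℕ∞) (j : Om → Om → ℕ) (δ : Om) :
    u ev j δ = ev δ ⊔ ⨆ γ : {γ : Om // γ < δ ∧ (j δ γ : ℕ∞) ≤ ev δ}, u ev j γ.1 :=
  (wellFounded_lt (α := Om)).fix_eq (uF ev j) δ

theorem le_u (ev : Om → ℕ∞) (j : Om → Om → ℕ) (δ : Om) : ev δ ≤ u ev j δ := by
  rw [u_eq]
  exact le_sup_left

theorem u_coh (ev : Om → ℕ∞) (j : Om → Om → ℕ) (γ δ : Om) (h : γ < δ)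
    (h2 : (j δ γ : ℕ∞) ≤ ev δ) : u ev j γ ≤ u ev j δ := by
  rw [u_eq ev j δ]
  exact le_sup_of_le_right (le_iSup (fun γ : {γ : Om // γ < δ ∧ (j δ γ : ℕ∞) ≤ ev δ} =>
    u ev j γ.1) ⟨γ, h, h2⟩)

theorem finite_pred {j : Om → Om → ℕ} (hj : ∀ δ, InjOn (j δ) (Iio δ)) (δ : Om) (c : ℕ∞)
    (hc : c ≠ ⊤) : {γ : Om | γ < δ ∧ (j δ γ : ℕ∞) ≤ c}.Finite := by
  obtain ⟨n, rfl⟩ := ENat.ne_top_iff_exists.1 hc
  refine Set.Finite.of_finite_image (f := j δ) ((Set.finite_Iic n).subset ?_) ?_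
  · rintro _ ⟨γ, hγ, rfl⟩
    exact Nat.cast_le.1 hγ.2
  · exact (hj δ).mono fun γ hγ => hγ.1

theorem u_ne_top {j : Om → Om → ℕ} (hj : ∀ δ, InjOn (j δ) (Iio δ)) (ev : Om → ℕ∞) (κ : Om)
    (h : ∀ γ < κ, ev γ ≠ ⊤) : ∀ δ < κ, u ev j δ ≠ ⊤ := by
  intro δ
  induction δ using WellFoundedLT.induction with
  | ind δ ih =>
    intro hδ
    rw [u_eq]
    have hf := finite_pred hj δ (ev δ) (h δ hδ)
    have : Finite {γ : Om // γ < δ ∧ (j δ γ : ℕ∞) ≤ ev δ} := hf.to_subtype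
    rw [← lt_top_iff_ne_top, sup_lt_iff]
    refine ⟨lt_top_iff_ne_top.2 (h δ hδ), ?_⟩
    have h1 : ∀ s : Finset {γ : Om // γ < δ ∧ (j δ γ : ℕ∞) ≤ ev δ},
        (s.sup fun γ => u ev j γ.1) < ⊤ := by
      intro s
      rw [Finset.sup_lt_iff (by simp)]
      intro γ _
      exact lt_top_iff_ne_top.2 (ih γ.1 γ.2.1 (γ.2.1.trans hδ))
    cases nonempty_fintype {γ : Om // γ < δ ∧ (j δ γ : ℕ∞) ≤ ev δ}
    have h2 := h1 Finset.univ
    rwa [Finset.sup_univ_eq_iSup] at h2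

variable (hG : Good p e j)

/-- The tower at the point `y`. -/
noncomputable abbrev uu (e : Om → K → ℕ∞) (j : Om → Om → ℕ) (δ : Om) (y : K) : ℕ∞ :=
  u (fun γ => e γ y) j δ

include hG

theorem uu_top (δ : Om) (y : K) : uu e j δ y = ⊤ ↔ y.1 ≤ δ := by
  constructor
  · intro h
    by_contra hcon
    exact u_ne_top hG.jinj (fun γ => e γ y) y.1 (fun γ hγ => e_ne_top hG γ y hγ) δ
      (not_le.1 hcon) h
  · intro h
    have h1 : e δ y ≤ uu e j δ y := le_u (fun γ => e γ y) j δ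
    rw [(hG.top δ y).2 h] at h1
    exact top_le_iff.1 h1

theorem uu_const (y : K) : ∀ δ < y.1, Ev p e j y (fun z => uu e j δ z = uu e j δ y) := by
  intro δ
  induction δ using WellFoundedLT.induction with
  | ind δ ih =>
    intro hδ
    have hf := finite_pred hG.jinj δ (e δ y) (e_ne_top hG δ y hδ)
    have h1 : Ev p e j y (fun z => ∀ γ ∈ {γ : Om | γ < δ ∧ (j δ γ : ℕ∞) ≤ e δ y},
        uu e j γ z = uu e j γ y) := Ev.fin hf fun γ hγ => ih γ hγ.1 (hγ.1.trans hδ)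
    refine (h1.and (ev_e_eq hG δ y hδ)).mono ?_
    rintro z ⟨hz1, hz2⟩
    have key : ∀ c : ℕ∞, c = e δ y → (⨆ γ : {γ : Om // γ < δ ∧ (j δ γ : ℕ∞) ≤ c},
        uu e j γ.1 z) = ⨆ γ : {γ : Om // γ < δ ∧ (j δ γ : ℕ∞) ≤ e δ y}, uu e j γ.1 y := by
      rintro c rfl
      exact iSup_congr fun γ => hz1 γ.1 γ.2
    simp only [uu]
    rw [u_eq (fun γ => e γ z), u_eq (fun γ => e γ y)]
    exact congrArg₂ (· ⊔ ·) hz2 (key _ hz2)

theorem uu_ge (δ : Om) (y : K) (n : ℕ) (h : (n : ℕ∞) ≤ uu e j δ y) :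
    Ev p e j y (fun z => (n : ℕ∞) ≤ uu e j δ z) := by
  by_cases h1 : y.1 ≤ δ
  · obtain ⟨k, hk⟩ := hG.near δ y h1 n
    exact ⟨k, fun z hz => (hk z hz).trans (le_u (fun γ => e γ z) j δ)⟩
  · refine (uu_const hG y δ (not_le.1 h1)).mono fun z hz => ?_
    rw [hz]
    exact h

theorem uu_coh (γ δ : Om) (h : γ ≤ δ) (y : K) (hy : y.1 ≤ δ) :
    Ev p e j y (fun z => uu e j γ z ≤ uu e j δ z) := by
  rcases h.eq_or_lt with rfl | h
  · exact ⟨0, fun z _ => le_rfl⟩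
  · obtain ⟨k, hk⟩ := hG.near δ y hy (j δ γ)
    exact ⟨k, fun z hz => u_coh (fun γ => e γ z) j γ δ h (hk z hz)⟩

end tower

end Pool.Agent.R827.CL
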