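import Pool.Agent.R827.CL3

/-!
# The topology of `Z` and its properties
-/

set_option autoImplicit false

namespace Pool.Agent.R827.CL

open Set Topology Filter Cardinal

/-- The first term of a finite sequence (`⊤` for the empty sequence). -/
def hd : List ℕ → ℕ∞
  | [] => ⊤
  | (n :: _) => n

/-- The general form of the basic sets. -/
def OO (p : K → ℝ) (e : Om → K → ℕ∞) (j : Om → Om → ℕ) (a : K → ℕ∞) (m : ℕ) (z : K × List ℕ) :
    Set (K × List ℕ) :=
  {q | q.1 ∈ V p e j m z.1 ∧ ∃ t, q.2 = z.2 ++ t ∧ (m : ℕ∞) ≤ hd t ∧ hd t ≤ a q.1}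

/-- The points of `Z`. -/
def Z {p : K → ℝ} {e : Om → K → ℕ∞} {j : Om → Om → ℕ} (_ : Good p e j) : Type := K × List ℕ

variable {p : K → ℝ} {e : Om → K → ℕ∞} {j : Om → Om → ℕ} (hG : Good p e j)

theorem OO_anti (a : K → ℕ∞) {m n : ℕ} (h : m ≤ n) (z : K × List ℕ) :
    OO p e j a n z ⊆ OO p e j a m z := by
  rintro q ⟨h1, t, h2, h3, h4⟩
  exact ⟨V_anti h _ h1, t, h2, le_trans (Nat.cast_le.2 h) h3, h4⟩

/-- The basic neighbourhoods. -/
def nb (p : K → ℝ) (e : Om → K → ℕ∞) (j : Om → Om → ℕ) (m : ℕ) (z : K × List ℕ) :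
    Set (K × List ℕ) := OO p e j (uu e j z.1.1) m z

/-- The larger product sets. -/
def box (p : K → ℝ) (e : Om → K → ℕ∞) (j : Om → Om → ℕ) (m : ℕ) (z : K × List ℕ) :
    Set (K × List ℕ) := OO p e j (fun _ => ⊤) m z

theorem nb_anti {m n : ℕ} (h : m ≤ n) (z : K × List ℕ) : nb p e j n z ⊆ nb p e j m z :=
  OO_anti _ h z

theorem box_anti {m n : ℕ} (h : m ≤ n) (z : K × List ℕ) : box p e j n z ⊆ box p e j m z :=
  OO_anti _ h z

instance : TopologicalSpace (Z hG) where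
  IsOpen U := ∀ z ∈ U, ∃ m, nb p e j m z ⊆ U
  isOpen_univ := fun _ _ => ⟨0, subset_univ _⟩
  isOpen_inter := by
    intro s t hs ht z hz
    obtain ⟨m, hm⟩ := hs z hz.1
    obtain ⟨n, hn⟩ := ht z hz.2
    exact ⟨max m n, subset_inter ((nb_anti (le_max_left _ _) z).trans hm)
      ((nb_anti (le_max_right _ _) z).trans hn)⟩
  isOpen_sUnion := by
    intro s hs z hz
    obtain ⟨t, ht, hzt⟩ := hz
    obtain ⟨m, hm⟩ := hs t ht z hzt
    exact ⟨m, hm.trans (subset_sUnion_of_mem ht)⟩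

theorem isOpen_iff' (U : Set (Z hG)) : IsOpen U ↔ ∀ z ∈ U, ∃ m, nb p e j m z ⊆ U := Iff.rfl

include hG in
theorem mem_nb_self (m : ℕ) (z : K × List ℕ) : z ∈ nb p e j m z :=
  ⟨mem_V_self m _, [], by simp, le_top, le_of_eq ((uu_top hG z.1.1 z.1).2 le_rfl).symm⟩

/-- The general basic sets, as subsets of `Z`. -/
def OZ (a : K → ℕ∞) (m : ℕ) (z : Z hG) : Set (Z hG) := OO p e j a m z

/-- The basic neighbourhoods, as subsets of `Z`. -/
def nbZ (m : ℕ) (z : Z hG) : Set (Z hG) := nb p e j m z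

/-- The boxes, as subsets of `Z`. -/
def boxZ (m : ℕ) (z : Z hG) : Set (Z hG) := box p e j m z

/-- The conditions on `a` under which the basic sets are clopen. -/
structure Adm (p : K → ℝ) (e : Om → K → ℕ∞) (j : Om → Om → ℕ) (a : K → ℕ∞) : Prop where
  a1 : ∀ y, a y ≠ ⊤ → Ev p e j y (fun z => a z = a y)
  a2 : ∀ y (n : ℕ), (n : ℕ∞) ≤ a y → Ev p e j y (fun z => (n : ℕ∞) ≤ a z)
  a3 : ∀ y, a y = ⊤ → Ev p e j y (fun z => uu e j y.1 z ≤ a z)

include hG in
theorem adm_uu (δ : Om) : Adm p e j (uu e j δ) where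
  a1 y hy := uu_const hG y δ (by
    by_contra hcon
    exact hy ((uu_top hG δ y).2 (not_lt.1 hcon)))
  a2 y n hn := uu_ge hG δ y n hn
  a3 y hy := uu_coh hG y.1 δ ((uu_top hG δ y).1 hy) y ((uu_top hG δ y).1 hy)

theorem adm_top : Adm p e j (fun _ => ⊤) where
  a1 _ h := absurd rfl h
  a2 _ _ _ := ⟨0, fun _ _ => le_top⟩
  a3 _ _ := ⟨0, fun _ _ => le_top⟩

theorem isOpen_OO {a : K → ℕ∞} (ha : Adm p e j a) (m : ℕ) (z : Z hG) :
    IsOpen (OZ hG a m z) := by
  refine (isOpen_iff' hG _).2 ?_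
  rintro ⟨y, w'⟩ ⟨hy, t, hw', hm, hta⟩
  have h1 := V_open hG m z.1 y hy
  simp only at hw' hta
  cases t with
  | nil =>
    have h2 := ha.a3 y (top_le_iff.1 hta)
    obtain ⟨k, hk⟩ := h1.and h2
    refine ⟨max k m, ?_⟩
    rintro ⟨y', w''⟩ ⟨hy', t', ht', hm', hu'⟩
    simp only at ht' hu'
    have h3 := hk y' (V_anti (le_max_left _ _) y hy')
    refine ⟨h3.1, t', ?_, le_trans (Nat.cast_le.2 (le_max_right k m)) hm', hu'.trans h3.2⟩
    rw [ht', hw', List.append_nil]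
  | cons n t0 =>
    have h2 := ha.a2 y n hta
    obtain ⟨k, hk⟩ := h1.and h2
    refine ⟨k, ?_⟩
    rintro ⟨y', w''⟩ ⟨hy', t', ht', hm', hu'⟩
    simp only at ht' hu'
    have h3 := hk y' hy'
    refine ⟨h3.1, (n :: t0) ++ t', ?_, ?_, ?_⟩
    · rw [ht', hw', List.append_assoc]
    · simpa [hd] using hm
    · simpa [hd] using h3.2

theorem isClosed_OO {a : K → ℕ∞} (ha : Adm p e j a) (m : ℕ) (z : Z hG) :
    IsClosed (OZ hG a m z) := by
  refine isOpen_compl_iff.1 ((isOpen_iff' hG _).2 ?_)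
  rintro ⟨y, w'⟩ hq
  obtain ⟨x, w⟩ := z
  by_cases hV : y ∈ V p e j m x
  swap
  · obtain ⟨k, hk⟩ := V_closed hG m x y hV
    exact ⟨k, fun q hq' hq2 => hk q.1 hq'.1 hq2.1⟩
  by_cases hpre : ∃ t, w' = w ++ t
  · obtain ⟨t, rfl⟩ := hpre
    cases t with
    | nil =>
      have h1 : a y ≠ ⊤ := by
        intro h1
        exact hq ⟨hV, [], by simp, le_top, by rw [h1]; exact le_top⟩
      obtain ⟨n, hn⟩ := ENat.ne_top_iff_exists.1 h1
      obtain ⟨k, hk⟩ := ha.a1 y h1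
      refine ⟨max k (n + 1), ?_⟩
      rintro ⟨y', w''⟩ ⟨hy', t', ht', hm', -⟩ ⟨-, t'', ht'', -, hu''⟩
      simp only at ht' ht'' hu''
      rw [List.append_nil] at ht'
      have h2 : t' = t'' := List.append_cancel_left (ht'.symm.trans ht'')
      subst h2
      have h3 := hk y' (V_anti (le_max_left _ _) y hy')
      rw [h3, ← hn] at hu''
      have h4 : ((max k (n + 1) : ℕ) : ℕ∞) ≤ (n : ℕ∞) := hm'.trans hu''
      have h5 := Nat.cast_le.1 h4
      omega
    | cons n t0 =>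
      by_cases hmn : (m : ℕ∞) ≤ n
      · have h0 : ¬ ((n : ℕ∞) ≤ a y) := by
          intro h0
          exact hq ⟨hV, n :: t0, rfl, hmn, h0⟩
        have h1 : a y ≠ ⊤ := by
          intro h1
          rw [h1] at h0
          exact h0 le_top
        obtain ⟨k, hk⟩ := ha.a1 y h1
        refine ⟨k, ?_⟩
        rintro ⟨y', w''⟩ ⟨hy', t', ht', -, -⟩ ⟨-, t'', ht'', -, hu''⟩
        simp only at ht' ht'' hu''
        rw [List.append_assoc] at ht'
        have h2 : (n :: t0) ++ t' = t'' := List.append_cancel_left (ht'.symm.trans ht'')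
        rw [← h2, hk y' hy'] at hu''
        exact h0 hu''
      · refine ⟨0, ?_⟩
        rintro ⟨y', w''⟩ ⟨-, t', ht', -, -⟩ ⟨-, t'', ht'', hm'', -⟩
        simp only at ht' ht''
        rw [List.append_assoc] at ht'
        have h2 : (n :: t0) ++ t' = t'' := List.append_cancel_left (ht'.symm.trans ht'')
        rw [← h2] at hm''
        exact hmn hm''
  · by_cases hpre2 : ∃ s, w = w' ++ s
    · obtain ⟨s, rfl⟩ := hpre2
      cases s with
      | nil => exact absurd ⟨[], by simp⟩ hpre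
      | cons n s0 =>
        refine ⟨n + 1, ?_⟩
        rintro ⟨y', w''⟩ ⟨-, t', ht', hm', -⟩ ⟨-, t'', ht'', -, -⟩
        simp only at ht' ht''
        rw [List.append_assoc] at ht''
        have h2 : t' = (n :: s0) ++ t'' := List.append_cancel_left (ht'.symm.trans ht'')
        rw [h2] at hm'
        have h3 : ((n + 1 : ℕ) : ℕ∞) ≤ (n : ℕ∞) := hm'
        have h4 := Nat.cast_le.1 h3
        omega
    · refine ⟨0, ?_⟩
      rintro ⟨y', w''⟩ ⟨-, t', ht', -, -⟩ ⟨-, t'', ht'', -, -⟩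
      simp only at ht' ht''
      have h1 : w' <+: w'' := ⟨t', ht'.symm⟩
      have h2 : w <+: w'' := ⟨t'', ht''.symm⟩
      rcases List.prefix_or_prefix_of_prefix h1 h2 with ⟨s, hs⟩ | ⟨s, hs⟩
      · exact hpre2 ⟨s, hs.symm⟩
      · exact hpre ⟨s, hs.symm⟩

theorem isClopen_nb (m : ℕ) (z : Z hG) : IsClopen (nbZ hG m z) :=
  ⟨isClosed_OO hG (adm_uu hG _) m z, isOpen_OO hG (adm_uu hG _) m z⟩

theorem isClopen_box (m : ℕ) (z : Z hG) : IsClopen (boxZ hG m z) :=
  ⟨isClosed_OO hG adm_top m z, isOpen_OO hG adm_top m z⟩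

theorem nhds_basis' (z : Z hG) : (𝓝 z).HasBasis (fun _ : ℕ => True)
    (fun m => nbZ hG m z) := by
  refine ⟨fun s => ?_⟩
  rw [mem_nhds_iff]
  constructor
  · rintro ⟨t, hts, ht, hzt⟩
    obtain ⟨m, hm⟩ := (isOpen_iff' hG t).1 ht z hzt
    exact ⟨m, trivial, hm.trans hts⟩
  · rintro ⟨m, -, hm⟩
    exact ⟨_, hm, (isClopen_nb hG m z).isOpen, mem_nb_self hG m z⟩

instance : FirstCountableTopology (Z hG) where
  nhds_generated_countable z := (nhds_basis' hG z).isCountablyGenerated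

instance : T1Space (Z hG) := by
  rw [t1Space_iff_exists_open]
  rintro ⟨x, w⟩ ⟨y, w'⟩ hne
  by_cases hxy : x = y
  · subst hxy
    by_cases hpre : ∃ t, w' = w ++ t
    · obtain ⟨t, rfl⟩ := hpre
      cases t with
      | nil =>
        rw [List.append_nil] at hne
        exact absurd rfl hne
      | cons n t0 =>
        refine ⟨_, (isClopen_nb hG (n + 1) (x, w)).isOpen, mem_nb_self hG _ _, ?_⟩
        rintro ⟨-, t'', ht'', hm'', -⟩
        simp only at ht''
        have h2 : (n :: t0) = t'' := List.append_cancel_left ht''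
        rw [← h2] at hm''
        have h4 := Nat.cast_le.1 hm''
        omega
    · exact ⟨_, (isClopen_nb hG 0 (x, w)).isOpen, mem_nb_self hG _ _,
        fun h => hpre ⟨h.2.choose, h.2.choose_spec.1⟩⟩
  · obtain ⟨m, hm⟩ := exists_not_mem_V hG x y hxy
    exact ⟨_, (isClopen_nb hG m (x, w)).isOpen, mem_nb_self hG _ _, fun h => hm h.1⟩

end Pool.Agent.R827.CL
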