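import Pool.Agent.R827.CL4

/-!
# Covering properties of `Z`
-/

set_option autoImplicit false

namespace Pool.Agent.R827.CL

open Set Topology Filter Cardinal

variable {p : K → ℝ} {e : Om → K → ℕ∞} {j : Om → Om → ℕ} (hG : Good p e j)

include hG in
theorem lindelof_K (Y : Set K) (m : K → ℕ) : ∃ Y1 ⊆ Y, Y1.Countable ∧
    ∀ y ∈ Y, ∃ y' ∈ Y1, y ∈ V p e j (m y') y' := by
  obtain ⟨Y0, h1, h2, h3⟩ := hG.luz Y m
  refine ⟨Y0 ∪ {y ∈ Y | ∀ y' ∈ Y0, y ∉ V p e j (m y') y'}, union_subset h1 fun y hy => hy.1,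
    h2.union h3, fun y hy => ?_⟩
  by_cases h : ∃ y' ∈ Y0, y ∈ V p e j (m y') y'
  · obtain ⟨y', hy', h4⟩ := h
    exact ⟨y', Or.inl hy', h4⟩
  · push Not at h
    exact ⟨y, Or.inr ⟨hy, h⟩, mem_V_self _ _⟩

theorem countable_stage (ζ : Om) : {y : K | y.1 ≤ ζ}.Countable := by
  have : {y : K | y.1 ≤ ζ} = Iic ζ ×ˢ (Set.univ : Set ℕ) := by
    ext y
    simp
  rw [this]
  exact (countable_Iic ζ).prod (to_countable _)

/-- Every uncountable subset of `Z` has an accumulation point. -/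
theorem exists_acc (D : Set (Z hG)) (hD : ¬ D.Countable) :
    ∃ z : Z hG, ∀ U : Set (Z hG), IsOpen U → z ∈ U → ∃ q ∈ U, q ∈ D ∧ q ≠ z := by
  have h1 : ∃ w : List ℕ, ¬ {x : K | ((x, w) : Z hG) ∈ D}.Countable := by
    by_contra hcon
    push Not at hcon
    apply hD
    have h2 : D ⊆ ⋃ w : List ℕ, (fun x : K => ((x, w) : Z hG)) '' {x : K | ((x, w) : Z hG) ∈ D} := by
      rintro ⟨x, w⟩ hx
      exact mem_iUnion.2 ⟨w, x, hx, rfl⟩
    exact (countable_iUnion fun w => (hcon w).image _).mono h2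
  obtain ⟨w, hw⟩ := h1
  obtain ⟨x, hx⟩ := hG.club _ hw (fun _ => ∅) (fun _ => countable_empty)
  refine ⟨(x, w), fun U hU hzU => ?_⟩
  obtain ⟨m, hm⟩ := (isOpen_iff' hG U).1 hU _ hzU
  obtain ⟨y, hy, hyD, hyx, -⟩ := hx m
  refine ⟨(y, w), hm ⟨hy, [], by simp, le_top, le_of_eq ?_⟩, hyD, fun h => ?_⟩
  · exact ((uu_top hG x.1 y).2 hyx.le).symm
  · have h3 : y = x := congrArg Prod.fst h
    rw [h3] at hyx
    exact lt_irrefl _ hyx

/-- The key covering lemma: the points at level `w` with no good product neighbourhood. -/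
theorem countable_bad {ι : Type} [Countable ι] (W : ι → Set (Z hG)) (hW : ∀ i, IsOpen (W i))
    (hcov : ∀ z, ∃ i, z ∈ W i) (w : List ℕ) :
    {x : K | ∀ k i, ¬ boxZ hG k (x, w) ⊆ W i}.Countable := by
  classical
  by_contra hcon
  set A : Set K := {x : K | ∀ k i, ¬ boxZ hG k (x, w) ⊆ W i} with hA
  have h1 : ∀ x : K, ∀ k i, ∃ q : Z hG, x ∈ A → q ∈ boxZ hG k (x, w) ∧ q ∉ W i := by
    intro x k i
    by_cases hx : x ∈ A
    · obtain ⟨q, hq, hq2⟩ := not_subset.1 (hx k i)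
      exact ⟨q, fun _ => ⟨hq, hq2⟩⟩
    · exact ⟨(x, w), fun h => absurd h hx⟩
  choose s hs using h1
  obtain ⟨x, hx⟩ := hG.club A hcon
    (fun y => range fun ki : ℕ × ι => (s y ki.1 ki.2 : K × List ℕ).1)
    (fun y => countable_range _)
  obtain ⟨i, hi⟩ := hcov (x, w)
  obtain ⟨m, hm⟩ := (isOpen_iff' hG _).1 (hW i) _ hi
  obtain ⟨y, hy, hyA, hyx, hyf⟩ := hx m
  obtain ⟨k, hk⟩ := V_open hG m x y hy
  obtain ⟨hq1, hq2⟩ := hs y (max k m) i hyA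
  apply hq2
  apply hm
  obtain ⟨h3, t, ht, hmt, -⟩ := hq1
  refine ⟨hk _ (V_anti (le_max_left _ _) y h3), t, ht, le_trans (Nat.cast_le.2 (le_max_right k m)) hmt,
    ?_⟩
  have h4 : ((s y (max k m) i : K × List ℕ).1).1 < x.1 := hyf _ ⟨(max k m, i), rfl⟩
  have h5 : uu e j x.1 (s y (max k m) i : K × List ℕ).1 = ⊤ := (uu_top hG x.1 _).2 h4.le
  change hd t ≤ uu e j x.1 (s y (max k m) i : K × List ℕ).1
  rw [h5]
  exact le_top

/-- Every countable open cover has a countable clopen refinement. -/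
theorem exists_clopen {ι : Type} [Countable ι] (W : ι → Set (Z hG)) (hW : ∀ i, IsOpen (W i))
    (hcov : ∀ z, ∃ i, z ∈ W i) :
    ∃ 𝒬 : Set (Set (Z hG)), 𝒬.Countable ∧ (∀ Q ∈ 𝒬, IsClopen Q ∧ ∃ i, Q ⊆ W i) ∧
      ∀ z, ∃ Q ∈ 𝒬, z ∈ Q := by
  classical
  have h1 : ∀ w : List ℕ, ∃ 𝒬 : Set (Set (Z hG)), 𝒬.Countable ∧
      (∀ Q ∈ 𝒬, IsClopen Q ∧ ∃ i, Q ⊆ W i) ∧ ∀ x : K, ∃ Q ∈ 𝒬, ((x, w) : Z hG) ∈ Q := by
    intro w
    set Y : Set K := {x : K | ∃ k i, boxZ hG k (x, w) ⊆ W i} with hY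
    let m : K → ℕ := fun x => if h : ∃ k i, boxZ hG k (x, w) ⊆ W i then h.choose else 0
    have hm : ∀ x ∈ Y, ∃ i, boxZ hG (m x) (x, w) ⊆ W i := by
      intro x hx
      have hx' : ∃ k i, boxZ hG k (x, w) ⊆ W i := hx
      simp only [m]
      rw [dif_pos hx']
      exact hx'.choose_spec
    obtain ⟨Y1, hY1, hY1c, hY1V⟩ := lindelof_K hG Y m
    have hbad := countable_bad hG W hW hcov w
    have h2 : ∀ x : K, ∃ n, ∃ i, nbZ hG n (x, w) ⊆ W i := by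
      intro x
      obtain ⟨i, hi⟩ := hcov (x, w)
      obtain ⟨n, hn⟩ := (isOpen_iff' hG _).1 (hW i) _ hi
      exact ⟨n, i, hn⟩
    choose n hn using h2
    refine ⟨((fun x : K => boxZ hG (m x) (x, w)) '' Y1) ∪
      ((fun x : K => nbZ hG (n x) (x, w)) '' {x : K | ∀ k i, ¬ boxZ hG k (x, w) ⊆ W i}),
      (hY1c.image _).union (hbad.image _), ?_, ?_⟩
    · rintro Q (⟨x, hx, rfl⟩ | ⟨x, hx, rfl⟩)
      · exact ⟨isClopen_box hG _ _, hm x (hY1 hx)⟩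
      · exact ⟨isClopen_nb hG _ _, hn x⟩
    · intro x
      by_cases hx : x ∈ Y
      · obtain ⟨y', hy', h3⟩ := hY1V x hx
        exact ⟨_, Or.inl ⟨y', hy', rfl⟩, h3, [], by simp, le_top, le_top⟩
      · have hx' : ∀ k i, ¬ boxZ hG k (x, w) ⊆ W i := by
          intro k i h
          exact hx ⟨k, i, h⟩
        exact ⟨_, Or.inr ⟨x, hx', rfl⟩, mem_nb_self hG _ _⟩
  choose 𝒬 h2 h3 h4 using h1
  refine ⟨⋃ w, 𝒬 w, countable_iUnion h2, ?_, ?_⟩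
  · intro Q hQ
    obtain ⟨w, hw⟩ := mem_iUnion.1 hQ
    exact h3 w Q hw
  · rintro ⟨x, w⟩
    obtain ⟨Q, hQ, hxQ⟩ := h4 w x
    exact ⟨Q, mem_iUnion.2 ⟨w, hQ⟩, hxQ⟩

/-- Every countable open cover has a locally constant choice function. -/
theorem exists_locConst {ι : Type} [Countable ι] (W : ι → Set (Z hG)) (hW : ∀ i, IsOpen (W i))
    (hcov : ∀ z, ∃ i, z ∈ W i) : ∃ φ : Z hG → ι, IsLocallyConstant φ ∧ ∀ z, z ∈ W (φ z) := by
  classical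
  obtain ⟨𝒬, h1, h2, h3⟩ := exists_clopen hG W hW hcov
  rcases isEmpty_or_nonempty (Z hG) with hE | ⟨⟨z0⟩⟩
  · exact ⟨fun z => (hE.false z).elim, fun s => (isOpen_iff' hG _).2 fun z => (hE.false z).elim, fun z => (hE.false z).elim⟩
  obtain ⟨Q0, hQ0, -⟩ := h3 z0
  obtain ⟨Q, hQ⟩ := h1.exists_eq_range ⟨Q0, hQ0⟩
  have hQ1 : ∀ n, IsClopen (Q n) ∧ ∃ i, Q n ⊆ W i := fun n => h2 _ (by rw [hQ]; exact ⟨n, rfl⟩)
  choose i hi using fun n => (hQ1 n).2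
  have hex : ∀ z, ∃ n, z ∈ Q n := by
    intro z
    obtain ⟨Q', hQ', hz⟩ := h3 z
    rw [hQ] at hQ'
    obtain ⟨n, rfl⟩ := hQ'
    exact ⟨n, hz⟩
  refine ⟨fun z => i (Nat.find (hex z)), ?_, fun z => hi _ (Nat.find_spec (hex z))⟩
  rw [IsLocallyConstant.iff_exists_open]
  intro z
  refine ⟨Q (Nat.find (hex z)) ∩ ⋂ k ∈ Finset.range (Nat.find (hex z)), (Q k)ᶜ, ?_, ?_, ?_⟩
  · exact (hQ1 _).1.isOpen.inter (isOpen_biInter_finset fun k _ => (hQ1 k).1.compl.isOpen)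
  · refine ⟨Nat.find_spec (hex z), mem_iInter₂.2 fun k hk => ?_⟩
    exact Nat.find_min (hex z) (Finset.mem_range.1 hk)
  · rintro z' ⟨hz1, hz2⟩
    have h5 : Nat.find (hex z') = Nat.find (hex z) := by
      rw [Nat.find_eq_iff]
      exact ⟨hz1, fun k hk => mem_iInter₂.1 hz2 k (Finset.mem_range.2 hk)⟩
    simp only [h5]

/-- `Z` is weakly Lindelöf. -/
theorem weaklyLindelof_Z (𝒰 : Set (Set (Z hG))) (h𝒰 : ∀ U ∈ 𝒰, IsOpen U) (hcov : ⋃₀ 𝒰 = Set.univ) :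
    ∃ 𝒱 ⊆ 𝒰, 𝒱.Countable ∧ Dense (⋃₀ 𝒱) := by
  classical
  have h1 : ∀ w : List ℕ, ∃ 𝒱 ⊆ 𝒰, 𝒱.Countable ∧
      ∀ x : K, (∃ U ∈ 𝒰, ∃ k, boxZ hG k (x, w) ⊆ U) → ((x, w) : Z hG) ∈ ⋃₀ 𝒱 := by
    intro w
    set Y : Set K := {x : K | ∃ k, ∃ U ∈ 𝒰, boxZ hG k (x, w) ⊆ U} with hY
    let m : K → ℕ := fun x => if h : ∃ k, ∃ U ∈ 𝒰, boxZ hG k (x, w) ⊆ U then h.choose else 0
    have hm : ∀ x, ∃ U, x ∈ Y → U ∈ 𝒰 ∧ boxZ hG (m x) (x, w) ⊆ U := by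
      intro x
      by_cases hx : x ∈ Y
      · have hx' : ∃ k, ∃ U ∈ 𝒰, boxZ hG k (x, w) ⊆ U := hx
        obtain ⟨U, hU, hU2⟩ := hx'.choose_spec
        refine ⟨U, fun _ => ⟨hU, ?_⟩⟩
        simp only [m]
        rw [dif_pos hx']
        exact hU2
      · exact ⟨∅, fun h => absurd h hx⟩
    choose U hU using hm
    obtain ⟨Y1, hY1, hY1c, hY1V⟩ := lindelof_K hG Y m
    refine ⟨U '' Y1, ?_, hY1c.image _, ?_⟩
    · rintro _ ⟨x, hx, rfl⟩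
      exact (hU x (hY1 hx)).1
    · rintro x ⟨U', hU', k, hk⟩
      obtain ⟨y', hy', h3⟩ := hY1V x ⟨k, U', hU', hk⟩
      exact ⟨U y', ⟨y', hy', rfl⟩, (hU y' (hY1 hy')).2 ⟨h3, [], by simp, le_top, le_top⟩⟩
  choose 𝒱 h2 h3 h4 using h1
  refine ⟨⋃ w, 𝒱 w, iUnion_subset h2, countable_iUnion h3, ?_⟩
  intro z
  rw [mem_closure_iff]
  intro O hO hzO
  obtain ⟨x, w⟩ := z
  have hx : ((x, w) : Z hG) ∈ ⋃₀ 𝒰 := by rw [hcov]; exact mem_univ _
  obtain ⟨U, hU, hxU⟩ := hx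
  obtain ⟨m, hm⟩ := (isOpen_iff' hG _).1 (hO.inter (h𝒰 U hU)) _ ⟨hzO, hxU⟩
  have h5 : (m : ℕ∞) ≤ uu e j x.1 x := by
    rw [(uu_top hG x.1 x).2 le_rfl]
    exact le_top
  have h6 : ((x, w ++ [m]) : Z hG) ∈ nbZ hG m (x, w) :=
    ⟨mem_V_self _ _, [m], rfl, le_rfl, h5⟩
  obtain ⟨k, hk⟩ := uu_ge hG x.1 x m h5
  have h7 : boxZ hG (max k m) (x, w ++ [m]) ⊆ nbZ hG m (x, w) := by
    rintro ⟨y, w'⟩ ⟨hy, t, ht, -, -⟩
    refine ⟨V_anti (le_max_right _ _) x hy, [m] ++ t, ?_, ?_, ?_⟩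
    · rw [← List.append_assoc]
      exact ht
    · exact le_rfl
    · exact hk y (V_anti (le_max_left _ _) x hy)
  have h8 := h4 (w ++ [m]) x ⟨U, hU, max k m, h7.trans (hm.trans inter_subset_right)⟩
  refine ⟨(x, w ++ [m]), (hm h6).1, ?_⟩
  obtain ⟨V', hV', hxV'⟩ := h8
  exact ⟨V', mem_iUnion.2 ⟨_, hV'⟩, hxV'⟩

/-- Lindelöf subsets of `Z` are bounded. -/
theorem lindelof_bounded (L : Set (Z hG)) (hL : IsLindelof L) : ∃ δ : Om, ∀ z ∈ L,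
    (z : K × List ℕ).1.1 ≤ δ := by
  have hlev : ∀ w : List ℕ, IsOpen {z : Z hG | (z : K × List ℕ).2 ≠ w} := by
    intro w
    refine (isOpen_iff' hG _).2 ?_
    rintro ⟨y, w'⟩ hw'
    have hw'' : w' ≠ w := hw'
    by_cases hpre : ∃ s, w = w' ++ s
    · obtain ⟨s, rfl⟩ := hpre
      cases s with
      | nil => exact absurd (by simp) hw''
      | cons n s0 =>
        refine ⟨n + 1, ?_⟩
        rintro ⟨y', w''⟩ ⟨-, t, ht, hm, -⟩ hcon
        simp only at ht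
        have hcon' : w'' = w' ++ n :: s0 := hcon
        have h2 : t = n :: s0 := List.append_cancel_left (ht.symm.trans hcon')
        rw [h2] at hm
        have h4 := Nat.cast_le.1 hm
        omega
    · refine ⟨0, ?_⟩
      rintro ⟨y', w''⟩ ⟨-, t, ht, -, -⟩ hcon
      simp only at ht
      have hcon' : w'' = w := hcon
      exact hpre ⟨t, by rw [← hcon', ht]⟩
  have h1 : ∀ w : List ℕ, ∃ δ : Om, ∀ x : K, ((x, w) : Z hG) ∈ L → x.1 ≤ δ := by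
    intro w
    have hcl : IsClosed {z : Z hG | (z : K × List ℕ).2 = w} := by
      rw [← isOpen_compl_iff]
      exact hlev w
    have hL2 := hL.inter_right hcl
    obtain ⟨r, hr, hr2⟩ := hL2.elim_countable_subcover
      (fun δ : Om => {z : Z hG | (z : K × List ℕ).2 = w → (z : K × List ℕ).1.1 ≤ δ}) (by
        intro δ
        refine (isOpen_iff' hG _).2 ?_
        rintro ⟨y, w'⟩ hy
        by_cases hw : w' = w
        · subst hw
          have hy' : y.1 ≤ δ := hy rfl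
          refine ⟨0, ?_⟩
          rintro ⟨y', w''⟩ ⟨-, t, ht, -, hu⟩ hw''
          simp only at ht hw'' hu ⊢
          rw [hw''] at ht
          have h3 : t = [] := by
            have : w' ++ [] = w' ++ t := by rw [List.append_nil]; exact ht
            exact (List.append_cancel_left this).symm
          rw [h3] at hu
          exact ((uu_top hG y.1 y').1 (top_le_iff.1 hu)).trans hy'
        · obtain ⟨m, hm⟩ := (isOpen_iff' hG _).1 (hlev w) (y, w') hw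
          exact ⟨m, fun q hq hqw => absurd hqw (hm hq)⟩)
      (by
        rintro ⟨x, w'⟩ -
        exact mem_iUnion.2 ⟨x.1, fun _ => le_rfl⟩)
    obtain ⟨δ, hδ⟩ := exists_ub r hr
    refine ⟨δ, fun x hx => ?_⟩
    have hmem : ((x, w) : Z hG) ∈ L ∩ {z : Z hG | (z : K × List ℕ).2 = w} := ⟨hx, rfl⟩
    obtain ⟨δ', hδ', h3⟩ := mem_iUnion₂.1 (hr2 hmem)
    exact (h3 rfl).trans (hδ δ' hδ').le
  choose δ hδ using h1
  obtain ⟨δ', hδ'⟩ := exists_ub (range δ) (countable_range δ)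
  exact ⟨δ', fun z hz => (hδ z.2 z.1 hz).trans (hδ' _ ⟨_, rfl⟩).le⟩

/-- The points of late stages form an open set. -/
theorem isOpen_late (δ : Om) : IsOpen {z : Z hG | δ < (z : K × List ℕ).1.1} := by
  refine (isOpen_iff' hG _).2 ?_
  rintro ⟨y, w⟩ hy
  have hy' : δ < y.1 := hy
  obtain ⟨k, hk⟩ := ev_e_eq hG δ y hy'
  refine ⟨k, ?_⟩
  rintro ⟨y', w'⟩ ⟨h1, -⟩
  by_contra hcon
  have h2 : y'.1 ≤ δ := not_lt.1 hcon
  have h3 : e δ y' = e δ y := hk y' h1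
  rw [(hG.top δ y').2 h2] at h3
  exact e_ne_top hG δ y hy' h3.symm

end Pool.Agent.R827.CL
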