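import Mathlib

/-!
# The Alexandroff duplicate of the Cantor set, and products with it
-/

set_option autoImplicit false

namespace Pool.Agent.R827.CL

open Set Topology Filter

/-- The Alexandroff duplicate of the Cantor set: the points `(c, true)` are isolated. -/
def Dup : Type := (ℕ → Bool) × Bool

/-- The basic neighbourhoods of the point `(c, false)`. -/
def An (m : ℕ) (c : ℕ → Bool) : Set Dup := {q | (∀ i < m, q.1 i = c i) ∧ q ≠ (c, true)}

theorem An_anti {m n : ℕ} (h : m ≤ n) (c : ℕ → Bool) : An n c ⊆ An m c :=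
  fun _ hq => ⟨fun i hi => hq.1 i (hi.trans_le h), hq.2⟩

theorem mem_An (m : ℕ) (c : ℕ → Bool) : ((c, false) : Dup) ∈ An m c := by
  refine ⟨fun _ _ => rfl, fun h => ?_⟩
  exact absurd (congrArg Prod.snd h) (by simp)

instance : TopologicalSpace Dup where
  IsOpen U := ∀ c, ((c, false) : Dup) ∈ U → ∃ m, An m c ⊆ U
  isOpen_univ := fun _ _ => ⟨0, subset_univ _⟩
  isOpen_inter := by
    intro s t hs ht c hc
    obtain ⟨m, hm⟩ := hs c hc.1
    obtain ⟨n, hn⟩ := ht c hc.2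
    exact ⟨max m n, subset_inter ((An_anti (le_max_left _ _) c).trans hm)
      ((An_anti (le_max_right _ _) c).trans hn)⟩
  isOpen_sUnion := by
    intro s hs c hc
    obtain ⟨t, ht, hzt⟩ := hc
    obtain ⟨m, hm⟩ := hs t ht c hzt
    exact ⟨m, hm.trans (subset_sUnion_of_mem ht)⟩

theorem isOpen_dup (U : Set Dup) : IsOpen U ↔ ∀ c, ((c, false) : Dup) ∈ U → ∃ m, An m c ⊆ U :=
  Iff.rfl

/-- Sets of isolated points are open. -/
theorem isOpen_iso (F : Set (ℕ → Bool)) : IsOpen {q : Dup | q.2 = true ∧ q.1 ∈ F} := by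
  refine (isOpen_dup _).2 fun c hc => ?_
  exact absurd hc.1 (by simp)

theorem exists_ne (c d : ℕ → Bool) (h : c ≠ d) : ∃ i, c i ≠ d i := Function.ne_iff.1 h

/-- The set of the isolated points over a finite set is closed. -/
theorem isClosed_iso {F : Set (ℕ → Bool)} (hF : F.Finite) :
    IsClosed {q : Dup | q.2 = true ∧ q.1 ∈ F} := by
  rw [← isOpen_compl_iff]
  refine (isOpen_dup _).2 fun c hcc => ?_
  clear hcc
  induction F, hF using Set.Finite.induction_on with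
  | empty => exact ⟨0, fun q _ h => h.2⟩
  | @insert a s _ _ ih =>
    obtain ⟨m, hm⟩ := ih
    by_cases hac : a = c
    · subst hac
      refine ⟨m, fun q hq h => ?_⟩
      rcases h.2 with h2 | h2
      · exact hq.2 (Prod.ext h2 h.1)
      · exact hm hq ⟨h.1, h2⟩
    · obtain ⟨i, hi⟩ := exists_ne a c hac
      refine ⟨max m (i + 1), fun q hq h => ?_⟩
      rcases h.2 with h2 | h2
      · apply hi
        rw [← h2]
        exact hq.1 i (lt_of_lt_of_le (Nat.lt_succ_self i) (le_max_right _ _))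
      · exact hm (An_anti (le_max_left _ _) c hq) ⟨h.1, h2⟩

/-- The first `n` terms. -/
def rs (n : ℕ) (c : ℕ → Bool) : Fin n → Bool := fun i => c i

theorem isClopen_cyl (n : ℕ) (S : Set (Fin n → Bool)) : IsClopen {q : Dup | rs n q.1 ∈ S} := by
  have h : ∀ S : Set (Fin n → Bool), IsOpen {q : Dup | rs n q.1 ∈ S} := by
    intro S
    refine (isOpen_dup _).2 fun c hc => ⟨n, fun q hq => ?_⟩
    have h1 : rs n q.1 = rs n c := funext fun i => hq.1 i i.2
    change rs n q.1 ∈ S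
    rw [h1]
    exact hc
  refine ⟨?_, h S⟩
  rw [← isOpen_compl_iff]
  exact h Sᶜ

theorem isClosed_base (n : ℕ) (S : Set (Fin n → Bool)) :
    IsClosed {q : Dup | q.2 = false ∧ rs n q.1 ∈ S} := by
  have h1 : {q : Dup | q.2 = false ∧ rs n q.1 ∈ S} =
      {q : Dup | q.2 = true ∧ q.1 ∈ (Set.univ : Set (ℕ → Bool))}ᶜ ∩ {q : Dup | rs n q.1 ∈ S} := by
    ext q
    simp
  rw [h1]
  exact (isOpen_iso _).isClosed_compl.inter (isClopen_cyl n S).isClosed

theorem isOpen_An (m : ℕ) (c : ℕ → Bool) : IsOpen (An m c) := by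
  have h1 : An m c = {q : Dup | rs m q.1 ∈ ({rs m c} : Set (Fin m → Bool))} ∩
      {q : Dup | q.2 = true ∧ q.1 ∈ ({c} : Set (ℕ → Bool))}ᶜ := by
    ext q
    constructor
    · rintro ⟨h1, h2⟩
      exact ⟨funext fun i => h1 i i.2, fun h => h2 (Prod.ext h.2 h.1)⟩
    · rintro ⟨h1, h2⟩
      refine ⟨fun i hi => congrFun h1 ⟨i, hi⟩, fun h => h2 ?_⟩
      rw [h]
      exact ⟨rfl, rfl⟩
  rw [h1]
  exact (isClopen_cyl m _).isOpen.inter (isClosed_iso (finite_singleton c)).isOpen_compl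

instance : T1Space Dup := by
  rw [t1Space_iff_exists_open]
  rintro ⟨c, b⟩ ⟨d, b'⟩ hne
  cases b with
  | true =>
    refine ⟨_, isOpen_iso {c}, ⟨rfl, rfl⟩, fun h => hne ?_⟩
    have h1 : d = c := h.2
    have h2 : b' = true := h.1
    rw [h1, h2]
  | false =>
    by_cases hcd : c = d
    · subst hcd
      cases b' with
      | true => exact ⟨_, isOpen_An 0 c, mem_An 0 c, fun h => h.2 rfl⟩
      | false => exact absurd rfl hne
    · obtain ⟨i, hi⟩ := exists_ne c d hcd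
      exact ⟨_, isOpen_An (i + 1) c, mem_An _ c, fun h => hi (h.1 i (Nat.lt_succ_self i)).symm⟩

theorem nhds_true (q : Dup) (hq : q.2 = true) : 𝓝 q = pure q := by
  refine le_antisymm ?_ (pure_le_nhds q)
  refine le_pure_iff.2 ?_
  have h2 : {q' : Dup | q'.2 = true ∧ q'.1 ∈ ({q.1} : Set (ℕ → Bool))} ∈ 𝓝 q :=
    (isOpen_iso {q.1}).mem_nhds ⟨hq, rfl⟩
  refine mem_of_superset h2 ?_
  rintro q' ⟨h3, h4⟩
  exact Prod.ext h4 (h3.trans hq.symm)

theorem nhds_false (q : Dup) (hq : q.2 = false) :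
    (𝓝 q).HasBasis (fun _ : ℕ => True) (fun m => An m q.1) := by
  have hq' : q = (q.1, false) := Prod.ext rfl hq
  refine ⟨fun s => mem_nhds_iff.trans ?_⟩
  constructor
  · rintro ⟨t, hts, ht, hzt⟩
    rw [hq'] at hzt
    obtain ⟨m, hm⟩ := (isOpen_dup t).1 ht q.1 hzt
    exact ⟨m, trivial, hm.trans hts⟩
  · rintro ⟨m, -, hm⟩
    refine ⟨_, hm, isOpen_An m q.1, ?_⟩
    rw [hq']
    exact mem_An m q.1

instance : FirstCountableTopology Dup where
  nhds_generated_countable q := by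
    by_cases hq : q.2 = true
    · rw [nhds_true q hq]
      infer_instance
    · exact (nhds_false q (by simpa using hq)).isCountablyGenerated

theorem cyl_mem_nhds (n : ℕ) (c : ℕ → Bool) : {d : ℕ → Bool | rs n d = rs n c} ∈ 𝓝 c := by
  have h1 : Continuous (rs n) := continuous_pi fun i => continuous_apply (i : ℕ)
  have h2 : ({rs n c} : Set (Fin n → Bool)) ∈ 𝓝 (rs n c) := mem_nhds_discrete.2 rfl
  exact h1.continuousAt.preimage_mem_nhds h2

instance : CompactSpace Dup := by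
  classical
  refine ⟨isCompact_of_finite_subcover fun {ι} U hU hcov => ?_⟩
  have h1 : ∀ q : Dup, ∃ i, q ∈ U i := fun q => mem_iUnion.1 (hcov (mem_univ q))
  choose i hi using h1
  have h2 : ∀ c : ℕ → Bool, ∃ m, An m c ⊆ U (i (c, false)) := fun c =>
    (isOpen_dup _).1 (hU (i (c, false))) c (hi (c, false))
  choose m hm using h2
  obtain ⟨t, -, ht⟩ := (isCompact_univ (X := ℕ → Bool)).elim_nhds_subcover
    (fun c => {d : ℕ → Bool | rs (m c) d = rs (m c) c}) (fun c _ => cyl_mem_nhds _ c)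
  refine ⟨t.image (fun c => i (c, false)) ∪ t.image (fun c => i (c, true)), ?_⟩
  rintro ⟨d, b⟩ -
  obtain ⟨c, hc, hd⟩ := mem_iUnion₂.1 (ht (mem_univ d))
  by_cases h3 : ((d, b) : Dup) = (c, true)
  · rw [h3]
    exact mem_iUnion₂.2 ⟨_, Finset.mem_union_right _ (Finset.mem_image_of_mem _ hc), hi _⟩
  · refine mem_iUnion₂.2 ⟨_, Finset.mem_union_left _ (Finset.mem_image_of_mem _ hc), hm c ?_⟩
    exact ⟨fun k hk => congrFun hd ⟨k, hk⟩, h3⟩

theorem exists_sep (A B : Set (ℕ → Bool)) (hA : IsClosed A) (hB : IsClosed B)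
    (hAB : Disjoint A B) : ∃ n, ∀ c ∈ A, ∀ d ∈ B, rs n d ≠ rs n c := by
  classical
  have h1 : ∀ c : ℕ → Bool, ∃ m, c ∈ A → ∀ d, rs m d = rs m c → d ∉ B := by
    intro c
    by_cases hc : c ∈ A
    · have h2 : Bᶜ ∈ 𝓝 c := hB.isOpen_compl.mem_nhds (disjoint_left.1 hAB hc)
      rw [nhds_pi, Filter.mem_pi] at h2
      obtain ⟨I, hI, t, ht, htB⟩ := h2
      obtain ⟨N, hN⟩ := hI.bddAbove
      refine ⟨N + 1, fun _ d hd => htB ?_⟩
      intro i hi
      have h3 : d i = c i := congrFun hd ⟨i, Nat.lt_succ_of_le (hN hi)⟩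
      rw [h3]
      exact mem_of_mem_nhds (ht i)
    · exact ⟨0, fun h => absurd h hc⟩
  choose m hm using h1
  obtain ⟨t, -, ht⟩ := hA.isCompact.elim_nhds_subcover
    (fun c => {d : ℕ → Bool | rs (m c) d = rs (m c) c}) (fun c _ => cyl_mem_nhds _ c)
  have h4 : ∃ t : Finset (ℕ → Bool), (∀ x ∈ t, x ∈ A) ∧
      A ⊆ ⋃ x ∈ t, {d : ℕ → Bool | rs (m x) d = rs (m x) x} :=
    hA.isCompact.elim_nhds_subcover _ (fun c _ => cyl_mem_nhds _ c)
  obtain ⟨t, htA, ht⟩ := h4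
  refine ⟨t.sup m, fun c hc d hd h => ?_⟩
  obtain ⟨x, hx, hcx⟩ := mem_iUnion₂.1 (ht hc)
  have h5 : m x ≤ t.sup m := Finset.le_sup hx
  refine hm x (htA x hx) d ?_ hd
  have h6 : rs (m x) d = rs (m x) c := funext fun i =>
    congrFun h ⟨i, i.2.trans_le h5⟩
  rw [h6]
  exact hcx

section prod

variable {Z : Type} [TopologicalSpace Z]

theorem isOpen_avoid (H : Set (Z × Dup)) (hH : IsClosed H) (T : Set Dup) (hT : IsClosed T) :
    IsOpen {z : Z | ∀ q ∈ T, (z, q) ∉ H} := by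
  have h1 : IsClosed (Prod.fst '' (H ∩ (Prod.snd ⁻¹' T)) : Set Z) :=
    isClosedMap_fst_of_compactSpace _ (hH.inter (hT.preimage continuous_snd))
  have h2 : {z : Z | ∀ q ∈ T, (z, q) ∉ H} = (Prod.fst '' (H ∩ (Prod.snd ⁻¹' T)))ᶜ := by
    ext z
    simp only [mem_ofPred_eq, mem_compl_iff, mem_image, mem_inter_iff, mem_preimage, Prod.exists,
      exists_and_right, exists_eq_right, not_exists, not_and]
    exact ⟨fun h q h3 h4 => h q h4 h3, fun h q h3 h4 => h q h4 h3⟩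
  rw [h2]
  exact h1.isOpen_compl

theorem normal_prod [T1Space Z]
    (hN : ∀ (ι : Type) [Countable ι] (W : ι → Set Z), (∀ i, IsOpen (W i)) →
      (∀ z, ∃ i, z ∈ W i) → ∃ φ : Z → ι, IsLocallyConstant φ ∧ ∀ z, z ∈ W (φ z))
    (hE : ∀ D : Set Z, ¬ D.Countable → ∃ z : Z, ∀ U : Set Z, IsOpen U → z ∈ U →
      ∃ q ∈ U, q ∈ D ∧ q ≠ z) :
    NormalSpace (Z × Dup) := by
  classical
  refine ⟨fun H H' hH hH' hdis => ?_⟩
  have hdis' : ∀ x, x ∈ H → x ∈ H' → False := fun x h h' => disjoint_left.1 hdis h h'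
  -- first step: separation at the base
  obtain ⟨φ, hφ, hφ1⟩ := hN ((n : ℕ) × Set (Fin n → Bool))
    (fun i => {z : Z | ∀ q ∈ {q : Dup | q.2 = false ∧ rs i.1 q.1 ∈ i.2ᶜ}, (z, q) ∉ H} ∩
      {z : Z | ∀ q ∈ {q : Dup | q.2 = false ∧ rs i.1 q.1 ∈ i.2}, (z, q) ∉ H'})
    (fun i => (isOpen_avoid H hH _ (isClosed_base _ _)).inter
      (isOpen_avoid H' hH' _ (isClosed_base _ _)))
    (by
      intro z
      have hcont : Continuous fun c : ℕ → Bool => ((z, ((c, false) : Dup)) : Z × Dup) := by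
        refine continuous_const.prodMk ?_
        refine continuous_def.2 fun U hU => isOpen_iff_mem_nhds.2 fun c hc => ?_
        obtain ⟨m, hm⟩ := (isOpen_dup U).1 hU c hc
        refine mem_of_superset (cyl_mem_nhds m c) fun d hd => hm ?_
        refine ⟨fun i hi => congrFun hd ⟨i, hi⟩, fun h => ?_⟩
        exact absurd (congrArg Prod.snd h) (by simp)
      obtain ⟨n, hn⟩ := exists_sep {c | ((z, ((c, false) : Dup)) : Z × Dup) ∈ H}
        {c | ((z, ((c, false) : Dup)) : Z × Dup) ∈ H'} (hH.preimage hcont) (hH'.preimage hcont)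
        (disjoint_left.2 fun c h h' => hdis' _ h h')
      refine ⟨⟨n, rs n '' {c | ((z, ((c, false) : Dup)) : Z × Dup) ∈ H}⟩, ?_, ?_⟩
      · rintro ⟨c, b⟩ ⟨hb, hq⟩ hcon
        simp only at hb
        subst hb
        exact hq ⟨c, hcon, rfl⟩
      · rintro ⟨c, b⟩ ⟨hb, hq⟩ hcon
        simp only at hb
        subst hb
        obtain ⟨c', hc', h⟩ := hq
        exact hn c' hc' c hcon h.symm)
  -- the isolated points in the wrong place
  let F : Z → Set (ℕ → Bool) := fun z => {c | (rs (φ z).1 c ∉ (φ z).2 ∧ (z, ((c, true) : Dup)) ∈ H) ∨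
    (rs (φ z).1 c ∈ (φ z).2 ∧ (z, ((c, true) : Dup)) ∈ H')}
  have hfin : ∀ z, (F z).Finite := by
    have haux : ∀ (G : Set (Z × Dup)), IsClosed G → ∀ (z : Z) (T : Set Dup), IsClosed T →
        (∀ c, ((c, false) : Dup) ∈ T → (z, ((c, false) : Dup)) ∉ G) →
        {c | ((c, true) : Dup) ∈ T ∧ (z, ((c, true) : Dup)) ∈ G}.Finite := by
      intro G hG z T hT hTG
      have h1 : IsClosed (T ∩ {q | (z, q) ∈ G}) :=
        hT.inter (hG.preimage (Continuous.prodMk_right z))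
      obtain ⟨t, ht⟩ := h1.isCompact.elim_finite_subcover
        (fun c : ℕ → Bool => {q : Dup | q.2 = true ∧ q.1 ∈ ({c} : Set (ℕ → Bool))})
        (fun c => isOpen_iso _) (by
          rintro ⟨c, b⟩ ⟨h2, h3⟩
          cases b with
          | false => exact absurd h3 (hTG c h2)
          | true => exact mem_iUnion.2 ⟨c, rfl, rfl⟩)
      refine t.finite_toSet.subset fun c hc => ?_
      obtain ⟨d, hd, -, h4⟩ := mem_iUnion₂.1 (ht (show ((c, true) : Dup) ∈ _ from hc))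
      have h5 : c = d := h4
      rw [h5]
      exact hd
    intro z
    have h1 := haux H hH z {q : Dup | rs (φ z).1 q.1 ∈ (φ z).2ᶜ} (isClopen_cyl _ _).isClosed
      (fun c hc => (hφ1 z).1 _ ⟨rfl, hc⟩)
    have h2 := haux H' hH' z {q : Dup | rs (φ z).1 q.1 ∈ (φ z).2} (isClopen_cyl _ _).isClosed
      (fun c hc => (hφ1 z).2 _ ⟨rfl, hc⟩)
    exact (h1.union h2).subset fun c hc => hc
  have hloc : ∀ z, ∃ U : Set Z, IsOpen U ∧ z ∈ U ∧ ∀ z' ∈ U, F z' ⊆ F z := by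
    intro z
    obtain ⟨O, hO, hzO, hOφ⟩ := (IsLocallyConstant.iff_exists_open φ).1 hφ z
    set T1 : Set Dup := {q : Dup | rs (φ z).1 q.1 ∈ (φ z).2ᶜ} ∩ {q : Dup | q.2 = true ∧ q.1 ∈ F z}ᶜ
      with hT1
    set T2 : Set Dup := {q : Dup | rs (φ z).1 q.1 ∈ (φ z).2} ∩ {q : Dup | q.2 = true ∧ q.1 ∈ F z}ᶜ
      with hT2
    have hT1c : IsClosed T1 := (isClopen_cyl _ _).isClosed.inter (isOpen_iso _).isClosed_compl
    have hT2c : IsClosed T2 := (isClopen_cyl _ _).isClosed.inter (isOpen_iso _).isClosed_compl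
    refine ⟨O ∩ ({z | ∀ q ∈ T1, (z, q) ∉ H} ∩ {z | ∀ q ∈ T2, (z, q) ∉ H'}),
      hO.inter ((isOpen_avoid H hH T1 hT1c).inter (isOpen_avoid H' hH' T2 hT2c)),
      ⟨hzO, ?_, ?_⟩, ?_⟩
    · rintro ⟨c, b⟩ ⟨h1, h2⟩ h3
      cases b with
      | false => exact (hφ1 z).1 _ ⟨rfl, h1⟩ h3
      | true => exact h2 ⟨rfl, Or.inl ⟨h1, h3⟩⟩
    · rintro ⟨c, b⟩ ⟨h1, h2⟩ h3
      cases b with
      | false => exact (hφ1 z).2 _ ⟨rfl, h1⟩ h3
      | true => exact h2 ⟨rfl, Or.inr ⟨h1, h3⟩⟩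
    · rintro z' ⟨h1, h2, h3⟩ c hc
      by_contra hcon
      have h4 := hOφ z' h1
      simp only [F] at hc
      rw [h4] at hc
      rcases hc with ⟨h5, h6⟩ | ⟨h5, h6⟩
      · exact h2 (c, true) ⟨h5, fun h => hcon h.2⟩ h6
      · exact h3 (c, true) ⟨h5, fun h => hcon h.2⟩ h6
  have hcount : {c | ∃ z, c ∈ F z}.Countable := by
    by_contra hcon
    have h1 : ∀ c : ℕ → Bool, ∃ z : Z, (∃ z, c ∈ F z) → c ∈ F z := by
      intro c
      by_cases h : ∃ z, c ∈ F z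
      · obtain ⟨z, hz⟩ := h
        exact ⟨z, fun _ => hz⟩
      · rcases isEmpty_or_nonempty Z with hZ | ⟨⟨z0⟩⟩
        · exfalso
          apply hcon
          have : {c | ∃ z, c ∈ F z} = ∅ := by
            ext c
            simp
          rw [this]
          exact countable_empty
        · exact ⟨z0, fun h' => absurd h' h⟩
    choose zz hzz using h1
    have h2 : ¬ (zz '' {c | ∃ z, c ∈ F z}).Countable := by
      intro h3
      apply hcon
      refine (h3.biUnion fun z _ => (hfin z).countable).mono ?_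
      intro c hc
      exact mem_iUnion₂.2 ⟨zz c, ⟨c, hc, rfl⟩, hzz c hc⟩
    obtain ⟨z, hz⟩ := hE _ h2
    obtain ⟨U, hU, hzU, hUF⟩ := hloc z
    have h3 : ((zz '' F z) \ {z}).Finite := ((hfin z).image zz).subset sdiff_subset
    obtain ⟨q, ⟨hqU, hq1⟩, ⟨c, hc, rfl⟩, hqz⟩ := hz (U ∩ ((zz '' F z) \ {z})ᶜ)
      (hU.inter h3.isClosed.isOpen_compl) ⟨hzU, fun h => h.2 rfl⟩
    exact hq1 ⟨⟨c, hUF _ hqU (hzz c hc), rfl⟩, hqz⟩
  -- second step
  set CC : Set (ℕ → Bool) := {c | ∃ z, c ∈ F z} with hCC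
  have hCCc : Countable CC := hcount.to_subtype
  let E : ((n : ℕ) × Set (Fin n → Bool)) × Finset CC → Set Dup := fun i =>
    ({q : Dup | rs i.1.1 q.1 ∈ i.1.2} \ {q : Dup | q.2 = true ∧ q.1 ∈ (Subtype.val '' (i.2 : Set CC))}) ∪
    ({q : Dup | q.2 = true ∧ q.1 ∈ (Subtype.val '' (i.2 : Set CC))} \ {q : Dup | rs i.1.1 q.1 ∈ i.1.2})
  have hEc : ∀ i, IsClopen (E i) := by
    intro i
    have h1 : IsClopen {q : Dup | rs i.1.1 q.1 ∈ i.1.2} := isClopen_cyl _ _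
    have h2 : IsClopen {q : Dup | q.2 = true ∧ q.1 ∈ (Subtype.val '' (i.2 : Set CC))} :=
      ⟨isClosed_iso (i.2.finite_toSet.image _), isOpen_iso _⟩
    exact (h1.diff h2).union (h2.diff h1)
  obtain ⟨ψ, hψ, hψ1⟩ := hN (((n : ℕ) × Set (Fin n → Bool)) × Finset CC)
    (fun i => {z : Z | ∀ q ∈ (E i)ᶜ, (z, q) ∉ H} ∩ {z : Z | ∀ q ∈ E i, (z, q) ∉ H'})
    (fun i => (isOpen_avoid H hH _ (hEc i).compl.isClosed).inter
      (isOpen_avoid H' hH' _ (hEc i).isClosed))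
    (by
      intro z
      have h1 : ∃ s : Finset CC, (Subtype.val '' (s : Set CC)) = F z := by
        have h2 : {c : CC | c.1 ∈ F z}.Finite :=
          Set.Finite.preimage (Subtype.val_injective.injOn) (hfin z)
        refine ⟨h2.toFinset, ?_⟩
        ext c
        simp only [Finite.coe_toFinset, mem_image, mem_ofPred_eq, Subtype.exists, exists_and_left,
          exists_prop, exists_eq_right_right]
        exact ⟨fun h => h.1, fun h => ⟨h, z, h⟩⟩
      obtain ⟨s, hs⟩ := h1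
      refine ⟨(φ z, s), ?_, ?_⟩
      · rintro ⟨c, b⟩ hq hcon
        apply hq
        simp only [E]
        rw [hs]
        cases b with
        | false =>
          left
          refine ⟨?_, fun h => absurd h.1 (by simp)⟩
          by_contra h
          exact (hφ1 z).1 _ ⟨rfl, h⟩ hcon
        | true =>
          by_cases hc : rs (φ z).1 c ∈ (φ z).2
          · left
            refine ⟨hc, fun h => ?_⟩
            rcases h.2 with h3 | h3
            · exact h3.1 hc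
            · exact hdis' _ hcon h3.2
          · right
            exact ⟨⟨rfl, Or.inl ⟨hc, hcon⟩⟩, hc⟩
      · rintro ⟨c, b⟩ hq hcon
        simp only [E] at hq
        rw [hs] at hq
        cases b with
        | false =>
          rcases hq with h | h
          · exact (hφ1 z).2 _ ⟨rfl, h.1⟩ hcon
          · exact absurd h.1.1 (by simp)
        | true =>
          rcases hq with h | h
          · exact h.2 ⟨rfl, Or.inr ⟨h.1, hcon⟩⟩
          · rcases h.1.2 with h3 | h3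
            · exact hdis' _ h3.2 hcon
            · exact h.2 h3.1)
  have hopen : ∀ G : (((n : ℕ) × Set (Fin n → Bool)) × Finset CC) → Set Dup, (∀ i, IsOpen (G i)) →
      IsOpen {x : Z × Dup | x.2 ∈ G (ψ x.1)} := by
    intro G hG
    rw [isOpen_prod_iff]
    rintro z q hq
    obtain ⟨O, hO, hzO, hOψ⟩ := (IsLocallyConstant.iff_exists_open ψ).1 hψ z
    refine ⟨O, G (ψ z), hO, hG _, hzO, hq, ?_⟩
    rintro ⟨z', q'⟩ ⟨h1, h2⟩
    change q' ∈ G (ψ z')
    rw [hOψ z' h1]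
    exact h2
  refine ⟨{x : Z × Dup | x.2 ∈ E (ψ x.1)}, {x : Z × Dup | x.2 ∈ (E (ψ x.1))ᶜ},
    hopen E fun i => (hEc i).isOpen, hopen (fun i => (E i)ᶜ) fun i => (hEc i).compl.isOpen,
    ?_, ?_, ?_⟩
  · rintro ⟨z, q⟩ hx
    by_contra h
    exact (hψ1 z).1 q h hx
  · rintro ⟨z, q⟩ hx h
    exact (hψ1 z).2 q h hx
  · exact disjoint_left.2 fun x h h' => h' h

theorem weaklyLindelof_prod
    (hW : ∀ 𝒰 : Set (Set Z), (∀ U ∈ 𝒰, IsOpen U) → ⋃₀ 𝒰 = Set.univ →
      ∃ 𝒱 ⊆ 𝒰, 𝒱.Countable ∧ Dense (⋃₀ 𝒱)) (𝒰 : Set (Set (Z × Dup)))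
    (h𝒰 : ∀ U ∈ 𝒰, IsOpen U) (hcov : ⋃₀ 𝒰 = Set.univ) :
    ∃ 𝒱 ⊆ 𝒰, 𝒱.Countable ∧ Dense (⋃₀ 𝒱) := by
  classical
  have h1 : ∀ z : Z, ∃ t : Set (Set (Z × Dup)), t ⊆ 𝒰 ∧ t.Finite ∧ ∃ V : Set Z, IsOpen V ∧ z ∈ V ∧
      V ×ˢ (Set.univ : Set Dup) ⊆ ⋃₀ t := by
    intro z
    have hcpt : IsCompact (({z} : Set Z) ×ˢ (Set.univ : Set Dup)) :=
      isCompact_singleton.prod isCompact_univ
    obtain ⟨t, ht⟩ := hcpt.elim_finite_subcover (fun U : 𝒰 => U.1) (fun U => h𝒰 U.1 U.2) (by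
      rw [← sUnion_eq_iUnion, hcov]
      exact subset_univ _)
    obtain ⟨V, W, hV, hW', hzV, hKW, hVW⟩ := generalized_tube_lemma isCompact_singleton
      isCompact_univ (isOpen_biUnion fun (U : 𝒰) (_ : U ∈ t) => h𝒰 U.1 U.2) ht
    refine ⟨Subtype.val '' (t : Set 𝒰), ?_, t.finite_toSet.image _, V, hV, hzV rfl, ?_⟩
    · rintro _ ⟨U, -, rfl⟩
      exact U.2
    · intro x hx
      obtain ⟨U, hU, hxU⟩ := mem_iUnion₂.1 (hVW (prod_mono le_rfl hKW hx))
      exact ⟨U.1, ⟨U, hU, rfl⟩, hxU⟩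
  choose t ht1 ht2 V hV hzV hVt using h1
  obtain ⟨𝒱, h𝒱1, h𝒱2, h𝒱3⟩ := hW (range V) (by rintro _ ⟨z, rfl⟩; exact hV z)
    (by
      ext z
      simp only [mem_univ, iff_true]
      exact ⟨V z, ⟨z, rfl⟩, hzV z⟩)
  have h2 : ∀ U : 𝒱, ∃ z, V z = U.1 := fun U => h𝒱1 U.2
  choose zz hzz using h2
  have hc : Countable 𝒱 := h𝒱2.to_subtype
  refine ⟨⋃ U : 𝒱, t (zz U), iUnion_subset fun U => ht1 _,
    countable_iUnion fun U => (ht2 _).countable, ?_⟩
  have h3 : (⋃₀ 𝒱) ×ˢ (Set.univ : Set Dup) ⊆ ⋃₀ ⋃ U : 𝒱, t (zz U) := by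
    rintro ⟨z, q⟩ ⟨⟨U, hU, hzU⟩, -⟩
    have h4 : V (zz ⟨U, hU⟩) = U := hzz ⟨U, hU⟩
    have h5 : ((z, q) : Z × Dup) ∈ V (zz ⟨U, hU⟩) ×ˢ (Set.univ : Set Dup) :=
      ⟨by rw [h4]; exact hzU, mem_univ _⟩
    obtain ⟨O, hO, hO2⟩ := hVt (zz ⟨U, hU⟩) h5
    exact ⟨O, mem_iUnion.2 ⟨⟨U, hU⟩, hO⟩, hO2⟩
  exact (h𝒱3.prod dense_univ).mono h3

end prod

end Pool.Agent.R827.CL
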