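import Pool.Agent.R827.SN6

/-!
# A notion of forcing which adds a `Q`-set with a generic function on its square

The conditions are finite sets of facts. There are three kinds of facts: `z k m = v` (a value of
the generic real number `k`), `e k l = n` (a value of the generic function `e`), and a fact saying
that the generic function with the number `ξ` has the value `ρ` at `k`, and that `k` belongs or does
not belong to the set of which `ξ` is a name.
-/

set_option autoImplicit false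

namespace Pool.Agent.R827.DS

open Set

/-- Codes for names of subsets of `K`. For every `k` and every natural number `b` such a code gives
a set of facts (the condition number `b`), and a truth value, the value which this condition gives
to the statement that `k` belongs to the set. The facts are coded by `dat` and `co`: see
`Coord.ent`. -/
inductive Coord (K : Type) : Type
  | base : Coord K
  | mk (dat : K → ℕ → ℕ → Option ((K × ℕ × Bool) ⊕ ((K × K × ℕ) ⊕ (K × ℕ × Bool))))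
      (co : K → ℕ → ℕ → Coord K) (val : K → ℕ → Bool) : Coord K

/-- The facts. -/
abbrev Fact (K : Type) : Type := (K × ℕ × Bool) ⊕ ((K × K × ℕ) ⊕ (Coord K × K × ℕ × Bool))

/-- the fact which is coded by `d` and `ξ` -/
def toFact {K : Type} (ξ : Coord K) :
    Option ((K × ℕ × Bool) ⊕ ((K × K × ℕ) ⊕ (K × ℕ × Bool))) → Option (Fact K)
  | none => none
  | some (Sum.inl y) => some (Sum.inl y)
  | some (Sum.inr (Sum.inl y)) => some (Sum.inr (Sum.inl y))
  | some (Sum.inr (Sum.inr y)) => some (Sum.inr (Sum.inr (ξ, y)))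

/-- The sequence of the facts which make up the condition number `b` for `k`. -/
def Coord.ent {K : Type} : Coord K → K → ℕ → ℕ → Option (Fact K)
  | .base => fun _ _ _ => none
  | .mk d c _ => fun k b n => toFact (c k b n) (d k b n)

/-- The truth value which belongs to the condition number `b` for `k`. -/
def Coord.val {K : Type} : Coord K → K → ℕ → Bool
  | .base => fun _ _ => true
  | .mk _ _ v => v

/-- the data which code a fact -/
def ofFact {K : Type} :
    Option (Fact K) → Option ((K × ℕ × Bool) ⊕ ((K × K × ℕ) ⊕ (K × ℕ × Bool)))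
  | none => none
  | some (Sum.inl y) => some (Sum.inl y)
  | some (Sum.inr (Sum.inl y)) => some (Sum.inr (Sum.inl y))
  | some (Sum.inr (Sum.inr y)) => some (Sum.inr (Sum.inr y.2))

/-- the coordinate which codes a fact -/
def coFact {K : Type} : Option (Fact K) → Coord K
  | some (Sum.inr (Sum.inr y)) => y.1
  | _ => Coord.base

theorem toFact_ofFact {K : Type} (x : Option (Fact K)) : toFact (coFact x) (ofFact x) = x := by
  rcases x with _ | y | y | y <;> rfl

section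
variable {K : Type}

/-- The fact that the truth value of `m ∈ z k` is `v`, where `z k` is the generic subset of `ℕ` with
the number `k`. -/
def zf (k : K) (m : ℕ) (v : Bool) : Fact K := Sum.inl (k, m, v)

/-- The fact that the generic function `e` has the value `n` at `(k, l)`. -/
def ef (k l : K) (n : ℕ) : Fact K := Sum.inr (Sum.inl (k, l, n))

/-- The fact that the function number `ξ` has the value `ρ` at `k`, and that the truth value of `k`
belonging to the set named by `ξ` is `ε`. -/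
def gf (ξ : Coord K) (k : K) (ρ : ℕ) (ε : Bool) : Fact K := Sum.inr (Sum.inr (ξ, k, ρ, ε))

theorem zf_inj {k l : K} {m n : ℕ} {v w : Bool} :
    zf k m v = zf l n w ↔ k = l ∧ m = n ∧ v = w := by simp [zf]

theorem ef_inj {k l k' l' : K} {n n' : ℕ} :
    ef k l n = ef k' l' n' ↔ k = k' ∧ l = l' ∧ n = n' := by simp [ef]

theorem gf_inj {ξ η : Coord K} {k l : K} {ρ σ : ℕ} {v w : Bool} :
    gf ξ k ρ v = gf η l σ w ↔ ξ = η ∧ k = l ∧ ρ = σ ∧ v = w := by simp [gf]

theorem zf_ne_ef {k l l' : K} {m n : ℕ} {v : Bool} : zf k m v ≠ ef l l' n := by simp [zf, ef]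

theorem zf_ne_gf {k l : K} {m n : ℕ} {v w : Bool} {ξ : Coord K} : zf k m v ≠ gf ξ l n w := by
  simp [zf, gf]

theorem ef_ne_gf {k k' l : K} {m n : ℕ} {w : Bool} {ξ : Coord K} : ef k k' m ≠ gf ξ l n w := by
  simp [ef, gf]

theorem cases_fact (x : Fact K) : (∃ k m v, x = zf k m v) ∨ (∃ k l n, x = ef k l n) ∨
    ∃ ξ k ρ ε, x = gf ξ k ρ ε := by
  rcases x with ⟨k, m, v⟩ | ⟨k, l, n⟩ | ⟨ξ, k, ρ, ε⟩
  · exact Or.inl ⟨k, m, v, rfl⟩
  · exact Or.inr (Or.inl ⟨k, l, n, rfl⟩)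
  · exact Or.inr (Or.inr ⟨ξ, k, ρ, ε, rfl⟩)

/-- The conditions: finite sets of facts which do not contradict each other, such that the truth
values in the facts of the third kind are justified, and such that any two elements which are
separated by the set named by `ξ` are already known to be different below the maximum of the values
of the function number `ξ`. -/
structure Valid (p : Set (Fact K)) : Prop where
  fin : p.Finite
  fun0 : ∀ k m v v', zf k m v ∈ p → zf k m v' ∈ p → v = v'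
  fune : ∀ k l n n', ef k l n ∈ p → ef k l n' ∈ p → n = n'
  fun1 : ∀ ξ k ρ ε ρ' ε', gf ξ k ρ ε ∈ p → gf ξ k ρ' ε' ∈ p → ρ = ρ' ∧ ε = ε'
  name : ∀ ξ k ρ ε, gf ξ k ρ ε ∈ p → ∃ b, ξ.val k b = ε ∧ ∀ n x, ξ.ent k b n = some x → x ∈ p
  sep : ∀ ξ k l ρ σ, gf ξ k ρ true ∈ p → gf ξ l σ false ∈ p →
    ∃ m, (m < ρ ∨ m < σ) ∧ ∃ v, zf k m v ∈ p ∧ zf l m (!v) ∈ p

variable (K) in
/-- The notion of forcing. -/
def Q : Type := {p : Set (Fact K) // Valid p}

instance : Preorder (Q K) where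
  le p q := q.1 ⊆ p.1
  le_refl _ := Subset.rfl
  le_trans _ _ _ h h' := h'.trans h

instance : Nonempty (Q K) :=
  ⟨⟨∅, finite_empty, by simp, by simp, by simp, by simp, by simp⟩⟩

/-- the elements of `K` and the coordinates which occur in a fact -/
def supp : Fact K → Set (K ⊕ Coord K)
  | Sum.inl y => {Sum.inl y.1}
  | Sum.inr (Sum.inl y) => {Sum.inl y.1, Sum.inl y.2.1}
  | Sum.inr (Sum.inr y) => {Sum.inr y.1, Sum.inl y.2.1}

/-- the elements of `K` and the coordinates which occur in a set of facts -/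
def occ (p : Set (Fact K)) : Set (K ⊕ Coord K) := ⋃ x ∈ p, supp x

theorem finite_occ {p : Set (Fact K)} (hp : p.Finite) : (occ p).Finite := by
  refine hp.biUnion fun x _ => ?_
  rcases x with y | y | y
  · exact finite_singleton _
  · exact (finite_singleton _).insert _
  · exact (finite_singleton _).insert _

theorem occ_zf {p : Set (Fact K)} {k : K} {m : ℕ} {v : Bool} (h : zf k m v ∈ p) :
    Sum.inl k ∈ occ p := mem_iUnion₂.2 ⟨_, h, rfl⟩

theorem occ_ef_left {p : Set (Fact K)} {k l : K} {n : ℕ} (h : ef k l n ∈ p) :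
    Sum.inl k ∈ occ p := mem_iUnion₂.2 ⟨_, h, Or.inl rfl⟩

theorem occ_ef_right {p : Set (Fact K)} {k l : K} {n : ℕ} (h : ef k l n ∈ p) :
    Sum.inl l ∈ occ p := mem_iUnion₂.2 ⟨_, h, Or.inr rfl⟩

theorem occ_gf_left {p : Set (Fact K)} {ξ : Coord K} {k : K} {ρ : ℕ} {ε : Bool}
    (h : gf ξ k ρ ε ∈ p) : Sum.inr ξ ∈ occ p := mem_iUnion₂.2 ⟨_, h, Or.inl rfl⟩

theorem occ_gf_right {p : Set (Fact K)} {ξ : Coord K} {k : K} {ρ : ℕ} {ε : Bool}
    (h : gf ξ k ρ ε ∈ p) : Sum.inl k ∈ occ p := mem_iUnion₂.2 ⟨_, h, Or.inr rfl⟩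

/-! ### amalgamation -/

/-- The general amalgamation lemma: the elements of `L` are new for `q`, and every one of them
imitates an element which is known to `q`. -/
theorem amalg {q p : Set (Fact K)} (hq : Valid q) (hp : Valid p) (L : Set K) (hL : L.Finite)
    (h : K → K)
    (hB0 : ∀ l m v, zf l m v ∈ p → l ∉ L → zf l m v ∈ q)
    (hB1 : ∀ l m v, zf l m v ∈ p → l ∈ L → zf (h l) m v ∈ q)
    (hC : ∀ l ∈ L, ∀ m v, zf l m v ∉ q)
    (hE : ∀ k l n n', ef k l n ∈ q → ef k l n' ∈ p → n = n')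
    (hG : ∀ ξ k ρ ε ρ' ε', gf ξ k ρ ε ∈ q → gf ξ k ρ' ε' ∈ p → ρ = ρ' ∧ ε = ε')
    (hS : ∀ ξ k ρ ε l σ ε', gf ξ k ρ ε ∈ q → gf ξ l σ ε' ∈ p →
      (l ∉ L ∧ gf ξ l σ ε' ∈ q) ∨ (l ∈ L ∧ gf ξ (h l) σ ε' ∈ q)) :
    Valid (q ∪ p ∪ {x | ∃ l ∈ L, ∃ m v, zf (h l) m v ∈ q ∧ x = zf l m v}) := by
  have hc : ∀ {l m v}, zf l m v ∈ (q ∪ p ∪ {x | ∃ l ∈ L, ∃ m v, zf (h l) m v ∈ q ∧ x = zf l m v}) →
      (l ∉ L ∧ zf l m v ∈ q) ∨ (l ∈ L ∧ zf (h l) m v ∈ q) := by
    rintro l m v ((h1 | h1) | ⟨l', hl', m', v', h1, h2⟩)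
    · by_cases hl : l ∈ L
      · exact absurd h1 (hC l hl m v)
      · exact Or.inl ⟨hl, h1⟩
    · by_cases hl : l ∈ L
      · exact Or.inr ⟨hl, hB1 l m v h1 hl⟩
      · exact Or.inl ⟨hl, hB0 l m v h1 hl⟩
    · obtain ⟨rfl, rfl, rfl⟩ := zf_inj.1 h2
      exact Or.inr ⟨hl', h1⟩
  have he : ∀ {k l n}, ef k l n ∈ (q ∪ p ∪ {x | ∃ l ∈ L, ∃ m v, zf (h l) m v ∈ q ∧ x = zf l m v}) →
      ef k l n ∈ q ∨ ef k l n ∈ p := by
    rintro k l n ((h1 | h1) | ⟨l', hl', m', v', h1, h2⟩)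
    · exact Or.inl h1
    · exact Or.inr h1
    · exact absurd h2.symm zf_ne_ef
  have hg : ∀ {ξ k ρ ε}, gf ξ k ρ ε ∈
      (q ∪ p ∪ {x | ∃ l ∈ L, ∃ m v, zf (h l) m v ∈ q ∧ x = zf l m v}) →
      gf ξ k ρ ε ∈ q ∨ gf ξ k ρ ε ∈ p := by
    rintro ξ k ρ ε ((h1 | h1) | ⟨l', hl', m', v', h1, h2⟩)
    · exact Or.inl h1
    · exact Or.inr h1
    · exact absurd h2.symm zf_ne_gf
  refine ⟨?_, ?_, ?_, ?_, ?_, ?_⟩
  · refine (hq.fin.union hp.fin).union ?_
    have h1 : {x : Fact K | ∃ l ∈ L, ∃ m v, zf (h l) m v ∈ q ∧ x = zf l m v} ⊆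
        ⋃ l ∈ L, (fun x : Fact K => match x with
          | Sum.inl y => zf l y.2.1 y.2.2
          | y => y) '' q := by
      rintro x ⟨l, hl, m, v, h1, rfl⟩
      exact mem_iUnion₂.2 ⟨l, hl, _, h1, rfl⟩
    exact (hL.biUnion fun l _ => hq.fin.image _).subset h1
  · intro l m v v' h1 h2
    rcases hc h1 with ⟨h3, h4⟩ | ⟨h3, h4⟩ <;> rcases hc h2 with ⟨h5, h6⟩ | ⟨h5, h6⟩
    · exact hq.fun0 _ _ _ _ h4 h6
    · exact absurd h5 h3
    · exact absurd h3 h5
    · exact hq.fun0 _ _ _ _ h4 h6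
  · intro k l n n' h1 h2
    rcases he h1 with h1 | h1 <;> rcases he h2 with h2 | h2
    · exact hq.fune _ _ _ _ h1 h2
    · exact hE _ _ _ _ h1 h2
    · exact (hE _ _ _ _ h2 h1).symm
    · exact hp.fune _ _ _ _ h1 h2
  · intro ξ k ρ ε ρ' ε' h1 h2
    rcases hg h1 with h1 | h1 <;> rcases hg h2 with h2 | h2
    · exact hq.fun1 _ _ _ _ _ _ h1 h2
    · exact hG _ _ _ _ _ _ h1 h2
    · exact ⟨(hG _ _ _ _ _ _ h2 h1).1.symm, (hG _ _ _ _ _ _ h2 h1).2.symm⟩
    · exact hp.fun1 _ _ _ _ _ _ h1 h2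
  · intro ξ k ρ ε h1
    rcases hg h1 with h1 | h1
    · obtain ⟨b, hb, hb'⟩ := hq.name _ _ _ _ h1
      exact ⟨b, hb, fun n x hx => Or.inl (Or.inl (hb' n x hx))⟩
    · obtain ⟨b, hb, hb'⟩ := hp.name _ _ _ _ h1
      exact ⟨b, hb, fun n x hx => Or.inl (Or.inr (hb' n x hx))⟩
  · intro ξ k l ρ σ h1 h2
    rcases hg h1 with h1 | h1 <;> rcases hg h2 with h2 | h2
    · obtain ⟨m, hm, v, h3, h4⟩ := hq.sep _ _ _ _ _ h1 h2
      exact ⟨m, hm, v, Or.inl (Or.inl h3), Or.inl (Or.inl h4)⟩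
    · rcases hS _ _ _ _ _ _ _ h1 h2 with ⟨_, h5⟩ | ⟨h5, h6⟩
      · obtain ⟨m, hm, v, h3, h4⟩ := hq.sep _ _ _ _ _ h1 h5
        exact ⟨m, hm, v, Or.inl (Or.inl h3), Or.inl (Or.inl h4)⟩
      · obtain ⟨m, hm, v, h3, h4⟩ := hq.sep _ _ _ _ _ h1 h6
        exact ⟨m, hm, v, Or.inl (Or.inl h3), Or.inr ⟨l, h5, m, _, h4, rfl⟩⟩
    · rcases hS _ _ _ _ _ _ _ h2 h1 with ⟨_, h5⟩ | ⟨h5, h6⟩
      · obtain ⟨m, hm, v, h3, h4⟩ := hq.sep _ _ _ _ _ h5 h2
        exact ⟨m, hm, v, Or.inl (Or.inl h3), Or.inl (Or.inl h4)⟩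
      · obtain ⟨m, hm, v, h3, h4⟩ := hq.sep _ _ _ _ _ h6 h2
        exact ⟨m, hm, v, Or.inr ⟨k, h5, m, _, h3, rfl⟩, Or.inl (Or.inl h4)⟩
    · obtain ⟨m, hm, v, h3, h4⟩ := hp.sep _ _ _ _ _ h1 h2
      exact ⟨m, hm, v, Or.inl (Or.inr h3), Or.inl (Or.inr h4)⟩

/-! ### codes -/

/-- patterns of facts -/
abbrev PF : Type := (ℕ × ℕ × Bool) ⊕ ((ℕ × ℕ × ℕ) ⊕ (ℕ × ℕ × ℕ × Bool))

/-- the fact with a given pattern -/
def dec (u : ℕ → K) (c : ℕ → Coord K) : PF → Fact K
  | Sum.inl y => zf (u y.1) y.2.1 y.2.2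
  | Sum.inr (Sum.inl y) => ef (u y.1) (u y.2.1) y.2.2
  | Sum.inr (Sum.inr y) => gf (c y.1) (u y.2.1) y.2.2.1 y.2.2.2

/-- all indices are below `M` -/
def Ok (M : ℕ) : PF → Prop
  | Sum.inl y => y.1 < M
  | Sum.inr (Sum.inl y) => y.1 < M ∧ y.2.1 < M
  | Sum.inr (Sum.inr y) => y.1 < M ∧ y.2.1 < M

theorem Ok.mono {M N : ℕ} (h : M ≤ N) {y : PF} (hy : Ok M y) : Ok N y := by
  rcases y with y | y | y
  · exact lt_of_lt_of_le hy h
  · exact ⟨hy.1.trans_le h, hy.2.trans_le h⟩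
  · exact ⟨hy.1.trans_le h, hy.2.trans_le h⟩

theorem dec_congr {u u' : ℕ → K} {c c' : ℕ → Coord K} {M : ℕ} (hu : ∀ a < M, u a = u' a)
    (hc : ∀ a < M, c a = c' a) {y : PF} (hy : Ok M y) : dec u c y = dec u' c' y := by
  rcases y with y | y | y
  · change zf _ _ _ = zf _ _ _
    rw [hu _ hy]
  · change ef _ _ _ = ef _ _ _
    rw [hu _ hy.1, hu _ hy.2]
  · change gf _ _ _ _ = gf _ _ _ _
    rw [hc _ hy.1, hu _ hy.2]

theorem exists_code {p : Set (Fact K)} (hp : p.Finite) (x y : K) :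
    ∃ (u : ℕ → K) (c : ℕ → Coord K) (t : Finset PF) (M : ℕ), u 0 = x ∧ u 1 = y ∧ 2 ≤ M ∧
      (∀ d ∈ t, Ok M d) ∧ ∀ f, f ∈ p ↔ ∃ d ∈ t, dec u c d = f := by
  classical
  induction p, hp using Set.Finite.induction_on with
  | empty =>
    exact ⟨fun n => if n = 0 then x else y, fun _ => Coord.base, ∅, 2, rfl, rfl, le_rfl,
      by simp, by simp⟩
  | @insert f s _ _ ih =>
    obtain ⟨u, c, t, M, h0, h1, h2, h3, h4⟩ := ih
    obtain ⟨k1, k2, ξ, d, hd, hdf⟩ : ∃ (k1 k2 : K) (ξ : Coord K) (d : PF), Ok (M + 2) d ∧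
        dec (fun n => if n = M then k1 else if n = M + 1 then k2 else u n)
          (fun n => if n = M then ξ else c n) d = f := by
      rcases cases_fact f with ⟨k, m, v, rfl⟩ | ⟨k, l, n, rfl⟩ | ⟨ξ, k, ρ, ε, rfl⟩
      · refine ⟨k, k, Coord.base, Sum.inl (M, m, v), ?_, ?_⟩
        · change M < M + 2
          omega
        · change zf (if M = M then k else _) m v = zf k m v
          rw [if_pos rfl]
      · refine ⟨k, l, Coord.base, Sum.inr (Sum.inl (M, M + 1, n)), ?_, ?_⟩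
        · exact ⟨show M < M + 2 by omega, show M + 1 < M + 2 by omega⟩
        · change ef (if M = M then k else _) (if M + 1 = M then k else
            if M + 1 = M + 1 then l else _) n = ef k l n
          rw [if_pos rfl, if_neg (by omega), if_pos rfl]
      · refine ⟨k, k, ξ, Sum.inr (Sum.inr (M, M, ρ, ε)), ?_, ?_⟩
        · exact ⟨show M < M + 2 by omega, show M < M + 2 by omega⟩
        · change gf (if M = M then ξ else _) (if M = M then k else _) ρ ε = gf ξ k ρ ε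
          rw [if_pos rfl, if_pos rfl]
    have hcongr : ∀ d' ∈ t, dec (fun n => if n = M then k1 else if n = M + 1 then k2 else u n)
          (fun n => if n = M then ξ else c n) d' = dec u c d' := by
      intro d' hd'
      refine dec_congr (M := M) ?_ ?_ (h3 d' hd')
      · intro a ha
        rw [if_neg (by omega), if_neg (by omega)]
      · intro a ha
        rw [if_neg (by omega)]
    refine ⟨fun n => if n = M then k1 else if n = M + 1 then k2 else u n,
      fun n => if n = M then ξ else c n, insert d t, M + 2, ?_, ?_, by omega, ?_, ?_⟩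
    · change (if 0 = M then k1 else if 0 = M + 1 then k2 else u 0) = x
      rw [if_neg (by omega), if_neg (by omega), h0]
    · change (if 1 = M then k1 else if 1 = M + 1 then k2 else u 1) = y
      rw [if_neg (by omega), if_neg (by omega), h1]
    · intro d' hd'
      rcases Finset.mem_insert.1 hd' with rfl | hd'
      · exact hd
      · exact (h3 d' hd').mono (by omega)
    · intro g
      rw [mem_insert_iff, h4]
      constructor
      · rintro (rfl | ⟨d', hd', rfl⟩)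
        · exact ⟨d, Finset.mem_insert_self _ _, hdf⟩
        · exact ⟨d', Finset.mem_insert_of_mem hd', hcongr d' hd'⟩
      · rintro ⟨d', hd', rfl⟩
        rcases Finset.mem_insert.1 hd' with rfl | hd'
        · exact Or.inl hdf
        · exact Or.inr ⟨d', hd', (hcongr d' hd').symm⟩

end

end Pool.Agent.R827.DS
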