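import Pool.Agent.R827.DS1

/-!
# Uncountable families of similar conditions
-/

set_option autoImplicit false

namespace Pool.Agent.R827.DS

open Set

variable {K : Type}

theorem main_class {J : Type} (hJ : ¬ (univ : Set J).Countable) (p : J → Q K) (x y : J → K)
    (N : J → ℕ) :
    ∃ 𝒞 : Set J, ¬ 𝒞.Countable ∧ (∀ α ∈ 𝒞, ∀ β ∈ 𝒞, N α = N β) ∧
      (Function.Injective x → ∀ α ∈ 𝒞, {γ ∈ 𝒞 | ∃ l n, ef (x α) l n ∈ (p γ).1}.Countable) ∧
      ∀ α ∈ 𝒞, ∀ β ∈ 𝒞, ∀ q : Q K, q ≤ p α → q ≤ p β → ∃ Bad : Set J, Bad.Countable ∧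
        ∀ γ ∈ 𝒞, γ ∉ Bad → ∃ w : Q K, w ≤ q ∧ w ≤ p γ ∧
          (∀ k l n, ef k l n ∈ w.1 → ef k l n ∈ q.1 ∨ ef k l n ∈ (p γ).1) ∧
          (Function.Injective x → Function.Injective y → (∀ i j, x i ≠ y j) →
            (∀ m v, zf (x α) m v ∈ q.1 → zf (x γ) m v ∈ w.1) ∧
            (∀ m v, zf (y β) m v ∈ q.1 → zf (y γ) m v ∈ w.1)) := by
  classical
  choose u c t M h0 h1 h2 h3 h4 using fun j => exists_code (p j).2.fin (x j) (y j)
  let τ : J → Finset PF × ℕ × Finset (ℕ × ℕ) × ℕ := fun j => (t j, M j,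
    ((Finset.range (M j)) ×ˢ (Finset.range (M j))).filter (fun a => u j a.1 = u j a.2), N j)
  obtain ⟨τ0, hτ0⟩ : ∃ τ0, ¬ {j | τ j = τ0}.Countable := by
    by_contra hcon
    push Not at hcon
    refine hJ ((countable_iUnion hcon).mono ?_)
    intro j _
    exact mem_iUnion.2 ⟨τ j, rfl⟩
  obtain ⟨t0, M0, E0, N0⟩ := τ0
  let wv : J → ℕ → K ⊕ Coord K := fun j b =>
    if b < M0 then Sum.inl (u j b) else Sum.inr (c j (b - M0))
  have hwv1 : ∀ j b, b < M0 → wv j b = Sum.inl (u j b) := fun j b hb => if_pos hb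
  have hwv2 : ∀ j a, wv j (M0 + a) = Sum.inr (c j a) := by
    intro j a
    have h : wv j (M0 + a) = Sum.inr (c j (M0 + a - M0)) := if_neg (by omega)
    rw [h, Nat.add_sub_cancel_left]
  let Gd : Finset ℕ → Prop := fun a => ∃ r : ℕ → K ⊕ Coord K,
    ¬ {j | τ j = (t0, M0, E0, N0) ∧ ∀ b ∈ a, wv j b = r b}.Countable
  have hGe : Gd ∅ := by
    obtain ⟨j0, _⟩ : ({j | τ j = (t0, M0, E0, N0)} : Set J).Nonempty := by
      rw [nonempty_iff_ne_empty]
      intro h
      exact hτ0 (h ▸ countable_empty)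
    refine ⟨wv j0, fun h => hτ0 (h.mono ?_)⟩
    intro j hj
    exact ⟨hj, by simp⟩
  obtain ⟨a, ha, hamax⟩ := Finset.exists_max_image
    ((Finset.range (2 * M0)).powerset.filter Gd) Finset.card
    ⟨∅, Finset.mem_filter.2 ⟨Finset.empty_mem_powerset _, hGe⟩⟩
  obtain ⟨ha1, r, hr⟩ := Finset.mem_filter.1 ha
  have ha1' := Finset.mem_powerset.1 ha1
  let 𝒞 : Set J := {j | τ j = (t0, M0, E0, N0) ∧ ∀ b ∈ a, wv j b = r b}
  have hCt : ∀ j ∈ 𝒞, t j = t0 := fun j hj => congrArg (fun z => z.1) hj.1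
  have hCM : ∀ j ∈ 𝒞, M j = M0 := fun j hj => congrArg (fun z => z.2.1) hj.1
  have hCN : ∀ j ∈ 𝒞, N j = N0 := fun j hj => congrArg (fun z => z.2.2.2) hj.1
  have hCE : ∀ j ∈ 𝒞, ∀ b b', b < M0 → b' < M0 → (u j b = u j b' ↔ (b, b') ∈ E0) := by
    intro j hj b b' hb hb'
    have h5 : ((Finset.range (M j)) ×ˢ (Finset.range (M j))).filter
        (fun a => u j a.1 = u j a.2) = E0 := congrArg (fun z => z.2.2.1) hj.1
    rw [← h5, Finset.mem_filter, Finset.mem_product, hCM j hj]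
    simp [hb, hb']
  have hpat : ∀ j ∈ 𝒞, ∀ j' ∈ 𝒞, ∀ b b', b < M0 → b' < M0 → u j b = u j b' → u j' b = u j' b' :=
    fun j hj j' hj' b b' hb hb' h => (hCE j' hj' b b' hb hb').2 ((hCE j hj b b' hb hb').1 h)
  have hroot1 : ∀ j ∈ 𝒞, ∀ j' ∈ 𝒞, ∀ b, b < M0 → b ∈ a → u j b = u j' b := by
    intro j hj j' hj' b hb hba
    have h5 := (hj.2 b hba).trans (hj'.2 b hba).symm
    rw [hwv1 j b hb, hwv1 j' b hb] at h5
    exact Sum.inl_injective h5
  have hroot2 : ∀ j ∈ 𝒞, ∀ j' ∈ 𝒞, ∀ b, M0 + b ∈ a → c j b = c j' b := by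
    intro j hj j' hj' b hba
    have h5 := (hj.2 _ hba).trans (hj'.2 _ hba).symm
    rw [hwv2, hwv2] at h5
    exact Sum.inr_injective h5
  have hfib : ∀ b < 2 * M0, b ∉ a → ∀ f, {j ∈ 𝒞 | wv j b = f}.Countable := by
    intro b hb hba f
    by_contra hn
    have h5 : Gd (insert b a) := by
      refine ⟨Function.update r b f, fun h => hn (h.mono ?_)⟩
      rintro j ⟨⟨hj1, hj2⟩, hj3⟩
      refine ⟨hj1, fun b' hb' => ?_⟩
      rcases Finset.mem_insert.1 hb' with rfl | hb'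
      · rw [Function.update_self]
        exact hj3
      · rw [Function.update_of_ne (fun h : b' = b => hba (h ▸ hb'))]
        exact hj2 b' hb'
    have h6 := hamax (insert b a) (Finset.mem_filter.2 ⟨Finset.mem_powerset.2
      (Finset.insert_subset (Finset.mem_range.2 hb) ha1'), h5⟩)
    rw [Finset.card_insert_of_notMem hba] at h6
    omega
  -- facts of the conditions
  have hmem : ∀ j ∈ 𝒞, ∀ f, f ∈ (p j).1 ↔ ∃ d ∈ t0, dec (u j) (c j) d = f := by
    intro j hj f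
    rw [h4 j f, hCt j hj]
  have hCne : 𝒞.Nonempty := by
    rw [nonempty_iff_ne_empty]
    intro h
    have h' : ¬ 𝒞.Countable := hr
    rw [h] at h'
    exact h' countable_empty
  have hok : ∀ d ∈ t0, Ok M0 d := by
    intro d hd
    obtain ⟨j, hj⟩ := hCne
    have h5 := h3 j d (by rw [hCt j hj]; exact hd)
    rwa [hCM j hj] at h5
  have hM2 : 2 ≤ M0 := by
    obtain ⟨j, hj⟩ := hCne
    rw [← hCM j hj]
    exact h2 j
  have hzf : ∀ j ∈ 𝒞, ∀ l m v, zf l m v ∈ (p j).1 → ∃ b, b < M0 ∧ Sum.inl (b, m, v) ∈ t0 ∧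
      u j b = l := by
    intro j hj l m v h
    obtain ⟨d, hd, hdf⟩ := (hmem j hj _).1 h
    rcases d with ⟨b, m', v'⟩ | ⟨b, b', n⟩ | ⟨a1, b, ρ, ε⟩
    · obtain ⟨h5, rfl, rfl⟩ := zf_inj.1 hdf
      exact ⟨b, hok _ hd, hd, h5⟩
    · exact absurd hdf.symm zf_ne_ef
    · exact absurd hdf.symm zf_ne_gf
  have hef : ∀ j ∈ 𝒞, ∀ k l n, ef k l n ∈ (p j).1 → ∃ b b', b < M0 ∧ b' < M0 ∧
      Sum.inr (Sum.inl (b, b', n)) ∈ t0 ∧ u j b = k ∧ u j b' = l := by
    intro j hj k l n h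
    obtain ⟨d, hd, hdf⟩ := (hmem j hj _).1 h
    rcases d with ⟨b, m', v'⟩ | ⟨b, b', n⟩ | ⟨a1, b, ρ, ε⟩
    · exact absurd hdf zf_ne_ef
    · obtain ⟨h5, h6, rfl⟩ := ef_inj.1 hdf
      exact ⟨b, b', (hok _ hd).1, (hok _ hd).2, hd, h5, h6⟩
    · exact absurd hdf.symm ef_ne_gf
  have hgf : ∀ j ∈ 𝒞, ∀ ξ k ρ ε, gf ξ k ρ ε ∈ (p j).1 → ∃ b b', b < M0 ∧ b' < M0 ∧
      Sum.inr (Sum.inr (b, b', ρ, ε)) ∈ t0 ∧ c j b = ξ ∧ u j b' = k := by
    intro j hj ξ k ρ ε h
    obtain ⟨d, hd, hdf⟩ := (hmem j hj _).1 h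
    rcases d with ⟨b, m', v'⟩ | ⟨b, b', n⟩ | ⟨a1, b, ρ', ε'⟩
    · exact absurd hdf zf_ne_gf
    · exact absurd hdf ef_ne_gf
    · obtain ⟨h5, h6, rfl, rfl⟩ := gf_inj.1 hdf
      exact ⟨a1, b, (hok _ hd).1, (hok _ hd).2, hd, h5, h6⟩
  have hzf' : ∀ j ∈ 𝒞, ∀ b m v, Sum.inl (b, m, v) ∈ t0 → zf (u j b) m v ∈ (p j).1 :=
    fun j hj b m v h => (hmem j hj _).2 ⟨_, h, rfl⟩
  have hef' : ∀ j ∈ 𝒞, ∀ b b' n, Sum.inr (Sum.inl (b, b', n)) ∈ t0 →
      ef (u j b) (u j b') n ∈ (p j).1 := fun j hj b b' n h => (hmem j hj _).2 ⟨_, h, rfl⟩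
  have hgf' : ∀ j ∈ 𝒞, ∀ b b' ρ ε, Sum.inr (Sum.inr (b, b', ρ, ε)) ∈ t0 →
      gf (c j b) (u j b') ρ ε ∈ (p j).1 := fun j hj b b' ρ ε h => (hmem j hj _).2 ⟨_, h, rfl⟩
  refine ⟨𝒞, hr, fun α hα β hβ => (hCN α hα).trans (hCN β hβ).symm, ?_, ?_⟩
  · intro hx α hα
    have h5 : {γ ∈ 𝒞 | ∃ l n, ef (x α) l n ∈ (p γ).1} ⊆ {α} ∪
        ⋃ b ∈ {b | b < 2 * M0 ∧ b ∉ a}, {γ ∈ 𝒞 | wv γ b = Sum.inl (x α)} := by
      rintro γ ⟨hγ, l, n, h⟩
      obtain ⟨b, b', hb, _, _, h6, _⟩ := hef γ hγ _ _ _ h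
      by_cases hba : b ∈ a
      · left
        have h7 : u α b = u α 0 := by rw [hroot1 α hα γ hγ b hb hba, h6, h0]
        have h8 := hpat α hα γ hγ b 0 hb (by omega) h7
        rw [h6, h0] at h8
        exact hx h8.symm
      · right
        refine mem_iUnion₂.2 ⟨b, ⟨by omega, hba⟩, hγ, ?_⟩
        rw [hwv1 γ b hb, h6]
    refine Countable.mono h5 ((countable_singleton α).union (Countable.biUnion ?_ ?_))
    · exact ((finite_lt_nat (2 * M0)).subset fun b hb => hb.1).countable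
    · rintro b ⟨hb, hba⟩
      exact hfib b hb hba _
  · intro α hα β hβ q hqα hqβ
    let F : Set (K ⊕ Coord K) := occ q.1
    have hF : F.Finite := finite_occ q.2.fin
    refine ⟨⋃ b ∈ {b | b < 2 * M0 ∧ b ∉ a}, ⋃ f ∈ F, {γ ∈ 𝒞 | wv γ b = f}, ?_, ?_⟩
    · refine Countable.biUnion ((finite_lt_nat (2 * M0)).subset fun b hb => hb.1).countable ?_
      rintro b ⟨hb, hba⟩
      exact Countable.biUnion hF.countable fun f _ => hfib b hb hba f
    · intro γ hγ hbad
      have hnb : ∀ b < 2 * M0, b ∉ a → wv γ b ∉ F := by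
        intro b hb hba hF'
        exact hbad (mem_iUnion₂.2 ⟨b, ⟨hb, hba⟩, mem_iUnion₂.2 ⟨_, hF', hγ, rfl⟩⟩)
      have hnb1 : ∀ b < M0, Sum.inl (u γ b) ∈ F → b ∈ a := by
        intro b hb h
        by_contra hba
        exact hnb b (by omega) hba (by rw [hwv1 γ b hb]; exact h)
      have hnb2 : ∀ b < M0, Sum.inr (c γ b) ∈ F → M0 + b ∈ a := by
        intro b hb h
        by_contra hba
        exact hnb (M0 + b) (by omega) hba (by rw [hwv2]; exact h)
      let L : Set K := {k | ∃ b, b < M0 ∧ b ∉ a ∧ u γ b = k}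
      have hL : L.Finite := by
        have : L ⊆ (u γ) '' {b | b < M0} := by
          rintro k ⟨b, hb, _, rfl⟩
          exact ⟨b, hb, rfl⟩
        exact ((finite_lt_nat M0).image _).subset this
      let h : K → K := fun l => if hl : ∃ b, b < M0 ∧ u γ b = l then
        (if l = y γ then u β hl.choose else u α hl.choose) else l
      have hh : ∀ b < M0, h (u γ b) = if u γ b = y γ then u β b else u α b := by
        intro b hb
        have hex : ∃ b', b' < M0 ∧ u γ b' = u γ b := ⟨b, hb, rfl⟩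
        have h5 : h (u γ b) = if u γ b = y γ then u β hex.choose else u α hex.choose :=
          dif_pos hex
        rw [h5, hpat γ hγ β hβ _ b hex.choose_spec.1 hb hex.choose_spec.2,
          hpat γ hγ α hα _ b hex.choose_spec.1 hb hex.choose_spec.2]
      have hnotL : ∀ b < M0, u γ b ∉ L → b ∈ a := by
        intro b hb hnL
        by_contra hba
        exact hnL ⟨b, hb, hba, rfl⟩
      have hLocc : ∀ l ∈ L, Sum.inl l ∉ F := by
        rintro l ⟨b, hb, hba, rfl⟩ hF'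
        exact hba (hnb1 b hb hF')
      have hV := amalg q.2 (p γ).2 L hL h ?_ ?_ ?_ ?_ ?_ ?_
      · refine ⟨⟨_, hV⟩, ?_, ?_, ?_, ?_⟩
        · intro f hf
          exact Or.inl (Or.inl hf)
        · intro f hf
          exact Or.inl (Or.inr hf)
        · rintro k l n ((h5 | h5) | ⟨l', hl', m', v', h5, h6⟩)
          · exact Or.inl h5
          · exact Or.inr h5
          · exact absurd h6.symm zf_ne_ef
        · intro hx hy hxy
          have h0a : 0 ∉ a := by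
            intro h0a
            refine hr (Set.Subsingleton.countable ?_)
            intro j hj j' hj'
            have h5 := hroot1 j hj j' hj' 0 (by omega) h0a
            rw [h0, h0] at h5
            exact hx h5
          have h1a : 1 ∉ a := by
            intro h1a
            refine hr (Set.Subsingleton.countable ?_)
            intro j hj j' hj'
            have h5 := hroot1 j hj j' hj' 1 (by omega) h1a
            rw [h1, h1] at h5
            exact hy h5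
          constructor
          · intro m v hm
            refine Or.inr ⟨x γ, ⟨0, by omega, h0a, h0 γ⟩, m, v, ?_, rfl⟩
            have h5 := hh 0 (by omega)
            rw [h0 γ, if_neg (hxy γ γ), h0 α] at h5
            rw [h5]
            exact hm
          · intro m v hm
            refine Or.inr ⟨y γ, ⟨1, by omega, h1a, h1 γ⟩, m, v, ?_, rfl⟩
            have h5 := hh 1 (by omega)
            rw [h1 γ, if_pos rfl, h1 β] at h5
            rw [h5]
            exact hm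
      · -- hB0
        intro l m v h5 hl
        obtain ⟨b, hb, hd, rfl⟩ := hzf γ hγ l m v h5
        rw [← hroot1 α hα γ hγ b hb (hnotL b hb hl)]
        exact hqα (hzf' α hα b m v hd)
      · -- hB1
        intro l m v h5 hl
        obtain ⟨b, hb, hd, rfl⟩ := hzf γ hγ l m v h5
        rw [hh b hb]
        split_ifs
        · exact hqβ (hzf' β hβ b m v hd)
        · exact hqα (hzf' α hα b m v hd)
      · -- hC
        intro l hl m v h5
        exact hLocc l hl (occ_zf h5)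
      · -- hE
        intro k l n n' h5 h6
        obtain ⟨b, b', hb, hb', hd, rfl, rfl⟩ := hef γ hγ k l n' h6
        refine q.2.fune _ _ _ _ h5 ?_
        rw [← hroot1 α hα γ hγ b hb (hnb1 b hb (occ_ef_left h5)),
          ← hroot1 α hα γ hγ b' hb' (hnb1 b' hb' (occ_ef_right h5))]
        exact hqα (hef' α hα b b' n' hd)
      · -- hG
        intro ξ k ρ ε ρ' ε' h5 h6
        obtain ⟨b, b', hb, hb', hd, rfl, rfl⟩ := hgf γ hγ ξ k ρ' ε' h6
        refine q.2.fun1 _ _ _ _ _ _ h5 ?_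
        rw [← hroot2 α hα γ hγ b (hnb2 b hb (occ_gf_left h5)),
          ← hroot1 α hα γ hγ b' hb' (hnb1 b' hb' (occ_gf_right h5))]
        exact hqα (hgf' α hα b b' ρ' ε' hd)
      · -- hS
        intro ξ k ρ ε l σ ε' h5 h6
        obtain ⟨b, b', hb, hb', hd, rfl, rfl⟩ := hgf γ hγ ξ l σ ε' h6
        have hb2 := hnb2 b hb (occ_gf_left h5)
        by_cases hl : u γ b' ∈ L
        · refine Or.inr ⟨hl, ?_⟩
          rw [hh b' hb']
          split_ifs
          · rw [← hroot2 β hβ γ hγ b hb2]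
            exact hqβ (hgf' β hβ b b' σ ε' hd)
          · rw [← hroot2 α hα γ hγ b hb2]
            exact hqα (hgf' α hα b b' σ ε' hd)
        · refine Or.inl ⟨hl, ?_⟩
          rw [← hroot2 α hα γ hγ b hb2, ← hroot1 α hα γ hγ b' hb' (hnotL b' hb' hl)]
          exact hqα (hgf' α hα b b' σ ε' hd)

/-- the countable chain condition -/
theorem ccc {J : Type} (hJ : ¬ (univ : Set J).Countable) (p : J → Q K) :
    ∃ i j, i ≠ j ∧ ∃ q, q ≤ p i ∧ q ≤ p j := by
  classical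
  by_cases hK : Nonempty K
  · obtain ⟨k⟩ := hK
    obtain ⟨𝒞, h1, _, _, h2⟩ := main_class hJ p (fun _ => k) (fun _ => k) (fun _ => 0)
    obtain ⟨α, hα⟩ : 𝒞.Nonempty := by
      rw [nonempty_iff_ne_empty]
      intro h
      exact h1 (h ▸ countable_empty)
    obtain ⟨Bad, hB, h3⟩ := h2 α hα α hα (p α) le_rfl le_rfl
    obtain ⟨γ, hγ, hγ'⟩ : ∃ γ ∈ 𝒞, γ ∉ insert α Bad := by
      by_contra hc
      push Not at hc
      exact h1 ((hB.insert α).mono hc)
    obtain ⟨w, hw1, hw2, _⟩ := h3 γ hγ (fun h => hγ' (Or.inr h))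
    exact ⟨α, γ, fun h => hγ' (Or.inl h.symm), w, hw1, hw2⟩
  · -- there are no facts
    have he : ∀ q : Q K, q.1 = ∅ := by
      intro q
      rw [eq_empty_iff_forall_notMem]
      intro f _
      rcases cases_fact f with ⟨k, _⟩ | ⟨k, _⟩ | ⟨_, k, _⟩ <;> exact hK ⟨k⟩
    obtain ⟨i, j, hij⟩ : ∃ i j : J, i ≠ j := by
      by_contra hc
      push Not at hc
      exact hJ (Set.Subsingleton.countable fun i _ j _ => hc i j)
    refine ⟨i, j, hij, p i, le_rfl, ?_⟩
    intro f hf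
    rw [he] at hf
    exact absurd hf (notMem_empty f)

end Pool.Agent.R827.DS
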