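import Pool.Agent.R827.DS2

/-!
# The principle, and the proof that all conditions force it
-/

set_option autoImplicit false

namespace Pool.Agent.R827.DS

open Set Pool.Agent.Helper669.Forcing
open Pool.Agent.R827.SN (Fun fiff fimp_of down_fiff)

/-- The finite sequence `s` is an initial segment of (the characteristic function of) the
subset `z` of `ℕ`. -/
def Seg (s : List Bool) (z : ℕ → Prop) : Prop :=
  ∀ m, (s[m]? = some true → z m) ∧ (s[m]? = some false → ¬ z m)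

/-- The principle for the set `K`: there are points `z k`, `k ∈ K`, of the Cantor set `2^ω` and a
function `e` from `K × K` to `ℕ` such that
(a) for every `A ⊆ K` there is a function `R : K → ℕ` such that for all `k ∈ A` and `l ∈ K ∖ A` the
points `z k` and `z l` differ at some `m < max (R k) (R l)`;
(b) for any open subsets `U n` of `2^ω × 2^ω`, given by families of boxes, if `U n` contains all
points `(z k, z l)` such that `n ≤ e k l`, then some point `(z k, z l)` belongs to all `U n`. -/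
def Principle (K : Type) : Prop :=
  ∃ z : K → ℕ → Prop, ∃ e : K → K → ℕ → Prop, (∀ k, Fun (e k)) ∧
    (∀ A : K → Prop, ∃ R : K → ℕ → Prop, Fun R ∧ ∀ k l a b, A k → ¬ A l → R k a → R l b →
      ∃ m, (m < a ∨ m < b) ∧ ¬ (z k m ↔ z l m)) ∧
    ∀ U : ℕ → List Bool → List Bool → Prop,
      (∀ k l n a, n ≤ a → e k l a → ∃ s t, U n s t ∧ Seg s (z k) ∧ Seg t (z l)) →
      ∃ k l, ∀ n, ∃ s t, U n s t ∧ Seg s (z k) ∧ Seg t (z l)

section
variable {P : Type} [Preorder P]

/-- `Seg s z` in the forcing language -/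
def SegH (s : List Bool) (z : ℕ → Set P) : Set P :=
  fall fun m => fand (fimp (fground (s[m]? = some true)) (meets (z m)))
    (fimp (fground (s[m]? = some false)) (fnot (meets (z m))))

/-- `(z k, z l)` belongs to the open set `U n`, in the forcing language -/
def BoxH {K : Type} (U : ℕ → List Bool → List Bool → Set P) (z : K → ℕ → Set P) (k l : K) (n : ℕ) :
    Set P :=
  fex fun s => fex fun t => fand (meets (U n s t)) (fand (SegH s (z k)) (SegH t (z l)))

end

/-- The sentence of the forcing language which expresses `Principle K`: a literal translation, in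
which the quantifiers over relations and sets have become quantifiers over names. -/
def PrincipleHolds (P K : Type) [Preorder P] : Set P :=
  fex fun z : K → ℕ → Set P => fex fun e : K → K → ℕ → Set P =>
    fand (fall fun k => IsFun (e k)) <|
    fand (fall fun A : K → Set P => fex fun R : K → ℕ → Set P =>
      fand (IsFun R) (fall fun k => fall fun l => fall fun a => fall fun b =>
        fimp (meets (A k)) (fimp (fnot (meets (A l))) (fimp (meets (R k a)) (fimp (meets (R l b))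
          (fex fun m => fand (fground (m < a ∨ m < b))
            (fnot (fiff (meets (z k m)) (meets (z l m)))))))))) <|
    fall fun U : ℕ → List Bool → List Bool → Set P =>
      fimp (fall fun k => fall fun l => fall fun n => fall fun a =>
          fimp (fground (n ≤ a)) (fimp (meets (e k l a)) (BoxH U z k l n)))
        (fex fun k => fex fun l => fall fun n => BoxH U z k l n)

section
variable {K : Type}

theorem exists_add_zf (p : Q K) (k : K) (m : ℕ) : ∃ q ≤ p, ∃ v, zf k m v ∈ q.1 := by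
  by_cases hex : ∃ v, zf k m v ∈ p.1
  · exact ⟨p, le_rfl, hex⟩
  push Not at hex
  have hz : ∀ {l n v}, zf l n v ∈ insert (zf k m true) p.1 →
      (l = k ∧ n = m ∧ v = true) ∨ zf l n v ∈ p.1 := by
    rintro l n v (h | h)
    · obtain ⟨rfl, rfl, rfl⟩ := zf_inj.1 h
      exact Or.inl ⟨rfl, rfl, rfl⟩
    · exact Or.inr h
  have he : ∀ {l l' n}, ef l l' n ∈ insert (zf k m true) p.1 → ef l l' n ∈ p.1 := by
    rintro l l' n (h | h)
    · exact absurd h.symm zf_ne_ef
    · exact h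
  have hg : ∀ {ξ l ρ ε}, gf ξ l ρ ε ∈ insert (zf k m true) p.1 → gf ξ l ρ ε ∈ p.1 := by
    rintro ξ l ρ ε (h | h)
    · exact absurd h.symm zf_ne_gf
    · exact h
  refine ⟨⟨insert (zf k m true) p.1, p.2.fin.insert _, ?_, ?_, ?_, ?_, ?_⟩,
    subset_insert _ _, true, mem_insert _ _⟩
  · intro l n v v' h1 h2
    rcases hz h1 with ⟨ha, hb, hc⟩ | h1' <;> rcases hz h2 with ⟨ha', hb', hc'⟩ | h2'
    · rw [hc, hc']
    · rw [ha, hb] at h2'
      exact absurd h2' (hex _)
    · rw [ha', hb'] at h1'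
      exact absurd h1' (hex _)
    · exact p.2.fun0 _ _ _ _ h1' h2'
  · intro l l' n n' h1 h2
    exact p.2.fune _ _ _ _ (he h1) (he h2)
  · intro ξ l ρ ε ρ' ε' h1 h2
    exact p.2.fun1 _ _ _ _ _ _ (hg h1) (hg h2)
  · intro ξ l ρ ε h1
    obtain ⟨b, hb, hb'⟩ := p.2.name _ _ _ _ (hg h1)
    exact ⟨b, hb, fun n x hx => Or.inr (hb' n x hx)⟩
  · intro ξ l l' ρ σ h1 h2
    obtain ⟨n, hn, v, h3, h4⟩ := p.2.sep _ _ _ _ _ (hg h1) (hg h2)
    exact ⟨n, hn, v, Or.inr h3, Or.inr h4⟩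

theorem exists_set_ef (p : Q K) (k l : K) (n : ℕ) (hno : ∀ n', ef k l n' ∉ p.1) :
    ∃ q ≤ p, ef k l n ∈ q.1 := by
  have hz : ∀ {l' m v}, zf l' m v ∈ insert (ef k l n) p.1 → zf l' m v ∈ p.1 := by
    rintro l' m v (h | h)
    · exact absurd h zf_ne_ef
    · exact h
  have he : ∀ {a b m}, ef a b m ∈ insert (ef k l n) p.1 →
      (a = k ∧ b = l ∧ m = n) ∨ ef a b m ∈ p.1 := by
    rintro a b m (h | h)
    · exact Or.inl (ef_inj.1 h)
    · exact Or.inr h
  have hg : ∀ {ξ a ρ ε}, gf ξ a ρ ε ∈ insert (ef k l n) p.1 → gf ξ a ρ ε ∈ p.1 := by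
    rintro ξ a ρ ε (h | h)
    · exact absurd h.symm ef_ne_gf
    · exact h
  refine ⟨⟨insert (ef k l n) p.1, p.2.fin.insert _, ?_, ?_, ?_, ?_, ?_⟩,
    subset_insert _ _, mem_insert _ _⟩
  · intro a m v v' h1 h2
    exact p.2.fun0 _ _ _ _ (hz h1) (hz h2)
  · intro a b m m' h1 h2
    rcases he h1 with ⟨ha, hb, h3⟩ | h1' <;> rcases he h2 with ⟨ha', hb', h4⟩ | h2'
    · rw [h3, h4]
    · rw [ha, hb] at h2'
      exact absurd h2' (hno _)
    · rw [ha', hb'] at h1'
      exact absurd h1' (hno _)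
    · exact p.2.fune _ _ _ _ h1' h2'
  · intro ξ a ρ ε ρ' ε' h1 h2
    exact p.2.fun1 _ _ _ _ _ _ (hg h1) (hg h2)
  · intro ξ a ρ ε h1
    obtain ⟨b, hb, hb'⟩ := p.2.name _ _ _ _ (hg h1)
    exact ⟨b, hb, fun n x hx => Or.inr (hb' n x hx)⟩
  · intro ξ a b ρ σ h1 h2
    obtain ⟨m, hm, v, h3, h4⟩ := p.2.sep _ _ _ _ _ (hg h1) (hg h2)
    exact ⟨m, hm, v, Or.inr h3, Or.inr h4⟩

theorem exists_add_gf (p : Q K) (ξ : Coord K) (k : K) (b : ℕ)
    (h : ∀ n x, ξ.ent k b n = some x → x ∈ p.1) : ∃ q ≤ p, ∃ ρ ε, gf ξ k ρ ε ∈ q.1 := by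
  by_cases hex : ∃ ρ ε, gf ξ k ρ ε ∈ p.1
  · exact ⟨p, le_rfl, hex⟩
  push Not at hex
  have hJ : {l : K | ∃ ρ ε, gf ξ l ρ ε ∈ p.1}.Finite := by
    have h1 : (Sum.inl '' {l : K | ∃ ρ ε, gf ξ l ρ ε ∈ p.1} : Set (K ⊕ Coord K)) ⊆ occ p.1 := by
      rintro _ ⟨l, ⟨ρ, ε, hl⟩, rfl⟩
      exact occ_gf_right hl
    exact Set.Finite.of_finite_image ((finite_occ p.2.fin).subset h1) Sum.inl_injective.injOn
  have hS : {m : ℕ | ∃ l v, zf l m v ∈ p.1}.Finite := by
    have h1 : {m : ℕ | ∃ l v, zf l m v ∈ p.1} ⊆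
        (fun x : Fact K => match x with
          | Sum.inl y => y.2.1
          | _ => 0) '' p.1 := by
      rintro m ⟨l, v, hm⟩
      exact ⟨_, hm, rfl⟩
    exact (p.2.fin.image _).subset h1
  obtain ⟨b0, hb0⟩ := hS.bddAbove
  have hlt : ∀ {l m v}, zf l m v ∈ p.1 → m < b0 + 1 := fun {l m v} hm =>
    Nat.lt_succ_of_le (hb0 ⟨l, v, hm⟩)
  let q : Set (Fact K) := p.1 ∪ ({zf k (b0 + 1) true} ∪
    ((fun l => zf l (b0 + 1) false) '' {l : K | ∃ ρ ε, gf ξ l ρ ε ∈ p.1} ∪
      {gf ξ k (b0 + 2) (ξ.val k b)}))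
  have hz : ∀ {l m v}, zf l m v ∈ q → zf l m v ∈ p.1 ∨ (m = b0 + 1 ∧ ((l = k ∧ v = true) ∨
      (v = false ∧ ∃ ρ ε, gf ξ l ρ ε ∈ p.1))) := by
    intro l m v hl
    rcases hl with hl | hl | ⟨l', hl', hl⟩ | hl
    · exact Or.inl hl
    · obtain ⟨h1, h2, h3⟩ := zf_inj.1 hl
      exact Or.inr ⟨h2, Or.inl ⟨h1, h3⟩⟩
    · obtain ⟨rfl, h2, h3⟩ := zf_inj.1 hl
      exact Or.inr ⟨h2.symm, Or.inr ⟨h3.symm, hl'⟩⟩
    · exact absurd hl zf_ne_gf
  have he : ∀ {l l' n}, ef l l' n ∈ q → ef l l' n ∈ p.1 := by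
    intro l l' n hl
    rcases hl with hl | hl | ⟨l', hl', hl⟩ | hl
    · exact hl
    · exact absurd hl.symm zf_ne_ef
    · exact absurd hl zf_ne_ef
    · exact absurd hl ef_ne_gf
  have hg : ∀ {η l ρ ε}, gf η l ρ ε ∈ q → gf η l ρ ε ∈ p.1 ∨
      (η = ξ ∧ l = k ∧ ρ = b0 + 2 ∧ ε = ξ.val k b) := by
    intro η l ρ ε hl
    rcases hl with hl | hl | ⟨l', hl', hl⟩ | hl
    · exact Or.inl hl
    · exact absurd hl.symm zf_ne_gf
    · exact absurd hl zf_ne_gf
    · exact Or.inr (gf_inj.1 hl)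
  have hi0 : zf k (b0 + 1) true ∈ q := Or.inr (Or.inl rfl)
  have hj0 : ∀ {l ρ ε}, gf ξ l ρ ε ∈ p.1 → zf l (b0 + 1) false ∈ q := fun {l ρ ε} hl =>
    Or.inr (Or.inr (Or.inl ⟨l, ⟨ρ, ε, hl⟩, rfl⟩))
  have hvalid : Valid q := by
    refine ⟨?_, ?_, ?_, ?_, ?_, ?_⟩
    · exact p.2.fin.union ((finite_singleton _).union ((hJ.image _).union (finite_singleton _)))
    · intro l m v v' h1 h2
      rcases hz h1 with h1 | ⟨h1, h1'⟩ <;> rcases hz h2 with h2 | ⟨h2, h2'⟩
      · exact p.2.fun0 _ _ _ _ h1 h2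
      · exact absurd h2 (hlt h1).ne
      · exact absurd h1 (hlt h2).ne
      · rcases h1' with ⟨rfl, rfl⟩ | ⟨rfl, ρ, ε, h3⟩ <;>
          rcases h2' with ⟨h4, rfl⟩ | ⟨rfl, ρ', ε', h4⟩
        · rfl
        · exact absurd h4 (hex _ _)
        · rw [h4] at h3
          exact absurd h3 (hex _ _)
        · rfl
    · intro l l' n n' h1 h2
      exact p.2.fune _ _ _ _ (he h1) (he h2)
    · intro η l ρ ε ρ' ε' h1 h2
      rcases hg h1 with h1 | ⟨rfl, rfl, rfl, rfl⟩ <;>
        rcases hg h2 with h2 | ⟨h2, h3, h4, h5⟩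
      · exact p.2.fun1 _ _ _ _ _ _ h1 h2
      · rw [h2, h3] at h1
        exact absurd h1 (hex _ _)
      · exact absurd h2 (hex _ _)
      · exact ⟨h4.symm, h5.symm⟩
    · intro η l ρ ε h1
      rcases hg h1 with h1 | ⟨rfl, rfl, rfl, rfl⟩
      · obtain ⟨b', h2, h3⟩ := p.2.name _ _ _ _ h1
        exact ⟨b', h2, fun n x hx => Or.inl (h3 n x hx)⟩
      · exact ⟨b, rfl, fun n x hx => Or.inl (h n x hx)⟩
    · intro η l l' ρ σ h1 h2
      rcases hg h1 with h1 | ⟨rfl, rfl, rfl, h6⟩ <;>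
        rcases hg h2 with h2 | ⟨h2, h3, h4, h5⟩
      · obtain ⟨m, h3, v, h4, h5⟩ := p.2.sep _ _ _ _ _ h1 h2
        exact ⟨m, h3, v, Or.inl h4, Or.inl h5⟩
      · refine ⟨b0 + 1, Or.inr (by rw [h4]; omega), false, hj0 (h2 ▸ h1), ?_⟩
        rw [h3]
        exact hi0
      · exact ⟨b0 + 1, Or.inl (by omega), true, hi0, hj0 h2⟩
      · exact Bool.noConfusion (h6.trans h5.symm)
  exact ⟨⟨q, hvalid⟩, subset_union_left, b0 + 2, ξ.val k b, Or.inr (Or.inr (Or.inr rfl))⟩

/-- the name of the family of the generic reals -/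
def zn (k : K) (m : ℕ) : Set (Q K) := {q | zf k m true ∈ q.1}

/-- the name of the generic function -/
def en (k l : K) (n : ℕ) : Set (Q K) := {q | ef k l n ∈ q.1}

theorem down_zn (k : K) (m : ℕ) : Down (zn k m) := fun _ hp _ hq => hq hp

theorem down_en (k l : K) (n : ℕ) : Down (en k l n) := fun _ hp _ hq => hq hp

theorem meets_zn {q : Q K} {k : K} {m : ℕ} (h : zf k m true ∈ q.1) : q ∈ meets (zn k m) :=
  meets_of_mem h

theorem fnot_zn {q : Q K} {k : K} {m : ℕ} (h : zf k m false ∈ q.1) : q ∈ fnot (meets (zn k m)) := by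
  intro r hr hr'
  obtain ⟨s, hs, h1⟩ := exists_of_meets (down_zn k m) hr'
  exact Bool.noConfusion (s.2.fun0 k m true false h1 (hs (hr h)))

theorem seg_of_facts {q : Q K} {k : K} {s : List Bool}
    (h : ∀ m v, s[m]? = some v → zf k m v ∈ q.1) : q ∈ SegH s (zn k) := by
  intro m
  refine ⟨fimp_of fun r hr h1 => ?_, fimp_of fun r hr h1 => ?_⟩
  · exact down_meets _ _ (meets_zn (h m true h1)) _ hr
  · exact down_fnot _ _ (fnot_zn (h m false h1)) _ hr

theorem down_SegH {P : Type} [Preorder P] (s : List Bool) (z : ℕ → Set P) : Down (SegH s z) :=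
  down_fall fun _ => down_fand (down_fimp _ _) (down_fimp _ _)

theorem down_BoxH {P : Type} [Preorder P] (U : ℕ → List Bool → List Bool → Set P)
    (z : K → ℕ → Set P) (k l : K) (n : ℕ) : Down (BoxH U z k l n) := down_fex _

theorem facts_of_seg {q : Q K} {k : K} {s : List Bool} (h : q ∈ SegH s (zn k)) :
    ∃ r ≤ q, ∀ m v, s[m]? = some v → zf k m v ∈ r.1 := by
  have key : ∀ n, ∃ r ≤ q, ∀ m < n, ∀ v, s[m]? = some v → zf k m v ∈ r.1 := by
    intro n
    induction n with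
    | zero => exact ⟨q, le_rfl, fun m hm => absurd hm (Nat.not_lt_zero m)⟩
    | succ n ih =>
      obtain ⟨r, hr, h1⟩ := ih
      obtain ⟨r', hr', v', hv'⟩ := exists_add_zf r k n
      refine ⟨r', hr'.trans hr, fun m hm v hv => ?_⟩
      rcases Nat.lt_succ_iff_lt_or_eq.1 hm with hm | rfl
      · exact hr' (h1 m hm v hv)
      · have hvv : v' = v := by
          cases v with
          | true =>
            obtain ⟨r1, hr1, h2⟩ := mem_fimp.1 (h m).1 r' (hr'.trans hr) hv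
            obtain ⟨r2, hr2, h3⟩ := exists_of_meets (down_zn k m) h2
            exact r2.2.fun0 k m v' true (hr2 (hr1 hv')) h3
          | false =>
            cases v' with
            | false => rfl
            | true =>
              exfalso
              obtain ⟨r1, hr1, h2⟩ := mem_fimp.1 (h m).2 r' (hr'.trans hr) hv
              exact h2 r1 le_rfl (meets_zn (hr1 hv'))
        rw [← hvv]
        exact hv'
  obtain ⟨r, hr, h1⟩ := key s.length
  refine ⟨r, hr, fun m v hv => h1 m ?_ v hv⟩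
  by_contra hc
  rw [List.getElem?_eq_none (not_lt.1 hc)] at hv
  exact absurd hv (by simp)

/-- every name for a subset of `K` has a code -/
theorem exists_name (A : K → Set (Q K)) :
    ∃ (ξ : Coord K) (s : K → ℕ → Q K),
      (∀ i b x, x ∈ (s i b).1 ↔ ∃ n, ξ.ent i b n = some x) ∧
      (∀ i b, ξ.val i b = true → s i b ∈ meets (A i)) ∧
      (∀ i b, ξ.val i b = false → s i b ∈ fnot (meets (A i))) ∧
      ∀ i q, ∃ b, ∃ r ≤ q, r ≤ s i b := by
  classical
  have h1 : ∀ i, ∃ s : ℕ → Q K,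
      (∀ b, s b ∈ meets (A i) ∨ s b ∈ fnot (meets (A i))) ∧ ∀ q, ∃ b, ∃ r ≤ q, r ≤ s b := by
    intro i
    let 𝓐 : Set (Set (Q K)) := {a | (∀ p ∈ a, p ∈ meets (A i) ∨ p ∈ fnot (meets (A i))) ∧
      ∀ p ∈ a, ∀ q ∈ a, p ≠ q → ¬ ∃ r, r ≤ p ∧ r ≤ q}
    obtain ⟨a, ha⟩ : ∃ a, Maximal (fun a => a ∈ 𝓐) a := by
      refine zorn_subset 𝓐 ?_
      intro c hc hchain
      refine ⟨⋃₀ c, ⟨?_, ?_⟩, fun s hs => subset_sUnion_of_mem hs⟩
      · rintro p ⟨s, hs, hp⟩
        exact (hc hs).1 p hp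
      · rintro p ⟨s, hs, hp⟩ q ⟨t, ht, hq⟩ hne
        rcases hchain.total hs ht with h | h
        · exact (hc ht).2 p (h hp) q hq hne
        · exact (hc hs).2 p hp q (h hq) hne
    have hcard : a.Countable := by
      by_contra hcon
      have hcon' : ¬ (univ : Set a).Countable := by
        intro h
        exact hcon (countable_coe_iff.1 (countable_univ_iff.1 h))
      obtain ⟨k, l, hkl, r, hr1, hr2⟩ := ccc hcon' (fun x : a => x.1)
      exact ha.prop.2 k.1 k.2 l.1 l.2 (fun h => hkl (Subtype.ext h)) ⟨r, hr1, hr2⟩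
    have hmax : ∀ q : Q K, ∃ p ∈ a, ∃ r ≤ q, r ≤ p := by
      intro q
      obtain ⟨q', hq', hdec⟩ : ∃ q' ≤ q, q' ∈ meets (A i) ∨ q' ∈ fnot (meets (A i)) := by
        by_cases h : ∃ r ≤ q, r ∈ meets (A i)
        · obtain ⟨r, hr, h⟩ := h
          exact ⟨r, hr, Or.inl h⟩
        · push Not at h
          exact ⟨q, le_rfl, Or.inr h⟩
      by_contra hcon
      push Not at hcon
      have hno : ∀ p ∈ a, ¬ ∃ r, r ≤ p ∧ r ≤ q' := by
        rintro p hp ⟨r, hr1, hr2⟩
        exact hcon p hp r (hr2.trans hq') hr1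
      have hin : insert q' a ∈ 𝓐 := by
        refine ⟨?_, ?_⟩
        · rintro p (rfl | hp)
          · exact hdec
          · exact ha.prop.1 p hp
        · rintro p (rfl | hp) s (rfl | hs) hne
          · exact absurd rfl hne
          · rintro ⟨r, hr1, hr2⟩
            exact hno s hs ⟨r, hr2, hr1⟩
          · exact hno p hp
          · exact ha.prop.2 p hp s hs hne
      have hmem : q' ∈ a := ha.le_of_ge hin (subset_insert _ _) (mem_insert _ _)
      exact hno q' hmem ⟨q', le_rfl, le_rfl⟩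
    obtain ⟨p0, hp0, _⟩ := hmax (Classical.arbitrary _)
    obtain ⟨f, hf⟩ := hcard.exists_eq_range ⟨p0, hp0⟩
    refine ⟨f, fun b => ha.prop.1 _ (by rw [hf]; exact mem_range_self b), fun q => ?_⟩
    obtain ⟨p, hp, r, hr1, hr2⟩ := hmax q
    rw [hf] at hp
    obtain ⟨b, rfl⟩ := hp
    exact ⟨b, r, hr1, hr2⟩
  choose s hs1 hs2 using h1
  have h2 : ∀ q : Q K, ∃ f : ℕ → Option (Fact K), ∀ x, x ∈ q.1 ↔ ∃ n, f n = some x := by
    intro q
    rcases q.1.eq_empty_or_nonempty with h | h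
    · exact ⟨fun _ => none, fun x => by rw [h]; simp⟩
    · obtain ⟨f, hf⟩ := q.2.fin.countable.exists_eq_range h
      exact ⟨fun n => some (f n), fun x => by rw [hf]; simp⟩
  choose e he using h2
  refine ⟨Coord.mk (fun i b n => ofFact (e (s i b) n)) (fun i b n => coFact (e (s i b) n))
    (fun i b => decide (s i b ∈ meets (A i))), s, ?_, ?_, ?_, hs2⟩
  · intro i b x
    refine (he (s i b) x).trans ?_
    refine exists_congr fun n => ?_
    change _ ↔ toFact (coFact (e (s i b) n)) (ofFact (e (s i b) n)) = some x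
    rw [toFact_ofFact]
  · intro i b h
    exact of_decide_eq_true h
  · intro i b h
    exact (hs1 i b).resolve_left (of_decide_eq_false h)

/-- part (a) -/
theorem forced_a (p : Q K) :
    p ∈ fall fun A : K → Set (Q K) => fex fun R : K → ℕ → Set (Q K) =>
      fand (IsFun R) (fall fun i => fall fun j => fall fun ρ => fall fun σ =>
        fimp (meets (A i)) (fimp (fnot (meets (A j))) (fimp (meets (R i ρ)) (fimp (meets (R j σ))
          (fex fun m => fand (fground (m < ρ ∨ m < σ))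
            (fnot (fiff (meets (zn i m)) (meets (zn j m))))))))) := by
  intro A
  obtain ⟨ξ, s, hs, hs1, hs2, hs3⟩ := exists_name A
  have hRd : ∀ i ρ, Down {q : Q K | ∃ e, gf ξ i ρ e ∈ q.1} :=
    fun i ρ p ⟨e, he⟩ q hq => ⟨e, hq he⟩
  refine mem_fex_of_mem (fun i ρ => {q | ∃ e, gf ξ i ρ e ∈ q.1}) ?_ ?_
  · exact down_fand (down_IsFun _) (down_fall fun _ => down_fall fun _ => down_fall fun _ =>
      down_fall fun _ => down_fimp _ _)
  · refine ⟨⟨fun i => ?_, fun i ρ ρ' => ?_⟩, fun i j ρ σ => ?_⟩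
    · rw [mem_fex]
      intro q _
      obtain ⟨b, r, hr1, hr2⟩ := hs3 i q
      obtain ⟨r', hr', ρ, e, h⟩ := exists_add_gf r ξ i b
        (fun n x hx => hr2 ((hs i b x).2 ⟨n, hx⟩))
      exact ⟨r', hr'.trans hr1, ρ, meets_of_mem ⟨e, h⟩⟩
    · refine fimp_of fun q _ hq => ?_
      obtain ⟨r1, hr1, e, h1⟩ := exists_of_meets (hRd i ρ) hq.1
      obtain ⟨r2, hr2, e', h2⟩ := exists_of_meets (hRd i ρ') (down_meets _ _ hq.2 _ hr1)
      exact (r2.2.fun1 ξ i ρ e ρ' e' (hr2 h1) h2).1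
    · refine fimp_of fun q1 _ hAi => fimp_of fun q2 hq2 hAj => fimp_of fun q3 hq3 hRi =>
        fimp_of fun q4 hq4 hRj => ?_
      rw [mem_fex]
      intro q hq
      obtain ⟨r1, hr1, e, h1⟩ := exists_of_meets (hRd i ρ)
        (down_meets _ _ hRi _ (hq.trans hq4))
      obtain ⟨r, hr2, e', h2⟩ := exists_of_meets (hRd j σ)
        (down_meets _ _ hRj _ (hr1.trans hq))
      have h1' : gf ξ i ρ e ∈ r.1 := hr2 h1
      have hrq : r ≤ q := hr2.trans hr1
      obtain ⟨b, hb1, hb2⟩ := r.2.name ξ i ρ e h1'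
      obtain ⟨b', hb1', hb2'⟩ := r.2.name ξ j σ e' h2
      have hle : r ≤ s i b := by
        intro x hx
        obtain ⟨n, hn⟩ := (hs i b x).1 hx
        exact hb2 n x hn
      have hle' : r ≤ s j b' := by
        intro x hx
        obtain ⟨n, hn⟩ := (hs j b' x).1 hx
        exact hb2' n x hn
      have he : e = true := by
        by_contra he
        rw [Bool.not_eq_true] at he
        exact hs2 i b (hb1.trans he) r hle
          (down_meets _ _ hAi _ (hrq.trans (hq.trans (hq4.trans (hq3.trans hq2)))))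
      have he' : e' = false := by
        by_contra he'
        rw [Bool.not_eq_false] at he'
        exact hAj r (hrq.trans (hq.trans (hq4.trans hq3)))
          (down_meets _ _ (hs1 j b' (hb1'.trans he')) _ hle')
      subst he
      subst he'
      obtain ⟨β, hβ, v, hv, hv'⟩ := r.2.sep ξ i j ρ σ h1' h2
      refine ⟨r, hrq, β, hβ, ?_⟩
      intro r' hr' hiff
      cases v with
      | true =>
        obtain ⟨t, ht, h4⟩ := mem_fimp.1 hiff.1 r' le_rfl (meets_zn (hr' hv))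
        exact fnot_zn (ht (hr' hv')) t le_rfl h4
      | false =>
        obtain ⟨t, ht, h4⟩ := mem_fimp.1 hiff.2 r' le_rfl (meets_zn (hr' hv'))
        exact fnot_zn (ht (hr' hv)) t le_rfl h4

/-- the generic function is defined everywhere -/
theorem forced_e (p : Q K) (k : K) : p ∈ IsFun (en (K := K) k) := by
  refine ⟨fun l => ?_, fun l n n' => ?_⟩
  · rw [mem_fex]
    intro q _
    by_cases h : ∃ n, ef k l n ∈ q.1
    · obtain ⟨n, hn⟩ := h
      exact ⟨q, le_rfl, n, meets_of_mem hn⟩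
    · push Not at h
      obtain ⟨r, hr, h'⟩ := exists_set_ef q k l 0 h
      exact ⟨r, hr, 0, meets_of_mem h'⟩
  · refine fimp_of fun q _ hq => ?_
    obtain ⟨r1, hr1, h1⟩ := exists_of_meets (down_en k l n) hq.1
    obtain ⟨r2, hr2, h2⟩ := exists_of_meets (down_en k l n') (down_meets _ _ hq.2 _ hr1)
    exact r2.2.fune k l n n' (hr2 h1) h2

/-- part (b) -/
theorem forced_b {I : Type} (hI : ¬ (univ : Set I).Countable) (p : Q (I ⊕ I)) :
    p ∈ fall fun U : ℕ → List Bool → List Bool → Set (Q (I ⊕ I)) =>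
      fimp (fall fun k => fall fun l => fall fun n => fall fun a =>
          fimp (fground (n ≤ a)) (fimp (meets (en k l a)) (BoxH U zn k l n)))
        (fex fun k => fex fun l => fall fun n => BoxH U zn k l n) := by
  classical
  intro U
  refine fimp_of fun q0 _ hyp => ?_
  by_contra hcon
  rw [mem_fex] at hcon
  push Not at hcon
  obtain ⟨q1, hq1, hno⟩ := hcon
  have h1 : ∀ i : I, ∃ r ≤ q1, ∃ n, r ∈ fnot (BoxH U zn (Sum.inl i) (Sum.inr i) n) := by
    intro i
    have h2 : q1 ∉ fall fun n => BoxH U zn (Sum.inl i) (Sum.inr i) n := by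
      intro h2
      refine hno q1 le_rfl (Sum.inl i) ?_
      exact mem_fex_of_mem (Sum.inr i) (down_fall fun _ => down_fex _) h2
    obtain ⟨n, hn⟩ : ∃ n, q1 ∉ BoxH U zn (Sum.inl i) (Sum.inr i) n := by
      by_contra hc
      push Not at hc
      exact h2 hc
    by_contra hc
    push Not at hc
    apply hn
    unfold BoxH
    rw [mem_fex]
    intro r hr
    have h3 := hc r hr n
    obtain ⟨r', hr', h4⟩ : ∃ r' ≤ r, r' ∈ BoxH U zn (Sum.inl i) (Sum.inr i) n := by
      by_contra hc'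
      push Not at hc'
      exact h3 hc'
    obtain ⟨r'', hr'', s, hs⟩ := mem_fex.1 h4 r' le_rfl
    exact ⟨r'', hr''.trans hr', s, hs⟩
  choose pp hpp N hN using h1
  obtain ⟨𝒞, hC1, hC2, hC3, hC4⟩ := main_class hI pp Sum.inl Sum.inr N
  have hinl : Function.Injective (Sum.inl : I → I ⊕ I) := Sum.inl_injective
  have hinr : Function.Injective (Sum.inr : I → I ⊕ I) := Sum.inr_injective
  obtain ⟨α, hα⟩ : 𝒞.Nonempty := by
    rw [nonempty_iff_ne_empty]
    intro h
    exact hC1 (h ▸ countable_empty)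
  obtain ⟨Bad, hB, h3⟩ := hC4 α hα α hα (pp α) le_rfl le_rfl
  have hoc : {β : I | Sum.inl (Sum.inr β) ∈ occ (pp α).1}.Countable := by
    refine Set.Countable.preimage (f := fun β : I => (Sum.inl (Sum.inr β) :
      (I ⊕ I) ⊕ Coord (I ⊕ I))) (finite_occ (pp α).2.fin).countable ?_
    exact Sum.inl_injective.comp Sum.inr_injective
  obtain ⟨β, hβ, hβ'⟩ : ∃ β ∈ 𝒞, β ∉ Bad ∪ ({γ ∈ 𝒞 | ∃ l n, ef (Sum.inl α) l n ∈ (pp γ).1} ∪
      {β : I | Sum.inl (Sum.inr β) ∈ occ (pp α).1}) := by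
    by_contra hc
    push Not at hc
    exact hC1 ((hB.union ((hC3 hinl α hα).union hoc)).mono hc)
  obtain ⟨w1, hw1, hw2, hw3, _⟩ := h3 β hβ (fun h => hβ' (Or.inl h))
  have hund : ∀ n, ef (Sum.inl α) (Sum.inr β) n ∉ w1.1 := by
    intro n hn
    rcases hw3 _ _ _ hn with h | h
    · exact hβ' (Or.inr (Or.inr (occ_ef_right h)))
    · exact hβ' (Or.inr (Or.inl ⟨hβ, _, _, h⟩))
  obtain ⟨w2, hw2', hw2e⟩ := exists_set_ef w1 (Sum.inl α) (Sum.inr β) (N α) hund
  have hw2q : w2 ≤ q0 := hw2'.trans (hw1.trans ((hpp α).trans hq1))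
  have hbox : ∃ r ≤ w2, r ∈ BoxH U zn (Sum.inl α) (Sum.inr β) (N α) := by
    obtain ⟨r1, hr1, h5⟩ := mem_fimp.1 (hyp (Sum.inl α) (Sum.inr β) (N α) (N α)) w2 hw2q (show N α ≤ N α from le_rfl)
    obtain ⟨r2, hr2, h6⟩ := mem_fimp.1 h5 r1 le_rfl (meets_of_mem (hr1 hw2e))
    exact ⟨r2, hr2.trans hr1, h6⟩
  obtain ⟨r, hr, h6⟩ := hbox
  obtain ⟨r1, hr1, s, h7⟩ := mem_fex.1 h6 r le_rfl
  obtain ⟨r2, hr2, t, h8, h9, h10⟩ := mem_fex.1 h7 r1 le_rfl
  obtain ⟨r3, hr3, h11⟩ := facts_of_seg h9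
  obtain ⟨q, hq, h12⟩ := facts_of_seg (down_SegH _ _ _ h10 _ hr3)
  have hqw : q ≤ w1 := hq.trans (hr3.trans (hr2.trans (hr1.trans (hr.trans hw2'))))
  obtain ⟨Bad2, hB2, h13⟩ := hC4 α hα β hβ q (hqw.trans hw1) (hqw.trans hw2)
  obtain ⟨γ, hγ, hγ'⟩ : ∃ γ ∈ 𝒞, γ ∉ Bad2 := by
    by_contra hc
    push Not at hc
    exact hC1 (hB2.mono hc)
  obtain ⟨w, hwq, hwγ, _, hw⟩ := h13 γ hγ hγ'
  obtain ⟨hwx, hwy⟩ := hw hinl hinr (fun i j => Sum.inl_ne_inr)
  have hNeq : N γ = N α := hC2 γ hγ α hα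
  refine hN γ w hwγ ?_
  rw [hNeq]
  refine mem_fex_of_mem s (down_fex _) (mem_fex_of_mem t ?_ ⟨?_, ?_, ?_⟩)
  · exact down_fand (down_meets _) (down_fand (down_SegH _ _) (down_SegH _ _))
  · exact down_meets _ _ h8 _ (hwq.trans (hq.trans hr3))
  · exact seg_of_facts fun m v hv => hwx m v (hq (h11 m v hv))
  · exact seg_of_facts fun m v hv => hwy m v (h12 m v hv)

/-- All conditions force the principle. -/
theorem forced {I : Type} (hI : ¬ (univ : Set I).Countable) (p : Q (I ⊕ I)) :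
    p ∈ PrincipleHolds (Q (I ⊕ I)) (I ⊕ I) := by
  refine mem_fex_of_mem zn (down_fex _) (mem_fex_of_mem en ?_ ?_)
  · exact down_fand (down_fall fun _ => down_IsFun _) (down_fand (down_fall fun _ => down_fex _)
      (down_fall fun _ => down_fimp _ _))
  · exact ⟨forced_e p, forced_a p, forced_b hI p⟩

end

end Pool.Agent.R827.DS
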