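import Pool.Agent.R827.DS3

/-!
# The principle implies that there is a `Q`-set whose square is not a `Δ`-set
-/

set_option autoImplicit false

namespace Pool.Agent.R827.DS

open Set Topology TopologicalSpace
open Pool.Agent.R827.SN (Fun)

/-- For every partition of `Z` into sets `A n`, `n ∈ ℕ`, there is a point-finite family of open sets
`U n` such that `A n ⊆ U n`. -/
def DeltaSpace (Z : Type) [TopologicalSpace Z] : Prop :=
  ∀ A : ℕ → Set Z, (∀ m n, m ≠ n → Disjoint (A m) (A n)) → ⋃ n, A n = univ →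
    ∃ U : ℕ → Set Z, (∀ n, IsOpen (U n)) ∧ (∀ n, A n ⊆ U n) ∧ ∀ x, {n | x ∈ U n}.Finite

/-- All subsets are `G_δ`-sets. -/
def QSpace (Z : Type) [TopologicalSpace Z] : Prop := ∀ A : Set Z, IsGδ A

theorem deltaSpace_iff {Z : Type} [TopologicalSpace Z] : DeltaSpace Z ↔
    ∀ c : Z → ℕ, ∃ U : ℕ → Set Z, (∀ n, IsOpen (U n)) ∧ (∀ x, x ∈ U (c x)) ∧
      ∀ x, {n | x ∈ U n}.Finite := by
  constructor
  · intro h c
    obtain ⟨U, h1, h2, h3⟩ := h (fun n => {x | c x = n})
      (fun m n hmn => Set.disjoint_left.2 fun x hx hx' => hmn (hx.symm.trans hx'))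
      (Set.eq_univ_of_forall fun x => mem_iUnion.2 ⟨c x, rfl⟩)
    exact ⟨U, h1, fun x => h2 (c x) rfl, h3⟩
  · intro h A hA hA'
    have h1 : ∀ x : Z, ∃ n, x ∈ A n := fun x => mem_iUnion.1 (hA' ▸ mem_univ x)
    choose c hc using h1
    obtain ⟨U, h2, h3, h4⟩ := h c
    refine ⟨U, h2, fun n x hx => ?_, h4⟩
    have h5 : c x = n := by
      by_contra hne
      exact Set.disjoint_left.1 (hA _ _ hne) (hc x) hx
    exact h5 ▸ h3 x

theorem DeltaSpace.homeo {Z W : Type} [TopologicalSpace Z] [TopologicalSpace W] (h : DeltaSpace Z)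
    (f : Z ≃ₜ W) : DeltaSpace W := by
  rw [deltaSpace_iff] at h ⊢
  intro c
  obtain ⟨U, h1, h2, h3⟩ := h (fun x => c (f x))
  refine ⟨fun n => f.symm ⁻¹' U n, fun n => (h1 n).preimage f.symm.continuous, fun y => ?_,
    fun y => h3 (f.symm y)⟩
  have := h2 (f.symm y)
  rwa [f.apply_symm_apply] at this

theorem QSpace.homeo {Z W : Type} [TopologicalSpace Z] [TopologicalSpace W] (h : QSpace Z)
    (f : Z ≃ₜ W) : QSpace W := by
  intro A
  obtain ⟨T, hT, hT', hT''⟩ := h (f ⁻¹' A)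
  refine ⟨(fun u => f.symm ⁻¹' u) '' T, ?_, hT'.image _, ?_⟩
  · rintro _ ⟨u, hu, rfl⟩
    exact (hT u hu).preimage f.symm.continuous
  · ext y
    have h1 : f.symm y ∈ f ⁻¹' A ↔ f.symm y ∈ ⋂₀ T := by rw [hT'']
    simp only [mem_preimage, f.apply_symm_apply, mem_sInter] at h1
    simp only [mem_sInter, mem_image, forall_exists_index, and_imp, forall_apply_eq_imp_iff₂,
      mem_preimage]
    exact h1

/-- the clopen neighbourhood of `x` given by its values below `n` -/
def cyl (x : ℕ → Bool) (n : ℕ) : Set (ℕ → Bool) := {y | ∀ m < n, y m = x m}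

theorem isOpen_cyl (x : ℕ → Bool) (n : ℕ) : IsOpen (cyl x n) := by
  have h : cyl x n = ⋂ m ∈ Finset.range n, (fun y : ℕ → Bool => y m) ⁻¹' {x m} := by
    ext y
    simp [cyl]
  rw [h]
  exact isOpen_biInter_finset fun m _ => (isOpen_discrete _).preimage (continuous_apply m)

theorem exists_cyl {x : ℕ → Bool} {u : Set (ℕ → Bool)} (hu : u ∈ 𝓝 x) : ∃ n, cyl x n ⊆ u := by
  obtain ⟨v, ⟨y, n, rfl⟩, hxv, hvu⟩ :=
    (PiNat.isTopologicalBasis_cylinders (fun _ : ℕ => Bool)).mem_nhds_iff.1 hu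
  refine ⟨n, fun w hw => hvu ?_⟩
  rw [PiNat.mem_cylinder_iff] at hxv ⊢
  intro i hi
  rw [hw i hi, hxv i hi]

section
variable {K : Type} {x : K → ℕ → Bool}

/-- The set of the points `x k` is a `Q`-set. -/
theorem qSpace_range (h : ∀ A : Set K, ∃ R : K → ℕ, ∀ k ∈ A, ∀ l ∉ A,
    ∃ m, (m < R k ∨ m < R l) ∧ x k m ≠ x l m) : QSpace (range x) := by
  intro S
  obtain ⟨R, hR⟩ := h {k | (⟨x k, k, rfl⟩ : range x) ∈ S}
  have h1 : S = ⋂ n : ℕ, Subtype.val ⁻¹' ⋃ k : {k | (⟨x k, k, rfl⟩ : range x) ∈ S},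
      cyl (x k) (max n (R k)) := by
    ext ⟨y, l, rfl⟩
    simp only [mem_iInter, mem_preimage, mem_iUnion]
    constructor
    · intro hl n
      exact ⟨⟨l, hl⟩, fun m _ => rfl⟩
    · intro hl
      by_contra hlS
      obtain ⟨⟨k, hk⟩, hk'⟩ := hl (R l)
      obtain ⟨m, hm, hm'⟩ := hR k hk l hlS
      refine hm' (hk' m ?_).symm
      rcases hm with hm | hm
      · exact lt_max_of_lt_right hm
      · exact lt_max_of_lt_left hm
  rw [h1]
  exact IsGδ.iInter_of_isOpen fun n =>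
    (isOpen_iUnion fun k => isOpen_cyl _ _).preimage continuous_subtype_val

/-- The set of the points `x k` is a `Δ`-set. -/
theorem deltaSpace_range (h : ∀ A : Set K, ∃ R : K → ℕ, ∀ k ∈ A, ∀ l ∉ A,
    ∃ m, (m < R k ∨ m < R l) ∧ x k m ≠ x l m) : DeltaSpace (range x) := by
  rw [deltaSpace_iff]
  intro c
  choose R hR using fun i : ℕ => h {k | i ≤ c ⟨x k, k, rfl⟩}
  obtain ⟨d, hd⟩ : ∃ d : K → ℕ, ∀ k, d k = c ⟨x k, k, rfl⟩ := ⟨fun k => c ⟨x k, k, rfl⟩, fun _ => rfl⟩
  let b : K → ℕ := fun k => max (d k) ((Finset.range (d k + 1)).sup fun i => R i k)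
  refine ⟨fun n => Subtype.val ⁻¹' ⋃ k : {k | d k = n}, cyl (x k) (b k),
    fun n => (isOpen_iUnion fun k => isOpen_cyl _ _).preimage continuous_subtype_val, ?_, ?_⟩
  · rintro ⟨y, l, rfl⟩
    exact mem_iUnion.2 ⟨⟨l, hd l⟩, fun m _ => rfl⟩
  · rintro ⟨y, l, rfl⟩
    refine (finite_Iic (max (d l) (R (d l + 1) l))).subset fun n hn => ?_
    obtain ⟨⟨k, hk0⟩, hk0'⟩ := mem_iUnion.1 hn
    simp only [mem_Iic, le_max_iff]
    by_contra hc
    push Not at hc
    obtain ⟨hc1, hc2⟩ := hc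
    have hk : d k = n := hk0
    have hk' : x l ∈ cyl (x k) (b k) := hk0'
    have hkA : k ∈ {k | d l + 1 ≤ c ⟨x k, k, rfl⟩} := by
      simp only [mem_ofPred_eq, ← hd]
      omega
    have hlA : l ∉ {k | d l + 1 ≤ c ⟨x k, k, rfl⟩} := by
      simp only [mem_ofPred_eq, ← hd]
      omega
    obtain ⟨m, hm, hm'⟩ := hR (d l + 1) k hkA l hlA
    refine hm' (hk' m ?_).symm
    rcases hm with hm | hm
    · refine lt_max_of_lt_right (hm.trans_le ?_)
      exact Finset.le_sup (f := fun i => R i k) (Finset.mem_range.2 (by omega))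
    · refine lt_max_of_lt_left ?_
      omega

theorem injective_of (h : ∀ A : Set K, ∃ R : K → ℕ, ∀ k ∈ A, ∀ l ∉ A,
    ∃ m, (m < R k ∨ m < R l) ∧ x k m ≠ x l m) : Function.Injective x := by
  intro k l hkl
  by_contra hne
  obtain ⟨R, hR⟩ := h {k}
  obtain ⟨m, _, hm⟩ := hR k rfl l (fun h => hne h.symm)
  exact hm (congrFun hkl m)

/-- The square is not a `Δ`-set. -/
theorem not_deltaSpace_prod (hx : Function.Injective x) (e : K → K → ℕ)
    (h : ∀ V : ℕ → Set ((ℕ → Bool) × (ℕ → Bool)), (∀ n, IsOpen (V n)) →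
      (∀ k l n, n ≤ e k l → (x k, x l) ∈ V n) → ∃ k l, ∀ n, (x k, x l) ∈ V n) :
    ¬ DeltaSpace (range x × range x) := by
  rw [deltaSpace_iff]
  intro hD
  have hch : ∀ y : range x, ∃ k, x k = y := fun y => y.2
  choose g hg using hch
  obtain ⟨U, hU1, hU2, hU3⟩ := hD fun p => e (g p.1) (g p.2)
  have hgx : ∀ k, g ⟨x k, k, rfl⟩ = k := fun k => hx (hg ⟨x k, k, rfl⟩)
  have hind : IsInducing (Prod.map Subtype.val Subtype.val :
      range x × range x → (ℕ → Bool) × (ℕ → Bool)) :=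
    IsInducing.subtypeVal.prodMap IsInducing.subtypeVal
  have hV : ∀ n : ℕ, ∃ V : Set ((ℕ → Bool) × (ℕ → Bool)), IsOpen V ∧
      Prod.map Subtype.val Subtype.val ⁻¹' V = ⋃ m : {m | n ≤ m}, U m := by
    intro n
    exact hind.isOpen_iff.1 (isOpen_iUnion fun m => hU1 m)
  choose V hV1 hV2 using hV
  have hVm : ∀ n k l, (x k, x l) ∈ V n ↔
      ∃ m, n ≤ m ∧ ((⟨x k, k, rfl⟩, ⟨x l, l, rfl⟩) : range x × range x) ∈ U m := by
    intro n k l
    have h1 : ((⟨x k, k, rfl⟩, ⟨x l, l, rfl⟩) : range x × range x) ∈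
        Prod.map Subtype.val Subtype.val ⁻¹' V n ↔
        ((⟨x k, k, rfl⟩, ⟨x l, l, rfl⟩) : range x × range x) ∈ ⋃ m : {m | n ≤ m}, U m := by
      rw [hV2 n]
    simp only [mem_preimage, Prod.map_apply, mem_iUnion, mem_ofPred_eq, Subtype.exists,
      exists_prop] at h1
    exact h1
  obtain ⟨k, l, hkl⟩ := h V hV1 (by
    intro k l n hn
    rw [hVm]
    refine ⟨e k l, hn, ?_⟩
    have := hU2 (⟨x k, k, rfl⟩, ⟨x l, l, rfl⟩)
    simpa only [hgx] using this)
  obtain ⟨b, hb⟩ := (hU3 (⟨x k, k, rfl⟩, ⟨x l, l, rfl⟩)).bddAbove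
  obtain ⟨m, hm, hm'⟩ := (hVm (b + 1) k l).1 (hkl (b + 1))
  have := hb hm'
  omega

end

/-- There are a function `x` with values in the Cantor space and a function `e` as in the
principle. -/
theorem exists_points {K : Type} (h : Principle K) : ∃ (x : K → ℕ → Bool) (e : K → K → ℕ),
    (∀ A : Set K, ∃ R : K → ℕ, ∀ k ∈ A, ∀ l ∉ A, ∃ m, (m < R k ∨ m < R l) ∧ x k m ≠ x l m) ∧
    (∀ V : ℕ → Set ((ℕ → Bool) × (ℕ → Bool)), (∀ n, IsOpen (V n)) →
      (∀ k l n, n ≤ e k l → (x k, x l) ∈ V n) → ∃ k l, ∀ n, (x k, x l) ∈ V n) := by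
  classical
  obtain ⟨z, e', he', ha, hb⟩ := h
  choose e he using fun k l => (he' k).1 l
  have heu : ∀ k l n, e' k l n ↔ n = e k l :=
    fun k l n => ⟨fun h => (he' k).2 _ _ _ h (he k l), fun h => h ▸ he k l⟩
  have hseg : ∀ (s : List Bool) (k : K) (y : ℕ → Bool), Seg s (z k) →
      y ∈ cyl (fun m => decide (z k m)) s.length → ∀ m b, s[m]? = some b → y m = b := by
    intro s k y hs hy m b hmb
    have hm : m < s.length := by
      by_contra hc
      rw [List.getElem?_eq_none (by omega)] at hmb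
      simp at hmb
    rw [hy m hm]
    cases b
    · simpa using (hs m).2 hmb
    · simpa using (hs m).1 hmb
  refine ⟨fun k m => decide (z k m), e, ?_, ?_⟩
  · intro A
    obtain ⟨R', hR', hR⟩ := ha (fun k => k ∈ A)
    choose R hR1 using hR'.1
    refine ⟨R, fun k hk l hl => ?_⟩
    obtain ⟨m, hm, hm'⟩ := hR k l (R k) (R l) hk hl (hR1 k) (hR1 l)
    exact ⟨m, hm, fun h => hm' (decide_eq_decide.1 h)⟩
  · intro V hV hVe
    have hseg' : ∀ (k : K) (n : ℕ), Seg ((List.range n).map fun m => decide (z k m)) (z k) := by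
      intro k n m
      simp only [List.getElem?_map, Option.map_eq_some_iff]
      constructor
      · rintro ⟨a, ha, ha'⟩
        have h1 : a = m := by
          rcases lt_or_ge m n with h | h
          · rw [List.getElem?_range h] at ha
            exact (Option.some.inj ha).symm
          · rw [List.getElem?_eq_none (by simpa using h)] at ha
            simp at ha
        subst h1
        simpa using ha'
      · rintro ⟨a, ha, ha'⟩
        have h1 : a = m := by
          rcases lt_or_ge m n with h | h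
          · rw [List.getElem?_range h] at ha
            exact (Option.some.inj ha).symm
          · rw [List.getElem?_eq_none (by simpa using h)] at ha
            simp at ha
        subst h1
        simpa using ha'
    obtain ⟨k, l, hkl⟩ := hb (fun n s t => ∀ y w : ℕ → Bool, (∀ m b, s[m]? = some b → y m = b) →
        (∀ m b, t[m]? = some b → w m = b) → (y, w) ∈ V n) (by
      intro k l n a hna hea
      rw [heu] at hea
      subst hea
      have h1 := (hV n).mem_nhds (hVe k l n hna)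
      rw [nhds_prod_eq, Filter.mem_prod_iff] at h1
      obtain ⟨u, hu, v, hv, huv⟩ := h1
      obtain ⟨n1, hn1⟩ := exists_cyl hu
      obtain ⟨n2, hn2⟩ := exists_cyl hv
      refine ⟨(List.range n1).map fun m => decide (z k m),
        (List.range n2).map fun m => decide (z l m), ?_, hseg' k n1, hseg' l n2⟩
      intro y w hy hw
      refine huv ⟨hn1 fun m hm => ?_, hn2 fun m hm => ?_⟩
      · exact hy m _ (by simp [List.getElem?_range hm])
      · exact hw m _ (by simp [List.getElem?_range hm]))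
    refine ⟨k, l, fun n => ?_⟩
    obtain ⟨s, t, h1, h2, h3⟩ := hkl n
    exact h1 _ _ (hseg s k _ h2 fun m _ => rfl) (hseg t l _ h3 fun m _ => rfl)

/-- There is a `Q`-set, hence a `Δ`-set, of real numbers whose square is not a `Δ`-set. -/
theorem exists_set {K : Type} (h : Principle K) :
    ∃ X : Set ℝ, QSpace X ∧ DeltaSpace X ∧ ¬ DeltaSpace ↥(X ×ˢ X) := by
  obtain ⟨x, e, ha, hb⟩ := exists_points h
  obtain ⟨f, _, hf, hf'⟩ := Perfect.exists_nat_bool_injection (α := ℝ) (C := univ)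
    ⟨isClosed_univ, fun y _ => accPt_iff_nhds.2 fun U hU => by
      obtain ⟨z, hz, hz'⟩ := Filter.nonempty_of_mem (inter_mem_nhdsWithin {y}ᶜ hU)
      exact ⟨z, ⟨hz', trivial⟩, hz⟩⟩ univ_nonempty
  have hemb : IsEmbedding f := (hf.isClosedEmbedding hf').isEmbedding
  have hh : range x ≃ₜ (f '' range x : Set ℝ) := hemb.homeomorphImage (range x)
  refine ⟨f '' range x, (qSpace_range ha).homeo hh, (deltaSpace_range ha).homeo hh, fun hD => ?_⟩
  refine not_deltaSpace_prod (injective_of ha) e hb ?_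
  exact hD.homeo ((Homeomorph.Set.prod _ _).trans (hh.symm.prodCongr hh.symm))

end Pool.Agent.R827.DS
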