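import Pool.Agent.R537.LR.Stm

/-!
# Low-rank approximation: conclusion of the analysis (`S_NOG`)
-/

set_option autoImplicit false

namespace Pool.Agent.R827.LRNOG

open Pool.Agent.NPC.R537LR

section

variable {R C : Type} {P : Pt R C} {W Q : ℝ} {r : R} {c : C}

theorem w_none_co (h1 : P.tR r = none) (h2 : P.tC P.co = none) : P.w W Q r P.co = 1 := by
  unfold Pt.w; rw [h1, h2]; simp

theorem w_none_ne (h1 : P.tR r = none) (h2 : P.tC c = none) (h : c ≠ P.co) :
    P.w W Q r c = Q := by
  unfold Pt.w; rw [h1, h2]; simp [h]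

theorem w_some_co {i : Fin 3} (h1 : P.tR r = some i) (h2 : P.tC P.co = none) :
    P.w W Q r P.co = W := by
  unfold Pt.w; rw [h1, h2]; simp

theorem w_some_ne {i : Fin 3} (h1 : P.tR r = some i) (h2 : P.tC c = none) (h : c ≠ P.co) :
    P.w W Q r c = W * Q := by
  unfold Pt.w; rw [h1, h2]; simp [h]

theorem w_none_some {j : Fin 3} (h1 : P.tR r = none) (h2 : P.tC c = some j) :
    P.w W Q r c = W * Q := by
  unfold Pt.w; rw [h1, h2]; simp

theorem w_some_some {i j : Fin 3} (h1 : P.tR r = some i) (h2 : P.tC c = some j) :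
    P.w W Q r c = W * (W * Q) := by
  unfold Pt.w; rw [h1, h2]

theorem w_nonneg (hW : 0 ≤ W) (hQ : 0 ≤ Q) : 0 ≤ P.w W Q r c := by
  rcases h1 : P.tR r with _ | i <;> rcases h2 : P.tC c with _ | j
  · by_cases h : c = P.co
    · subst h; rw [w_none_co h1 h2]; norm_num
    · rw [w_none_ne h1 h2 h]; exact hQ
  · rw [w_none_some h1 h2]; positivity
  · by_cases h : c = P.co
    · subst h; rw [w_some_co h1 h2]; exact hW
    · rw [w_some_ne h1 h2 h]; positivity
  · rw [w_some_some h1 h2]; positivity

theorem N_some_C {j : Fin 3} (h2 : P.tC c = some j) : P.N r c = 1 := by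
  unfold Pt.N; rw [h2]

theorem N_some_R {i : Fin 3} (h2 : P.tC c = none) (h1 : P.tR r = some i) : P.N r c = 1 := by
  unfold Pt.N; rw [h2, h1]

theorem E_ac {j : Fin 3} (h2 : P.tC c = some j) : P.E r c = P.rv r j := by
  unfold Pt.E; rw [h2]

theorem E_ar {i : Fin 3} (h2 : P.tC c = none) (h1 : P.tR r = some i) : P.E r c = P.cv c i := by
  unfold Pt.E; rw [h2, h1]

theorem E_obj (ok : P.OK) : P.E P.ro P.co = some 1 := by
  unfold Pt.E; rw [ok.co_none, ok.ro_none]; simp

open Classical in
/-- The summand of the baseline. -/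
noncomputable def bs (P : Pt R C) (W Q : ℝ) (r : R) (c : C) : ℝ :=
  if P.E r c = none then P.w W Q r c * P.N r c else 0

theorem base_eq [Fintype R] [Fintype C] (m : ℕ) :
    P.base m W Q = ((∑ r, ∑ c, bs P W Q r c) + 1) * (m : ℝ) ^ 2 := rfl

theorem bs_none (h : P.E r c = none) : bs P W Q r c = P.w W Q r c * P.N r c := by
  unfold bs; rw [if_pos h]

theorem bs_some {x : ℝ} (h : P.E r c = some x) : bs P W Q r c = 0 := by
  unfold bs; rw [if_neg (by rw [h]; simp)]

variable {m : ℕ} {p : R → Fin m → Fin 3 → ℝ} {l : C → Fin m → Fin 3 → ℝ}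

theorem dk_obj : P.dk m p l P.ro P.co = 0 := by
  unfold Pt.dk; rw [if_pos ⟨rfl, rfl⟩]

theorem dk_some {x : ℝ} (h : ¬ (r = P.ro ∧ c = P.co)) (hE : P.E r c = some x) :
    P.dk m p l r c = ∑ a, ∑ b, |x - ∑ s, p r a s * l c b s| := by
  unfold Pt.dk; rw [if_neg h, hE]

theorem dk_none (ok : P.OK) (hE : P.E r c = none) : P.dk m p l r c = 0 := by
  have h : ¬ (r = P.ro ∧ c = P.co) := by
    rintro ⟨rfl, rfl⟩
    rw [E_obj ok] at hE
    simp at hE
  unfold Pt.dk; rw [if_neg h, hE]

theorem dk_nonneg (ok : P.OK) : 0 ≤ P.dk m p l r c := by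
  by_cases h : r = P.ro ∧ c = P.co
  · obtain ⟨rfl, rfl⟩ := h
    rw [dk_obj]
  · rcases hE : P.E r c with _ | x
    · rw [dk_none ok hE]
    · rw [dk_some h hE]
      positivity

theorem block_sum (hm : 0 < m) (r : R) (c : C) :
    ∑ a : Fin m, ∑ b : Fin m, ∑ s, p r a s * l c b s =
      (m : ℝ) ^ 2 * ∑ s, mean p r s * mean l c s := by
  have hm0 : (m : ℝ) ≠ 0 := by exact_mod_cast hm.ne'
  have h1 : ∀ s, (∑ a : Fin m, p r a s) = m * mean p r s := by
    intro s; unfold mean; field_simp
  have h2 : ∀ s, (∑ b : Fin m, l c b s) = m * mean l c s := by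
    intro s; unfold mean; field_simp
  calc ∑ a : Fin m, ∑ b : Fin m, ∑ s, p r a s * l c b s
      = ∑ a : Fin m, ∑ s, ∑ b : Fin m, p r a s * l c b s := by
        refine Finset.sum_congr rfl fun a _ => Finset.sum_comm
    _ = ∑ s, ∑ a : Fin m, ∑ b : Fin m, p r a s * l c b s := Finset.sum_comm
    _ = ∑ s, (∑ a : Fin m, p r a s) * (∑ b : Fin m, l c b s) := by
        refine Finset.sum_congr rfl fun s _ => ?_
        rw [Finset.sum_mul_sum]
    _ = (m : ℝ) ^ 2 * ∑ s, mean p r s * mean l c s := by
        rw [Finset.mul_sum]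
        refine Finset.sum_congr rfl fun s _ => ?_
        rw [h1, h2]; ring

theorem sumH {H : ℕ → ℕ → ℝ} (hH : GoodH m H) : ∑ a : Fin m, ∑ b : Fin m, H a b = 0 := by
  refine Finset.sum_eq_zero fun a _ => ?_
  have := hH.row a a.2
  rw [Finset.sum_range] at this
  exact this

/-- The lower bounds for a mask. -/
theorem mask_lower {H : ℕ → ℕ → ℝ} (hH : GoodH m H) (N : ℝ) (X : Fin m → Fin m → ℝ) :
    N * (m : ℝ) ^ 2 - |∑ a : Fin m, ∑ b : Fin m, H a b * X a b| ≤
      ∑ a : Fin m, ∑ b : Fin m, |N * H a b - X a b| := by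
  have h1 : ∀ a b : Fin m, N - H a b * X a b ≤ |N * H a b - X a b| := by
    intro a b
    rcases hH.sign a b with h | h
    · rw [h]
      have := le_abs_self (N * 1 - X a b)
      linarith
    · rw [h]
      have := neg_le_abs (N * -1 - X a b)
      linarith
  have h2 : ∑ a : Fin m, ∑ b : Fin m, (N - H a b * X a b) ≤
      ∑ a : Fin m, ∑ b : Fin m, |N * H a b - X a b| :=
    Finset.sum_le_sum fun a _ => Finset.sum_le_sum fun b _ => h1 a b
  have h3 : ∑ a : Fin m, ∑ b : Fin m, (N - H a b * X a b) =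
      N * (m : ℝ) ^ 2 - ∑ a : Fin m, ∑ b : Fin m, H a b * X a b := by
    simp only [Finset.sum_sub_distrib, Finset.sum_const, Finset.card_univ, Fintype.card_fin,
      nsmul_eq_mul]
    ring
  have h4 := le_abs_self (∑ a : Fin m, ∑ b : Fin m, H a b * X a b)
  linarith

theorem mask_lower2 {H : ℕ → ℕ → ℝ} (hH : GoodH m H) (N : ℝ) (X : Fin m → Fin m → ℝ) :
    |∑ a : Fin m, ∑ b : Fin m, X a b| ≤ ∑ a : Fin m, ∑ b : Fin m, |N * H a b - X a b| := by
  have h1 : ∑ a : Fin m, ∑ b : Fin m, (N * H a b - X a b) =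
      - ∑ a : Fin m, ∑ b : Fin m, X a b := by
    simp only [Finset.sum_sub_distrib, ← Finset.mul_sum, sumH hH]
    ring
  rw [← abs_neg, ← h1]
  refine (Finset.abs_sum_le_sum_abs _ _).trans (Finset.sum_le_sum fun a _ => ?_)
  exact Finset.abs_sum_le_sum_abs _ _

theorem known_lower (x : ℝ) (X : Fin m → Fin m → ℝ) :
    |(m : ℝ) ^ 2 * x - ∑ a : Fin m, ∑ b : Fin m, X a b| ≤
      ∑ a : Fin m, ∑ b : Fin m, |x - X a b| := by
  have h1 : ∑ a : Fin m, ∑ b : Fin m, (x - X a b) =
      (m : ℝ) ^ 2 * x - ∑ a : Fin m, ∑ b : Fin m, X a b := by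
    simp only [Finset.sum_sub_distrib, Finset.sum_const, Finset.card_univ, Fintype.card_fin,
      nsmul_eq_mul]
    ring
  rw [← h1]
  refine (Finset.abs_sum_le_sum_abs _ _).trans (Finset.sum_le_sum fun a _ => ?_)
  exact Finset.abs_sum_le_sum_abs _ _

end

theorem t_NOG : S_NOG := by
  intro R C _ _ _ _ P m H W Q p l ok hH big bd hcost hrow hcol hE hF1 hF2
  set n : ℕ := Fintype.card R * Fintype.card C with hn
  have hn1 : (1 : ℝ) ≤ n := by exact_mod_cast big.hn
  have hmN : (2 : ℝ) ^ 19 * (n : ℝ) ^ 2 ≤ m := by exact_mod_cast big.hm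
  have hQ1 : 1 ≤ Q := big.hQ
  have hW1 := big.hW
  have hm1 : (1 : ℝ) ≤ m := by nlinarith
  have hm0 : 0 < m := by
    rcases Nat.eq_zero_or_pos m with h | h
    · rw [h] at hm1; norm_num at hm1
    · exact h
  have hQ0 : (0 : ℝ) < Q := by linarith
  have hmQ : (1 : ℝ) ≤ m * Q := one_le_mul_of_one_le_of_one_le hm1 hQ1
  have hn3 : (1 : ℝ) ≤ (n : ℝ) ^ 2 := one_le_pow₀ hn1
  have hWn : 2 ^ 20 * (n : ℝ) ≤ W := by
    have h1 : 2 ^ 20 * (n : ℝ) * 1 ≤ 2 ^ 20 * (n : ℝ) * ((n : ℝ) ^ 2 * (m * Q)) := by
      apply mul_le_mul_of_nonneg_left _ (by positivity)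
      exact one_le_mul_of_one_le_of_one_le hn3 hmQ
    calc 2 ^ 20 * (n : ℝ) = 2 ^ 20 * (n : ℝ) * 1 := by ring
      _ ≤ _ := h1
      _ = 2 ^ 20 * (n : ℝ) ^ 3 * m * Q := by ring
      _ ≤ W := hW1
  have hWQ : Q ≤ W := by
    have h1 : Q * 1 ≤ Q * (2 ^ 20 * ((n : ℝ) ^ 3 * m)) := by
      apply mul_le_mul_of_nonneg_left _ hQ0.le
      have : (1 : ℝ) ≤ (n : ℝ) ^ 3 * m :=
        one_le_mul_of_one_le_of_one_le (one_le_pow₀ hn1) hm1
      linarith
    calc Q = Q * 1 := by ring
      _ ≤ _ := h1
      _ = 2 ^ 20 * (n : ℝ) ^ 3 * m * Q := by ring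
      _ ≤ W := hW1
  have hW0 : (0 : ℝ) < W := by linarith
  have hWge1 : (1 : ℝ) ≤ W := by linarith
  have hwnn : ∀ r c, 0 ≤ P.w W Q r c := fun r c => w_nonneg hW0.le hQ0.le
  have hdnn : ∀ r c, 0 ≤ P.dk m p l r c := fun r c => dk_nonneg ok
  have hfnn : ∀ r c, 0 ≤ P.w W Q r c * P.dk m p l r c := fun r c => mul_nonneg (hwnn r c) (hdnn r c)
  set D : ℝ := ∑ r, ∑ c, P.w W Q r c * P.dk m p l r c with hD
  have hDr : ∀ r, ∑ c, P.w W Q r c * P.dk m p l r c ≤ D := by
    intro r
    exact Finset.single_le_sum (f := fun r => ∑ c, P.w W Q r c * P.dk m p l r c)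
      (fun r _ => Finset.sum_nonneg fun c _ => hfnn r c) (Finset.mem_univ r)
  have hDc : ∀ c, ∑ r, P.w W Q r c * P.dk m p l r c ≤ D := by
    intro c
    rw [hD, Finset.sum_comm]
    exact Finset.single_le_sum (f := fun c => ∑ r, P.w W Q r c * P.dk m p l r c)
      (fun c _ => Finset.sum_nonneg fun r _ => hfnn r c) (Finset.mem_univ c)
  have hDrc : ∀ r c, P.w W Q r c * P.dk m p l r c ≤ D := by
    intro r c
    exact (Finset.single_le_sum (f := fun c => P.w W Q r c * P.dk m p l r c)
      (fun c _ => hfnn r c) (Finset.mem_univ c)).trans (hDr r)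
  have hD0 : 0 ≤ D := Finset.sum_nonneg fun r _ => Finset.sum_nonneg fun c _ => hfnn r c
  -- the anchor blocks
  have hanch : ∀ i j, W * Q * P.dk m p l (P.ar i) (P.ac j) ≤ D / W := by
    intro i j
    have h1 := hDrc (P.ar i) (P.ac j)
    rw [w_some_some ((ok.tR_iff _ i).2 rfl) ((ok.tC_iff _ j).2 rfl)] at h1
    rw [le_div_iff₀ hW0]
    calc _ = W * (W * Q) * P.dk m p l (P.ar i) (P.ac j) := by ring
      _ ≤ D := h1
  have h96 : 96 * (D / W) ≤ D / (4 * n) := by
    rw [← mul_div_assoc, div_le_div_iff₀ hW0 (by positivity)]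
    nlinarith
  -- the gains
  have hgain : ∀ r c, P.E r c = none →
      P.w W Q r c * |∑ a : Fin m, ∑ b : Fin m, H a b * ∑ s, p r a s * l c b s| ≤
        D / (4 * n) := by
    intro r c hEn
    rcases h2 : P.tC c with _ | j
    · rcases h1 : P.tR r with _ | i
      · -- ordinary mask
        have hu0 : 0 ≤ ∑ a, ∑ s, |p r a s - mean p r s| := by positivity
        have hv0 : 0 ≤ ∑ b, ∑ s, |l c b s - mean l c s| := by positivity
        have hu := hrow r h1
        have hv := hcol c h2
        have hg := hE r c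
        set u := ∑ a, ∑ s, |p r a s - mean p r s| with hudef
        set v := ∑ b, ∑ s, |l c b s - mean l c s| with hvdef
        have hm0' : (0 : ℝ) < m := by linarith
        have hu' : Q * u ≤ 7 / m * D := hu.trans
          (mul_le_mul_of_nonneg_left (hDr r) (by positivity))
        have hv' : (if c = P.co then 1 else Q) * v ≤ 24 / m * D := hv.trans
          (mul_le_mul_of_nonneg_left (hDc c) (by positivity))
        have hw : P.w W Q r c * u ≤ 7 / m * D ∧ P.w W Q r c * v ≤ 24 / m * D := by
          by_cases hc : c = P.co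
          · rw [if_pos hc] at hv'
            have hw1 : P.w W Q r c = 1 := by
              rw [hc]; exact w_none_co h1 ok.co_none
            rw [hw1]
            refine ⟨?_, hv'⟩
            refine le_trans ?_ hu'
            exact mul_le_mul_of_nonneg_right hQ1 hu0
          · rw [if_neg hc] at hv'
            rw [w_none_ne h1 h2 hc]
            exact ⟨hu', hv'⟩
        set t : ℝ := √(2 * m) with ht
        have ht0 : 0 ≤ t := Real.sqrt_nonneg _
        have ht2 : t ^ 2 = 2 * m := Real.sq_sqrt (by positivity)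
        have htn : 1024 * (n : ℝ) ≤ t := by
          apply Real.le_sqrt_of_sq_le
          nlinarith
        have h5 : P.w W Q r c * |∑ a : Fin m, ∑ b : Fin m, H a b * ∑ s, p r a s * l c b s| ≤
            P.w W Q r c * (2 * t * (u + v)) := mul_le_mul_of_nonneg_left hg (hwnn r c)
        have h6 : P.w W Q r c * (2 * t * (u + v)) ≤ 2 * t * (31 / m * D) := by
          calc P.w W Q r c * (2 * t * (u + v)) =
              2 * t * (P.w W Q r c * u + P.w W Q r c * v) := by ring
            _ ≤ 2 * t * (7 / m * D + 24 / m * D) := by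
                apply mul_le_mul_of_nonneg_left _ (by positivity)
                linarith [hw.1, hw.2]
            _ = 2 * t * (31 / m * D) := by ring
        refine h5.trans (h6.trans ?_)
        have h7 : 2 * t * (31 / m * D) = (62 * t / m) * D := by ring
        rw [h7, div_eq_mul_one_div D, mul_comm D]
        apply mul_le_mul_of_nonneg_right _ hD0
        rw [div_le_div_iff₀ hm0' (by positivity)]
        nlinarith [mul_le_mul_of_nonneg_left htn ht0]
      · -- anchor row
        have hr : r = P.ar i := (ok.tR_iff r i).1 h1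
        have hc : c ≠ P.co := by
          intro hc
          rw [E_ar h2 h1, hc, ok.cv_co] at hEn
          simp at hEn
        rw [w_some_ne h1 h2 hc]
        have hg := hF2 i c
        rw [← hr] at hg
        refine (mul_le_mul_of_nonneg_left hg (by positivity)).trans ?_
        refine le_trans ?_ h96
        rw [hr]
        calc W * Q * (32 * ∑ j, P.dk m p l (P.ar i) (P.ac j))
            = 32 * ∑ j, W * Q * P.dk m p l (P.ar i) (P.ac j) := by
              rw [← Finset.mul_sum]; ring
          _ ≤ 32 * ∑ _j : Fin 3, D / W := by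
              apply mul_le_mul_of_nonneg_left _ (by norm_num)
              exact Finset.sum_le_sum fun j _ => hanch i j
          _ = 96 * (D / W) := by
              simp only [Finset.sum_const, Finset.card_univ, Fintype.card_fin, nsmul_eq_mul]
              push_cast
              ring
    · -- anchor column
      have hc : c = P.ac j := (ok.tC_iff c j).1 h2
      have h1 : P.tR r = none := by
        rcases h1 : P.tR r with _ | i
        · rfl
        · rw [E_ac h2, (ok.tR_iff r i).1 h1, ok.rv_ar] at hEn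
          simp at hEn
      rw [w_none_some h1 h2]
      have hg := hF1 r j
      rw [← hc] at hg
      refine (mul_le_mul_of_nonneg_left hg (by positivity)).trans ?_
      refine le_trans ?_ h96
      rw [hc]
      calc W * Q * (32 * ∑ i, P.dk m p l (P.ar i) (P.ac j))
          = 32 * ∑ i, W * Q * P.dk m p l (P.ar i) (P.ac j) := by
            rw [← Finset.mul_sum]; ring
        _ ≤ 32 * ∑ _i : Fin 3, D / W := by
            apply mul_le_mul_of_nonneg_left _ (by norm_num)
            exact Finset.sum_le_sum fun i _ => hanch i j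
        _ = 96 * (D / W) := by
            simp only [Finset.sum_const, Finset.card_univ, Fintype.card_fin, nsmul_eq_mul]
            push_cast
            ring
  -- the extra terms
  classical
  set M : ℝ := ∑ s, mean p P.ro s * mean l P.co s with hM
  let ex : R → C → ℝ := fun r c =>
    if P.E r c = none ∧ (P.tR r ≠ none ∨ P.tC c ≠ none) then
      P.w W Q r c * ((m : ℝ) ^ 2 * max (|∑ s, mean p r s * mean l c s| - 1) 0) else 0
  have hex0 : ∀ r c, 0 ≤ ex r c := by
    intro r c
    simp only [ex]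
    split_ifs
    · exact mul_nonneg (hwnn r c) (mul_nonneg (by positivity) (le_max_right _ _))
    · exact le_refl _
  have hDn : 0 ≤ D / (4 * n) := by positivity
  have hterm : ∀ r c, P.w W Q r c * P.dk m p l r c + bs P W Q r c * (m : ℝ) ^ 2 +
      (if r = P.ro then (if c = P.co then (m : ℝ) ^ 2 - (m : ℝ) ^ 2 * M else 0) else 0) +
      ex r c - D / (4 * n) ≤
      P.w W Q r c * ∑ a : Fin m, ∑ b : Fin m,
        |P.A H r c a b - ∑ s, p r a s * l c b s| := by
    intro r c
    rcases hEc : P.E r c with _ | x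
    · -- mask
      have hno : ¬ (r = P.ro ∧ c = P.co) := by
        rintro ⟨rfl, rfl⟩
        rw [E_obj ok] at hEc
        simp at hEc
      have hob : (if r = P.ro then (if c = P.co then (m : ℝ) ^ 2 - (m : ℝ) ^ 2 * M else 0)
          else 0) = 0 := by
        by_cases hr : r = P.ro
        · rw [if_pos hr, if_neg fun hc => hno ⟨hr, hc⟩]
        · rw [if_neg hr]
      rw [dk_none ok hEc, bs_none hEc, hob]
      have hA : ∀ a b : Fin m, P.A H r c a b = P.N r c * H a b := by
        intro a b; unfold Pt.A; rw [hEc]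
      simp only [hA]
      have hl1 := mask_lower hH (P.N r c) (fun a b => ∑ s, p r a s * l c b s)
      have hl2 := mask_lower2 hH (P.N r c) (fun a b => ∑ s, p r a s * l c b s)
      rw [block_sum hm0 r c, abs_mul, abs_of_nonneg (by positivity : (0:ℝ) ≤ (m : ℝ) ^ 2)] at hl2
      have hg := hgain r c hEc
      set S := ∑ a : Fin m, ∑ b : Fin m, |P.N r c * H a b - ∑ s, p r a s * l c b s| with hS
      set g := |∑ a : Fin m, ∑ b : Fin m, H a b * ∑ s, p r a s * l c b s| with hgdef
      have hg0 : 0 ≤ g := abs_nonneg _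
      simp only [ex]
      by_cases han : P.E r c = none ∧ (P.tR r ≠ none ∨ P.tC c ≠ none)
      · rw [if_pos han]
        have hN : P.N r c = 1 := by
          rcases h2 : P.tC c with _ | j
          · rcases h1 : P.tR r with _ | i
            · rcases han.2 with h | h
              · exact absurd h1 h
              · exact absurd h2 h
            · exact N_some_R h2 h1
          · exact N_some_C h2
        rw [hN] at hl1 ⊢
        have h8 : (m : ℝ) ^ 2 + (m : ℝ) ^ 2 * max (|∑ s, mean p r s * mean l c s| - 1) 0 - g ≤ S := by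
          rcases le_total (|∑ s, mean p r s * mean l c s| - 1) 0 with h | h
          · rw [max_eq_right h]; linarith
          · rw [max_eq_left h]
            nlinarith
        have h9 := mul_le_mul_of_nonneg_left h8 (hwnn r c)
        nlinarith
      · rw [if_neg han]
        have h9 := mul_le_mul_of_nonneg_left hl1 (hwnn r c)
        nlinarith
    · -- known
      have hex : ex r c = 0 := by
        simp only [ex]
        rw [if_neg]
        rintro ⟨h, _⟩
        rw [hEc] at h
        simp at h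
      have hA : ∀ a b : Fin m, P.A H r c a b = x := by
        intro a b; unfold Pt.A; rw [hEc]
      simp only [hA]
      rw [hex, bs_some hEc]
      by_cases hob : r = P.ro ∧ c = P.co
      · obtain ⟨hr, hc⟩ := hob
        subst hr; subst hc
        rw [dk_obj, if_pos rfl, if_pos rfl, w_none_co ok.ro_none ok.co_none]
        rw [E_obj ok] at hEc
        have hx : x = 1 := (Option.some.inj hEc).symm
        rw [hx]
        have hl := known_lower (m := m) 1 (fun a b => ∑ s, p P.ro a s * l P.co b s)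
        rw [block_sum hm0 P.ro P.co] at hl
        have h8 := (le_abs_self _).trans hl
        linarith
      · have hob' : (if r = P.ro then (if c = P.co then (m : ℝ) ^ 2 - (m : ℝ) ^ 2 * M else 0)
            else 0) = 0 := by
          by_cases hr : r = P.ro
          · rw [if_pos hr, if_neg fun hc => hob ⟨hr, hc⟩]
          · rw [if_neg hr]
        rw [hob', dk_some hob hEc]
        linarith
  have hn0 : (n : ℝ) ≠ 0 := by linarith
  have hsum : D + (∑ r, ∑ c, bs P W Q r c) * (m : ℝ) ^ 2 + ((m : ℝ) ^ 2 - (m : ℝ) ^ 2 * M) +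
      (∑ r, ∑ c, ex r c) - D / 4 ≤
      P.cost m H W Q (fun r a c b => ∑ s, p r a s * l c b s) := by
    have h1 := Finset.sum_le_sum fun r (_ : r ∈ (Finset.univ : Finset R)) =>
      Finset.sum_le_sum fun c (_ : c ∈ (Finset.univ : Finset C)) => hterm r c
    have h2 : ∑ r, ∑ c, (P.w W Q r c * P.dk m p l r c + bs P W Q r c * (m : ℝ) ^ 2 +
      (if r = P.ro then (if c = P.co then (m : ℝ) ^ 2 - (m : ℝ) ^ 2 * M else 0) else 0) +
      ex r c - D / (4 * n)) = D + (∑ r, ∑ c, bs P W Q r c) * (m : ℝ) ^ 2 +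
      ((m : ℝ) ^ 2 - (m : ℝ) ^ 2 * M) + (∑ r, ∑ c, ex r c) - D / 4 := by
      simp only [Finset.sum_sub_distrib, Finset.sum_add_distrib, Finset.sum_const,
        Finset.card_univ, nsmul_eq_mul, ← Finset.sum_mul]
      have h3 : ∑ r : R, ∑ c : C, (if r = P.ro then (if c = P.co then
          (m : ℝ) ^ 2 - (m : ℝ) ^ 2 * M else 0) else 0) = (m : ℝ) ^ 2 - (m : ℝ) ^ 2 * M := by
        rw [Finset.sum_eq_single P.ro, Finset.sum_eq_single P.co]
        · rw [if_pos rfl, if_pos rfl]
        · intro c _ hc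
          rw [if_pos rfl, if_neg hc]
        · intro h; exact absurd (Finset.mem_univ _) h
        · intro r _ hr
          exact Finset.sum_eq_zero fun c _ => if_neg hr
        · intro h; exact absurd (Finset.mem_univ _) h
      rw [h3]
      have h4 : (Fintype.card R : ℝ) * ((Fintype.card C : ℝ) * (D / (4 * n))) = D / 4 := by
        have h5 : (n : ℝ) = (Fintype.card R : ℝ) * (Fintype.card C : ℝ) := by
          rw [hn]; push_cast; ring
        rw [← mul_assoc, ← h5]
        field_simp
      rw [h4]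
    rw [h2] at h1
    exact h1
  have hS0 : 0 ≤ ∑ r, ∑ c, ex r c :=
    Finset.sum_nonneg fun r _ => Finset.sum_nonneg fun c _ => hex0 r c
  rw [base_eq] at hcost
  have hmain : 3 / 4 * D + (∑ r, ∑ c, ex r c) < (m : ℝ) ^ 2 * M := by
    have := hsum.trans_lt hcost
    nlinarith
  have hm2 : (0 : ℝ) < (m : ℝ) ^ 2 := by positivity
  have hMpos : 0 < M := by
    by_contra hcon
    have : (m : ℝ) ^ 2 * M ≤ 0 := mul_nonpos_of_nonneg_of_nonpos hm2.le (not_lt.1 hcon)
    linarith
  refine ⟨hMpos, rfl, bd.nrm, ?_, ?_, ?_, ?_⟩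
  · intro r s
    unfold mean
    rw [abs_div, abs_of_pos (by linarith : (0 : ℝ) < m), div_le_iff₀ (by linarith)]
    refine (Finset.abs_sum_le_sum_abs _ _).trans ?_
    refine (Finset.sum_le_sum fun a _ => bd.p2 r a s).trans ?_
    simp [mul_comm]
  · intro c s
    unfold mean
    rw [abs_div, abs_of_pos (by linarith : (0 : ℝ) < m), div_le_iff₀ (by linarith)]
    refine (Finset.abs_sum_le_sum_abs _ _).trans ?_
    refine (Finset.sum_le_sum fun b _ => bd.l2 c b s).trans ?_
    simp [mul_comm]
  · intro r c x hno hEx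
    have hwQ : Q ≤ P.w W Q r c := by
      rcases h2 : P.tC c with _ | j
      · by_cases hc : c = P.co
        · subst hc
          rcases h1 : P.tR r with _ | i
          · exfalso
            have hr : r ≠ P.ro := fun h => hno ⟨h, rfl⟩
            unfold Pt.E at hEx
            rw [h2, h1] at hEx
            simp [hr, ok.z_co] at hEx
          · rw [w_some_co h1 h2]; exact hWQ
        · rcases h1 : P.tR r with _ | i
          · rw [w_none_ne h1 h2 hc]
          · rw [w_some_ne h1 h2 hc]; nlinarith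
      · rcases h1 : P.tR r with _ | i
        · rw [w_none_some h1 h2]; nlinarith
        · rw [w_some_some h1 h2]
          have : Q ≤ W * Q := by nlinarith
          nlinarith
    have h1 := hDrc r c
    rw [dk_some hno hEx] at h1
    have h2 := known_lower (m := m) x (fun a b => ∑ s, p r a s * l c b s)
    rw [block_sum hm0 r c, ← mul_sub, abs_mul, abs_of_pos hm2] at h2
    have h3 : Q * ((m : ℝ) ^ 2 * |x - ∑ s, mean p r s * mean l c s|) ≤ D := by
      refine le_trans ?_ h1
      exact mul_le_mul hwQ h2 (by positivity) (hwnn r c)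
    have h4 : D ≤ 4 / 3 * ((m : ℝ) ^ 2 * M) := by linarith
    rw [le_div_iff₀ hQ0]
    have h5 : (m : ℝ) ^ 2 * (|x - ∑ s, mean p r s * mean l c s| * Q) ≤
        (m : ℝ) ^ 2 * (4 / 3 * M) := by
      calc _ = Q * ((m : ℝ) ^ 2 * |x - ∑ s, mean p r s * mean l c s|) := by ring
        _ ≤ D := h3
        _ ≤ _ := h4
        _ = _ := by ring
    exact le_of_mul_le_mul_left h5 hm2
  · intro r c hEn han
    have hc : c ≠ P.co := by
      intro hc
      subst hc
      rcases han with h | h
      · rcases h1 : P.tR r with _ | i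
        · exact h h1
        · rw [E_ar ok.co_none h1, ok.cv_co] at hEn
          simp at hEn
      · exact h ok.co_none
    have hwQ : Q ≤ P.w W Q r c := by
      rcases h2 : P.tC c with _ | j
      · rcases h1 : P.tR r with _ | i
        · rw [w_none_ne h1 h2 hc]
        · rw [w_some_ne h1 h2 hc]; nlinarith
      · rcases h1 : P.tR r with _ | i
        · rw [w_none_some h1 h2]; nlinarith
        · rw [w_some_some h1 h2]
          have : Q ≤ W * Q := by nlinarith
          nlinarith
    have h1 : ex r c ≤ ∑ r, ∑ c, ex r c :=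
      (Finset.single_le_sum (f := fun c => ex r c) (fun c _ => hex0 r c)
        (Finset.mem_univ c)).trans
      (Finset.single_le_sum (f := fun r => ∑ c, ex r c)
        (fun r _ => Finset.sum_nonneg fun c _ => hex0 r c) (Finset.mem_univ r))
    have h2 : ex r c = P.w W Q r c * ((m : ℝ) ^ 2 *
        max (|∑ s, mean p r s * mean l c s| - 1) 0) := by
      simp only [ex]
      rw [if_pos ⟨hEn, han⟩]
    have h3 : Q * ((m : ℝ) ^ 2 * (|∑ s, mean p r s * mean l c s| - 1)) ≤ (m : ℝ) ^ 2 * M := by
      have h4 : Q * ((m : ℝ) ^ 2 * max (|∑ s, mean p r s * mean l c s| - 1) 0) ≤ ex r c := by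
        rw [h2]
        exact mul_le_mul_of_nonneg_right hwQ
          (mul_nonneg hm2.le (le_max_right _ _))
      have h5 : Q * ((m : ℝ) ^ 2 * (|∑ s, mean p r s * mean l c s| - 1)) ≤
          Q * ((m : ℝ) ^ 2 * max (|∑ s, mean p r s * mean l c s| - 1) 0) := by
        apply mul_le_mul_of_nonneg_left _ hQ0.le
        exact mul_le_mul_of_nonneg_left (le_max_left _ _) hm2.le
      linarith
    have h6 : |∑ s, mean p r s * mean l c s| - 1 ≤ M / Q := by
      rw [le_div_iff₀ hQ0]
      have h5 : (m : ℝ) ^ 2 * ((|∑ s, mean p r s * mean l c s| - 1) * Q) ≤ (m : ℝ) ^ 2 * M := by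
        calc _ = Q * ((m : ℝ) ^ 2 * (|∑ s, mean p r s * mean l c s| - 1)) := by ring
          _ ≤ _ := h3
      exact le_of_mul_le_mul_left h5 hm2
    have h7 : M / Q ≤ 4 / 3 * M / Q := by
      apply div_le_div_of_nonneg_right _ hQ0.le
      linarith
    linarith

end Pool.Agent.R827.LRNOG
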