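import Mathlib

/-! Iterated Quillen negations of `∅ → {•}` in the category of all topological spaces. -/

open Set Topology

namespace Pool.Agent.R827.Orb

universe u

/-- A morphism of the category of topological spaces: a continuous map. -/
structure TM : Type (u + 1) where
  A : Type u
  B : Type u
  [tA : TopologicalSpace A]
  [tB : TopologicalSpace B]
  f : A → B
  hf : Continuous f

attribute [instance] TM.tA TM.tB

/-- `f` has the left lifting property with respect to `g`. -/
def Lifts (f g : TM.{u}) : Prop :=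
  ∀ (a : f.A → g.A) (b : f.B → g.B), Continuous a → Continuous b →
    (∀ x, g.f (a x) = b (f.f x)) →
    ∃ h : f.B → g.A, Continuous h ∧ (∀ x, h (f.f x) = a x) ∧ ∀ y, g.f (h y) = b y

/-- The left orthogonal class. -/
def L (C : Set TM.{u}) : Set TM.{u} := {f | ∀ g ∈ C, Lifts f g}

/-- The right orthogonal class. -/
def R (C : Set TM.{u}) : Set TM.{u} := {g | ∀ f ∈ C, Lifts f g}

/-- The map from the empty space to the one-point space. -/
def iota : TM.{u} where
  A := PEmpty
  B := PUnit
  f := PEmpty.elim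
  hf := continuous_of_const (fun x => x.elim)

theorem L_anti {C D : Set TM.{u}} (h : C ⊆ D) : L D ⊆ L C := fun _ hf g hg => hf g (h hg)
theorem R_anti {C D : Set TM.{u}} (h : C ⊆ D) : R D ⊆ R C := fun _ hg f hf => hg f (h hf)
theorem sub_LR (C : Set TM.{u}) : C ⊆ L (R C) := fun _ hf _ hg => hg _ hf
theorem sub_RL (C : Set TM.{u}) : C ⊆ R (L C) := fun _ hg _ hf => hf _ hg
theorem LRL (C : Set TM.{u}) : L (R (L C)) = L C :=
  Subset.antisymm (L_anti (sub_RL C)) (sub_LR (L C))
theorem RLR (C : Set TM.{u}) : R (L (R C)) = R C :=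
  Subset.antisymm (R_anti (sub_LR C)) (sub_RL (R C))

/-! ### The classes -/

def All : Set TM.{u} := univ
def Iso : Set TM.{u} := {f | IsHomeomorph f.f}
def E : Set TM.{u} := {f | Function.Surjective f.f}
def M : Set TM.{u} := {f | IsEmbedding f.f}
def Inj : Set TM.{u} := {f | Function.Injective f.f}
def N : Set TM.{u} := {f | Nonempty f.A ∨ IsEmpty f.B}
def K : Set TM.{u} := {f | IsHomeomorph f.f ∨ IsEmpty f.A}
def Sp : Set TM.{u} := {f | ∃ s : f.B → f.A, Continuous s ∧ ∀ y, f.f (s y) = y}
def SU : Set TM.{u} := {f | IsEmbedding f.f ∧ IsClopen (range f.f)}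
def D : Set TM.{u} := {f | IsOpenEmbedding f.f ∧ ∀ b ∉ range f.f, IsOpen {b}}
def Qt : Set TM.{u} := {f | IsQuotientMap f.f}
def SI : Set TM.{u} := {f | Function.Surjective f.f ∧ IsInducing f.f}
def T0 : Set TM.{u} := {g | ∀ x x', g.f x = g.f x' → Inseparable x x' → x = x'}
def T1 : Set TM.{u} := {g | ∀ x x', g.f x = g.f x' → x ⤳ x' → x = x'}
def Z : Set TM.{u} := {f | ∀ K, IsClopen K → K.Nonempty → ∃ x, f.f x ∈ K}
def Rr : Set TM.{u} := {g | IsEmbedding g.f ∧ ∀ S : Set g.B, range g.f ⊆ S → S ≠ range g.f →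
  ∃ K : Set S, IsClopen K ∧ K.Nonempty ∧ ∀ k ∈ K, (k : g.B) ∉ range g.f}
def G : Set TM.{u} := {g | ∃ z : g.B → g.A, (∀ y, g.f (z y) = y) ∧
  ∀ W : Set g.A, IsOpen W → IsOpen (g.f '' W) ∧ ∀ y ∈ g.f '' W, z y ∈ W}
def CE : Set TM.{u} := {f | IsClosedEmbedding f.f}
def Den : Set TM.{u} := {f | DenseRange f.f}

/-! ### Test maps -/

/-- Indiscrete two-point space. -/
structure Ind : Type u where
  val : Bool

instance : TopologicalSpace Ind.{u} := ⊤

theorem cont_ind {A : Type*} [TopologicalSpace A] (a : A → Ind.{u}) : Continuous a :=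
  continuous_top

/-- Sierpinski space in any universe. -/
abbrev Sie : Type u := ULift.{u} Prop

/-- discrete two-point space in any universe. -/
abbrev Two : Type u := ULift.{u} Bool

def t1 : TM.{u} where
  A := Ind
  B := PUnit
  f := fun _ => PUnit.unit
  hf := continuous_const

def t2 : TM.{u} where
  A := Sie
  B := PUnit
  f := fun _ => PUnit.unit
  hf := continuous_const

def t3 : TM.{u} where
  A := Two
  B := PUnit
  f := fun _ => PUnit.unit
  hf := continuous_const

def t4 : TM.{u} where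
  A := PUnit
  B := Ind
  f := fun _ => ⟨true⟩
  hf := continuous_const

/-- inclusion of a point in the two-point discrete space -/
def t5 : TM.{u} where
  A := PUnit
  B := Two
  f := fun _ => ⟨true⟩
  hf := continuous_const

theorem t1_inj {C : Set TM.{u}} (h : t1 ∈ C) : L C ⊆ Inj := by
  intro f hf x x' hx
  by_contra hne
  classical
  obtain ⟨k, -, hk, -⟩ := hf _ h (fun y => ⟨decide (y = x)⟩) (fun _ => PUnit.unit)
    (cont_ind _) continuous_const (fun _ => rfl)
  have e1 := hk x
  have e2 := hk x'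
  rw [← hx, e1] at e2
  have := congrArg Ind.val e2
  simp only [decide_true] at this
  exact hne ((decide_eq_true_eq.mp this.symm).symm)

theorem t2_ind {C : Set TM.{u}} (h : t2 ∈ C) : L C ⊆ {f | IsInducing f.f} := by
  intro f hf
  refine ⟨le_antisymm (continuous_iff_le_induced.mp f.hf) ?_⟩
  intro V hV
  have hV' : IsOpen V := hV
  have hc : Continuous (fun x : f.A => (ULift.up (x ∈ V) : Sie.{u})) :=
    continuous_uliftUp.comp (continuous_Prop.mpr hV')
  obtain ⟨k, hk, hk1, -⟩ := hf _ h _ (fun _ => PUnit.unit) hc continuous_const (fun _ => rfl)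
  refine ⟨{y | (k y).down}, ?_, ?_⟩
  · exact continuous_Prop.mp (continuous_uliftDown.comp hk)
  · ext x
    simp only [mem_preimage, mem_ofPred_eq]
    rw [hk1 x]

theorem t2_T1 {C : Set TM.{u}} (h : t2 ∈ C) : R C ⊆ T1 := by
  intro g hg x x' hx hs
  classical
  have hc : Continuous (fun p : Sie.{u} => if p.down then x else x') := by
    rw [continuous_def]
    intro W hW
    by_cases h1 : x' ∈ W
    · have h2 : x ∈ W := hs.mem_open hW h1
      have : (fun p : Sie.{u} => if p.down then x else x') ⁻¹' W = univ := by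
        ext p; by_cases hp : p.down <;> simp [hp, h1, h2]
      rw [this]; exact isOpen_univ
    · by_cases h2 : x ∈ W
      · have : (fun p : Sie.{u} => if p.down then x else x') ⁻¹' W = {p | p.down} := by
          ext p; by_cases hp : p.down <;> simp [hp, h1, h2]
        rw [this]; exact continuous_Prop.mp continuous_uliftDown
      · have : (fun p : Sie.{u} => if p.down then x else x') ⁻¹' W = ∅ := by
          ext p; by_cases hp : p.down <;> simp [hp, h1, h2]
        rw [this]; exact isOpen_empty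
  obtain ⟨k, -, hk, -⟩ := hg _ h _ (fun _ => g.f x) hc continuous_const
    (fun p => by by_cases hp : p.down <;> simp [hp, hx])
  have e1 := hk ⟨True⟩
  have e2 := hk ⟨False⟩
  simp only [if_true, if_false] at e1 e2
  exact e1.symm.trans e2

theorem t1_T0 {C : Set TM.{u}} (h : t1 ∈ C) : R C ⊆ T0 := by
  intro g hg x x' hx hs
  have hc : Continuous (fun p : Ind.{u} => if p.val then x else x') := by
    rw [continuous_def]
    intro W hW
    by_cases h1 : x' ∈ W
    · have h2 : x ∈ W := (hs.mem_open_iff hW).mpr h1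
      have : (fun p : Ind.{u} => if p.val then x else x') ⁻¹' W = univ := by
        ext p; by_cases hp : p.val <;> simp [hp, h1, h2]
      rw [this]; exact isOpen_univ
    · have h2 : x ∉ W := fun h => h1 ((hs.mem_open_iff hW).mp h)
      have : (fun p : Ind.{u} => if p.val then x else x') ⁻¹' W = ∅ := by
        ext p; by_cases hp : p.val <;> simp [hp, h1, h2]
      rw [this]; exact isOpen_empty
  obtain ⟨k, -, hk, -⟩ := hg _ h _ (fun _ => g.f x) hc continuous_const
    (fun p => by by_cases hp : p.val <;> simp [hp, hx])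
  have e1 := hk ⟨true⟩
  have e2 := hk ⟨false⟩
  simp only [if_true] at e1
  simp only [Bool.false_eq_true, if_false] at e2
  exact e1.symm.trans e2

theorem t3_inj {C : Set TM.{u}} (h : t3 ∈ C) : R C ⊆ Inj := by
  intro g hg x x' hx
  have hc : Continuous (fun p : Two.{u} => if p.down then x else x') :=
    continuous_of_discreteTopology
  obtain ⟨k, -, hk, -⟩ := hg _ h _ (fun _ => g.f x) hc continuous_const
    (fun p => by by_cases hp : p.down <;> simp [hp, hx])
  have e1 := hk ⟨true⟩
  have e2 := hk ⟨false⟩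
  simp only [if_true] at e1
  simp only [Bool.false_eq_true, if_false] at e2
  exact e1.symm.trans e2

theorem iota_surj {C : Set TM.{u}} (h : iota ∈ C) : R C ⊆ E := by
  intro g hg y
  obtain ⟨k, -, -, hk⟩ := hg _ h (fun x => x.elim) (fun _ => y)
    (continuous_of_const (fun x => x.elim)) continuous_const (fun x => x.elim)
  exact ⟨k PUnit.unit, hk PUnit.unit⟩

/-- if `C` contains the injective maps then members of `R C` are inducing -/
theorem inj_ind {C : Set TM.{u}} (h : Inj ⊆ C) : R C ⊆ {g | IsInducing g.f} := by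
  intro g hg
  let f : TM.{u} := @TM.mk g.A g.A g.tA (TopologicalSpace.induced g.f g.tB) id
    (continuous_iff_le_induced.mp g.hf |> fun h => continuous_id_iff_le.mpr h)
  have hf : f ∈ C := h (fun _ _ h => h)
  obtain ⟨k, hk, hk1, -⟩ := hg f hf id g.f continuous_id continuous_induced_dom (fun _ => rfl)
  have hk2 : k = id := funext hk1
  subst hk2
  exact ⟨le_antisymm (continuous_iff_le_induced.mp g.hf) (continuous_id_iff_le.mp hk)⟩

/-- if `C` contains the injective maps then members of `L C` are quotient maps -/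
theorem inj_quot {C : Set TM.{u}} (h : Inj ⊆ C) : L C ⊆ Qt := by
  intro f hf
  have hs : Function.Surjective f.f := by
    let g : TM.{u} := ⟨range f.f, f.B, Subtype.val, continuous_subtype_val⟩
    have hg : g ∈ C := h Subtype.val_injective
    obtain ⟨k, -, -, hk⟩ := hf g hg (rangeFactorization f.f) id
      (f.hf.subtype_mk _) continuous_id (fun _ => rfl)
    intro y
    have := (k y).2
    have e : ((k y : range f.f) : f.B) = y := hk y
    rw [e] at this
    exact this
  let g : TM.{u} := @TM.mk f.B f.B (TopologicalSpace.coinduced f.f f.tA) f.tB id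
    (continuous_id_iff_le.mpr (continuous_iff_coinduced_le.mp f.hf))
  have hg : g ∈ C := h (fun _ _ h => h)
  obtain ⟨k, hk, -, hk1⟩ := hf g hg f.f id continuous_coinduced_rng continuous_id (fun _ => rfl)
  have hk2 : k = id := funext hk1
  subst hk2
  exact ⟨⟨le_antisymm (continuous_id_iff_le.mp hk) (continuous_iff_coinduced_le.mp f.hf)⟩, hs⟩

/-! ### Generic lifts -/

theorem lift_iso_left {f g : TM.{u}} (hf : IsHomeomorph f.f) : Lifts f g := by
  intro a b ha hb hab
  let e := hf.homeomorph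
  refine ⟨fun y => a (e.symm y), ha.comp e.symm.continuous, ?_, ?_⟩
  · intro x
    exact congrArg a (e.symm_apply_apply x)
  · intro y
    rw [hab]
    exact congrArg b (e.apply_symm_apply y)

theorem lift_iso_right {f g : TM.{u}} (hg : IsHomeomorph g.f) : Lifts f g := by
  intro a b ha hb hab
  let e := hg.homeomorph
  refine ⟨fun y => e.symm (b y), e.symm.continuous.comp hb, ?_, ?_⟩
  · intro x
    show e.symm (b (f.f x)) = a x
    rw [← hab]
    exact e.symm_apply_apply _
  · intro y
    exact e.apply_symm_apply _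

/-- lifting through an embedding -/
theorem lift_emb {f g : TM.{u}} (hg : IsEmbedding g.f) {a : f.A → g.A} {b : f.B → g.B}
    (hb : Continuous b) (hab : ∀ x, g.f (a x) = b (f.f x)) (h : ∀ y, b y ∈ range g.f) :
    ∃ h : f.B → g.A, Continuous h ∧ (∀ x, h (f.f x) = a x) ∧ ∀ y, g.f (h y) = b y := by
  choose k hk using h
  refine ⟨k, ?_, ?_, hk⟩
  · rw [hg.continuous_iff]
    have : g.f ∘ k = b := funext hk
    rw [this]; exact hb
  · intro x
    apply hg.injective
    rw [hk, hab]

theorem surj_emb {f g : TM.{u}} (hf : f ∈ E) (hg : g ∈ M) : Lifts f g := by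
  intro a b ha hb hab
  refine lift_emb hg hb hab ?_
  intro y
  obtain ⟨x, rfl⟩ := hf y
  exact ⟨a x, hab x⟩

theorem dense_ce {f g : TM.{u}} (hf : f ∈ Den) (hg : g ∈ CE) : Lifts f g := by
  intro a b ha hb hab
  have hg' : IsClosedEmbedding g.f := hg
  refine lift_emb hg'.isEmbedding hb hab ?_
  have hcl : IsClosed (b ⁻¹' (range g.f)) := hg'.isClosed_range.preimage hb
  have hsub : range f.f ⊆ b ⁻¹' (range g.f) := by
    rintro _ ⟨x, rfl⟩
    exact ⟨a x, hab x⟩
  have : closure (range f.f) ⊆ b ⁻¹' (range g.f) := closure_minimal hsub hcl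
  have hd : DenseRange f.f := hf
  rw [hd.closure_range] at this
  intro y
  exact this (mem_univ y)

theorem z_su {f g : TM.{u}} (hf : f ∈ Z) (hg : g ∈ SU) : Lifts f g := by
  intro a b ha hb hab
  refine lift_emb hg.1 hb hab ?_
  by_contra hne
  push Not at hne
  obtain ⟨y, hy⟩ := hne
  obtain ⟨x, hx⟩ := hf (b ⁻¹' (range g.f)ᶜ) (hg.2.compl.preimage hb) ⟨y, hy⟩
  exact hx ⟨a x, hab x⟩

theorem z_rr {f g : TM.{u}} (hf : f ∈ Z) (hg : g ∈ Rr) : Lifts f g := by
  intro a b ha hb hab
  refine lift_emb hg.1 hb hab ?_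
  by_contra hne
  push Not at hne
  obtain ⟨y, hy⟩ := hne
  have hS : range g.f ∪ range b ≠ range g.f := by
    intro h
    exact hy (h ▸ Or.inr ⟨y, rfl⟩)
  obtain ⟨Kk, hK, ⟨k, hk⟩, hK2⟩ := hg.2 _ subset_union_left hS
  let b' : f.B → (range g.f ∪ range b : Set g.B) := fun y => ⟨b y, Or.inr ⟨y, rfl⟩⟩
  have hb' : Continuous b' := hb.subtype_mk _
  have hkb : (k : g.B) ∈ range b := k.2.resolve_left (hK2 k hk)
  obtain ⟨y', hy'⟩ := hkb
  obtain ⟨x, hx⟩ := hf (b' ⁻¹' Kk) (hK.preimage hb') ⟨y', by
    have : b' y' = k := Subtype.ext hy'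
    simp only [mem_preimage]; rw [this]; exact hk⟩
  exact hK2 _ hx ⟨a x, hab x⟩

theorem d_surj {f g : TM.{u}} (hf : f ∈ D) (hg : g ∈ E) : Lifts f g := by
  intro a b ha hb hab
  classical
  obtain ⟨hf1, hf2⟩ := hf
  let r : g.B → g.A := Function.surjInv hg
  have hr : ∀ y, g.f (r y) = y := Function.surjInv_eq hg
  let h : f.B → g.A := fun y => if hy : ∃ x, f.f x = y then a hy.choose else r (b y)
  have h1 : ∀ x, h (f.f x) = a x := by
    intro x
    have hx : ∃ x', f.f x' = f.f x := ⟨x, rfl⟩
    have : hx.choose = x := hf1.injective hx.choose_spec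
    simp only [h, dif_pos hx, this]
  refine ⟨h, ?_, h1, ?_⟩
  · rw [continuous_iff_continuousAt]
    intro y
    by_cases hy : ∃ x, f.f x = y
    · obtain ⟨x, rfl⟩ := hy
      rw [← hf1.continuousAt_iff]
      have : h ∘ f.f = a := funext h1
      rw [this]; exact ha.continuousAt
    · have ho : IsOpen {y} := hf2 y (by rintro ⟨x, hx⟩; exact hy ⟨x, hx⟩)
      have hn : 𝓝 y = pure y := (isOpen_singleton_iff_nhds_eq_pure y).mp ho
      unfold ContinuousAt
      rw [hn]
      exact tendsto_pure_nhds _ _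
  · intro y
    by_cases hy : ∃ x, f.f x = y
    · obtain ⟨x, rfl⟩ := hy
      rw [h1, hab]
    · simp only [h, dif_neg hy, hr]

theorem su_sp {f g : TM.{u}} (hf : f ∈ SU) (hg : g ∈ Sp) : Lifts f g := by
  intro a b ha hb hab
  classical
  obtain ⟨hf1, hf2⟩ := hf
  have hfo : IsOpenEmbedding f.f := ⟨hf1, hf2.isOpen⟩
  obtain ⟨s, hs, hs2⟩ := hg
  let h : f.B → g.A := fun y => if hy : ∃ x, f.f x = y then a hy.choose else s (b y)
  have h1 : ∀ x, h (f.f x) = a x := by
    intro x
    have hx : ∃ x', f.f x' = f.f x := ⟨x, rfl⟩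
    have : hx.choose = x := hf1.injective hx.choose_spec
    simp only [h, dif_pos hx, this]
  refine ⟨h, ?_, h1, ?_⟩
  · rw [continuous_iff_continuousAt]
    intro y
    by_cases hy : ∃ x, f.f x = y
    · obtain ⟨x, rfl⟩ := hy
      rw [← hfo.continuousAt_iff]
      have : h ∘ f.f = a := funext h1
      rw [this]; exact ha.continuousAt
    · have ho : (range f.f)ᶜ ∈ 𝓝 y := hf2.compl.isOpen.mem_nhds (by rintro ⟨x, hx⟩; exact hy ⟨x, hx⟩)
      have he : (fun y => s (b y)) =ᶠ[𝓝 y] h := by
        filter_upwards [ho] with z hz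
        have : ¬ ∃ x, f.f x = z := by rintro ⟨x, hx⟩; exact hz ⟨x, hx⟩
        simp only [h, dif_neg this]
      exact (hs.comp hb).continuousAt.congr he
  · intro y
    by_cases hy : ∃ x, f.f x = y
    · obtain ⟨x, rfl⟩ := hy
      rw [h1, hab]
    · simp only [h, dif_neg hy, hs2]

theorem sp_inj {f g : TM.{u}} (hf : f ∈ Sp) (hg : g ∈ Inj) : Lifts f g := by
  intro a b ha hb hab
  obtain ⟨s, hs, hs2⟩ := hf
  refine ⟨fun y => a (s y), ha.comp hs, ?_, ?_⟩
  · intro x
    apply hg
    rw [hab, hab, hs2]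
  · intro y
    rw [hab, hs2]

theorem qt_inj {f g : TM.{u}} (hf : f ∈ Qt) (hg : g ∈ Inj) : Lifts f g := by
  intro a b ha hb hab
  have hf' : IsQuotientMap f.f := hf
  let s : f.B → f.A := Function.surjInv hf'.surjective
  have hs2 : ∀ y, f.f (s y) = y := Function.surjInv_eq hf'.surjective
  have h1 : ∀ x, a (s (f.f x)) = a x := by
    intro x
    apply hg
    rw [hab, hab, hs2]
  refine ⟨fun y => a (s y), ?_, h1, ?_⟩
  · rw [hf'.continuous_iff]
    have : (fun y => a (s y)) ∘ f.f = a := funext h1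
    rw [this]; exact ha
  · intro y
    rw [hab, hs2]

theorem inj_si {f g : TM.{u}} (hf : f ∈ Inj) (hg : g ∈ SI) : Lifts f g := by
  intro a b ha hb hab
  classical
  obtain ⟨hg1, hg2⟩ := hg
  let r : g.B → g.A := Function.surjInv hg1
  have hr : ∀ y, g.f (r y) = y := Function.surjInv_eq hg1
  let h : f.B → g.A := fun y => if hy : ∃ x, f.f x = y then a hy.choose else r (b y)
  have h1 : ∀ x, h (f.f x) = a x := by
    intro x
    have hx : ∃ x', f.f x' = f.f x := ⟨x, rfl⟩
    have : hx.choose = x := hf hx.choose_spec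
    simp only [h, dif_pos hx, this]
  have h2 : ∀ y, g.f (h y) = b y := by
    intro y
    by_cases hy : ∃ x, f.f x = y
    · obtain ⟨x, rfl⟩ := hy
      rw [h1, hab]
    · simp only [h, dif_neg hy, hr]
  refine ⟨h, ?_, h1, h2⟩
  rw [hg2.continuous_iff]
  have : g.f ∘ h = b := funext h2
  rw [this]; exact hb

theorem si_t0 {f g : TM.{u}} (hf : f ∈ SI) (hg : g ∈ T0) : Lifts f g := by
  intro a b ha hb hab
  obtain ⟨hf1, hf2⟩ := hf
  let s : f.B → f.A := Function.surjInv hf1
  have hs2 : ∀ y, f.f (s y) = y := Function.surjInv_eq hf1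
  have h1 : ∀ x, a (s (f.f x)) = a x := by
    intro x
    apply hg
    · rw [hab, hab, hs2]
    · have : Inseparable (s (f.f x)) x := by
        rw [← hf2.inseparable_iff, hs2]
      exact this.map ha
  refine ⟨fun y => a (s y), ?_, h1, ?_⟩
  · rw [continuous_def]
    intro W hW
    obtain ⟨O, hO, hO2⟩ := hf2.isOpen_iff.mp (hW.preimage ha)
    have : (fun y => a (s y)) ⁻¹' W = O := by
      ext y
      have : s y ∈ f.f ⁻¹' O ↔ s y ∈ a ⁻¹' W := by rw [hO2]
      simp only [mem_preimage, hs2] at this ⊢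
      exact this.symm
    rw [this]; exact hO
  · intro y
    rw [hab, hs2]

theorem g_cont {g : TM.{u}} {z : g.B → g.A} (hz : ∀ y, g.f (z y) = y)
    (hz2 : ∀ W : Set g.A, IsOpen W → IsOpen (g.f '' W) ∧ ∀ y ∈ g.f '' W, z y ∈ W) :
    Continuous z := by
  rw [continuous_def]
  intro W hW
  have : z ⁻¹' W = g.f '' W := by
    ext y
    constructor
    · intro h; exact ⟨z y, h, hz y⟩
    · intro h; exact (hz2 W hW).2 y h
  rw [this]; exact (hz2 W hW).1

theorem g_t1 {f g : TM.{u}} (hf : f ∈ G) (hg : g ∈ T1) : Lifts f g := by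
  intro a b ha hb hab
  obtain ⟨z, hz, hz2⟩ := hf
  have h1 : ∀ x, a (z (f.f x)) = a x := by
    intro x
    apply hg
    · rw [hab, hab, hz]
    · have : z (f.f x) ⤳ x := by
        rw [specializes_iff_forall_open]
        intro W hW hx
        exact (hz2 W hW).2 _ ⟨x, hx, rfl⟩
      exact this.map ha
  refine ⟨fun y => a (z y), ha.comp (g_cont hz hz2), h1, ?_⟩
  intro y
  rw [hab, hz]

theorem ce_g {f g : TM.{u}} (hf : f ∈ CE) (hg : g ∈ G) : Lifts f g := by
  intro a b ha hb hab
  classical
  have hf' : IsClosedEmbedding f.f := hf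
  obtain ⟨z, hz, hz2⟩ := hg
  have hzc := g_cont hz hz2
  let h : f.B → g.A := fun y => if hy : ∃ x, f.f x = y then a hy.choose else z (b y)
  have h1 : ∀ x, h (f.f x) = a x := by
    intro x
    have hx : ∃ x', f.f x' = f.f x := ⟨x, rfl⟩
    have : hx.choose = x := hf'.injective hx.choose_spec
    simp only [h, dif_pos hx, this]
  have h2 : ∀ y, (¬ ∃ x, f.f x = y) → h y = z (b y) := by
    intro y hy
    simp only [h, dif_neg hy]
  refine ⟨h, ?_, h1, ?_⟩
  · rw [continuous_def]
    intro W hW
    rw [isOpen_iff_mem_nhds]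
    intro y hy
    by_cases hx : ∃ x, f.f x = y
    · obtain ⟨x, rfl⟩ := hx
      have hax : a x ∈ W := by rw [← h1 x]; exact hy
      obtain ⟨O, hO, hO2⟩ := hf'.isInducing.isOpen_iff.mp (hW.preimage ha)
      have hxO : f.f x ∈ O := by
        have : x ∈ f.f ⁻¹' O := by rw [hO2]; exact hax
        exact this
      have hbx : b (f.f x) ∈ g.f '' W := ⟨a x, hax, hab x⟩
      have hV : O ∩ b ⁻¹' (g.f '' W) ∈ 𝓝 (f.f x) :=
        (hO.inter ((hz2 W hW).1.preimage hb)).mem_nhds ⟨hxO, hbx⟩
      filter_upwards [hV] with y' hy'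
      by_cases hx' : ∃ x, f.f x = y'
      · obtain ⟨x', rfl⟩ := hx'
        have : x' ∈ a ⁻¹' W := by rw [← hO2]; exact hy'.1
        simp only [mem_preimage, h1]
        exact this
      · simp only [mem_preimage, h2 y' hx']
        exact (hz2 W hW).2 _ hy'.2
    · have ho : (range f.f)ᶜ ∈ 𝓝 y :=
        hf'.isClosed_range.isOpen_compl.mem_nhds (by rintro ⟨x, hx'⟩; exact hx ⟨x, hx'⟩)
      have hw : (fun y => z (b y)) ⁻¹' W ∈ 𝓝 y := by
        apply (hW.preimage (hzc.comp hb)).mem_nhds
        have : h y ∈ W := hy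
        rw [h2 y hx] at this
        exact this
      filter_upwards [ho, hw] with y' hy1 hy2
      have : ¬ ∃ x, f.f x = y' := by rintro ⟨x, hx'⟩; exact hy1 ⟨x, hx'⟩
      simp only [mem_preimage, h2 y' this]
      exact hy2
  · intro y
    by_cases hx : ∃ x, f.f x = y
    · obtain ⟨x, rfl⟩ := hx
      rw [h1, hab]
    · rw [h2 y hx, hz]

end Pool.Agent.R827.Orb
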