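import Pool.Agent.R827.Orb

open Set Topology

namespace Pool.Agent.R827.Orb

universe u

/-- discrete copy of a type -/
structure Dsc (X : Type u) : Type u where
  val : X

instance (X : Type u) : TopologicalSpace (Dsc X) := ⊥
instance (X : Type u) : DiscreteTopology (Dsc X) := ⟨rfl⟩

/-! ### memberships -/

theorem true_spec (p : Prop) : True ⤳ p := by
  by_cases hp : p
  · have : p = True := by simpa using hp
    rw [this]
  · have : p = False := by simpa using hp
    rw [this]
    unfold Specializes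
    rw [nhds_false]
    exact le_top

theorem t1_G : t1.{u} ∈ G := by
  refine ⟨fun _ => ⟨true⟩, fun _ => rfl, ?_⟩
  intro W hW
  haveI : DiscreteTopology t1.{u}.B := inferInstanceAs (DiscreteTopology PUnit)
  refine ⟨isOpen_discrete _, ?_⟩
  rintro _ ⟨w, hw, rfl⟩
  have : W = ∅ ∨ W = univ := TopologicalSpace.isOpen_top_iff W |>.mp hW
  rcases this with h | h
  · rw [h] at hw; exact absurd hw (notMem_empty _)
  · rw [h]; trivial

theorem t2_G : t2.{u} ∈ G := by
  refine ⟨fun _ => ⟨True⟩, fun _ => rfl, ?_⟩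
  intro W hW
  haveI : DiscreteTopology t2.{u}.B := inferInstanceAs (DiscreteTopology PUnit)
  refine ⟨isOpen_discrete _, ?_⟩
  rintro _ ⟨w, hw, rfl⟩
  have hs : (ULift.up True : Sie.{u}) ⤳ w := (true_spec w.down).map continuous_uliftUp
  exact hs.mem_open hW hw

theorem t1_J : t1.{u} ∈ R M := by
  intro f hf a b ha hb hab
  classical
  have hf' : IsEmbedding f.f := hf
  let h : f.B → t1.{u}.A := fun y => if hy : ∃ x, f.f x = y then a hy.choose else ⟨true⟩
  refine ⟨h, cont_ind h, ?_, fun _ => rfl⟩
  intro x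
  have hx : ∃ x', f.f x' = f.f x := ⟨x, rfl⟩
  have h3 : hx.choose = x := hf'.injective hx.choose_spec
  have h4 : h (f.f x) = a hx.choose := dif_pos hx
  rw [h4, h3]

theorem t2_J : t2.{u} ∈ R M := by
  intro f hf a b ha hb hab
  have hf' : IsEmbedding f.f := hf
  have hV : IsOpen {x | (a x : Sie.{u}).down} := continuous_Prop.mp (continuous_uliftDown.comp ha)
  obtain ⟨O, hO, hO2⟩ := hf'.isInducing.isOpen_iff.mp hV
  refine ⟨fun y => (ULift.up (y ∈ O) : Sie.{u}), continuous_uliftUp.comp (continuous_Prop.mpr hO),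
    ?_, fun _ => rfl⟩
  intro x
  have : (x ∈ f.f ⁻¹' O) = (x ∈ {x | (a x : Sie.{u}).down}) := by rw [hO2]
  show (ULift.up (f.f x ∈ O) : Sie.{u}) = a x
  apply ULift.ext
  exact this

theorem t2_T0 : t2.{u} ∈ T0 := by
  intro x x' _ h
  have h2 : Inseparable (x : Sie.{u}).down x'.down := h.map continuous_uliftDown
  have h3 : IsOpen {p : Prop | p} := continuous_Prop.mp continuous_id
  have h4 : (x : Sie.{u}).down ↔ (x' : Sie.{u}).down := h2.mem_open_iff h3
  exact ULift.ext _ _ (propext h4)

theorem t1_SI : t1.{u} ∈ SI := by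
  refine ⟨fun y => ⟨⟨true⟩, rfl⟩, ⟨?_⟩⟩
  apply le_antisymm
  · exact continuous_iff_le_induced.mp t1.hf
  · intro V hV
    have : V = ∅ ∨ V = univ := TopologicalSpace.isOpen_top_iff V |>.mp hV
    rcases this with h | h
    · exact ⟨∅, isOpen_empty, by rw [h]; rfl⟩
    · exact ⟨univ, isOpen_univ, by rw [h]; rfl⟩

theorem t3_Sp : t3.{u} ∈ Sp := ⟨fun _ => ⟨true⟩, continuous_const, fun _ => rfl⟩

theorem t3_T1 : t3.{u} ∈ T1 := by
  intro x x' _ h
  have : DiscreteTopology t3.{u}.A := inferInstanceAs (DiscreteTopology Two)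
  exact h.eq

theorem t3_T0 : t3.{u} ∈ T0 := by
  intro x x' _ h
  have : DiscreteTopology t3.{u}.A := inferInstanceAs (DiscreteTopology Two)
  exact h.eq

theorem t4_Den : t4.{u} ∈ Den := by
  intro y
  rw [mem_closure_iff]
  intro O hO hy
  have : O = ∅ ∨ O = univ := TopologicalSpace.isOpen_top_iff O |>.mp hO
  rcases this with h | h
  · rw [h] at hy; exact absurd hy (notMem_empty _)
  · exact ⟨⟨true⟩, by rw [h]; trivial, ⟨PUnit.unit, rfl⟩⟩

theorem t4_Z : t4.{u} ∈ Z := by
  intro O hO hy
  have : O = ∅ ∨ O = univ := TopologicalSpace.isOpen_top_iff O |>.mp hO.isOpen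
  rcases this with h | h
  · rw [h] at hy; exact absurd hy (not_nonempty_empty)
  · exact ⟨PUnit.unit, by rw [h]; trivial⟩

theorem t4_N : t4.{u} ∈ N := Or.inl ⟨PUnit.unit⟩

theorem t5_D : t5.{u} ∈ D := by
  refine ⟨⟨⟨⟨?_⟩, ?_⟩, ?_⟩, ?_⟩
  · apply le_antisymm
    · exact continuous_iff_le_induced.mp t5.hf
    · intro V _
      rcases Classical.em (PUnit.unit ∈ V) with h | h
      · exact ⟨univ, isOpen_univ, by ext x; simp; exact h⟩
      · exact ⟨∅, isOpen_empty, by ext x; simp; exact h⟩
  · intro x x' _; rfl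
  · exact (isOpen_discrete (α := Two) _)
  · intro b _
    exact (isOpen_discrete (α := Two) _)

theorem iota_M : iota.{u} ∈ M := by
  refine ⟨⟨?_⟩, fun x => x.elim⟩
  ext V
  constructor
  · intro _; exact ⟨∅, isOpen_empty, by ext x; exact x.elim⟩
  · intro _
    have : V = ∅ := by ext x; exact x.elim
    rw [this]; exact isOpen_empty

theorem iota_Inj : iota.{u} ∈ Inj := fun x => x.elim

/-! ### inclusions between classes -/

theorem Iso_L (C : Set TM.{u}) : Iso ⊆ L C := fun _ hf _ _ => lift_iso_left hf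
theorem Iso_R (C : Set TM.{u}) : Iso ⊆ R C := fun _ hg _ _ => lift_iso_right hg

theorem D_SU : D.{u} ⊆ SU := by
  intro f hf
  refine ⟨hf.1.isEmbedding, ⟨?_, hf.1.isOpen_range⟩⟩
  rw [← isOpen_compl_iff, isOpen_iff_mem_nhds]
  intro y hy
  apply Filter.mem_of_superset ((hf.2 y hy).mem_nhds rfl)
  rintro _ rfl
  exact hy

theorem E_Z : E.{u} ⊆ Z := by
  intro f hf O _ ⟨y, hy⟩
  obtain ⟨x, rfl⟩ := hf y
  exact ⟨x, hy⟩

theorem E_N : E.{u} ⊆ N := by
  intro f hf
  by_cases h : Nonempty f.A
  · exact Or.inl h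
  · right
    constructor
    intro y
    obtain ⟨x, -⟩ := hf y
    exact h ⟨x⟩

theorem E_Den : E.{u} ⊆ Den := fun _ hf => Function.Surjective.denseRange hf

theorem Inj_T1 : Inj.{u} ⊆ T1 := fun _ hf _ _ h _ => hf h
theorem Inj_T0 : Inj.{u} ⊆ T0 := fun _ hf _ _ h _ => hf h

theorem Rr_CE : Rr.{u} ⊆ CE := by
  intro f hf
  refine ⟨hf.1, ?_⟩
  rw [← isOpen_compl_iff, isOpen_iff_mem_nhds]
  intro y hy
  have hS : range f.f ∪ {y} ≠ range f.f := by
    intro h
    exact hy (h ▸ Or.inr rfl)
  obtain ⟨Kk, hK, ⟨k, hk⟩, hK2⟩ := hf.2 _ subset_union_left hS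
  obtain ⟨O, hO, hO2⟩ := isOpen_induced_iff.mp hK.isOpen
  have hky : (k : f.B) = y := (k.2.resolve_left (hK2 k hk))
  have hyO : y ∈ O := by
    have : k ∈ Subtype.val ⁻¹' O := by rw [hO2]; exact hk
    rw [← hky]; exact this
  apply Filter.mem_of_superset (hO.mem_nhds hyO)
  intro z hz hzr
  have : (⟨z, Or.inl hzr⟩ : (range f.f ∪ {y} : Set f.B)) ∈ Subtype.val ⁻¹' O := hz
  rw [hO2] at this
  exact hK2 _ this hzr

/-! ### equalities -/

theorem LC0 : L {iota.{u}} = N := by
  apply Subset.antisymm
  · intro f hf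
    by_cases h : Nonempty f.A
    · exact Or.inl h
    · right
      constructor
      intro y
      rw [not_nonempty_iff] at h
      obtain ⟨k, -, -, -⟩ := hf iota rfl (fun x => (h.false x).elim) (fun _ => PUnit.unit)
        (continuous_of_const (fun x => (h.false x).elim)) continuous_const
        (fun x => (h.false x).elim)
      exact (k y).elim
  · rintro f hf g rfl a b ha hb hab
    rcases hf with h | h
    · exact (a h.some).elim
    · exact ⟨fun y => (h.false y).elim, continuous_of_const (fun y => (h.false y).elim),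
        fun x => (a x).elim, fun y => (h.false y).elim⟩

theorem RC0 : R {iota.{u}} = E := by
  apply Subset.antisymm
  · exact iota_surj rfl
  · rintro g hg f rfl a b ha hb hab
    obtain ⟨x, hx⟩ := hg (b PUnit.unit)
    exact ⟨fun _ => x, continuous_const, fun x => x.elim, fun _ => hx⟩

theorem LE : L E.{u} = D := by
  apply Subset.antisymm
  · intro f hf
    let g : TM.{u} := ⟨f.A ⊕ Dsc f.B, f.B, Sum.elim f.f Dsc.val,
      continuous_sum_dom.mpr ⟨f.hf, continuous_bot⟩⟩
    have hg : g ∈ E := fun y => ⟨Sum.inr ⟨y⟩, rfl⟩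
    obtain ⟨h, hc, h1, h2⟩ := hf g hg Sum.inl id continuous_inl continuous_id (fun _ => rfl)
    have hr : range f.f = h ⁻¹' (range Sum.inl) := by
      ext y
      constructor
      · rintro ⟨x, rfl⟩
        exact ⟨x, (h1 x).symm⟩
      · rintro ⟨x, hx⟩
        refine ⟨x, ?_⟩
        have := h2 y
        rw [← hx] at this
        exact this
    have ho : IsOpen (range f.f) := by
      rw [hr]
      exact isOpen_range_inl.preimage hc
    have he : IsEmbedding f.f := by
      refine IsEmbedding.of_comp f.hf hc ?_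
      have : h ∘ f.f = Sum.inl := funext h1
      rw [this]
      exact IsEmbedding.inl
    refine ⟨⟨he, ho⟩, ?_⟩
    intro y hy
    have hsing : IsOpen ({Sum.inr ⟨y⟩} : Set (f.A ⊕ Dsc f.B)) := by
      have := isOpenMap_inr (X := f.A) (Y := Dsc f.B) {⟨y⟩} (isOpen_discrete _)
      rw [image_singleton] at this
      exact this
    have : {y} = h ⁻¹' {Sum.inr ⟨y⟩} := by
      ext z
      simp only [mem_singleton_iff, mem_preimage]
      constructor
      · rintro rfl
        rcases hz : h z with x | w
        · exact absurd ⟨x, by have := h2 z; rw [hz] at this; exact this⟩ hy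
        · have h3 := h2 z
          rw [hz] at h3
          have h4 : w.val = z := h3
          rw [← h4]
      · intro hz
        have := h2 z
        rw [hz] at this
        exact this.symm
    rw [this]
    exact hsing.preimage hc
  · exact fun f hf g hg => d_surj hf hg

theorem L_iso {C : Set TM.{u}} (h1 : E ⊆ C) (h2 : t4 ∈ C) : L C = Iso := by
  apply Subset.antisymm
  · intro f hf
    have hfD : f ∈ D := by rw [← LE]; exact L_anti h1 hf
    have hs : Function.Surjective f.f := by
      intro y
      by_contra hy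
      classical
      obtain ⟨k, -, -, hk⟩ := hf _ h2 (fun _ => PUnit.unit)
        (fun z => (⟨decide (z ∈ range f.f)⟩ : Ind.{u})) continuous_const (cont_ind _)
        (fun x => by
          show (⟨true⟩ : Ind.{u}) = ⟨decide (f.f x ∈ range f.f)⟩
          rw [decide_eq_true (mem_range_self x)])
      have := hk y
      have h3 : (⟨true⟩ : Ind.{u}) = ⟨decide (y ∈ range f.f)⟩ := this
      have h4 := congrArg Ind.val h3
      simp only at h4
      exact hy (decide_eq_true_eq.mp h4.symm)
    exact (isHomeomorph_iff_isEmbedding_surjective).mpr ⟨hfD.1.isEmbedding, hs⟩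
  · exact Iso_L C

theorem RE : R E.{u} = M := by
  apply Subset.antisymm
  · intro g hg
    let f : TM.{u} := ⟨g.A, range g.f, rangeFactorization g.f, g.hf.subtype_mk _⟩
    have hf : f ∈ E := rangeFactorization_surjective
    obtain ⟨h, hc, h1, -⟩ := hg f hf id Subtype.val continuous_id continuous_subtype_val
      (fun _ => rfl)
    have h2 : IsEmbedding f.f := Function.LeftInverse.isEmbedding h1 hc f.hf
    exact IsEmbedding.subtypeVal.comp h2
  · exact fun g hg f hf => surj_emb hf hg

theorem R_iso {C : Set TM.{u}} (h1 : Inj ⊆ C) (h2 : t3 ∈ C) : R C = Iso := by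
  apply Subset.antisymm
  · intro g hg
    exact (isHomeomorph_iff_isEmbedding_surjective).mpr
      ⟨⟨inj_ind h1 hg, t3_inj h2 hg⟩, iota_surj (h1 iota_Inj) hg⟩
  · exact Iso_R C

theorem LD_sub : L D.{u} ⊆ Z := by
  intro f hf O hO hne
  by_contra hcon
  push Not at hcon
  classical
  have hb : Continuous (fun y : f.B => (ULift.up (decide (y ∉ O)) : Two.{u})) := by
    apply continuous_uliftUp.comp
    have : IsClopen Oᶜ := hO.compl
    have h := (continuous_boolIndicator_iff_isClopen _).mpr this
    refine h.congr ?_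
    intro y
    by_cases hy : y ∈ O <;> simp [boolIndicator, hy]
  obtain ⟨k, -, -, hk⟩ := hf _ t5_D (fun _ => PUnit.unit) _ continuous_const hb
    (fun x => by
      show (ULift.up true : Two.{u}) = ULift.up (decide (f.f x ∉ O))
      rw [decide_eq_true (hcon x)])
  obtain ⟨y, hy⟩ := hne
  have h3 : (ULift.up true : Two.{u}) = ULift.up (decide (y ∉ O)) := hk y
  have h4 := congrArg ULift.down h3
  simp only at h4
  exact (decide_eq_true_eq.mp h4.symm) hy

theorem LSU : L SU.{u} = Z := by
  apply Subset.antisymm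
  · exact (L_anti D_SU).trans LD_sub
  · exact fun f hf g hg => z_su hf hg

theorem LD : L D.{u} = Z := by
  apply Subset.antisymm LD_sub
  rw [← LSU]
  exact L_anti D_SU

theorem RZ : R Z.{u} = Rr := by
  apply Subset.antisymm
  · intro g hg
    have he : IsEmbedding g.f := by
      have : g ∈ R E := R_anti E_Z hg
      rw [RE] at this
      exact this
    refine ⟨he, ?_⟩
    intro S hS hne
    by_contra hcon
    push Not at hcon
    let f : TM.{u} := ⟨g.A, S, fun x => ⟨g.f x, hS (mem_range_self x)⟩, g.hf.subtype_mk _⟩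
    have hf : f ∈ Z := by
      intro O hO hOne
      obtain ⟨k, hk, hk2⟩ := hcon O hO hOne
      obtain ⟨x, hx⟩ := hk2
      refine ⟨x, ?_⟩
      have : f.f x = k := Subtype.ext hx
      rw [this]; exact hk
    obtain ⟨h, -, -, h2⟩ := hg f hf id Subtype.val continuous_id continuous_subtype_val
      (fun _ => rfl)
    apply hne
    apply Subset.antisymm _ hS
    intro s hs
    exact ⟨h ⟨s, hs⟩, h2 ⟨s, hs⟩⟩
  · exact fun g hg f hf => z_rr hf hg

theorem LG : L G.{u} = CE := by
  apply Subset.antisymm
  · intro f hf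
    have hemb : IsEmbedding f.f := ⟨t2_ind t2_G hf, t1_inj t1_G hf⟩
    let tX : TopologicalSpace (f.A ⊕ f.B) :=
      { IsOpen := fun W => IsOpen (Sum.inl ⁻¹' W) ∧ IsOpen (Sum.inr ⁻¹' W) ∧
          ∀ x, Sum.inl x ∈ W → Sum.inr (f.f x) ∈ W
        isOpen_univ := ⟨by simp, by simp, fun _ _ => trivial⟩
        isOpen_inter := fun s t hs ht => ⟨hs.1.inter ht.1, hs.2.1.inter ht.2.1,
          fun x hx => ⟨hs.2.2 x hx.1, ht.2.2 x hx.2⟩⟩
        isOpen_sUnion := fun S hS => by
          refine ⟨?_, ?_, ?_⟩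
          · rw [preimage_sUnion]; exact isOpen_biUnion fun t ht => (hS t ht).1
          · rw [preimage_sUnion]; exact isOpen_biUnion fun t ht => (hS t ht).2.1
          · rintro x ⟨t, ht, hx⟩
            exact ⟨t, ht, (hS t ht).2.2 x hx⟩ }
    have hgc : @Continuous _ _ tX f.tB (Sum.elim f.f id) := by
      rw [continuous_def]
      intro O hO
      exact ⟨hO.preimage f.hf, hO, fun x hx => hx⟩
    let g : TM.{u} := @TM.mk (f.A ⊕ f.B) f.B tX f.tB (Sum.elim f.f id) hgc
    have hg : g ∈ G := by
      refine ⟨Sum.inr, fun _ => rfl, ?_⟩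
      intro W hW
      have hW' : IsOpen (Sum.inl ⁻¹' W : Set f.A) ∧ IsOpen (Sum.inr ⁻¹' W : Set f.B) ∧
          ∀ x : f.A, Sum.inl x ∈ W → Sum.inr (f.f x) ∈ W := hW
      have himg : g.f '' W = Sum.inr ⁻¹' W := by
        ext y
        constructor
        · rintro ⟨x | w, hx, rfl⟩
          · exact hW'.2.2 x hx
          · exact hx
        · intro hy; exact ⟨Sum.inr y, hy, rfl⟩
      rw [himg]
      exact ⟨hW'.2.1, fun y hy => hy⟩
    have hinl : @Continuous _ _ f.tA tX Sum.inl := by
      rw [continuous_def]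
      intro W hW
      exact hW.1
    obtain ⟨h, hc, h1, h2⟩ := hf g hg Sum.inl id hinl continuous_id (fun _ => rfl)
    refine ⟨hemb, ?_⟩
    have hr : (range f.f)ᶜ = h ⁻¹' (range Sum.inr) := by
      ext y
      constructor
      · intro hy
        rcases hz : h y with x | w
        · exact absurd ⟨x, by have := h2 y; rw [hz] at this; exact this⟩ hy
        · exact ⟨w, hz.symm⟩
      · rintro ⟨w, hw⟩ ⟨x, hx⟩
        rw [← hx, h1] at hw
        exact absurd hw (by simp)
    rw [← isOpen_compl_iff, hr]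
    have ho : IsOpen (X := g.A) (range Sum.inr : Set (f.A ⊕ f.B)) := by
      refine ⟨?_, ?_, ?_⟩
      · have : (Sum.inl ⁻¹' (range Sum.inr : Set (f.A ⊕ f.B)) : Set f.A) = ∅ := by ext; simp
        rw [this]; exact isOpen_empty
      · have : (Sum.inr ⁻¹' (range Sum.inr : Set (f.A ⊕ f.B)) : Set f.B) = univ := by ext; simp
        rw [this]; exact isOpen_univ
      · rintro x ⟨w, hw⟩
        exact absurd hw (by simp)
    exact ho.preimage hc
  · exact fun f hf g hg => ce_g hf hg

theorem RG : R G.{u} = T1 := by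
  apply Subset.antisymm
  · exact t2_T1 t2_G
  · exact fun g hg f hf => g_t1 hf hg

theorem LCE : L CE.{u} = Den := by
  apply Subset.antisymm
  · intro f hf
    let g : TM.{u} := ⟨closure (range f.f), f.B, Subtype.val, continuous_subtype_val⟩
    have hg : g ∈ CE := isClosed_closure.isClosedEmbedding_subtypeVal
    obtain ⟨h, -, -, h2⟩ := hf g hg (fun x => ⟨f.f x, subset_closure (mem_range_self x)⟩) id
      (f.hf.subtype_mk _) continuous_id (fun _ => rfl)
    intro y
    have := (h y).2
    have e : ((h y : closure (range f.f)) : f.B) = y := h2 y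
    rw [e] at this
    exact this
  · exact fun f hf g hg => dense_ce hf hg

theorem RDen : R Den.{u} = CE := by
  apply Subset.antisymm
  · intro g hg
    have he : IsEmbedding g.f := by
      have : g ∈ R E := R_anti E_Den hg
      rw [RE] at this
      exact this
    refine ⟨he, ?_⟩
    let f : TM.{u} := ⟨g.A, closure (range g.f), fun x => ⟨g.f x, subset_closure (mem_range_self x)⟩,
      g.hf.subtype_mk _⟩
    have hf : f ∈ Den := by
      intro y
      rw [closure_subtype]
      have : (Subtype.val '' range f.f) = range g.f := by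
        rw [← range_comp]; rfl
      rw [this]
      exact y.2
    obtain ⟨h, -, -, h2⟩ := hg f hf id Subtype.val continuous_id continuous_subtype_val
      (fun _ => rfl)
    apply isClosed_of_closure_subset
    intro s hs
    exact ⟨h ⟨s, hs⟩, h2 ⟨s, hs⟩⟩
  · exact fun g hg f hf => dense_ce hf hg

theorem LM : L M.{u} = E := by
  apply Subset.antisymm
  · intro f hf
    let g : TM.{u} := ⟨range f.f, f.B, Subtype.val, continuous_subtype_val⟩
    have hg : g ∈ M := IsEmbedding.subtypeVal
    obtain ⟨k, -, -, hk⟩ := hf g hg (rangeFactorization f.f) id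
      (f.hf.subtype_mk _) continuous_id (fun _ => rfl)
    intro y
    have := (k y).2
    have e : ((k y : range f.f) : f.B) = y := hk y
    rw [e] at this
    exact this
  · exact fun f hf g hg => surj_emb hf hg

theorem LJ : L (R M.{u}) = M := by
  apply Subset.antisymm
  · intro f hf
    exact ⟨t2_ind t2_J hf, t1_inj t1_J hf⟩
  · exact sub_LR M

end Pool.Agent.R827.Orb
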