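import Pool.Agent.R827.Orb2

open Set Topology

namespace Pool.Agent.R827.Orb

universe u

/-! ### `R Rr = G` -/

/-- The space `X ⊔ (Y × κ)` used to compute `R Rr`. -/
structure Hat (g : TM.{u}) : Type u where
  val : g.A ⊕ (g.B × Set (g.A × ULift.{u} ℕ))

instance hatTop (g : TM.{u}) : TopologicalSpace (Hat g) where
  IsOpen W := IsOpen {x | (⟨Sum.inl x⟩ : Hat g) ∈ W} ∧ ∀ x, (⟨Sum.inl x⟩ : Hat g) ∈ W →
    ∃ O : Set g.B, IsOpen O ∧ g.f x ∈ O ∧ ∀ y ∈ O, {i | (⟨Sum.inr (y, i)⟩ : Hat g) ∉ W}.Finite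
  isOpen_univ := ⟨by simp, fun x _ => ⟨univ, isOpen_univ, trivial, fun y _ => by simp⟩⟩
  isOpen_inter := by
    intro s t hs ht
    refine ⟨hs.1.inter ht.1, ?_⟩
    intro x hx
    obtain ⟨O, hO, h1, h2⟩ := hs.2 x hx.1
    obtain ⟨O', hO', h1', h2'⟩ := ht.2 x hx.2
    refine ⟨O ∩ O', hO.inter hO', ⟨h1, h1'⟩, ?_⟩
    intro y hy
    apply ((h2 y hy.1).union (h2' y hy.2)).subset
    intro i hi
    by_cases h : (⟨Sum.inr (y, i)⟩ : Hat g) ∈ s
    · right
      intro h'
      exact hi ⟨h, h'⟩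
    · exact Or.inl h
  isOpen_sUnion := by
    intro S hS
    refine ⟨?_, ?_⟩
    · have : {x | (⟨Sum.inl x⟩ : Hat g) ∈ ⋃₀ S} = ⋃ t ∈ S, {x | (⟨Sum.inl x⟩ : Hat g) ∈ t} := by
        ext x; simp
      rw [this]
      exact isOpen_biUnion fun t ht => (hS t ht).1
    · rintro x ⟨t, ht, hx⟩
      obtain ⟨O, hO, h1, h2⟩ := (hS t ht).2 x hx
      refine ⟨O, hO, h1, ?_⟩
      intro y hy
      apply (h2 y hy).subset
      intro i hi h
      exact hi ⟨t, ht, h⟩

theorem hat_pigeon {g : TM.{u}} (k : Set (g.A × ULift.{u} ℕ) → g.A) :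
    ∃ z, {i | k i = z}.Infinite := by
  by_contra hcon
  push Not at hcon
  have hfin : ∀ z, {i | k i = z}.Finite := hcon
  have hc : ∀ z, ∃ e : {i | k i = z} → ℕ, Function.Injective e := by
    intro z
    have := (hfin z).to_subtype
    have : Countable {i | k i = z} := inferInstance
    exact this.exists_injective_nat
  choose e he using hc
  apply Function.cantor_injective (fun i : Set (g.A × ULift.{u} ℕ) =>
    ((k i, ULift.up (e (k i) ⟨i, rfl⟩)) : g.A × ULift.{u} ℕ))
  intro i j hij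
  simp only [Prod.mk.injEq, ULift.up.injEq] at hij
  obtain ⟨h1, h2⟩ := hij
  have h3 : ∀ (z : g.A) (hz : k j = z), e z ⟨j, hz⟩ = e (k j) ⟨j, rfl⟩ := by
    rintro z rfl; rfl
  have h4 : (⟨i, rfl⟩ : {i' | k i' = k i}) = ⟨j, h1.symm⟩ := by
    apply he (k i)
    rw [h2, h3 _ h1.symm]
  exact congrArg (fun t : {i' | k i' = k i} => (t : Set (g.A × ULift.{u} ℕ))) h4

theorem RRr : R Rr.{u} = G := by
  apply Subset.antisymm
  · intro g hg
    have hinl : Continuous (fun x : g.A => (⟨Sum.inl x⟩ : Hat g)) := by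
      rw [continuous_def]
      intro W hW
      exact hW.1
    let f : TM.{u} := ⟨g.A, Hat g, fun x => ⟨Sum.inl x⟩, hinl⟩
    have hsing : ∀ p : g.B × Set (g.A × ULift.{u} ℕ), IsOpen {(⟨Sum.inr p⟩ : Hat g)} := by
      intro p
      refine ⟨?_, ?_⟩
      · have : {x : g.A | (⟨Sum.inl x⟩ : Hat g) ∈ ({⟨Sum.inr p⟩} : Set (Hat g))} = ∅ := by
          ext x; simp
        rw [this]; exact isOpen_empty
      · intro x hx
        exact absurd hx (by simp)
    have hcl : ∀ p : g.B × Set (g.A × ULift.{u} ℕ), IsClosed {(⟨Sum.inr p⟩ : Hat g)} := by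
      intro p
      rw [← isOpen_compl_iff]
      refine ⟨?_, ?_⟩
      · have : {x : g.A | (⟨Sum.inl x⟩ : Hat g) ∈ ({⟨Sum.inr p⟩} : Set (Hat g))ᶜ} = univ := by
          ext x; simp
        rw [this]; exact isOpen_univ
      · intro x _
        refine ⟨univ, isOpen_univ, trivial, ?_⟩
        intro y _
        apply (Set.finite_singleton p.2).subset
        intro i hi
        simp only [mem_compl_iff, mem_singleton_iff, not_not, Hat.mk.injEq, Sum.inr.injEq] at hi
        have h2 : (y, i) = p := hi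
        rw [← h2]
        rfl
    have hf : f ∈ Rr := by
      refine ⟨⟨⟨?_⟩, ?_⟩, ?_⟩
      · apply le_antisymm
        · exact continuous_iff_le_induced.mp hinl
        · intro V hV
          refine ⟨{w | ∀ x, w = ⟨Sum.inl x⟩ → x ∈ V}, ⟨?_, ?_⟩, ?_⟩
          · have : {x : g.A | (⟨Sum.inl x⟩ : Hat g) ∈
              {w : Hat g | ∀ x, w = ⟨Sum.inl x⟩ → x ∈ V}} = V := by
              ext x; simp
            rw [this]; exact hV
          · intro x hx
            refine ⟨univ, isOpen_univ, trivial, fun y _ => ?_⟩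
            convert Set.finite_empty
            ext i
            simp only [mem_empty_iff_false, iff_false]
            intro hi
            apply hi
            intro x' h
            exact absurd (congrArg Hat.val h) (by simp)
          · ext x
            simp [f]
      · intro x x' h
        simpa [f] using h
      · intro S hS hne
        have : ∃ s ∈ S, s ∉ range f.f := by
          by_contra h
          push Not at h
          exact hne (Subset.antisymm h hS)
        obtain ⟨s, hs, hs2⟩ := this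
        have hsp : ∃ p, s = ⟨Sum.inr p⟩ := by
          rcases s with ⟨x | p⟩
          · exact absurd ⟨x, rfl⟩ hs2
          · exact ⟨p, rfl⟩
        obtain ⟨p, rfl⟩ := hsp
        refine ⟨Subtype.val ⁻¹' {(⟨Sum.inr p⟩ : Hat g)}, ⟨(hcl p).preimage continuous_subtype_val,
          (hsing p).preimage continuous_subtype_val⟩, ⟨⟨_, hs⟩, rfl⟩, ?_⟩
        intro k hk
        have : (k : Hat g) = ⟨Sum.inr p⟩ := hk
        rw [this]
        exact hs2
    let b : Hat g → g.B := fun w => Sum.elim g.f Prod.fst w.val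
    have hb : Continuous b := by
      rw [continuous_def]
      intro O hO
      refine ⟨hO.preimage g.hf, ?_⟩
      intro x hx
      refine ⟨O, hO, hx, fun y hy => ?_⟩
      convert Set.finite_empty
      ext i
      simp [b, hy]
    obtain ⟨h, hc, h1, h2⟩ := hg f hf id b continuous_id hb (fun _ => rfl)
    have hz : ∀ y, ∃ z, {i | h ⟨Sum.inr (y, i)⟩ = z}.Infinite := fun y =>
      hat_pigeon (fun i => h ⟨Sum.inr (y, i)⟩)
    choose z hz using hz
    have hz1 : ∀ y, g.f (z y) = y := by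
      intro y
      obtain ⟨i, hi⟩ := (hz y).nonempty
      have := h2 ⟨Sum.inr (y, i)⟩
      have h3 : h ⟨Sum.inr (y, i)⟩ = z y := hi
      rw [h3] at this
      exact this
    have key : ∀ W : Set g.A, IsOpen W → ∀ x ∈ W, ∃ O : Set g.B, IsOpen O ∧ g.f x ∈ O ∧
        ∀ y ∈ O, z y ∈ W := by
      intro W hW x hx
      have hop := hW.preimage hc
      have hx' : (⟨Sum.inl x⟩ : Hat g) ∈ h ⁻¹' W := by
        have : h ⟨Sum.inl x⟩ = x := h1 x
        simp only [mem_preimage]
        rw [this]; exact hx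
      obtain ⟨O, hO, hgx, hO2⟩ := hop.2 x hx'
      refine ⟨O, hO, hgx, ?_⟩
      intro y hy
      have hfin := hO2 y hy
      obtain ⟨i, hi, hi2⟩ := (hz y).exists_notMem_finite hfin
      simp only [mem_preimage, not_not, mem_ofPred_eq] at hi2 hi
      rw [hi] at hi2
      exact hi2
    refine ⟨z, hz1, ?_⟩
    intro W hW
    refine ⟨?_, ?_⟩
    · rw [isOpen_iff_mem_nhds]
      rintro _ ⟨x, hx, rfl⟩
      obtain ⟨O, hO, hgx, hO2⟩ := key W hW x hx
      apply Filter.mem_of_superset (hO.mem_nhds hgx)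
      intro y hy
      exact ⟨z y, hO2 y hy, hz1 y⟩
    · rintro _ ⟨x, hx, rfl⟩
      obtain ⟨O, hO, hgx, hO2⟩ := key W hW x hx
      exact hO2 _ hgx
  · exact fun g hg f hf => ce_g (Rr_CE hf) hg

/-! ### `R (R M) = T1` -/

/-- three points: two open ones and a bottom one -/
structure Vee : Type u where
  val : Option Bool

instance veeTop : TopologicalSpace Vee.{u} where
  IsOpen W := (⟨none⟩ : Vee) ∈ W → W = univ
  isOpen_univ := fun _ => rfl
  isOpen_inter := fun s t hs ht h => by rw [hs h.1, ht h.2, inter_self]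
  isOpen_sUnion := by
    rintro S hS ⟨t, ht, h⟩
    have := hS t ht h
    apply eq_univ_of_univ_subset
    rw [← this]
    exact subset_sUnion_of_mem ht

theorem j_t1 {f g : TM.{u}} (hf : f ∈ R M) (hg : g ∈ T1) : Lifts f g := by
  intro a b ha hb hab
  -- section
  let e0 : TM.{u} := ⟨PEmpty, f.B, PEmpty.elim, continuous_of_const (fun x => x.elim)⟩
  have he0 : e0 ∈ M := by
    refine ⟨⟨?_⟩, fun x => x.elim⟩
    ext V
    constructor
    · intro _; exact ⟨∅, isOpen_empty, by ext x; exact x.elim⟩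
    · intro _
      have : V = ∅ := by ext x; exact x.elim
      rw [this]; exact isOpen_empty
  obtain ⟨s, hs, -, hs2⟩ := hf e0 he0 (fun x => x.elim) id
    (continuous_of_const (fun x => x.elim)) continuous_id (fun x => x.elim)
  have hs3 : ∀ y, f.f (s y) = y := hs2
  have hincl : Continuous (fun p : Two.{u} => (⟨some p.down⟩ : Vee.{u})) :=
    continuous_of_discreteTopology
  let e : TM.{u} := ⟨Two.{u}, Vee.{u}, fun p => ⟨some p.down⟩, hincl⟩
  have he : e ∈ M := by
    refine ⟨⟨?_⟩, ?_⟩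
    · apply le_antisymm
      · exact continuous_iff_le_induced.mp hincl
      · intro V _
        refine ⟨(fun p : Two.{u} => (⟨some p.down⟩ : Vee.{u})) '' V, ?_, ?_⟩
        · rintro ⟨p, -, hp⟩
          exact absurd (congrArg Vee.val hp) (by simp)
        · apply preimage_image_eq
          intro p q hpq
          have : p.down = q.down := Option.some.inj (congrArg Vee.val hpq)
          exact ULift.ext _ _ this
    · intro p q hpq
      have : p.down = q.down := Option.some.inj (congrArg Vee.val hpq)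
      exact ULift.ext _ _ this
  have h1 : ∀ x x', f.f x = f.f x' → a x = a x' := by
    intro x x' hxx
    obtain ⟨k, hk, hk1, hk2⟩ := hf e he (fun p => if p.down then x else x') (fun _ => f.f x)
      continuous_of_discreteTopology continuous_const
      (fun p => by by_cases hp : p.down <;> simp [hp, hxx])
    have hsp : ∀ p : Vee.{u}, p ⤳ ⟨none⟩ := by
      intro p
      rw [specializes_iff_forall_open]
      intro W hW h
      rw [hW h]; trivial
    have e1 : k ⟨some true⟩ = x := hk1 ⟨true⟩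
    have e2 : k ⟨some false⟩ = x' := hk1 ⟨false⟩
    have s1 := ((hsp ⟨some true⟩).map hk).map ha
    have s2 := ((hsp ⟨some false⟩).map hk).map ha
    rw [e1] at s1
    rw [e2] at s2
    have f0 : f.f (k ⟨none⟩) = f.f x := hk2 ⟨none⟩
    have r1 : a x = a (k ⟨none⟩) := hg _ _ (by rw [hab, hab, f0]) s1
    have r2 : a x' = a (k ⟨none⟩) := hg _ _ (by rw [hab, hab, f0, hxx]) s2
    rw [r1, r2]
  refine ⟨fun y => a (s y), ha.comp hs, ?_, ?_⟩
  · intro x
    exact h1 _ _ (hs3 _)
  · intro y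
    rw [hab, hs3]

theorem RJ : R (R M.{u}) = T1 := by
  apply Subset.antisymm
  · exact t2_T1 t2_J
  · exact fun g hg f hf => j_t1 hf hg

/-! ### `L (L T1) = D` -/

/-- The space `A ⊔ (B × ℕ)` used to compute `L (L T1)`. -/
structure Tw (f : TM.{u}) : Type u where
  val : f.A ⊕ (f.B × ULift.{u} ℕ)

instance twTop (f : TM.{u}) : TopologicalSpace (Tw f) where
  IsOpen W := IsOpen {x | (⟨Sum.inl x⟩ : Tw f) ∈ W} ∧
    (∀ x, (⟨Sum.inl x⟩ : Tw f) ∈ W → ∀ n, (⟨Sum.inr (f.f x, n)⟩ : Tw f) ∈ W) ∧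
    (∀ b n m, n.down ≤ m.down → (⟨Sum.inr (b, n)⟩ : Tw f) ∈ W → (⟨Sum.inr (b, m)⟩ : Tw f) ∈ W) ∧
    ∀ b n, (⟨Sum.inr (b, n)⟩ : Tw f) ∈ W → ∃ O : Set f.B, IsOpen O ∧ b ∈ O ∧
      ∀ y ∈ O, ∃ m, (⟨Sum.inr (y, m)⟩ : Tw f) ∈ W
  isOpen_univ := ⟨by simp, fun _ _ _ => trivial, fun _ _ _ _ _ => trivial,
    fun _ _ _ => ⟨univ, isOpen_univ, trivial, fun _ _ => ⟨⟨0⟩, trivial⟩⟩⟩
  isOpen_inter := by
    intro s t hs ht
    refine ⟨hs.1.inter ht.1, ?_, ?_, ?_⟩
    · intro x hx n
      exact ⟨hs.2.1 x hx.1 n, ht.2.1 x hx.2 n⟩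
    · intro b n m hnm h
      exact ⟨hs.2.2.1 b n m hnm h.1, ht.2.2.1 b n m hnm h.2⟩
    · intro b n h
      obtain ⟨O, hO, h1, h2⟩ := hs.2.2.2 b n h.1
      obtain ⟨O', hO', h1', h2'⟩ := ht.2.2.2 b n h.2
      refine ⟨O ∩ O', hO.inter hO', ⟨h1, h1'⟩, ?_⟩
      intro y hy
      obtain ⟨m, hm⟩ := h2 y hy.1
      obtain ⟨m', hm'⟩ := h2' y hy.2
      refine ⟨⟨max m.down m'.down⟩, ?_, ?_⟩
      · exact hs.2.2.1 y m _ (le_max_left _ _) hm
      · exact ht.2.2.1 y m' _ (le_max_right _ _) hm'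
  isOpen_sUnion := by
    intro S hS
    refine ⟨?_, ?_, ?_, ?_⟩
    · have : {x | (⟨Sum.inl x⟩ : Tw f) ∈ ⋃₀ S} = ⋃ t ∈ S, {x | (⟨Sum.inl x⟩ : Tw f) ∈ t} := by
        ext x; simp
      rw [this]
      exact isOpen_biUnion fun t ht => (hS t ht).1
    · rintro x ⟨t, ht, hx⟩ n
      exact ⟨t, ht, (hS t ht).2.1 x hx n⟩
    · rintro b n m hnm ⟨t, ht, hx⟩
      exact ⟨t, ht, (hS t ht).2.2.1 b n m hnm hx⟩
    · rintro b n ⟨t, ht, hx⟩
      obtain ⟨O, hO, h1, h2⟩ := (hS t ht).2.2.2 b n hx
      refine ⟨O, hO, h1, ?_⟩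
      intro y hy
      obtain ⟨m, hm⟩ := h2 y hy
      exact ⟨m, t, ht, hm⟩

def twMap (f : TM.{u}) : TM.{u} where
  A := Tw f
  B := f.B
  f := fun w => Sum.elim f.f Prod.fst w.val
  hf := by
    rw [continuous_def]
    intro O hO
    exact ⟨hO.preimage f.hf, fun x hx n => hx, fun b n m _ h => h,
      fun b n h => ⟨O, hO, h, fun y hy => ⟨⟨0⟩, hy⟩⟩⟩

theorem twMap_mem (f : TM.{u}) : twMap f ∈ L T1 := by
  intro g hg a b ha hb hab
  have hab1 : ∀ y n, g.f (a ⟨Sum.inr (y, n)⟩) = b y := fun y n => hab ⟨Sum.inr (y, n)⟩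
  have hab2 : ∀ x, g.f (a ⟨Sum.inl x⟩) = b (f.f x) := fun x => hab ⟨Sum.inl x⟩
  have c1 : ∀ y n, a ⟨Sum.inr (y, n)⟩ = a ⟨Sum.inr (y, ⟨0⟩)⟩ := by
    intro y n
    apply hg _ _ (by rw [hab1, hab1])
    have : (⟨Sum.inr (y, n)⟩ : Tw f) ⤳ ⟨Sum.inr (y, ⟨0⟩)⟩ := by
      rw [specializes_iff_forall_open]
      intro W hW h
      exact hW.2.2.1 y ⟨0⟩ n (Nat.zero_le _) h
    exact this.map ha
  have c2 : ∀ x, a ⟨Sum.inr (f.f x, ⟨0⟩)⟩ = a ⟨Sum.inl x⟩ := by
    intro x
    apply hg _ _ (by rw [hab1, hab2])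
    have : (⟨Sum.inr (f.f x, ⟨0⟩)⟩ : Tw f) ⤳ ⟨Sum.inl x⟩ := by
      rw [specializes_iff_forall_open]
      intro W hW h
      exact hW.2.1 x h _
    exact this.map ha
  refine ⟨fun y => a ⟨Sum.inr (y, ⟨0⟩)⟩, ?_, ?_, ?_⟩
  · rw [continuous_def]
    intro W hW
    rw [isOpen_iff_mem_nhds]
    intro y hy
    obtain ⟨O, hO, hyO, hO2⟩ := (hW.preimage ha).2.2.2 y ⟨0⟩ hy
    apply Filter.mem_of_superset (hO.mem_nhds hyO)
    intro y' hy'
    obtain ⟨m, hm⟩ := hO2 y' hy'
    have : a ⟨Sum.inr (y', m)⟩ ∈ W := hm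
    rw [c1] at this
    exact this
  · rintro ⟨x | ⟨y, n⟩⟩
    · exact c2 x
    · exact (c1 y n).symm
  · intro y
    exact hab1 y ⟨0⟩

theorem LQ_sub : L (L T1.{u}) ⊆ D := by
  intro f hf
  have hfM : IsEmbedding f.f := by
    have h1 : f ∈ L (R M) := L_anti (by rw [← RJ]; exact sub_LR _) hf
    rw [LJ] at h1
    exact h1
  have hinl : Continuous (fun x : f.A => (⟨Sum.inl x⟩ : Tw f)) := by
    rw [continuous_def]
    intro W hW
    exact hW.1
  obtain ⟨h, hc, h1, h2⟩ := hf (twMap f) (twMap_mem f) (fun x => ⟨Sum.inl x⟩) id hinl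
    continuous_id (fun _ => rfl)
  have h1' : ∀ x, h (f.f x) = ⟨Sum.inl x⟩ := h1
  have h2' : ∀ y, Sum.elim f.f Prod.fst (h y).val = y := h2
  -- the index
  let nn : f.B → ℕ := fun y => Sum.elim (fun _ => 0) (fun p => p.2.down + 1) (h y).val
  have hn0 : ∀ y, nn y = 0 ↔ y ∈ range f.f := by
    intro y
    constructor
    · intro hy
      rcases hh : (h y).val with x | p
      · refine ⟨x, ?_⟩
        have := h2' y
        rw [hh] at this
        exact this
      · simp only [nn, hh, Sum.elim_inr] at hy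
        omega
    · rintro ⟨x, rfl⟩
      simp only [nn, h1', Sum.elim_inl]
  have hn1 : ∀ y, y ∉ range f.f → h y = ⟨Sum.inr (y, ⟨nn y - 1⟩)⟩ := by
    intro y hy
    rcases hh : (h y).val with x | p
    · exact absurd ((hn0 y).mp (by simp only [nn, hh, Sum.elim_inl])) hy
    · have h3 := h2' y
      rw [hh] at h3
      have h4 : p.1 = y := h3
      have h5 : nn y = p.2.down + 1 := by simp only [nn, hh, Sum.elim_inr]
      have h6 : h y = ⟨Sum.inr p⟩ := by
        rcases hy' : h y with ⟨v⟩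
        rw [hy'] at hh
        simp only at hh
        rw [hh]
      rw [h6, h5]
      rcases p with ⟨p1, ⟨p2⟩⟩
      simp only at h4
      rw [h4]
      rfl
  have hopen : ∀ b0 : Set f.B, b0 ⊆ (range f.f)ᶜ → IsOpen b0 := by
    intro b0 hb0
    let W : Set (Tw f) := {w | Sum.elim (fun _ => False) (fun p => p.1 ∈ b0 ∨ nn p.1 ≤ p.2.down) w.val}
    have hW : IsOpen W := by
      refine ⟨?_, ?_, ?_, ?_⟩
      · have : {x | (⟨Sum.inl x⟩ : Tw f) ∈ W} = ∅ := by ext x; simp [W]
        rw [this]; exact isOpen_empty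
      · intro x hx
        exact absurd hx (by simp [W])
      · intro b n m hnm hb
        rcases hb with hb | hb
        · exact Or.inl hb
        · exact Or.inr (le_trans hb hnm)
      · intro b n _
        exact ⟨univ, isOpen_univ, trivial, fun y _ => ⟨⟨nn y⟩, Or.inr le_rfl⟩⟩
    have : b0 = h ⁻¹' W := by
      ext y
      constructor
      · intro hy
        show h y ∈ W
        rw [hn1 y (hb0 hy)]
        exact Or.inl hy
      · intro hy
        replace hy : h y ∈ W := hy
        by_cases hyr : y ∈ range f.f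
        · obtain ⟨x, rfl⟩ := hyr
          rw [h1'] at hy
          exact False.elim hy
        · rw [hn1 y hyr] at hy
          rcases hy with hy | hy
          · exact hy
          · have h3 : nn y ≤ nn y - 1 := hy
            have h4 : nn y ≠ 0 := fun h => hyr ((hn0 y).mp h)
            omega
    rw [this]
    exact hW.preimage hc
  have hro : IsOpen (range f.f) := by
    let W : Set (Tw f) := {w | Sum.elim (fun _ => True) (fun p => nn p.1 ≤ p.2.down) w.val}
    have hW : IsOpen W := by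
      refine ⟨?_, ?_, ?_, ?_⟩
      · have : {x | (⟨Sum.inl x⟩ : Tw f) ∈ W} = univ := by ext x; simp [W]
        rw [this]; exact isOpen_univ
      · intro x _ n
        have : nn (f.f x) = 0 := (hn0 _).mpr ⟨x, rfl⟩
        show nn (f.f x) ≤ n.down
        rw [this]; exact Nat.zero_le _
      · intro b n m hnm hb
        exact le_trans hb hnm
      · intro b n _
        exact ⟨univ, isOpen_univ, trivial, fun y _ => ⟨⟨nn y⟩, le_refl (nn y)⟩⟩
    have : range f.f = h ⁻¹' W := by
      ext y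
      constructor
      · rintro ⟨x, rfl⟩
        show h (f.f x) ∈ W
        rw [h1']
        trivial
      · intro hy
        replace hy : h y ∈ W := hy
        by_contra hyr
        rw [hn1 y hyr] at hy
        have h3 : nn y ≤ nn y - 1 := hy
        have h4 : nn y ≠ 0 := fun h => hyr ((hn0 y).mp h)
        omega
    rw [this]
    exact hW.preimage hc
  refine ⟨⟨hfM, hro⟩, fun b hb => hopen {b} ?_⟩
  rintro _ rfl
  exact hb

theorem LInj : L Inj.{u} = Qt := by
  apply Subset.antisymm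
  · exact inj_quot Subset.rfl
  · exact fun f hf g hg => qt_inj hf hg

theorem Qt_E : Qt.{u} ⊆ E := fun f hf => by
  have hf' : IsQuotientMap f.f := hf
  exact hf'.surjective

theorem LT1_Qt : L T1.{u} ⊆ Qt := (L_anti Inj_T1).trans LInj.subset

theorem LQ : L (L T1.{u}) = D := by
  apply Subset.antisymm LQ_sub
  rw [← LE]
  exact L_anti (LT1_Qt.trans Qt_E)

theorem LQt : L Qt.{u} = D := by
  apply Subset.antisymm
  · exact (L_anti LT1_Qt).trans LQ_sub
  · rw [← LE]
    exact L_anti Qt_E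

theorem RT1 : R T1.{u} = Iso := R_iso Inj_T1 t3_T1
theorem RT0 : R T0.{u} = Iso := R_iso Inj_T0 t3_T0
theorem LZ : L Z.{u} = Iso := L_iso E_Z t4_Z
theorem LN : L N.{u} = Iso := L_iso E_N t4_N
theorem LDen : L Den.{u} = Iso := L_iso E_Den t4_Den
theorem LAll : L All.{u} = Iso := L_iso (subset_univ _) (mem_univ _)
theorem RAll : R All.{u} = Iso := R_iso (subset_univ _) (mem_univ _)
theorem LIso : L Iso.{u} = All := by
  apply Subset.antisymm (subset_univ _)
  exact fun f _ g hg => lift_iso_right hg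
theorem RIso : R Iso.{u} = All := by
  apply Subset.antisymm (subset_univ _)
  exact fun g _ f hf => lift_iso_left hf

theorem RN : R N.{u} = K := by
  apply Subset.antisymm
  · intro g hg
    by_cases hA : IsEmpty g.A
    · exact Or.inr hA
    · left
      have he : IsEmbedding g.f := by
        have : g ∈ R E := R_anti E_N hg
        rw [RE] at this
        exact this
      rw [not_isEmpty_iff] at hA
      obtain ⟨x0⟩ := hA
      let f : TM.{u} := ⟨PUnit, g.B, fun _ => g.f x0, continuous_const⟩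
      have hf : f ∈ N := Or.inl ⟨PUnit.unit⟩
      obtain ⟨h, -, -, h2⟩ := hg f hf (fun _ => x0) id continuous_const continuous_id
        (fun _ => rfl)
      exact (isHomeomorph_iff_isEmbedding_surjective).mpr ⟨he, fun y => ⟨h y, h2 y⟩⟩
  · rintro g (hg | hg) f hf
    · exact lift_iso_right hg
    · intro a b ha hb hab
      rcases hf with h | h
      · exact (hg.false (a h.some)).elim
      · exact ⟨fun y => (h.false y).elim, continuous_of_const (fun y => (h.false y).elim),
          fun x => (hg.false (a x)).elim, fun y => (h.false y).elim⟩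

theorem RK : R K.{u} = Sp := by
  apply Subset.antisymm
  · intro g hg
    let f : TM.{u} := ⟨PEmpty, g.B, PEmpty.elim, continuous_of_const (fun x => x.elim)⟩
    have hf : f ∈ K := Or.inr ⟨fun x => x.elim⟩
    obtain ⟨h, hc, -, h2⟩ := hg f hf (fun x => x.elim) id
      (continuous_of_const (fun x => x.elim)) continuous_id (fun x => x.elim)
    exact ⟨h, hc, h2⟩
  · rintro g ⟨s, hs, hs2⟩ f (hf | hf)
    · exact lift_iso_left hf
    · intro a b ha hb hab
      exact ⟨fun y => s (b y), hs.comp hb, fun x => (hf.false x).elim, fun y => hs2 _⟩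

theorem LSp : L Sp.{u} = SU := by
  apply Subset.antisymm
  · intro f hf
    let g : TM.{u} := ⟨f.A ⊕ f.B, f.B, Sum.elim f.f id,
      continuous_sum_dom.mpr ⟨f.hf, continuous_id⟩⟩
    have hg : g ∈ Sp := ⟨Sum.inr, continuous_inr, fun _ => rfl⟩
    obtain ⟨h, hc, h1, h2⟩ := hf g hg Sum.inl id continuous_inl continuous_id (fun _ => rfl)
    have hr : range f.f = h ⁻¹' (range Sum.inl) := by
      ext y
      constructor
      · rintro ⟨x, rfl⟩
        exact ⟨x, (h1 x).symm⟩
      · rintro ⟨x, hx⟩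
        refine ⟨x, ?_⟩
        have := h2 y
        rw [← hx] at this
        exact this
    refine ⟨?_, ?_⟩
    · refine IsEmbedding.of_comp f.hf hc ?_
      have : h ∘ f.f = Sum.inl := funext h1
      rw [this]
      exact IsEmbedding.inl
    · rw [hr]
      exact isClopen_range_inl.preimage hc
  · exact fun f hf g hg => su_sp hf hg

theorem RSp : R Sp.{u} = Inj := by
  apply Subset.antisymm
  · exact t3_inj t3_Sp
  · exact fun g hg f hf => sp_inj hf hg

theorem RInj : R Inj.{u} = SI := by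
  apply Subset.antisymm
  · intro g hg
    exact ⟨iota_surj iota_Inj hg, inj_ind Subset.rfl hg⟩
  · exact fun g hg f hf => inj_si hf hg

theorem LSI : L SI.{u} = Inj := by
  apply Subset.antisymm
  · exact t1_inj t1_SI
  · exact fun f hf g hg => inj_si hf hg

theorem RSI : R SI.{u} = T0 := by
  apply Subset.antisymm
  · exact t1_T0 t1_SI
  · exact fun g hg f hf => si_t0 hf hg

theorem LT0 : L T0.{u} = SI := by
  apply Subset.antisymm
  · intro f hf
    have : f ∈ Qt := inj_quot Inj_T0 hf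
    exact ⟨Qt_E this, t2_ind t2_T0 hf⟩
  · exact fun f hf g hg => si_t0 hf hg

end Pool.Agent.R827.Orb
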