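import Mathlib
import Pool.Agent.Helper732.HN.ForceCH

/-!
# Countable tightness at Dirac measures (R. Pol): the counterexample

`T a`, for `a < ω₁`, are subtrees of the tree of finite binary sequences which are fat (each level
of each tree contains at least the `ε`-th part of the full level) while each infinite binary
sequence is a branch of only countably many of the trees.
-/

set_option autoImplicit false

namespace Pool.Agent.R827.Pol

open Set Topology Filter MeasureTheory
open Pool.Agent.Helper732.HN.ForceCH (Om)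

/-- The restriction of an infinite binary sequence to its first `n` terms. -/
def restr (y : ℕ → Bool) (n : ℕ) : Fin n → Bool := fun i => y i

/-- There are `ω₁` many subtrees `T a` of the full binary tree, each of which contains at least the
`ε`-th part of every level, such that every infinite binary sequence is a branch of only countably
many of them. -/
def FatTrees : Prop := ∃ ε : ℝ, 0 < ε ∧ ∃ T : Om → (n : ℕ) → Set (Fin n → Bool),
  (∀ (a : Om) (n : ℕ) (y : ℕ → Bool), restr y (n + 1) ∈ T a (n + 1) → restr y n ∈ T a n) ∧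
  (∀ (a : Om) (n : ℕ), ε * 2 ^ n ≤ ((T a n).ncard : ℝ)) ∧
  ∀ y : ℕ → Bool, {a : Om | ∀ n, restr y n ∈ T a n}.Countable

theorem countable_Iio (a : Om) : (Iio a).Countable := by
  have h := Pool.Agent.Helper732.HN.ForceCH.countable_Iio a
  exact Set.countable_coe_iff.1 h

theorem exists_ub (s : Set Om) (hs : s.Countable) : ∃ a : Om, ∀ b ∈ s, b < a := by
  by_contra hcon
  push Not at hcon
  have h1 : (univ : Set Om) ⊆ ⋃ b ∈ s, Iic b := by
    intro a _
    obtain ⟨b, hb, hab⟩ := hcon a
    exact mem_iUnion₂.2 ⟨b, hb, hab⟩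
  have h2 : (⋃ b ∈ s, Iic b).Countable := hs.biUnion fun b _ => by
    have : Iic b = insert b (Iio b) := by
      ext x
      simp [le_iff_eq_or_lt]
    rw [this]
    exact (countable_Iio b).insert b
  have h3 : (univ : Set Om).Countable := h2.mono h1
  rw [← Cardinal.le_aleph0_iff_set_countable] at h3
  have h4 : Cardinal.mk (univ : Set Om) = Cardinal.aleph 1 := by simp
  rw [h4] at h3
  exact absurd Cardinal.aleph0_lt_aleph_one (not_lt.2 h3)

/-! ### The compact space upstairs -/

/-- Triples: a (possibly infinite) height, an infinite binary sequence, and a subset of `ω₁`. -/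
abbrev P : Type := (ℕ → Bool) × (ℕ → Bool) × (Om → Bool)

variable (T : Om → (n : ℕ) → Set (Fin n → Bool))

/-- The compact set upstairs. -/
def E : Set P := {p | p.1 0 = true ∧ (∀ m, p.1 (m + 1) = true → p.1 m = true) ∧
  (∀ a m, p.2.2 a = true → p.1 m = true → restr p.2.1 m ∈ T a m) ∧
  (∀ (n : ℕ) (s : Finset Om), s.card = n + 2 → p.1 (n + 1) = false →
    ∃ a ∈ s, p.2.2 a = true ∨ ∃ m ≤ n, p.1 m = true ∧ restr p.2.1 m ∉ T a m)}

theorem agree {D : Set P} {p : P} (hp : p ∈ closure D) (N : ℕ) (B : Finset Om) :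
    ∃ q ∈ D, (∀ i ≤ N, q.1 i = p.1 i) ∧ (∀ i ≤ N, q.2.1 i = p.2.1 i) ∧
      ∀ a ∈ B, q.2.2 a = p.2.2 a := by
  let f : P → (Fin (N + 1) → Bool) × (Fin (N + 1) → Bool) × (B → Bool) :=
    fun q => (fun i => q.1 i, fun i => q.2.1 i, fun a => q.2.2 a)
  have hf : Continuous f := by fun_prop
  have ho : IsOpen (f ⁻¹' {f p}) := (isOpen_discrete _).preimage hf
  obtain ⟨q, hq1, hq2⟩ := mem_closure_iff.1 hp _ ho rfl
  have h : f q = f p := hq1
  have h1 := congrArg Prod.fst h
  have h2 := congrArg (fun x => x.2.1) h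
  have h3 := congrArg (fun x => x.2.2) h
  refine ⟨q, hq2, fun i hi => ?_, fun i hi => ?_, fun a ha => ?_⟩
  · exact congrFun h1 ⟨i, Nat.lt_succ_of_le hi⟩
  · exact congrFun h2 ⟨i, Nat.lt_succ_of_le hi⟩
  · exact congrFun h3 ⟨a, ha⟩

theorem tendsto_of {u : ℕ → P} {p : P}
    (h1 : ∀ i, ∀ᶠ j in atTop, (u j).1 i = p.1 i) (h2 : ∀ i, ∀ᶠ j in atTop, (u j).2.1 i = p.2.1 i)
    (h3 : ∀ a, ∀ᶠ j in atTop, (u j).2.2 a = p.2.2 a) : Tendsto u atTop (𝓝 p) := by
  refine Prod.tendsto_iff _ _ |>.2 ⟨?_, Prod.tendsto_iff _ _ |>.2 ⟨?_, ?_⟩⟩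
  · exact tendsto_pi_nhds.2 fun i => tendsto_const_nhds.congr' ((h1 i).mono fun _ h => h.symm)
  · exact tendsto_pi_nhds.2 fun i => tendsto_const_nhds.congr' ((h2 i).mono fun _ h => h.symm)
  · exact tendsto_pi_nhds.2 fun i => tendsto_const_nhds.congr' ((h3 i).mono fun _ h => h.symm)

theorem restr_eq {y y' : ℕ → Bool} {m N : ℕ} (h : ∀ i ≤ N, y i = y' i) (hm : m ≤ N) :
    restr y m = restr y' m := by
  funext i
  exact h i (le_trans i.2.le hm)

theorem isClosed_E : IsClosed (E T) := by
  refine isClosed_of_closure_subset fun p hp => ?_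
  refine ⟨?_, ?_, ?_, ?_⟩
  · obtain ⟨q, hq, h1, -, -⟩ := agree hp 0 ∅
    rw [← h1 0 le_rfl]
    exact hq.1
  · intro m hm
    obtain ⟨q, hq, h1, -, -⟩ := agree hp (m + 1) ∅
    rw [← h1 _ le_rfl] at hm
    rw [← h1 _ (Nat.le_succ m)]
    exact hq.2.1 m hm
  · intro a m ha hm
    obtain ⟨q, hq, h1, h2, h3⟩ := agree hp m {a}
    rw [← h3 a (by simp)] at ha
    rw [← h1 m le_rfl] at hm
    rw [← restr_eq h2 le_rfl]
    exact hq.2.2.1 a m ha hm
  · intro n s hs hn
    obtain ⟨q, hq, h1, h2, h3⟩ := agree hp (n + 1) s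
    rw [← h1 _ le_rfl] at hn
    obtain ⟨a, ha, h | ⟨m, hmn, hm, h⟩⟩ := hq.2.2.2 n s hs hn
    · exact ⟨a, ha, Or.inl (by rw [← h3 a ha]; exact h)⟩
    · refine ⟨a, ha, Or.inr ⟨m, hmn, ?_, ?_⟩⟩
      · rw [← h1 m (hmn.trans (Nat.le_succ n))]
        exact hm
      · rw [← restr_eq h2 (hmn.trans (Nat.le_succ n))]
        exact h

/-- Every closure point of a subset `D` of `E` is the limit of a sequence in `D`. -/
theorem exists_seq (hc : ∀ y : ℕ → Bool, {a : Om | ∀ n, restr y n ∈ T a n}.Countable)
    {D : Set P} (hD : D ⊆ E T) {p : P} (hp : p ∈ closure D) :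
    ∃ u : ℕ → P, (∀ j, u j ∈ D) ∧ Tendsto u atTop (𝓝 p) := by
  classical
  have hpE : p ∈ E T := closure_minimal hD (isClosed_E T) hp
  by_cases hinf : ∀ m, p.1 m = true
  · -- infinite height: countable character
    have hcnt := hc p.2.1
    obtain ⟨g, hg⟩ := (hcnt.union (countable_singleton (Classical.arbitrary Om))).exists_eq_range
      ⟨_, Or.inr rfl⟩
    choose u hu h1 h2 h3 using fun j : ℕ => agree hp j ((Finset.range (j + 1)).image g)
    refine ⟨u, hu, tendsto_of ?_ ?_ ?_⟩
    · exact fun i => (eventually_ge_atTop i).mono fun j hj => h1 j i hj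
    · exact fun i => (eventually_ge_atTop i).mono fun j hj => h2 j i hj
    · intro a
      by_cases ha : ∀ n, restr p.2.1 n ∈ T a n
      · have : a ∈ range g := by
          rw [← hg]
          exact Or.inl ha
        obtain ⟨k, rfl⟩ := this
        refine (eventually_ge_atTop k).mono fun j hj => h3 j _ ?_
        exact Finset.mem_image_of_mem _ (Finset.mem_range.2 (Nat.lt_succ_of_le hj))
      · push Not at ha
        obtain ⟨n, hn⟩ := ha
        refine (eventually_ge_atTop n).mono fun j hj => ?_
        have e1 : p.2.2 a = false := by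
          by_contra h
          exact hn (hpE.2.2.1 a n (by simpa using h) (hinf n))
        have e2 : (u j).2.2 a = false := by
          by_contra h
          apply hn
          rw [← restr_eq (h2 j) hj]
          refine (hD (hu j)).2.2.1 a n (by simpa using h) ?_
          rw [h1 j n hj]
          exact hinf n
        rw [e1, e2]
  · -- finite height
    push Not at hinf
    have hex : ∃ m, p.1 m = false := by
      obtain ⟨m, hm⟩ := hinf
      exact ⟨m, by simpa using hm⟩
    let N := Nat.find hex
    have hN : p.1 N = false := Nat.find_spec hex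
    have hlt : ∀ m < N, p.1 m = true := fun m hm => by
      have := Nat.find_min hex hm
      simpa using this
    have hN0 : N ≠ 0 := by
      intro h
      rw [h, hpE.1] at hN
      exact absurd hN (by simp)
    obtain ⟨n, hn⟩ := Nat.exists_eq_succ_of_ne_zero hN0
    -- for elements of `E` close to `p`, the set of the missing elements is finite
    let G : Set Om := {a | ∀ m < N, restr p.2.1 m ∈ T a m}
    have hfin : ∀ q ∈ E T, (∀ i ≤ N, q.1 i = p.1 i) → (∀ i ≤ N, q.2.1 i = p.2.1 i) →
        {a | a ∈ G ∧ q.2.2 a = false}.Finite := by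
      intro q hq h1 h2
      by_contra hcon
      obtain ⟨s, hs1, hs2⟩ := Set.Infinite.exists_subset_card_eq hcon (n + 2)
      have h3 : q.1 (n + 1) = false := by
        rw [← Nat.succ_eq_add_one, ← hn, h1 N le_rfl]
        exact hN
      obtain ⟨a, ha, h | ⟨m, hmn, hm, h⟩⟩ := hq.2.2.2 n s hs2 h3
      · have := (hs1 ha).2
        rw [h] at this
        exact absurd this (by simp)
      · have hmN : m < N := by rw [hn]; exact Nat.lt_succ_of_le hmn
        rw [restr_eq h2 hmN.le] at h
        exact h ((hs1 ha).1 m hmN)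
    have hstep : ∀ (j : ℕ) (B : Finset Om), ∃ q ∈ D, (∀ i ≤ max j N, q.1 i = p.1 i) ∧
        (∀ i ≤ max j N, q.2.1 i = p.2.1 i) ∧ ∀ a ∈ B, q.2.2 a = p.2.2 a :=
      fun j B => agree hp (max j N) B
    choose d hd hd1 hd2 hd3 using hstep
    have hfd : ∀ j B, {a | a ∈ G ∧ (d j B).2.2 a = false}.Finite := fun j B =>
      hfin _ (hD (hd j B)) (fun i hi => hd1 j B i (hi.trans (le_max_right _ _)))
        (fun i hi => hd2 j B i (hi.trans (le_max_right _ _)))
    have hf0 : {a | a ∈ G ∧ p.2.2 a = false}.Finite := hfin p hpE (fun _ _ => rfl) fun _ _ => rfl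
    let B : ℕ → Finset Om := fun j => Nat.rec (motive := fun _ => Finset Om) hf0.toFinset
      (fun j Bj => Bj ∪ (hfd j Bj).toFinset) j
    have hB0 : B 0 = hf0.toFinset := rfl
    have hBs : ∀ j, B (j + 1) = B j ∪ (hfd j (B j)).toFinset := fun _ => rfl
    have hBm : Monotone B := monotone_nat_of_le_succ fun j => by
      rw [hBs]
      exact Finset.subset_union_left
    refine ⟨fun j => d j (B j), fun j => hd _ _, tendsto_of ?_ ?_ ?_⟩
    · exact fun i => (eventually_ge_atTop i).mono fun j hj =>
        hd1 j _ i (hj.trans (le_max_left _ _))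
    · exact fun i => (eventually_ge_atTop i).mono fun j hj =>
        hd2 j _ i (hj.trans (le_max_left _ _))
    · intro a
      by_cases haG : a ∈ G
      · by_cases haB : ∃ k, a ∈ B k
        · obtain ⟨k, hk⟩ := haB
          exact (eventually_ge_atTop k).mono fun j hj => hd3 j _ a (hBm hj hk)
        · push Not at haB
          have e1 : p.2.2 a = true := by
            by_contra h
            refine haB 0 ?_
            rw [hB0, Set.Finite.mem_toFinset]
            exact ⟨haG, by simpa using h⟩
          refine Eventually.of_forall fun j => ?_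
          rw [e1]
          by_contra h
          refine haB (j + 1) ?_
          rw [hBs]
          refine Finset.mem_union_right _ ?_
          rw [Set.Finite.mem_toFinset]
          exact ⟨haG, by simpa using h⟩
      · have haG' : ∃ m < N, restr p.2.1 m ∉ T a m := by
          by_contra hcon
          push Not at hcon
          exact haG hcon
        obtain ⟨m, hm, hma⟩ := haG'
        have e1 : p.2.2 a = false := by
          by_contra h
          exact hma (hpE.2.2.1 a m (by simpa using h) (hlt m hm))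
        refine Eventually.of_forall fun j => ?_
        rw [e1]
        by_contra h
        apply hma
        rw [← restr_eq (hd2 j (B j)) (hm.le.trans (le_max_right _ _))]
        refine (hD (hd j (B j))).2.2.1 a m (by simpa using h) ?_
        rw [hd1 j (B j) m (hm.le.trans (le_max_right _ _))]
        exact hlt m hm

/-! ### The compact space -/

/-- The projection of `E` to its last coordinate. -/
def XS : Set (Om → Bool) := (fun p : P => p.2.2) '' E T

theorem isCompact_XS : IsCompact (XS T) :=
  (isClosed_E T).isCompact.image (by fun_prop)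

theorem frechetUrysohn (hc : ∀ y : ℕ → Bool, {a : Om | ∀ n, restr y n ∈ T a n}.Countable) :
    FrechetUrysohnSpace (XS T) := by
  constructor
  intro s z hz
  let D : Set P := {p | ∃ h : p ∈ E T, (⟨p.2.2, p, h, rfl⟩ : XS T) ∈ s}
  have hDE : D ⊆ E T := fun p hp => hp.1
  have hcl : IsClosed ((fun p : P => p.2.2) '' closure D) :=
    (isClosed_closure.isCompact.image (by fun_prop)).isClosed
  have hsub : Subtype.val '' s ⊆ (fun p : P => p.2.2) '' closure D := by
    rintro _ ⟨⟨_, p, hp, rfl⟩, hw, rfl⟩
    exact ⟨p, subset_closure ⟨hp, hw⟩, rfl⟩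
  have hz' : (z : Om → Bool) ∈ (fun p : P => p.2.2) '' closure D := by
    refine closure_minimal hsub hcl ?_
    exact image_closure_subset_closure_image continuous_subtype_val ⟨z, hz, rfl⟩
  obtain ⟨p, hp, hpz⟩ := hz'
  obtain ⟨u, hu, hut⟩ := exists_seq T hc hDE hp
  refine ⟨fun j => ⟨(u j).2.2, u j, (hu j).1, rfl⟩, fun j => (hu j).2, ?_⟩
  rw [tendsto_subtype_rng]
  have h1 : Tendsto (fun j => (u j).2.2) atTop (𝓝 p.2.2) :=
    ((continuous_snd.comp continuous_snd).tendsto p).comp hut
  have h2 : p.2.2 = (z : Om → Bool) := hpz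
  rw [← h2]
  exact h1

end Pool.Agent.R827.Pol
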