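import Pool.Agent.R827.Pol

/-!
# Countable tightness at Dirac measures (R. Pol): the measures
-/

set_option autoImplicit false

namespace Pool.Agent.R827.Pol

open Set Topology Filter MeasureTheory
open Pool.Agent.Helper732.HN.ForceCH (Om)

variable {T : Om → (n : ℕ) → Set (Fin n → Bool)}

/-- Extension of a finite sequence by zeros. -/
def ext {n : ℕ} (s : Fin n → Bool) : ℕ → Bool := fun i => if h : i < n then s ⟨i, h⟩ else false

theorem restr_ext {n : ℕ} (s : Fin n → Bool) : restr (ext s) n = s := by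
  funext i
  simp [restr, ext]

theorem restr_mem_of_le (hT : ∀ (a : Om) (n : ℕ) (y : ℕ → Bool),
    restr y (n + 1) ∈ T a (n + 1) → restr y n ∈ T a n) (a : Om) (y : ℕ → Bool) {m n : ℕ}
    (h : m ≤ n) (hn : restr y n ∈ T a n) : restr y m ∈ T a m := by
  induction n, h using Nat.le_induction with
  | base => exact hn
  | succ n hmn ih => exact ih (hT a n y hn)

open Classical in
/-- The last coordinate of the point with index `(n, ξ, s)`. -/
noncomputable def zval (T : Om → (n : ℕ) → Set (Fin n → Bool)) (e : Om → Om → ℕ) (n : ℕ) (ξ : Om)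
    (s : Fin n → Bool) : Om → Bool :=
  fun a => decide (s ∈ T a n ∧ ¬ (a < ξ ∧ e ξ a ≤ n))

theorem zval_mem (hT : ∀ (a : Om) (n : ℕ) (y : ℕ → Bool),
    restr y (n + 1) ∈ T a (n + 1) → restr y n ∈ T a n) (e : Om → Om → ℕ)
    (he : ∀ ξ, InjOn (e ξ) (Iio ξ)) (n : ℕ) (ξ : Om) (s : Fin n → Bool) :
    zval T e n ξ s ∈ XS T := by
  classical
  refine ⟨(fun m => decide (m ≤ n), ext s, zval T e n ξ s), ⟨?_, ?_, ?_, ?_⟩, rfl⟩
  · simp
  · intro m hm
    simp only [decide_eq_true_eq] at hm ⊢
    omega
  · intro a m ha hm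
    simp only [decide_eq_true_eq] at hm
    have ha' : s ∈ T a n := by
      have : zval T e n ξ s a = true := ha
      simp only [zval, decide_eq_true_eq] at this
      exact this.1
    refine restr_mem_of_le hT a _ hm ?_
    rw [restr_ext]
    exact ha'
  · intro n' t ht hn'
    have hn2 : n ≤ n' := by
      have : decide (n' + 1 ≤ n) = false := hn'
      simp only [decide_eq_false_iff_not] at this
      omega
    by_contra hcon
    push Not at hcon
    have h1 : ∀ a ∈ t, a < ξ ∧ e ξ a ≤ n := by
      intro a ha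
      obtain ⟨h2, h3⟩ := hcon a ha
      have h4 : s ∈ T a n := by
        have := h3 n hn2 (by simp)
        rwa [restr_ext] at this
      by_contra h5
      apply h2
      show zval T e n ξ s a = true
      simp only [zval, decide_eq_true_eq]
      exact ⟨h4, h5⟩
    have h2 : t.card ≤ (Finset.range (n + 1)).card := by
      refine Finset.card_le_card_of_injOn (e ξ) (fun a ha => ?_) ?_
      · simp only [Finset.coe_range, mem_Iio]
        have := (h1 a ha).2
        omega
      · intro a ha b hb hab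
        exact he ξ (h1 a ha).1 (h1 b hb).1 hab
    rw [ht, Finset.card_range] at h2
    omega

theorem zero_mem : (fun _ => false : Om → Bool) ∈ XS T :=
  ⟨(fun _ => true, fun _ => false, fun _ => false), ⟨rfl, fun _ _ => rfl, by simp, by simp⟩, rfl⟩

theorem compactXS : CompactSpace (XS T) := isCompact_iff_compactSpace.1 (isCompact_XS T)

/-- The uniform average of the Dirac measures at the points `f s`. -/
noncomputable def avg {X : Type} [MeasurableSpace X] (n : ℕ) (f : (Fin n → Bool) → X) :
    Measure X := (2 ^ n : ENNReal)⁻¹ • ∑ s : Fin n → Bool, Measure.dirac (f s)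

instance {X : Type} [MeasurableSpace X] (n : ℕ) (f : (Fin n → Bool) → X) :
    IsProbabilityMeasure (avg n f) := by
  constructor
  simp only [avg, Measure.smul_apply, Measure.finsetSum_apply, measure_univ, Finset.sum_const,
    smul_eq_mul, nsmul_eq_mul, mul_one, Finset.card_univ, Fintype.card_fun, Fintype.card_bool,
    Fintype.card_fin, Nat.cast_pow, Nat.cast_ofNat]
  exact ENNReal.inv_mul_cancel (by positivity) (by simp)

theorem integral_avg {X : Type} [TopologicalSpace X] [T2Space X] [MeasurableSpace X]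
    [BorelSpace X] (n : ℕ) (f : (Fin n → Bool) → X) (g : BoundedContinuousFunction X ℝ) :
    ∫ x, g x ∂(avg n f) = (2 ^ n : ℝ)⁻¹ * ∑ s : Fin n → Bool, g (f s) := by
  rw [avg, integral_smul_measure, integral_finsetSum_measure]
  · simp only [integral_dirac, smul_eq_mul]
    congr 1
    simp
  · intro s _
    exact g.integrable _

/-- The Dirac measure as a probability measure. -/
noncomputable def diracPM {X : Type} [MeasurableSpace X] (x : X) : ProbabilityMeasure X :=
  ⟨Measure.dirac x, inferInstance⟩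

theorem integral_diracPM {X : Type} [TopologicalSpace X] [T2Space X] [MeasurableSpace X]
    [BorelSpace X] (x : X) (g : BoundedContinuousFunction X ℝ) :
    ∫ y, g y ∂(diracPM x : Measure X) = g x := integral_dirac g x

/-- **The counterexample from fat trees.** -/
theorem main (h : FatTrees) : ∃ (X : Type) (_ : TopologicalSpace X) (_ : CompactSpace X)
    (_ : T2Space X) (_ : MeasurableSpace X) (_ : BorelSpace X),
    FrechetUrysohnSpace X ∧ ∃ (x : X) (A : Set (ProbabilityMeasure X)),
      (∀ μ ∈ A, ∃ (n : ℕ) (f : (Fin n → Bool) → X), (μ : Measure X) = avg n f) ∧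
      diracPM x ∈ closure A ∧
      ∀ B ⊆ A, B.Countable →
        diracPM x ∉ closure B := by
  classical
  obtain ⟨ε, hε, T, hT, hfat, hc⟩ := h
  have he : ∀ ξ : Om, ∃ e : Om → ℕ, InjOn e (Iio ξ) := fun ξ =>
    Set.countable_iff_exists_injOn.1 (countable_Iio ξ)
  choose e he using he
  letI : MeasurableSpace (XS T) := borel _
  haveI : BorelSpace (XS T) := ⟨rfl⟩
  haveI : CompactSpace (XS T) := compactXS
  let x : XS T := ⟨fun _ => false, zero_mem⟩
  let φ : (n : ℕ) → Om → (Fin n → Bool) → XS T := fun n ξ s =>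
    ⟨zval T e n ξ s, zval_mem hT e he n ξ s⟩
  let μ : ℕ → Om → ProbabilityMeasure (XS T) := fun n ξ => ⟨avg n (φ n ξ), inferInstance⟩
  refine ⟨XS T, inferInstance, inferInstance, inferInstance, inferInstance, inferInstance,
    frechetUrysohn T hc, x, {ν | ∃ n ξ, ν = μ n ξ}, ?_, ?_, ?_⟩
  · rintro _ ⟨n, ξ, rfl⟩
    exact ⟨n, φ n ξ, rfl⟩
  · -- `δ_x` is in the closure
    have h1 : ∀ p : Finset Om, ∃ (n : ℕ) (ξ : Om), ∀ s : Fin n → Bool, ∀ a ∈ p,
        zval T e n ξ s a = false := by
      intro p
      obtain ⟨ξ, hξ⟩ := exists_ub (p : Set Om) p.countable_toSet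
      refine ⟨p.sup (e ξ), ξ, fun s a ha => ?_⟩
      simp only [zval, decide_eq_false_iff_not]
      rintro ⟨-, h2⟩
      exact h2 ⟨hξ a ha, Finset.le_sup ha⟩
    choose N Ξ hNΞ using h1
    have h2 : Tendsto (fun p : Finset Om => μ (N p) (Ξ p)) atTop
        (𝓝 (diracPM x)) := by
      rw [ProbabilityMeasure.tendsto_iff_forall_integral_tendsto]
      intro g
      rw [Metric.tendsto_atTop]
      intro δ hδ
      have h3 : (g ⁻¹' Metric.ball (g x) (δ / 2)) ∈ 𝓝 x :=
        g.continuous.continuousAt (Metric.ball_mem_nhds _ (half_pos hδ))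
      obtain ⟨V, hV, hVx⟩ := mem_nhds_subtype _ _ _ |>.1 h3
      obtain ⟨W, hWV, hW, hxW⟩ := mem_nhds_iff.1 hV
      obtain ⟨I, u, hu, hIW⟩ := isOpen_pi_iff.1 hW _ hxW
      refine ⟨I, fun p hp => ?_⟩
      have h4 : ∀ s : Fin (N p) → Bool, |g (φ (N p) (Ξ p) s) - g x| ≤ δ / 2 := by
        intro s
        have h5 : (φ (N p) (Ξ p) s) ∈ g ⁻¹' Metric.ball (g x) (δ / 2) := by
          refine hVx (hWV (hIW ?_))
          intro a ha
          have h6 : (φ (N p) (Ξ p) s : Om → Bool) a = false := hNΞ p s a (hp ha)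
          have h7 : (x : Om → Bool) a = false := rfl
          rw [h6, ← h7]
          exact (hu a ha).2
        have h6 : dist (g (φ (N p) (Ξ p) s)) (g x) < δ / 2 := h5
        rw [Real.dist_eq] at h6
        exact h6.le
      have h5 : ∫ y, g y ∂((μ (N p) (Ξ p) : ProbabilityMeasure (XS T)) : Measure (XS T)) =
          (2 ^ (N p) : ℝ)⁻¹ * ∑ s : Fin (N p) → Bool, g (φ (N p) (Ξ p) s) :=
        integral_avg (N p) (φ (N p) (Ξ p)) g
      have h6 : ∫ y, g y ∂(diracPM x : Measure (XS T)) = g x := integral_diracPM x g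
      rw [h5, h6, Real.dist_eq]
      have h7 : (2 ^ (N p) : ℝ)⁻¹ * ∑ s : Fin (N p) → Bool, g (φ (N p) (Ξ p) s) - g x =
          (2 ^ (N p) : ℝ)⁻¹ * ∑ s : Fin (N p) → Bool, (g (φ (N p) (Ξ p) s) - g x) := by
        rw [Finset.sum_sub_distrib, mul_sub]
        congr 1
        simp only [Finset.sum_const, Finset.card_univ, Fintype.card_fun, Fintype.card_bool,
          Fintype.card_fin, nsmul_eq_mul, Nat.cast_pow, Nat.cast_ofNat]
        rw [← mul_assoc, inv_mul_cancel₀ (by positivity), one_mul]
      rw [h7, abs_mul, abs_of_nonneg (by positivity : (0 : ℝ) ≤ (2 ^ (N p) : ℝ)⁻¹)]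
      have h8 : |∑ s : Fin (N p) → Bool, (g (φ (N p) (Ξ p) s) - g x)| ≤ 2 ^ (N p) * (δ / 2) := by
        refine (Finset.abs_sum_le_sum_abs _ _).trans ?_
        refine (Finset.sum_le_sum fun s _ => h4 s).trans ?_
        simp
      calc (2 ^ (N p) : ℝ)⁻¹ * |∑ s : Fin (N p) → Bool, (g (φ (N p) (Ξ p) s) - g x)|
          ≤ (2 ^ (N p) : ℝ)⁻¹ * (2 ^ (N p) * (δ / 2)) :=
            mul_le_mul_of_nonneg_left h8 (by positivity)
        _ = δ / 2 := by
            rw [← mul_assoc, inv_mul_cancel₀ (by positivity), one_mul]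
        _ < δ := half_lt_self hδ
    refine mem_closure_of_tendsto h2 (Eventually.of_forall fun p => ⟨_, _, rfl⟩)
  · -- not in the closure of a countable subset
    intro B hBA hBc hcl
    choose n ξ hnξ using hBA
    obtain ⟨α, hα⟩ := exists_ub (⋃ b : B, {ξ b.2}) (by
      haveI := hBc.to_subtype
      exact countable_iUnion fun b => countable_singleton _)
    let g0 : C(XS T, ℝ) := ⟨fun z => if (z : Om → Bool) α = true then 1 else 0, by
      have h1 : Continuous fun z : XS T => (z : Om → Bool) α :=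
        (continuous_apply α).comp continuous_subtype_val
      exact (continuous_of_discreteTopology (f := fun b : Bool => if b = true then (1 : ℝ) else 0)
        ).comp h1⟩
    let g : BoundedContinuousFunction (XS T) ℝ := BoundedContinuousFunction.mkOfCompact g0
    have hcont : Continuous fun ν : ProbabilityMeasure (XS T) => ∫ y, g y ∂(ν : Measure (XS T)) :=
      continuous_iff_continuousAt.2 fun ν =>
        (ProbabilityMeasure.tendsto_iff_forall_integral_tendsto.1 tendsto_id) g
    have hclosed : IsClosed {ν : ProbabilityMeasure (XS T) | ε ≤ ∫ y, g y ∂(ν : Measure (XS T))} :=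
      isClosed_le continuous_const hcont
    have hB : B ⊆ {ν : ProbabilityMeasure (XS T) | ε ≤ ∫ y, g y ∂(ν : Measure (XS T))} := by
      intro b hb
      have h1 : b = μ (n hb) (ξ hb) := hnξ hb
      have h2 : ξ hb < α := hα _ (mem_iUnion.2 ⟨⟨b, hb⟩, rfl⟩)
      show ε ≤ ∫ y, g y ∂(b : Measure (XS T))
      have h3 : ∫ y, g y ∂(b : Measure (XS T)) = (2 ^ (n hb) : ℝ)⁻¹ *
          ∑ s : Fin (n hb) → Bool, g (φ (n hb) (ξ hb) s) := by
        conv_lhs => rw [h1]
        exact integral_avg _ _ g
      rw [h3]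
      have h4 : ∀ s : Fin (n hb) → Bool, g (φ (n hb) (ξ hb) s) =
          if s ∈ T α (n hb) then 1 else 0 := by
        intro s
        show (if zval T e (n hb) (ξ hb) s α = true then (1 : ℝ) else 0) = _
        have h5 : (zval T e (n hb) (ξ hb) s α = true) ↔ s ∈ T α (n hb) := by
          simp only [zval, decide_eq_true_eq]
          exact ⟨fun h => h.1, fun h => ⟨h, fun h' => absurd h'.1 (not_lt.2 h2.le)⟩⟩
        simp only [h5]
      have h5 : ∑ s : Fin (n hb) → Bool, g (φ (n hb) (ξ hb) s) = ((T α (n hb)).ncard : ℝ) := by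
        rw [Finset.sum_congr rfl fun s _ => h4 s, Finset.sum_boole, ncard_eq_toFinset_card']
        congr 2
        ext s
        simp
      rw [h5]
      have h6 := hfat α (n hb)
      rw [inv_mul_eq_div, le_div_iff₀ (by positivity)]
      exact h6
    have h1 := closure_minimal hB hclosed hcl
    have h2 : ε ≤ ∫ y, g y ∂(diracPM x : Measure (XS T)) := h1
    have h3 : ∫ y, g y ∂(diracPM x : Measure (XS T)) = g x := integral_diracPM x g
    have h4 : g x = 0 := by
      show (if (x : Om → Bool) α = true then (1 : ℝ) else 0) = 0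
      simp [x]
    rw [h3, h4] at h2
    exact absurd h2 (not_le.2 hε)

end Pool.Agent.R827.Pol
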