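import Pool.Agent.R827.Pol2

/-!
# Countable tightness at Dirac measures (R. Pol): the continuum hypothesis gives fat trees
-/

set_option autoImplicit false

namespace Pool.Agent.R827.Pol

open Set Topology Filter MeasureTheory
open Pool.Agent.Helper732.HN.ForceCH (Om)

/-- The continuum hypothesis: some family of sets of natural numbers indexed by the countable
ordinals contains every set of natural numbers. -/
def CH : Prop :=
  ∃ E : Om → ℕ → Prop, ∀ x : ℕ → Prop, ∃ a : Om, ∀ n : ℕ, x n ↔ E a n

theorem card_cyl {n k : ℕ} (hk : k ≤ n) (z : ℕ → Bool) :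
    (Finset.univ.filter fun s : Fin n → Bool => ∀ i : Fin n, (i : ℕ) < k → s i = z i).card ≤
      2 ^ (n - k) := by
  have h : (Finset.univ : Finset (Fin (n - k) → Bool)).card = 2 ^ (n - k) := by simp
  rw [← h]
  refine Finset.card_le_card_of_injOn (fun s i => s ⟨k + i, by omega⟩)
    (fun _ _ => Finset.mem_coe.2 (Finset.mem_univ _)) ?_
  intro s hs t ht hst
  simp only [Finset.coe_filter, Finset.mem_univ, true_and, mem_ofPred_eq] at hs ht
  funext i
  by_cases hi : (i : ℕ) < k
  · rw [hs i hi, ht i hi]
  · have h1 := congrFun hst ⟨i - k, by omega⟩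
    have h2 : (⟨k + (i - k : ℕ), by omega⟩ : Fin n) = i := Fin.ext (by simp; omega)
    simp only [h2] at h1
    exact h1

theorem sum_pow (m : ℕ) : ∑ i ∈ Finset.range m, 2 ^ i + 1 = 2 ^ m := by
  induction m with
  | zero => simp
  | succ m ih => rw [Finset.sum_range_succ, pow_succ]; omega

theorem fatTrees_of_ch (h : CH) : FatTrees := by
  classical
  obtain ⟨E, hE⟩ := h
  let y : Om → ℕ → Bool := fun a n => decide (E a n)
  have hy : ∀ z : ℕ → Bool, ∃ a, y a = z := by
    intro z
    obtain ⟨a, ha⟩ := hE fun n => z n = true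
    refine ⟨a, funext fun n => ?_⟩
    have h1 := ha n
    by_cases hz : z n = true
    · simp only [y]
      rw [hz, decide_eq_true_eq]
      exact h1.1 hz
    · have h2 : z n = false := by simpa using hz
      simp only [y]
      rw [h2, decide_eq_false_iff_not]
      exact fun h3 => hz (h1.2 h3)
  have he : ∀ ξ : Om, ∃ e : Om → ℕ, InjOn e (Iio ξ) := fun ξ =>
    Set.countable_iff_exists_injOn.1 (countable_Iio ξ)
  choose e he using he
  let T : Om → (n : ℕ) → Set (Fin n → Bool) := fun a n =>
    {s | ∀ b < a, e a b + 2 ≤ n → ∃ i : Fin n, (i : ℕ) < e a b + 2 ∧ s i ≠ y b i}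
  refine ⟨1 / 2, by norm_num, T, ?_, ?_, ?_⟩
  · intro a n z hz b hb hn
    obtain ⟨i, hi, h1⟩ := hz b hb (hn.trans (Nat.le_succ n))
    exact ⟨⟨i, by omega⟩, hi, h1⟩
  · intro a n
    let C : ℕ → Finset (Fin n → Bool) := fun j => Finset.univ.filter fun s =>
      ∃ b < a, e a b = j ∧ ∀ i : Fin n, (i : ℕ) < j + 2 → s i = y b i
    have h1 : ∀ j ∈ Finset.range (n - 1), (C j).card ≤ 2 ^ ((n - 1) - 1 - j) := by
      intro j hj
      rw [Finset.mem_range] at hj
      by_cases hb : ∃ b < a, e a b = j
      · obtain ⟨b, hb, hbj⟩ := hb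
        have h2 : C j ⊆ Finset.univ.filter fun s : Fin n → Bool =>
            ∀ i : Fin n, (i : ℕ) < j + 2 → s i = y b i := by
          intro s hs
          simp only [C, Finset.mem_filter, Finset.mem_univ, true_and] at hs ⊢
          obtain ⟨b', hb', hbj', h3⟩ := hs
          have : b' = b := he a hb' hb (by rw [hbj, hbj'])
          rw [← this]
          exact h3
        refine (Finset.card_le_card h2).trans ((card_cyl (by omega) _).trans ?_)
        exact Nat.pow_le_pow_right (by norm_num) (by omega)
      · have h2 : C j = ∅ := by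
          refine Finset.filter_eq_empty_iff.2 fun s _ hs => ?_
          obtain ⟨b, h3, h4, -⟩ := hs
          exact hb ⟨b, h3, h4⟩
        rw [h2]
        simp
    have h2 : ((Finset.range (n - 1)).biUnion C).card + 1 ≤ 2 ^ (n - 1) := by
      have h3 : ((Finset.range (n - 1)).biUnion C).card ≤
          ∑ j ∈ Finset.range (n - 1), 2 ^ ((n - 1) - 1 - j) :=
        Finset.card_biUnion_le.trans (Finset.sum_le_sum h1)
      have h4 : ∑ j ∈ Finset.range (n - 1), 2 ^ ((n - 1) - 1 - j) =
          ∑ j ∈ Finset.range (n - 1), 2 ^ j :=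
        Finset.sum_range_reflect (fun j => 2 ^ j) (n - 1)
      have h5 := sum_pow (n - 1)
      omega
    have h3 : (Finset.univ : Finset (Fin n → Bool)) ⊆
        (T a n).toFinset ∪ (Finset.range (n - 1)).biUnion C := by
      intro s _
      rw [Finset.mem_union, Set.mem_toFinset, Finset.mem_biUnion]
      by_cases hs : s ∈ T a n
      · exact Or.inl hs
      · right
        simp only [T, mem_ofPred_eq] at hs
        push Not at hs
        obtain ⟨b, hb, hn, h4⟩ := hs
        refine ⟨e a b, by rw [Finset.mem_range]; omega, ?_⟩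
        simp only [C, Finset.mem_filter, Finset.mem_univ, true_and]
        exact ⟨b, hb, rfl, h4⟩
    have h4 : 2 ^ n ≤ (T a n).ncard + ((Finset.range (n - 1)).biUnion C).card := by
      have h5 := (Finset.card_le_card h3).trans (Finset.card_union_le _ _)
      rw [← ncard_eq_toFinset_card'] at h5
      simpa using h5
    have h5 : 2 ^ n ≤ 2 * (T a n).ncard := by
      rcases Nat.eq_zero_or_pos n with rfl | hn
      · simp only [pow_zero, Nat.zero_sub, Finset.range_zero, Finset.biUnion_empty,
          Finset.card_empty, add_zero] at h4 ⊢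
        omega
      · have h6 : 2 ^ n = 2 * 2 ^ (n - 1) := by
          rw [← pow_succ']
          congr 1
          omega
        omega
    have h6 : (2 : ℝ) ^ n ≤ 2 * ((T a n).ncard : ℝ) := by exact_mod_cast h5
    linarith
  · intro z
    obtain ⟨b, rfl⟩ := hy z
    refine ((countable_Iio b).insert b).mono ?_
    intro a ha
    by_contra hcon
    have hba : b < a := by
      rw [mem_insert_iff, not_or] at hcon
      exact lt_of_le_of_ne (not_lt.1 hcon.2) (Ne.symm hcon.1)
    obtain ⟨i, -, hi⟩ := ha (e a b + 2) b hba le_rfl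
    exact hi rfl

end Pool.Agent.R827.Pol
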