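import Mathlib

/-!
# A space built from a function of two variables

`I` is a set of indices, `δ` attaches to any two indices `i`, `j` a level `δ i j` in `W`, and `r` is
a map from `W` to the Cantor set. The space consists of the copies `{i} × C` of the Cantor set `C`
and of isolated points `(i, j)`, which are attached to the copies with the numbers `i` and `j`, in
both cases at the point `r (δ i j)`.
-/

set_option autoImplicit false

namespace Pool.Agent.R827.SN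

open Set Topology Filter TopologicalSpace

/-- the Cantor set -/
abbrev C : Type := ℕ → Bool

/-- the set of all points which agree with `c` in the first `n` coordinates -/
def Cyl (c : C) (n : ℕ) : Set C := {d | ∀ m < n, d m = c m}

theorem isOpen_Cyl (c : C) (n : ℕ) : IsOpen (Cyl c n) := PiNat.isOpen_cylinder (fun _ => Bool) c n

theorem mem_Cyl_self (c : C) (n : ℕ) : c ∈ Cyl c n := fun _ _ => rfl

theorem Cyl_anti (c : C) {m n : ℕ} (h : m ≤ n) : Cyl c n ⊆ Cyl c m :=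
  fun _ hd k hk => hd k (hk.trans_le h)

theorem Cyl_eq {c d : C} {n : ℕ} (h : d ∈ Cyl c n) : Cyl d n = Cyl c n := by
  ext e
  exact ⟨fun he k hk => (he k hk).trans (h k hk), fun he k hk => (he k hk).trans (h k hk).symm⟩

theorem exists_Cyl_subset {c : C} {U : Set C} (hU : IsOpen U) (hc : c ∈ U) : ∃ n, Cyl c n ⊆ U := by
  obtain ⟨V, ⟨x, n, rfl⟩, h1, h2⟩ :=
    (PiNat.isTopologicalBasis_cylinders (fun _ => Bool)).exists_subset_of_mem_open hc hU
  have h3 : Cyl c n = PiNat.cylinder x n := Cyl_eq h1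
  exact ⟨n, h3 ▸ h2⟩

theorem exists_not_mem_Cyl {c d : C} (h : d ≠ c) : ∃ n, d ∉ Cyl c n := by
  by_contra hc
  push Not at hc
  exact h (funext fun m => hc (m + 1) m (Nat.lt_succ_self m))

theorem exists_avoid (c : C) {D : Set C} (hD : D.Finite) : ∃ n, ∀ d ∈ D, d ≠ c → d ∉ Cyl c n := by
  induction D, hD using Set.Finite.induction_on with
  | empty => exact ⟨0, by simp⟩
  | @insert a s _ _ ih =>
    obtain ⟨n, hn⟩ := ih
    by_cases h : a = c
    · refine ⟨n, fun d hd hne => ?_⟩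
      rcases hd with rfl | hd
      · exact absurd h hne
      · exact hn d hd hne
    · obtain ⟨m, hm⟩ := exists_not_mem_Cyl h
      refine ⟨max n m, fun d hd hne => ?_⟩
      rcases hd with rfl | hd
      · exact fun h' => hm (Cyl_anti c (le_max_right _ _) h')
      · exact fun h' => hn d hd hne (Cyl_anti c (le_max_left _ _) h')

section
variable {I W : Type}

/-- the underlying set: the union of the copies of the Cantor set and of the set of the pairs -/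
def Sp (_δ : I → I → W) (_r : W → C) : Type := (I × C) ⊕ (I × I)

variable {δ : I → I → W} {r : W → C}

/-- the points of the copies of the Cantor set -/
def pt (δ : I → I → W) (r : W → C) (i : I) (c : C) : Sp δ r := Sum.inl (i, c)

/-- the isolated points -/
def iso (δ : I → I → W) (r : W → C) (z : I × I) : Sp δ r := Sum.inr z

/-- the basic neighbourhoods -/
def B (δ : I → I → W) (r : W → C) (i : I) (c : C) (n : ℕ) : Set (Sp δ r) :=
  {x | (∃ d ∈ Cyl c n, x = pt δ r i d) ∨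
    ∃ z : I × I, (z.1 = i ∨ z.2 = i) ∧ r (δ z.1 z.2) ∈ Cyl c n ∧ r (δ z.1 z.2) ≠ c ∧
      x = iso δ r z}

theorem pt_inj {i j : I} {c d : C} : pt δ r i c = pt δ r j d ↔ i = j ∧ c = d := by
  constructor
  · intro h
    have h1 : (Sum.inl (i, c) : (I × C) ⊕ (I × I)) = Sum.inl (j, d) := h
    simpa using h1
  · rintro ⟨rfl, rfl⟩
    rfl

theorem iso_inj {z w : I × I} : iso δ r z = iso δ r w ↔ z = w := by
  constructor
  · intro h
    have h1 : (Sum.inr z : (I × C) ⊕ (I × I)) = Sum.inr w := h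
    exact Sum.inr_injective h1
  · rintro rfl
    rfl

theorem pt_ne_iso {i : I} {c : C} {z : I × I} : pt δ r i c ≠ iso δ r z := by
  intro h
  have h1 : (Sum.inl (i, c) : (I × C) ⊕ (I × I)) = Sum.inr z := h
  exact Sum.inl_ne_inr h1

theorem cases_Sp (x : Sp δ r) : (∃ i c, x = pt δ r i c) ∨ ∃ z, x = iso δ r z := by
  rcases x with ⟨i, c⟩ | z
  · exact Or.inl ⟨i, c, rfl⟩
  · exact Or.inr ⟨z, rfl⟩

theorem pt_mem_B {i j : I} {c d : C} {n : ℕ} :
    pt δ r j d ∈ B δ r i c n ↔ j = i ∧ d ∈ Cyl c n := by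
  constructor
  · rintro (⟨e, he, h⟩ | ⟨z, _, _, _, h⟩)
    · obtain ⟨rfl, rfl⟩ := pt_inj.1 h
      exact ⟨rfl, he⟩
    · exact absurd h pt_ne_iso
  · rintro ⟨rfl, h⟩
    exact Or.inl ⟨d, h, rfl⟩

theorem iso_mem_B {i : I} {z : I × I} {c : C} {n : ℕ} :
    iso δ r z ∈ B δ r i c n ↔
      (z.1 = i ∨ z.2 = i) ∧ r (δ z.1 z.2) ∈ Cyl c n ∧ r (δ z.1 z.2) ≠ c := by
  constructor
  · rintro (⟨e, he, h⟩ | ⟨w, h1, h2, h3, h⟩)
    · exact absurd h.symm pt_ne_iso
    · obtain rfl := iso_inj.1 h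
      exact ⟨h1, h2, h3⟩
  · rintro ⟨h1, h2, h3⟩
    exact Or.inr ⟨z, h1, h2, h3, rfl⟩

theorem B_anti (i : I) (c : C) {m n : ℕ} (h : m ≤ n) : B δ r i c n ⊆ B δ r i c m := by
  rintro x (⟨d, hd, rfl⟩ | ⟨z, h1, h2, h3, rfl⟩)
  · exact Or.inl ⟨d, Cyl_anti c h hd, rfl⟩
  · exact Or.inr ⟨z, h1, Cyl_anti c h h2, h3, rfl⟩

instance instTop : TopologicalSpace (Sp δ r) where
  IsOpen U := ∀ i c, pt δ r i c ∈ U → ∃ n, B δ r i c n ⊆ U
  isOpen_univ := fun _ _ _ => ⟨0, subset_univ _⟩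
  isOpen_inter := by
    intro U V hU hV i c h
    obtain ⟨n, hn⟩ := hU i c h.1
    obtain ⟨m, hm⟩ := hV i c h.2
    exact ⟨max n m, fun x hx => ⟨hn (B_anti i c (le_max_left _ _) hx),
      hm (B_anti i c (le_max_right _ _) hx)⟩⟩
  isOpen_sUnion := by
    intro S hS i c h
    obtain ⟨U, hU, h⟩ := h
    obtain ⟨n, hn⟩ := hS U hU i c h
    exact ⟨n, hn.trans (subset_sUnion_of_mem hU)⟩

theorem isOpen_iff' {U : Set (Sp δ r)} :
    IsOpen U ↔ ∀ i c, pt δ r i c ∈ U → ∃ n, B δ r i c n ⊆ U := Iff.rfl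

theorem isOpen_B (i : I) (c : C) (n : ℕ) : IsOpen (B δ r i c n) := by
  rw [isOpen_iff']
  intro j d h
  obtain ⟨rfl, hd⟩ := pt_mem_B.1 h
  by_cases hdc : d = c
  · exact ⟨n, by rw [hdc]⟩
  · obtain ⟨m, hm⟩ := exists_not_mem_Cyl (Ne.symm hdc)
    refine ⟨max n m, ?_⟩
    rintro x (⟨e, he, rfl⟩ | ⟨z, h1, h2, h3, rfl⟩)
    · refine pt_mem_B.2 ⟨rfl, ?_⟩
      rw [← Cyl_eq hd]
      exact Cyl_anti d (le_max_left _ _) he
    · refine iso_mem_B.2 ⟨h1, ?_, ?_⟩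
      · rw [← Cyl_eq hd]
        exact Cyl_anti d (le_max_left _ _) h2
      · intro h4
        rw [h4] at h2
        exact hm (Cyl_anti d (le_max_right _ _) h2)

theorem mem_B_self (i : I) (c : C) (n : ℕ) : pt δ r i c ∈ B δ r i c n :=
  pt_mem_B.2 ⟨rfl, mem_Cyl_self c n⟩

theorem isOpen_iso (z : I × I) : IsOpen ({iso δ r z} : Set (Sp δ r)) := by
  rw [isOpen_iff']
  intro i c h
  exact absurd h pt_ne_iso

theorem isClosed_iff' {F : Set (Sp δ r)} :
    IsClosed F ↔ ∀ i c, pt δ r i c ∉ F → ∃ n, Disjoint (B δ r i c n) F := by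
  rw [← isOpen_compl_iff, isOpen_iff']
  simp only [mem_compl_iff, subset_compl_iff_disjoint_right]

theorem isClosed_iso (z : I × I) : IsClosed ({iso δ r z} : Set (Sp δ r)) := by
  rw [isClosed_iff']
  intro i c _
  by_cases h : r (δ z.1 z.2) = c
  · refine ⟨0, ?_⟩
    rw [disjoint_singleton_right]
    intro h'
    exact (iso_mem_B.1 h').2.2 h
  · obtain ⟨n, hn⟩ := exists_not_mem_Cyl h
    refine ⟨n, ?_⟩
    rw [disjoint_singleton_right]
    intro h'
    exact hn (iso_mem_B.1 h').2.1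

theorem isClosed_B (i : I) (c : C) (n : ℕ) : IsClosed (B δ r i c n) := by
  rw [isClosed_iff']
  intro j d h
  by_cases hij : j = i
  · subst hij
    refine ⟨n, ?_⟩
    rw [Set.disjoint_left]
    rintro x (⟨e, he, rfl⟩ | ⟨z, h1, h2, h3, rfl⟩) hx
    · have h4 := (pt_mem_B.1 hx).2
      refine h (pt_mem_B.2 ⟨rfl, ?_⟩)
      rw [← Cyl_eq h4, Cyl_eq he]
      exact mem_Cyl_self d n
    · have h4 := (iso_mem_B.1 hx).2.1
      refine h (pt_mem_B.2 ⟨rfl, ?_⟩)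
      rw [← Cyl_eq h4, Cyl_eq h2]
      exact mem_Cyl_self d n
  · obtain ⟨m, hm⟩ := exists_avoid d (D := {r (δ i j), r (δ j i)}) (by simp)
    refine ⟨m, ?_⟩
    rw [Set.disjoint_left]
    rintro x (⟨e, he, rfl⟩ | ⟨z, h1, h2, h3, rfl⟩) hx
    · exact hij (pt_mem_B.1 hx).1
    · have h4 := (iso_mem_B.1 hx).1
      refine hm _ ?_ h3 h2
      rcases h1 with h1 | h1 <;> rcases h4 with h4 | h4
      · exact absurd (h1.symm.trans h4) hij
      · rw [h1, h4]
        exact Or.inr rfl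
      · rw [h1, h4]
        exact Or.inl rfl
      · exact absurd (h1.symm.trans h4) hij

theorem isTopologicalBasis : IsTopologicalBasis
    {U : Set (Sp δ r) | (∃ i c n, U = B δ r i c n) ∨ ∃ z, U = {iso δ r z}} := by
  refine isTopologicalBasis_of_isOpen_of_nhds ?_ ?_
  · rintro U (⟨i, c, n, rfl⟩ | ⟨z, rfl⟩)
    · exact isOpen_B i c n
    · exact isOpen_iso z
  · intro x U hx hU
    rcases cases_Sp x with ⟨i, c, rfl⟩ | ⟨z, rfl⟩
    · obtain ⟨n, hn⟩ := (isOpen_iff'.1 hU) i c hx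
      exact ⟨_, Or.inl ⟨i, c, n, rfl⟩, mem_B_self i c n, hn⟩
    · exact ⟨_, Or.inr ⟨z, rfl⟩, rfl, singleton_subset_iff.2 hx⟩

/-- the space is zero-dimensional -/
theorem exists_clopen_basis : ∃ 𝓑 : Set (Set (Sp δ r)), IsTopologicalBasis 𝓑 ∧
    ∀ U ∈ 𝓑, IsClopen U := by
  refine ⟨_, isTopologicalBasis, ?_⟩
  rintro U (⟨i, c, n, rfl⟩ | ⟨z, rfl⟩)
  · exact ⟨isClosed_B i c n, isOpen_B i c n⟩
  · exact ⟨isClosed_iso z, isOpen_iso z⟩

theorem hasBasis_pt (i : I) (c : C) :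
    (𝓝 (pt δ r i c)).HasBasis (fun _ : ℕ => True) (B δ r i c) := by
  constructor
  intro U
  constructor
  · intro h
    obtain ⟨V, hV, hVo, hx⟩ := mem_nhds_iff.1 h
    obtain ⟨n, hn⟩ := (isOpen_iff'.1 hVo) i c hx
    exact ⟨n, trivial, hn.trans hV⟩
  · rintro ⟨n, _, hn⟩
    exact mem_of_superset ((isOpen_B i c n).mem_nhds (mem_B_self i c n)) hn

instance : FirstCountableTopology (Sp δ r) where
  nhds_generated_countable := by
    intro x
    rcases cases_Sp x with ⟨i, c, rfl⟩ | ⟨z, rfl⟩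
    · exact (hasBasis_pt i c).isCountablyGenerated
    · rw [(isOpen_singleton_iff_nhds_eq_pure _).1 (isOpen_iso z)]
      infer_instance

theorem exists_clopen_sep {x y : Sp δ r} (h : x ≠ y) : ∃ U, IsClopen U ∧ x ∈ U ∧ y ∉ U := by
  rcases cases_Sp x with ⟨i, c, rfl⟩ | ⟨z, rfl⟩
  · rcases cases_Sp y with ⟨j, d, rfl⟩ | ⟨z, rfl⟩
    · by_cases hij : j = i
      · subst hij
        have hdc : d ≠ c := by
          rintro rfl
          exact h rfl
        obtain ⟨n, hn⟩ := exists_not_mem_Cyl hdc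
        exact ⟨B δ r j c n, ⟨isClosed_B j c n, isOpen_B j c n⟩, mem_B_self j c n,
          fun h' => hn (pt_mem_B.1 h').2⟩
      · exact ⟨B δ r i c 0, ⟨isClosed_B i c 0, isOpen_B i c 0⟩, mem_B_self i c 0,
          fun h' => hij (pt_mem_B.1 h').1⟩
    · obtain ⟨n, hn⟩ := exists_avoid c (D := {r (δ z.1 z.2)}) (by simp)
      exact ⟨B δ r i c n, ⟨isClosed_B i c n, isOpen_B i c n⟩, mem_B_self i c n,
        fun h' => hn _ rfl (iso_mem_B.1 h').2.2 (iso_mem_B.1 h').2.1⟩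
  · exact ⟨{iso δ r z}, ⟨isClosed_iso z, isOpen_iso z⟩, rfl, fun h' => h h'.symm⟩

instance : T2Space (Sp δ r) where
  t2 := by
    intro x y h
    obtain ⟨U, hU, hx, hy⟩ := exists_clopen_sep h
    exact ⟨U, Uᶜ, hU.2, hU.1.isOpen_compl, hx, hy, disjoint_compl_right⟩

/-- An open set containing the copy with number `i` contains all the isolated points attached to
this copy, with the exception of those attached at a finite set of points. -/
theorem exists_finite_except {i : I} {O : Set (Sp δ r)} (hO : IsOpen O)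
    (h : ∀ c, pt δ r i c ∈ O) :
    ∃ D : Set C, D.Finite ∧ ∀ z : I × I, (z.1 = i ∨ z.2 = i) → r (δ z.1 z.2) ∉ D →
      iso δ r z ∈ O := by
  choose n hn using fun c => isOpen_iff'.1 hO i c (h c)
  obtain ⟨t, ht⟩ := isCompact_univ.elim_finite_subcover (fun c => Cyl c (n c))
    (fun c => isOpen_Cyl c (n c)) (fun c _ => mem_iUnion.2 ⟨c, mem_Cyl_self c _⟩)
  refine ⟨t, t.finite_toSet, fun z hz hD => ?_⟩
  obtain ⟨c, hc, hz'⟩ := mem_iUnion₂.1 (ht (mem_univ (r (δ z.1 z.2))))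
  refine hn c (iso_mem_B.2 ⟨hz, hz', ?_⟩)
  intro h'
  rw [h'] at hD
  exact hD hc

/-- the space is metacompact -/
theorem metacompact (𝒰 : Set (Set (Sp δ r))) (hU : ∀ U ∈ 𝒰, IsOpen U) (hc : ⋃₀ 𝒰 = univ) :
    ∃ 𝒱 : Set (Set (Sp δ r)), (∀ V ∈ 𝒱, IsOpen V ∧ ∃ U ∈ 𝒰, V ⊆ U) ∧ ⋃₀ 𝒱 = univ ∧
      ∀ x, {V ∈ 𝒱 | x ∈ V}.Finite := by
  have h1 : ∀ x : Sp δ r, ∃ U ∈ 𝒰, x ∈ U := fun x => mem_sUnion.1 (hc ▸ mem_univ x)
  have h2 : ∀ i c, ∃ n, ∃ U ∈ 𝒰, B δ r i c n ⊆ U := by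
    intro i c
    obtain ⟨U, hU', hx⟩ := h1 (pt δ r i c)
    obtain ⟨n, hn⟩ := isOpen_iff'.1 (hU U hU') i c hx
    exact ⟨n, U, hU', hn⟩
  choose n hn using h2
  have h3 : ∀ i, ∃ t : Finset C, ∀ c, ∃ d ∈ t, c ∈ Cyl d (n i d) := by
    intro i
    obtain ⟨t, ht⟩ := isCompact_univ.elim_finite_subcover (fun c => Cyl c (n i c))
      (fun c => isOpen_Cyl c (n i c)) (fun c _ => mem_iUnion.2 ⟨c, mem_Cyl_self c _⟩)
    refine ⟨t, fun c => ?_⟩
    obtain ⟨d, hd, h⟩ := mem_iUnion₂.1 (ht (mem_univ c))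
    exact ⟨d, hd, h⟩
  choose t ht using h3
  let 𝒱 : Set (Set (Sp δ r)) := {V | (∃ i, ∃ d ∈ t i, V = B δ r i d (n i d)) ∨
    ∃ z, V = {iso δ r z}}
  have hfin : ∀ i, {V : Set (Sp δ r) | ∃ d ∈ t i, V = B δ r i d (n i d)}.Finite := by
    intro i
    have : {V : Set (Sp δ r) | ∃ d ∈ t i, V = B δ r i d (n i d)} =
        (fun d => B δ r i d (n i d)) '' (t i : Set C) := by
      ext V
      simp [eq_comm]
    rw [this]
    exact (t i).finite_toSet.image _
  refine ⟨𝒱, ?_, ?_, ?_⟩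
  · rintro V (⟨i, d, hd, rfl⟩ | ⟨z, rfl⟩)
    · exact ⟨isOpen_B _ _ _, hn i d⟩
    · obtain ⟨U, hU', hx⟩ := h1 (iso δ r z)
      exact ⟨isOpen_iso z, U, hU', singleton_subset_iff.2 hx⟩
  · rw [eq_univ_iff_forall]
    intro x
    rcases cases_Sp x with ⟨i, c, rfl⟩ | ⟨z, rfl⟩
    · obtain ⟨d, hd, h⟩ := ht i c
      exact ⟨_, Or.inl ⟨i, d, hd, rfl⟩, pt_mem_B.2 ⟨rfl, h⟩⟩
    · exact ⟨_, Or.inr ⟨z, rfl⟩, rfl⟩
  · intro x
    rcases cases_Sp x with ⟨i, c, rfl⟩ | ⟨z, rfl⟩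
    · refine (hfin i).subset ?_
      rintro V ⟨⟨j, d, hd, rfl⟩ | ⟨w, rfl⟩, hx⟩
      · obtain ⟨rfl, _⟩ := pt_mem_B.1 hx
        exact ⟨d, hd, rfl⟩
      · exact absurd hx pt_ne_iso
    · refine (((hfin z.1).union (hfin z.2)).union (finite_singleton {iso δ r z})).subset ?_
      rintro V ⟨⟨j, d, hd, rfl⟩ | ⟨w, rfl⟩, hx⟩
      · rcases (iso_mem_B.1 hx).1 with h | h
        · exact Or.inl (Or.inl ⟨d, h ▸ hd, by rw [h]⟩)
        · exact Or.inl (Or.inr ⟨d, h ▸ hd, by rw [h]⟩)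
      · refine Or.inr ?_
        rw [mem_singleton_iff, show iso δ r z = iso δ r w from hx]

/-- Two disjoint closed subsets of the Cantor set can be separated by a clopen set. -/
theorem exists_clopen {S T : Set C} (hS : IsClosed S) (hT : IsClosed T) (h : Disjoint S T) :
    ∃ U : Set C, IsClopen U ∧ S ⊆ U ∧ Disjoint U T := by
  have h1 : ∀ c ∈ S, ∃ n, Cyl c n ⊆ Tᶜ := fun c hc =>
    exists_Cyl_subset hT.isOpen_compl (fun h' => Set.disjoint_left.1 h hc h')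
  choose! n hn using h1
  obtain ⟨t, ht, ht'⟩ := hS.isCompact.elim_nhds_subcover (fun c => Cyl c (n c))
    (fun c _ => (isOpen_Cyl c (n c)).mem_nhds (mem_Cyl_self c _))
  refine ⟨⋃ c ∈ t, Cyl c (n c), ?_, ht', ?_⟩
  · refine isClopen_biUnion_finset fun c _ => ⟨?_, isOpen_Cyl _ _⟩
    rw [← isOpen_compl_iff, isOpen_iff_mem_nhds]
    intro d hd
    refine mem_of_superset ((isOpen_Cyl d (n c)).mem_nhds (mem_Cyl_self d _)) ?_
    intro e he he'
    apply hd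
    rw [← Cyl_eq he', Cyl_eq he]
    exact mem_Cyl_self d _
  · rw [Set.disjoint_left]
    intro d hd hd'
    obtain ⟨c, hc, hd⟩ := mem_iUnion₂.1 hd
    exact hn c (ht c hc) hd hd'

end

end Pool.Agent.R827.SN
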