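import Pool.Agent.R827.SN1

/-!
# The space is subnormal, but not subparacompact
-/

set_option autoImplicit false

namespace Pool.Agent.R827.SN

open Set Topology Filter TopologicalSpace

section
variable {I W : Type} [LinearOrder W] {δ : I → I → W} {r : W → C}

theorem isClosed_trace {F : Set (Sp δ r)} (hF : IsClosed F) (i : I) :
    IsClosed {c : C | pt δ r i c ∈ F} := by
  rw [← isOpen_compl_iff, isOpen_iff_mem_nhds]
  intro c hc
  obtain ⟨n, hn⟩ := isClosed_iff'.1 hF i c hc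
  refine mem_of_superset ((isOpen_Cyl c n).mem_nhds (mem_Cyl_self c _)) ?_
  intro d hd hd'
  exact Set.disjoint_left.1 hn (pt_mem_B.2 ⟨rfl, hd⟩) hd'

/-- the open sets whose intersection is a `G_δ`-set around a closed set -/
def On (T S : Set (Sp δ r)) (K : I → Set C) (f : I → ℕ → C) (n : ℕ) : Set (Sp δ r) :=
  {x | x ∉ T ∧ ((∃ i c, x = pt δ r i c ∧ c ∈ K i) ∨ ∃ z : I × I, x = iso δ r z ∧ (x ∈ S ∨
    ∃ i, (z.1 = i ∨ z.2 = i) ∧ r (δ z.1 z.2) ∈ K i ∧ ∀ m < n, r (δ z.1 z.2) ≠ f i m))}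

theorem isOpen_On {T S : Set (Sp δ r)} (hT : IsClosed T) {K : I → Set C}
    (hK : ∀ i, IsOpen (K i)) (f : I → ℕ → C) (n : ℕ) : IsOpen (On T S K f n) := by
  rw [isOpen_iff']
  rintro i c ⟨hcT, ⟨j, d, h1, hc⟩ | ⟨z, h1, _⟩⟩
  · obtain ⟨rfl, rfl⟩ := pt_inj.1 h1
    obtain ⟨n1, hn1⟩ := isClosed_iff'.1 hT i c hcT
    obtain ⟨n2, hn2⟩ := exists_Cyl_subset (hK i) hc
    obtain ⟨n3, hn3⟩ := exists_avoid c (D := f i '' {m | m < n}) ((finite_lt_nat n).image _)
    refine ⟨max n1 (max n2 n3), ?_⟩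
    intro x hx
    refine ⟨fun hxT => Set.disjoint_left.1 hn1 (B_anti i c (le_max_left _ _) hx) hxT, ?_⟩
    have hle2 : n2 ≤ max n1 (max n2 n3) := (le_max_left _ _).trans (le_max_right _ _)
    have hle3 : n3 ≤ max n1 (max n2 n3) := (le_max_right _ _).trans (le_max_right _ _)
    rcases hx with ⟨d, hd, rfl⟩ | ⟨z, hz1, hz2, hz3, rfl⟩
    · exact Or.inl ⟨i, d, rfl, hn2 (Cyl_anti c hle2 hd)⟩
    · refine Or.inr ⟨z, rfl, Or.inr ⟨i, hz1, hn2 (Cyl_anti c hle2 hz2), ?_⟩⟩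
      intro m hm h4
      exact hn3 _ ⟨m, hm, h4.symm⟩ hz3 (Cyl_anti c hle3 hz2)
  · exact absurd h1 pt_ne_iso

/-- The hypotheses on the function `δ`: every partition of `I` into two sets can be separated by a
function, but not all elements of `I` simultaneously. -/
structure Good (δ : I → I → W) : Prop where
  bdd : ∀ s : ℕ → W, ∃ b, ∀ n, s n < b
  ctb : ∀ b : W, (Iio b).Countable
  cut : ∀ A : Set I, ∃ P : I → W, ∀ i ∈ A, ∀ j, j ∉ A →
    δ i j < max (P i) (P j) ∧ δ j i < max (P i) (P j)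
  nk : ∀ P : I → W, ∃ i j, i ≠ j ∧ max (P i) (P j) ≤ δ i j

theorem subnormal (hG : Good δ) (S T : Set (Sp δ r)) (hS : IsClosed S)
    (hT : IsClosed T) (hST : Disjoint S T) :
    ∃ E F : Set (Sp δ r), IsGδ E ∧ IsGδ F ∧ S ⊆ E ∧ T ⊆ F ∧ Disjoint E F := by
  classical
  have h1 : ∀ i, ∃ U : Clopens C, {c : C | pt δ r i c ∈ S} ⊆ U ∧
      Disjoint (U : Set C) {c : C | pt δ r i c ∈ T} := by
    intro i
    obtain ⟨U, hU, h2, h3⟩ := exists_clopen (isClosed_trace hS i) (isClosed_trace hT i)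
      (Set.disjoint_left.2 fun c hc hc' => Set.disjoint_left.1 hST hc hc')
    exact ⟨⟨U, hU⟩, h2, h3⟩
  choose κ hκ1 hκ2 using h1
  choose PK hPK using fun K : Clopens C => hG.cut {i | κ i = K}
  have hcount : Countable (Clopens C) :=
    Clopens.countable_iff_secondCountable.2 inferInstance
  obtain ⟨en, hen⟩ := exists_surjective_nat (Clopens C)
  have h2 : ∀ i, ∃ b, ∀ K, PK K i < b := by
    intro i
    obtain ⟨b, hb⟩ := hG.bdd fun n => PK (en n) i
    refine ⟨b, fun K => ?_⟩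
    obtain ⟨n, rfl⟩ := hen K
    exact hb n
  choose P hP using h2
  have h3 : ∀ i, ∃ f : ℕ → C, r '' Iio (P i) ⊆ range f := by
    intro i
    rcases (r '' Iio (P i)).eq_empty_or_nonempty with h | h
    · exact ⟨fun _ _ => true, by rw [h]; exact empty_subset _⟩
    · obtain ⟨f, hf⟩ := ((hG.ctb (P i)).image r).exists_eq_range h
      exact ⟨f, hf.le⟩
  choose f hf using h3
  refine ⟨⋂ n, On T S (fun i => κ i) f n, ⋂ n, On S T (fun i => (κ i : Set C)ᶜ) f n,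
    IsGδ.iInter_of_isOpen fun n => isOpen_On hT (fun i => (κ i).isClopen.isOpen) f n,
    IsGδ.iInter_of_isOpen fun n => isOpen_On hS
      (fun i => (κ i).isClopen.isClosed.isOpen_compl) f n, ?_, ?_, ?_⟩
  · intro x hx
    rw [mem_iInter]
    intro n
    refine ⟨fun h => Set.disjoint_left.1 hST hx h, ?_⟩
    rcases cases_Sp x with ⟨i, c, rfl⟩ | ⟨z, rfl⟩
    · exact Or.inl ⟨i, c, rfl, hκ1 i hx⟩
    · exact Or.inr ⟨z, rfl, Or.inl hx⟩
  · intro x hx
    rw [mem_iInter]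
    intro n
    refine ⟨fun h => Set.disjoint_left.1 hST h hx, ?_⟩
    rcases cases_Sp x with ⟨i, c, rfl⟩ | ⟨z, rfl⟩
    · exact Or.inl ⟨i, c, rfl, fun h => Set.disjoint_left.1 (hκ2 i) h hx⟩
    · exact Or.inr ⟨z, rfl, Or.inl hx⟩
  · rw [Set.disjoint_left]
    intro x hx hx'
    rw [mem_iInter] at hx hx'
    rcases cases_Sp x with ⟨i, c, rfl⟩ | ⟨z, rfl⟩
    · rcases (hx 0).2 with ⟨j, d, h4, h5⟩ | ⟨z, h4, _⟩
      · obtain ⟨rfl, rfl⟩ := pt_inj.1 h4
        rcases (hx' 0).2 with ⟨k, e, h6, h7⟩ | ⟨z, h6, _⟩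
        · obtain ⟨rfl, rfl⟩ := pt_inj.1 h6
          exact h7 h5
        · exact pt_ne_iso h6
      · exact pt_ne_iso h4
    · have key : ∀ n, ∃ i, (z.1 = i ∨ z.2 = i) ∧ r (δ z.1 z.2) ∈ κ i ∧
          ∀ m < n, r (δ z.1 z.2) ≠ f i m := by
        intro n
        rcases (hx n).2 with ⟨j, d, h4, _⟩ | ⟨w, h4, h5⟩
        · exact absurd h4.symm pt_ne_iso
        · obtain rfl := iso_inj.1 h4
          rcases h5 with h5 | h5
          · exact absurd h5 (hx' 0).1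
          · exact h5
      have key' : ∀ n, ∃ i, (z.1 = i ∨ z.2 = i) ∧ r (δ z.1 z.2) ∉ κ i ∧
          ∀ m < n, r (δ z.1 z.2) ≠ f i m := by
        intro n
        rcases (hx' n).2 with ⟨j, d, h4, _⟩ | ⟨w, h4, h5⟩
        · exact absurd h4.symm pt_ne_iso
        · obtain rfl := iso_inj.1 h4
          rcases h5 with h5 | h5
          · exact absurd h5 (hx 0).1
          · exact h5
      obtain ⟨i, hi, hi1, _⟩ := key 0
      obtain ⟨j, hj, hj1, _⟩ := key' 0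
      have hij : i ≠ j := by
        rintro rfl
        exact hj1 hi1
      have hboth : ∀ k, (z.1 = k ∨ z.2 = k) → k = i ∨ k = j := by
        intro k hk
        rcases hi with hi | hi <;> rcases hj with hj | hj <;> rcases hk with hk | hk
        · exact Or.inl (hk.symm.trans hi)
        · exact absurd (hi.symm.trans hj) hij
        · exact Or.inl (hk.symm.trans hi)
        · exact Or.inr (hk.symm.trans hj)
        · exact Or.inr (hk.symm.trans hj)
        · exact Or.inl (hk.symm.trans hi)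
        · exact absurd (hi.symm.trans hj) hij
        · exact Or.inl (hk.symm.trans hi)
      have hi2 : ∀ n, ∀ m < n, r (δ z.1 z.2) ≠ f i m := by
        intro n
        obtain ⟨k, hk, hk1, hk2⟩ := key n
        rcases hboth k hk with rfl | rfl
        · exact hk2
        · exact absurd hk1 hj1
      have hj2 : ∀ n, ∀ m < n, r (δ z.1 z.2) ≠ f j m := by
        intro n
        obtain ⟨k, hk, hk1, hk2⟩ := key' n
        rcases hboth k hk with rfl | rfl
        · exact absurd hi1 hk1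
        · exact hk2
      have hlt : δ z.1 z.2 < max (P i) (P j) := by
        have h5 := hPK (κ i) i rfl j (fun h : κ j = κ i => hj1 (h ▸ hi1))
        have h6 : max (PK (κ i) i) (PK (κ i) j) ≤ max (P i) (P j) :=
          max_le_max (hP i _).le (hP j _).le
        rcases hi with hi | hi <;> rcases hj with hj | hj
        · exact absurd (hi.symm.trans hj) hij
        · rw [hi, hj]
          exact h5.1.trans_le h6
        · rw [hi, hj]
          exact h5.2.trans_le h6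
        · exact absurd (hi.symm.trans hj) hij
      rcases lt_max_iff.1 hlt with h | h
      · obtain ⟨m, hm⟩ := hf i ⟨_, h, rfl⟩
        exact hi2 (m + 1) m (Nat.lt_succ_self m) hm.symm
      · obtain ⟨m, hm⟩ := hf j ⟨_, h, rfl⟩
        exact hj2 (m + 1) m (Nat.lt_succ_self m) hm.symm

/-- the cover by the copies with the isolated points attached to them, and the single points -/
def cov (δ : I → I → W) (r : W → C) : Set (Set (Sp δ r)) :=
  {U | (∃ i, U = {x | (∃ c, x = pt δ r i c) ∨ ∃ z : I × I, (z.1 = i ∨ z.2 = i) ∧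
    x = iso δ r z}) ∨ ∃ z, U = {iso δ r z}}

theorem isOpen_cov : ∀ U ∈ cov δ r, IsOpen U := by
  rintro U (⟨i, rfl⟩ | ⟨z, rfl⟩)
  · rw [isOpen_iff']
    rintro j c (⟨d, hd⟩ | ⟨z, _, hz⟩)
    · obtain ⟨rfl, _⟩ := pt_inj.1 hd
      refine ⟨0, ?_⟩
      rintro x (⟨e, he, rfl⟩ | ⟨z, h1, h2, h3, rfl⟩)
      · exact Or.inl ⟨e, rfl⟩
      · exact Or.inr ⟨z, h1, rfl⟩
    · exact absurd hz pt_ne_iso
  · exact isOpen_iso z

theorem sUnion_cov : ⋃₀ cov δ r = univ := by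
  rw [eq_univ_iff_forall]
  intro x
  rcases cases_Sp x with ⟨i, c, rfl⟩ | ⟨z, rfl⟩
  · exact ⟨_, Or.inl ⟨i, rfl⟩, Or.inl ⟨c, rfl⟩⟩
  · exact ⟨_, Or.inr ⟨z, rfl⟩, rfl⟩

theorem cov_unique {U : Set (Sp δ r)} (hU : U ∈ cov δ r) {i j : I} {c d : C}
    (hi : pt δ r i c ∈ U) (hj : pt δ r j d ∈ U) : i = j := by
  rcases hU with ⟨k, rfl⟩ | ⟨z, rfl⟩
  · rcases hi with ⟨e, he⟩ | ⟨z, _, hz⟩
    · rcases hj with ⟨g, hg⟩ | ⟨z, _, hz⟩
      · rw [(pt_inj.1 he).1, (pt_inj.1 hg).1]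
      · exact absurd hz pt_ne_iso
    · exact absurd hz pt_ne_iso
  · exact absurd hi pt_ne_iso

theorem not_subparacompact (hG : Good δ) (hr : Function.Injective r) :
    ¬ ∃ 𝒱 : ℕ → Set (Set (Sp δ r)),
      (∀ n, ∀ V ∈ 𝒱 n, IsClosed V ∧ ∃ U ∈ cov δ r, V ⊆ U) ∧
      (∀ n x, ∃ O, IsOpen O ∧ x ∈ O ∧ {V ∈ 𝒱 n | (O ∩ V).Nonempty}.Subsingleton) ∧
      ∀ x, ∃ n, ∃ V ∈ 𝒱 n, x ∈ V := by
  rintro ⟨𝒱, h1, h2, h3⟩
  -- the open neighbourhoods of the copies
  let O : I → ℕ → Set (Sp δ r) := fun i n =>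
    {x | ∀ V ∈ 𝒱 n, x ∈ V → ∃ c, pt δ r i c ∈ V}
  have hO : ∀ i n, IsOpen (O i n) := by
    intro i n
    rw [isOpen_iff_mem_nhds]
    intro x hx
    obtain ⟨G, hG', hxG, hsub⟩ := h2 n x
    by_cases hex : ∃ V ∈ 𝒱 n, (G ∩ V).Nonempty ∧ x ∉ V
    · obtain ⟨V, hV, hGV, hxV⟩ := hex
      refine mem_of_superset ((hG'.inter (h1 n V hV).1.isOpen_compl).mem_nhds ⟨hxG, hxV⟩) ?_
      rintro y ⟨hyG, hyV⟩ V' hV' hyV'
      have : V' = V := hsub ⟨hV', y, hyG, hyV'⟩ ⟨hV, hGV⟩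
      exact absurd (this ▸ hyV') hyV
    · push Not at hex
      refine mem_of_superset (hG'.mem_nhds hxG) ?_
      intro y hyG V hV hyV
      exact hx V hV (hex V hV ⟨y, hyG, hyV⟩)
  have hOpt : ∀ i n c, pt δ r i c ∈ O i n := fun i n c V _ hc => ⟨c, hc⟩
  choose D hD1 hD2 using fun i n => exists_finite_except (hO i n) (hOpt i n)
  have h4 : ∀ i, ∃ b : W, ∀ w, r w ∈ ⋃ n, D i n → w < b := by
    intro i
    have hc : {w | r w ∈ ⋃ n, D i n}.Countable :=
      (countable_iUnion fun n => (hD1 i n).countable).preimage hr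
    rcases {w | r w ∈ ⋃ n, D i n}.eq_empty_or_nonempty with h | h
    · obtain ⟨i', j', _⟩ := hG.nk fun i => (hG.bdd (fun _ => δ i i)).choose
      refine ⟨δ i i, fun w hw => ?_⟩
      have : w ∈ ({w | r w ∈ ⋃ n, D i n} : Set W) := hw
      rw [h] at this
      exact absurd this (notMem_empty w)
    · obtain ⟨s, hs⟩ := hc.exists_eq_range h
      obtain ⟨b, hb⟩ := hG.bdd s
      refine ⟨b, fun w hw => ?_⟩
      have hw' : w ∈ ({w | r w ∈ ⋃ n, D i n} : Set W) := hw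
      rw [hs] at hw'
      obtain ⟨n, rfl⟩ := hw'
      exact hb n
  choose P hP using h4
  obtain ⟨i, j, hij, hle⟩ := hG.nk P
  obtain ⟨n, V, hV, hxV⟩ := h3 (iso δ r (i, j))
  have hi : ∃ c, pt δ r i c ∈ V := by
    refine hD2 i n (i, j) (Or.inl rfl) (fun hmem => ?_) V hV hxV
    exact absurd (hP i (δ i j) (mem_iUnion.2 ⟨n, hmem⟩)) (not_lt.2 ((le_max_left _ _).trans hle))
  have hj : ∃ c, pt δ r j c ∈ V := by
    refine hD2 j n (i, j) (Or.inr rfl) (fun hmem => ?_) V hV hxV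
    exact absurd (hP j (δ i j) (mem_iUnion.2 ⟨n, hmem⟩)) (not_lt.2 ((le_max_right _ _).trans hle))
  obtain ⟨c, hc⟩ := hi
  obtain ⟨d, hd⟩ := hj
  obtain ⟨U, hU, hVU⟩ := (h1 n V hV).2
  exact hij (cov_unique hU (hVU hc) (hVU hd))

end

end Pool.Agent.R827.SN
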