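import Pool.Agent.R827.SN2
import Pool.Agent.Helper669.Forcing

/-!
# The combinatorial principle, and the sentence of the forcing language which expresses it
-/

set_option autoImplicit false

namespace Pool.Agent.R827.SN

open Set Topology Filter TopologicalSpace Cardinal
open Pool.Agent.Helper669.Forcing (fnot fand fall fimp fex fground meets IsFun)

/-- `R` is the graph of a function from `X` to `Y`. -/
def Fun {X Y : Type} (R : X → Y → Prop) : Prop :=
  (∀ x, ∃ y, R x y) ∧ ∀ x y y', R x y → R x y' → y = y'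

/-- The principle for the set `I` and the linearly ordered set `W`:
(1) no map from `I` to the power set of `ℕ` is injective, i.e. `|I|` is larger than the continuum;
(2)-(4) `W` is well-ordered, all its proper initial segments are countable, and all its countable
subsets are bounded, so `W` is a copy of `ω₁`;
(5) there are subsets `F i` of `W`, `i ∈ I`, such that for every `A ⊆ I` there is a function
`R : I → W` such that for all `i ∈ A` and `j ∈ I ∖ A` the sets `F i` and `F j` differ at some
`β < max (R i) (R j)`. In other words, the subspace `{F i : i ∈ I}` of the space of all subsets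
of `ω₁` with the topology generated by all initial segments of subsets is a generalised `Q`-set:
all its subsets are unions of `ω₁` closed sets. -/
def Principle (I W : Type) [LinearOrder W] : Prop :=
  (∀ S : I → ℕ → Prop, ∃ i j, i ≠ j ∧ ∀ n, (S i n ↔ S j n)) ∧
  (∀ S : W → Prop, (∃ x, S x) → ∃ x, S x ∧ ∀ y, y < x → ¬ S y) ∧
  (∀ b : W, ∃ R : ℕ → W → Prop, Fun R ∧ ∀ x, x < b → ∃ n, R n x) ∧
  (∀ R : ℕ → W → Prop, Fun R → ∃ b, ∀ n x, R n x → x < b) ∧
  ∃ F : I → W → Prop, ∀ A : I → Prop, ∃ R : I → W → Prop, Fun R ∧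
    ∀ i j ρ σ, A i → ¬ A j → R i ρ → R j σ → ∃ β, (β < ρ ∨ β < σ) ∧ ¬ (F i β ↔ F j β)

section
variable {P : Type} [Preorder P]

/-- `φ if and only if ψ`. -/
def fiff (φ ψ : Set P) : Set P := fand (fimp φ ψ) (fimp ψ φ)

end

/-- The sentence of the forcing language which expresses `Principle I W`: a literal translation, in
which the quantifiers over relations and sets have become quantifiers over names. -/
def PrincipleHolds (P I W : Type) [Preorder P] [LinearOrder W] : Set P :=
  fand (fall fun S : I → ℕ → Set P => fex fun i => fex fun j =>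
      fand (fground (i ≠ j)) (fall fun n => fiff (meets (S i n)) (meets (S j n)))) <|
  fand (fall fun S : W → Set P => fimp (fex fun x => meets (S x))
      (fex fun x => fand (meets (S x))
        (fall fun y => fimp (fground (y < x)) (fnot (meets (S y)))))) <|
  fand (fall fun b : W => fex fun R : ℕ → W → Set P => fand (IsFun R)
      (fall fun x => fimp (fground (x < b)) (fex fun n => meets (R n x)))) <|
  fand (fall fun R : ℕ → W → Set P => fimp (IsFun R)
      (fex fun b => fall fun n => fall fun x => fimp (meets (R n x)) (fground (x < b)))) <|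
  fex fun F : I → W → Set P => fall fun A : I → Set P => fex fun R : I → W → Set P =>
    fand (IsFun R) (fall fun i => fall fun j => fall fun ρ => fall fun σ =>
      fimp (meets (A i)) (fimp (fnot (meets (A j))) (fimp (meets (R i ρ)) (fimp (meets (R j σ))
        (fex fun β => fand (fground (β < ρ ∨ β < σ))
          (fnot (fiff (meets (F i β)) (meets (F j β)))))))))

theorem mk_le_aleph_one {W : Type} [LinearOrder W] (h : ∀ b : W, (Iio b).Countable) :
    #W ≤ ℵ₁ := by
  by_contra hc
  push Not at hc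
  obtain ⟨S, hS⟩ := le_mk_iff_exists_set.1 hc.le
  have h1 : (univ : Set W) ⊆ ⋃ s : S, Iio (s : W) := by
    intro b _
    by_contra hb
    have h2 : S ⊆ insert b (Iio b) := by
      intro s hs
      by_contra hsb
      apply hb
      rw [mem_insert_iff, mem_Iio, not_or] at hsb
      exact mem_iUnion.2 ⟨⟨s, hs⟩, lt_of_le_of_ne (not_lt.1 hsb.2) (Ne.symm hsb.1)⟩
    have h3 := (((h b).insert b).mono h2)
    rw [← le_aleph0_iff_set_countable, hS] at h3
    exact absurd aleph0_lt_aleph_one (not_lt.2 h3)
  have h4 : #W ≤ ℵ₁ := by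
    rw [← mk_univ]
    refine (mk_le_mk_of_subset h1).trans ?_
    refine (mk_iUnion_le_sum_mk.trans (sum_le_mk_mul_iSup _)).trans ?_
    refine mul_le_of_le aleph0_lt_aleph_one.le hS.le ?_
    exact ciSup_le' fun s => (le_aleph0_iff_set_countable.2 (h _)).trans aleph0_lt_aleph_one.le
  exact absurd hc (not_lt.2 h4)

theorem exists_inj {W : Type} [LinearOrder W] (h : ∀ b : W, (Iio b).Countable) :
    ∃ r : W → C, Function.Injective r := by
  have h1 : #W ≤ #C := by
    refine (mk_le_aleph_one h).trans ?_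
    have : #C = 𝔠 := by simp
    rw [this]
    exact aleph_one_le_continuum
  obtain ⟨f⟩ := h1
  exact ⟨f, f.injective⟩

theorem exists_good {I W : Type} [LinearOrder W] (h : Principle I W) :
    ∃ (δ : I → I → W) (r : W → C), Good δ ∧ Function.Injective r := by
  classical
  obtain ⟨h1, h2, h3, h4, F, hF⟩ := h
  have hctb : ∀ b : W, (Iio b).Countable := by
    intro b
    obtain ⟨R, hR, hb⟩ := h3 b
    choose g hg using hR.1
    refine (countable_range g).mono ?_
    intro x hx
    obtain ⟨n, hn⟩ := hb x hx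
    exact ⟨n, hR.2 n _ _ (hg n) hn⟩
  obtain ⟨r, hr⟩ := exists_inj hctb
  have hbdd : ∀ s : ℕ → W, ∃ b, ∀ n, s n < b := by
    intro s
    obtain ⟨b, hb⟩ := h4 (fun n x => s n = x) ⟨fun n => ⟨_, rfl⟩, fun n x y hx hy => hx ▸ hy⟩
    exact ⟨b, fun n => hb n _ rfl⟩
  have hcut : ∀ A : Set I, ∃ Q : I → W, ∀ i ∈ A, ∀ j, j ∉ A →
      ∃ β, β < max (Q i) (Q j) ∧ ¬ (F i β ↔ F j β) := by
    intro A
    obtain ⟨R, hR, hA⟩ := hF (fun i => i ∈ A)
    choose Q hQ using hR.1
    refine ⟨Q, fun i hi j hj => ?_⟩
    obtain ⟨β, hβ, hne⟩ := hA i j _ _ hi hj (hQ i) (hQ j)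
    exact ⟨β, lt_max_iff.2 hβ, hne⟩
  obtain ⟨i0, j0, hij0, _⟩ := h1 (fun _ _ => True)
  have hdiff : ∀ i j, i ≠ j → ∃ β, ¬ (F i β ↔ F j β) := by
    intro i j hij
    obtain ⟨Q, hQ⟩ := hcut {i}
    obtain ⟨β, _, h⟩ := hQ i rfl j (fun h => hij h.symm)
    exact ⟨β, h⟩
  have hleast : ∀ i j, i ≠ j → ∃ β, ¬ (F i β ↔ F j β) ∧ ∀ γ, γ < β → (F i γ ↔ F j γ) := by
    intro i j hij
    obtain ⟨β, h, h'⟩ := h2 (fun β => ¬ (F i β ↔ F j β)) (hdiff i j hij)
    exact ⟨β, h, fun γ hγ => not_not.1 (h' γ hγ)⟩
  obtain ⟨w0, _⟩ := hdiff i0 j0 hij0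
  let δ : I → I → W := fun i j => if h : i ≠ j then (hleast i j h).choose else w0
  have hδ : ∀ i j, i ≠ j → ¬ (F i (δ i j) ↔ F j (δ i j)) ∧ ∀ γ, γ < δ i j → (F i γ ↔ F j γ) := by
    intro i j hij
    have : δ i j = (hleast i j hij).choose := dif_pos hij
    rw [this]
    exact (hleast i j hij).choose_spec
  refine ⟨δ, r, ⟨hbdd, hctb, ?_, ?_⟩, hr⟩
  · intro A
    obtain ⟨Q, hQ⟩ := hcut A
    refine ⟨Q, fun i hi j hj => ?_⟩
    have hij : i ≠ j := by
      rintro rfl
      exact hj hi
    obtain ⟨β, hβ, hne⟩ := hQ i hi j hj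
    constructor
    · refine lt_of_le_of_lt ?_ hβ
      by_contra hlt
      exact hne ((hδ i j hij).2 β (not_le.1 hlt))
    · refine lt_of_le_of_lt ?_ hβ
      by_contra hlt
      exact hne ((hδ j i hij.symm).2 β (not_le.1 hlt)).symm
  · intro Q
    have hen : ∀ i, ∃ f : ℕ → W, ∀ β, β < Q i → ∃ n, f n = β := by
      intro i
      rcases (Iio (Q i)).eq_empty_or_nonempty with he | he
      · refine ⟨fun _ => w0, fun β hβ => ?_⟩
        have : β ∈ Iio (Q i) := hβ
        rw [he] at this
        exact absurd this (notMem_empty β)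
      · obtain ⟨f, hf⟩ := (hctb (Q i)).exists_eq_range he
        refine ⟨f, fun β hβ => ?_⟩
        have : β ∈ Iio (Q i) := hβ
        rw [hf] at this
        exact this
    have hen' : ∀ γ : W, ∃ f : ℕ → W, ∀ β, β < γ → ∃ n, f n = β := by
      intro γ
      rcases (Iio γ).eq_empty_or_nonempty with he | he
      · refine ⟨fun _ => w0, fun β hβ => ?_⟩
        have : β ∈ Iio γ := hβ
        rw [he] at this
        exact absurd this (notMem_empty β)
      · obtain ⟨f, hf⟩ := (hctb γ).exists_eq_range he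
        refine ⟨f, fun β hβ => ?_⟩
        have : β ∈ Iio γ := hβ
        rw [hf] at this
        exact this
    choose e he using hen'
    obtain ⟨i, j, hij, hS⟩ := h1 (fun i n => (n % 2 = 0 ∧ r (Q i) (n / 2) = true) ∨
      (n % 2 = 1 ∧ F i (e (Q i) (n / 2))))
    refine ⟨i, j, hij, ?_⟩
    have h5 : r (Q i) = r (Q j) := by
      funext n
      have h6 := hS (2 * n)
      have h7 : (2 * n) % 2 = 0 := by omega
      have h8 : (2 * n) / 2 = n := by omega
      simp only [h7, h8, true_and, zero_ne_one, false_and, or_false] at h6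
      exact Bool.eq_iff_iff.2 h6
    have h9 : Q i = Q j := hr h5
    have h10 : ∀ β, β < Q i → (F i β ↔ F j β) := by
      intro β hβ
      obtain ⟨n, rfl⟩ := he (Q i) β hβ
      have h6 := hS (2 * n + 1)
      have h7 : (2 * n + 1) % 2 = 1 := by omega
      have h8 : (2 * n + 1) / 2 = n := by omega
      simp only [h7, h8, true_and, one_ne_zero, false_and, false_or] at h6
      rw [h6, h9]
    rw [← h9, max_self]
    by_contra hlt
    exact (hδ i j hij).1 (h10 _ (not_le.1 hlt))

end Pool.Agent.R827.SN
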