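import Pool.Agent.R827.SN3

/-!
# A weak form of the Delta-system lemma
-/

set_option autoImplicit false

namespace Pool.Agent.R827.SN

open Set Cardinal

/-- the labels of the nodes of the trees which generate a closed set -/
def Lab (Ty J : Type) : Type := Ty × Set J × J

/-- the set of the children of a node -/
def Ar {Ty J : Type} (x : Lab Ty J) : Type := ↥x.2.1

theorem mk_tree_le {Ty J : Type} [Countable J] (hTy : #Ty ≤ 𝔠) :
    #(WType (Ar (Ty := Ty) (J := J))) ≤ 𝔠 := by
  refine WType.cardinalMk_le_of_le ?_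
  have hJ : #J ≤ ℵ₀ := mk_le_aleph0
  have h1 : ∀ a : Lab Ty J, 𝔠 ^ #(Ar a) ≤ 𝔠 := by
    intro a
    have h2 : #(Ar a) ≤ ℵ₀ := (mk_subtype_le _).trans hJ
    calc (𝔠 : Cardinal.{0}) ^ #(Ar a) ≤ 𝔠 ^ ℵ₀ := power_le_power_left continuum_ne_zero h2
      _ = 𝔠 := continuum_power_aleph0
  have h3 : #(Lab Ty J) ≤ 𝔠 := by
    have h4 : #(Set J) ≤ 𝔠 := by
      rw [mk_set]
      exact power_le_power_left two_ne_zero hJ
    have h5 : #(Lab Ty J) = #Ty * (#(Set J) * #J) := by
      change #(Ty × Set J × J) = _
      rw [mk_prod, mk_prod, lift_id, lift_id, lift_id, lift_id]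
    rw [h5]
    exact mul_le_of_le aleph0_le_continuum hTy
      (mul_le_of_le aleph0_le_continuum h4 (hJ.trans aleph0_le_continuum))
  refine (sum_le_mk_mul_iSup _).trans ?_
  exact mul_le_of_le aleph0_le_continuum h3 (ciSup_le' h1)

/-- Given more than `𝔠` sequences (indexed by a countable set `J`) with `𝔠` types, there are two of
the same type such that all common terms appear at the same place. -/
theorem delta_aux {K T Ty J : Type} [Countable J] [Nonempty T] (hTy : #Ty ≤ 𝔠) (hK : 𝔠 < #K)
    (u : K → J → T) (τ : K → Ty) :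
    ∃ k l, k ≠ l ∧ τ k = τ l ∧ ∀ a b, u k a = u l b → u l a = u k a := by
  classical
  have hKne : Nonempty K := by
    rw [← mk_ne_zero_iff]
    exact (bot_le.trans_lt hK).ne'
  -- choose a sequence of type `t` extending the partial sequence `g`
  let Ext : Ty → (J → Option T) → K → Prop := fun t g l =>
    τ l = t ∧ ∀ a x, g a = some x → u l a = x
  let ch : Ty → (J → Option T) → K := fun t g =>
    if h : ∃ l, Ext t g l then h.choose else Classical.arbitrary K
  have hch : ∀ t g, (∃ l, Ext t g l) → Ext t g (ch t g) := by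
    intro t g h
    have : ch t g = h.choose := dif_pos h
    rw [this]
    exact h.choose_spec
  let ev : WType (Ar (Ty := Ty) (J := J)) → T := WType.elim T fun x =>
    u (ch x.1.1 (fun a => if h : a ∈ x.1.2.1 then some (x.2 ⟨a, h⟩) else none)) x.1.2.2
  have hev : ∀ (x : Lab Ty J) (f : Ar x → WType (Ar (Ty := Ty) (J := J))),
      ev ⟨x, f⟩ = u (ch x.1 (fun a => if h : a ∈ x.2.1 then some (ev (f ⟨a, h⟩)) else none))
        x.2.2 := fun x f => rfl
  let M : Set T := range ev
  have hM : #M ≤ 𝔠 := mk_range_le.trans (mk_tree_le hTy)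
  let L : Set K := range fun y : Ty × (J → Option M) =>
    ch y.1 (fun a => (y.2 a).map Subtype.val)
  have hL : #L ≤ 𝔠 := by
    refine mk_range_le.trans ?_
    have h1 : #(J → Option M) ≤ 𝔠 := by
      have h2 : #(Option M) ≤ 𝔠 := by
        rw [mk_option]
        exact add_le_of_le aleph0_le_continuum hM (one_le_aleph0.trans aleph0_le_continuum)
      calc #(J → Option M) = #(Option M) ^ #J := by simp
        _ ≤ 𝔠 ^ ℵ₀ := (power_le_power_right h2).trans
            (power_le_power_left continuum_ne_zero mk_le_aleph0)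
        _ = 𝔠 := continuum_power_aleph0
    rw [mk_prod, lift_id, lift_id]
    exact mul_le_of_le aleph0_le_continuum hTy h1
  obtain ⟨k, hk⟩ : ∃ k, k ∉ L := by
    by_contra hc
    push Not at hc
    have h1 : (univ : Set K) ⊆ L := fun k _ => hc k
    have h2 := mk_le_mk_of_subset h1
    rw [mk_univ] at h2
    exact absurd hK (not_lt.2 (h2.trans hL))
  let D : Set J := {a | u k a ∈ M}
  let g : J → Option M := fun a => if h : a ∈ D then some ⟨u k a, h⟩ else none
  let l := ch (τ k) (fun a => (g a).map Subtype.val)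
  have hlL : l ∈ L := ⟨(τ k, g), rfl⟩
  have hext : Ext (τ k) (fun a => (g a).map Subtype.val) l := by
    apply hch
    refine ⟨k, rfl, ?_⟩
    intro a x hx
    change (g a).map Subtype.val = some x at hx
    by_cases h : a ∈ D
    · have h1 : g a = some ⟨u k a, h⟩ := dif_pos h
      rw [h1] at hx
      simpa using hx
    · have h1 : g a = none := dif_neg h
      rw [h1] at hx
      simp at hx
  have hval : ∀ a ∈ D, u l a = u k a := by
    intro a ha
    refine hext.2 a (u k a) ?_
    have h1 : g a = some ⟨u k a, ha⟩ := dif_pos ha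
    change (g a).map Subtype.val = _
    rw [h1]
    rfl
  have hlM : ∀ b, u l b ∈ M := by
    intro b
    choose f hf using fun a : D => a.2
    refine ⟨WType.mk (show Lab Ty J from (τ k, D, b)) f, ?_⟩
    refine (hev (show Lab Ty J from (τ k, D, b)) f).trans ?_
    have h1 : (fun a => if h : a ∈ D then some (ev (f ⟨a, h⟩)) else none) =
        (fun a => (g a).map Subtype.val) := by
      funext a
      by_cases h : a ∈ D
      · have h1 : g a = some ⟨u k a, h⟩ := dif_pos h
        rw [h1, dif_pos h, hf]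
        rfl
      · have h1 : g a = none := dif_neg h
        rw [h1, dif_neg h]
        rfl
    change u (ch (τ k) (fun a => if h : a ∈ D then some (ev (f ⟨a, h⟩)) else none)) b = u l b
    rw [h1]
  refine ⟨k, l, ?_, hext.1.symm, ?_⟩
  · rintro h
    exact hk (h ▸ hlL)
  · intro a b hab
    have ha : a ∈ D := by
      change u k a ∈ M
      rw [hab]
      exact hlM b
    exact hval a ha

theorem delta {K T Ty J : Type} [Countable J] [Nonempty T] (hTy : #Ty ≤ 𝔠) (hK : 𝔠 < #K)
    (u : K → J → T) (τ : K → Ty) :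
    ∃ k l, k ≠ l ∧ τ k = τ l ∧ (∀ a b, u k a = u k b ↔ u l a = u l b) ∧
      ∀ a b, u k a = u l b → u l a = u k a ∧ u k b = u k a ∧ u l b = u k a := by
  have h1 : #(Ty × Set (J × J)) ≤ 𝔠 := by
    rw [mk_prod, lift_id, lift_id, mk_set]
    refine mul_le_of_le aleph0_le_continuum hTy ?_
    exact power_le_power_left two_ne_zero mk_le_aleph0
  obtain ⟨k, l, hkl, hτ, h⟩ := delta_aux h1 hK u (fun k => (τ k, {x : J × J | u k x.1 = u k x.2}))
  have hτ1 : τ k = τ l := congrArg Prod.fst hτ
  have hτ2 : {x : J × J | u k x.1 = u k x.2} = {x : J × J | u l x.1 = u l x.2} :=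
    congrArg Prod.snd hτ
  refine ⟨k, l, hkl, hτ1, fun a b => ?_, fun a b hab => ?_⟩
  · have h2 := Set.ext_iff.1 hτ2 (a, b)
    exact h2
  · have h2 := h a b hab
    have h3 : (a, b) ∈ {x : J × J | u l x.1 = u l x.2} := h2.trans hab
    rw [← hτ2] at h3
    exact ⟨h2, (show u k a = u k b from h3).symm, hab.symm⟩

end Pool.Agent.R827.SN
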