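import Pool.Agent.R827.SN4

/-!
# The notion of forcing

The conditions are countable sets of facts. A fact of the first kind says that `β` belongs or does
not belong to the generic subset number `i` of `W`. A fact of the second kind says that the generic
function with the number `ξ` has the value `ρ` at `i`, and that `i` belongs or does not belong to
the set of which `ξ` is a name. The numbers `ξ` are the elements of an inductively defined set which
is closed under the formation of all names that matter.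
-/

set_option autoImplicit false

namespace Pool.Agent.R827.SN

open Set Cardinal

/-- Codes for names of subsets of `I`. For every `i` and every `b` such a code gives a countable
set of facts (which determines the condition number `b`), and a truth value, the value which this
condition gives to the statement that `i` belongs to the set. The facts are coded by `dat` and
`co`: see `Coord.ent`. -/
inductive Coord (I W : Type) : Type
  | base : Coord I W
  | mk (dat : I → (ℕ → Bool) → ℕ → Option ((I × W × Bool) ⊕ (I × W × Bool)))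
      (co : I → (ℕ → Bool) → ℕ → Coord I W) (val : I → (ℕ → Bool) → Bool) : Coord I W

/-- The facts. -/
abbrev Fact (I W : Type) : Type := (I × W × Bool) ⊕ (Coord I W × I × W × Bool)

/-- the fact which is coded by `d` and `ξ` -/
def toFact {I W : Type} (ξ : Coord I W) :
    Option ((I × W × Bool) ⊕ (I × W × Bool)) → Option (Fact I W)
  | none => none
  | some (Sum.inl y) => some (Sum.inl y)
  | some (Sum.inr y) => some (Sum.inr (ξ, y))

/-- The sequence of the facts which make up the condition number `b` for `i`. -/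
def Coord.ent {I W : Type} : Coord I W → I → (ℕ → Bool) → ℕ → Option (Fact I W)
  | .base => fun _ _ _ => none
  | .mk d c _ => fun i b n => toFact (c i b n) (d i b n)

/-- The truth value which belongs to the condition number `b` for `i`. -/
def Coord.val {I W : Type} : Coord I W → I → (ℕ → Bool) → Bool
  | .base => fun _ _ => true
  | .mk _ _ v => v

/-- the data which code a fact -/
def ofFact {I W : Type} : Option (Fact I W) → Option ((I × W × Bool) ⊕ (I × W × Bool))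
  | none => none
  | some (Sum.inl y) => some (Sum.inl y)
  | some (Sum.inr y) => some (Sum.inr y.2)

/-- the coordinate which codes a fact -/
def coFact {I W : Type} : Option (Fact I W) → Coord I W
  | some (Sum.inr y) => y.1
  | _ => Coord.base

theorem toFact_ofFact {I W : Type} (x : Option (Fact I W)) : toFact (coFact x) (ofFact x) = x := by
  rcases x with _ | y | y <;> rfl

/-- The fact that the truth value of `β ∈ F i` is `v`, where `F i` is the generic subset of `W` with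
the number `i`. -/
def ff {I W : Type} (i : I) (β : W) (v : Bool) : Fact I W := Sum.inl (i, β, v)

/-- The fact that the function number `ξ` has the value `ρ` at `i`, and that the truth value of `i`
belonging to the set named by `ξ` is `e`. -/
def gf {I W : Type} (ξ : Coord I W) (i : I) (ρ : W) (e : Bool) : Fact I W := Sum.inr (ξ, i, ρ, e)

section
variable {I W : Type} [LinearOrder W]

/-- The conditions: countable sets of facts which do not contradict each other, such that the truth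
values in the facts of the second kind are justified, and such that any two elements which are
separated by the set named by `ξ` are already known to be different below the maximum of the values
of the function number `ξ`. -/
structure Valid (p : Set (Fact I W)) : Prop where
  ctb : p.Countable
  fun0 : ∀ i β v v', ff i β v ∈ p → ff i β v' ∈ p → v = v'
  fun1 : ∀ ξ i ρ e ρ' e', gf ξ i ρ e ∈ p → gf ξ i ρ' e' ∈ p → ρ = ρ' ∧ e = e'
  name : ∀ ξ i ρ e, gf ξ i ρ e ∈ p → ∃ b, ξ.val i b = e ∧ ∀ n x, ξ.ent i b n = some x → x ∈ p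
  sep : ∀ ξ i j ρ σ, gf ξ i ρ true ∈ p → gf ξ j σ false ∈ p →
    ∃ β, (β < ρ ∨ β < σ) ∧ ∃ v, ff i β v ∈ p ∧ ff j β (!v) ∈ p

variable (I W) in
/-- The notion of forcing. -/
def Q : Type := {p : Set (Fact I W) // Valid p}

instance : Preorder (Q I W) where
  le p q := q.1 ⊆ p.1
  le_refl _ := Subset.rfl
  le_trans _ _ _ h h' := h'.trans h

theorem Q.le_def {p q : Q I W} : p ≤ q ↔ q.1 ⊆ p.1 := Iff.rfl

instance : Nonempty (Q I W) :=
  ⟨⟨∅, countable_empty, by simp, by simp, by simp, by simp⟩⟩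

/-- Countable decreasing sequences have lower bounds. -/
theorem exists_lb (s : ℕ → Q I W) (hs : ∀ m n, m ≤ n → s n ≤ s m) : ∃ q, ∀ n, q ≤ s n := by
  refine ⟨⟨⋃ n, (s n).1, ?_, ?_, ?_, ?_, ?_⟩, fun n => subset_iUnion (fun n => (s n).1) n⟩
  · exact countable_iUnion fun n => (s n).2.ctb
  · intro i β v v' h h'
    obtain ⟨m, hm⟩ := mem_iUnion.1 h
    obtain ⟨n, hn⟩ := mem_iUnion.1 h'
    exact (s (max m n)).2.fun0 i β v v' (hs m _ (le_max_left _ _) hm)
      (hs n _ (le_max_right _ _) hn)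
  · intro ξ i ρ e ρ' e' h h'
    obtain ⟨m, hm⟩ := mem_iUnion.1 h
    obtain ⟨n, hn⟩ := mem_iUnion.1 h'
    exact (s (max m n)).2.fun1 ξ i ρ e ρ' e' (hs m _ (le_max_left _ _) hm)
      (hs n _ (le_max_right _ _) hn)
  · intro ξ i ρ e h
    obtain ⟨m, hm⟩ := mem_iUnion.1 h
    obtain ⟨b, hb, hb'⟩ := (s m).2.name ξ i ρ e hm
    exact ⟨b, hb, fun n x hx => mem_iUnion.2 ⟨m, hb' n x hx⟩⟩
  · intro ξ i j ρ σ h h'
    obtain ⟨m, hm⟩ := mem_iUnion.1 h
    obtain ⟨n, hn⟩ := mem_iUnion.1 h'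
    obtain ⟨β, h1, v, h2, h3⟩ := (s (max m n)).2.sep ξ i j ρ σ (hs m _ (le_max_left _ _) hm)
      (hs n _ (le_max_right _ _) hn)
    exact ⟨β, h1, v, mem_iUnion.2 ⟨_, h2⟩, mem_iUnion.2 ⟨_, h3⟩⟩

/-- the fact with the given entries and pattern -/
def dec (i : I) (ξ : Coord I W) : (W × Bool) ⊕ (W × Bool) → Fact I W
  | Sum.inl y => ff i y.1 y.2
  | Sum.inr y => gf ξ i y.1 y.2

theorem exists_code [Nonempty I] {p : Set (Fact I W)} (hp : p.Countable) :
    ∃ (u : ℕ → I) (c : ℕ → Coord I W) (t : ℕ → Option ((W × Bool) ⊕ (W × Bool))),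
      ∀ x, x ∈ p ↔ ∃ n y, t n = some y ∧ dec (u n) (c n) y = x := by
  classical
  have hC : Nonempty (Coord I W) := ⟨Coord.base⟩
  rcases p.eq_empty_or_nonempty with rfl | hne
  · refine ⟨fun _ => Classical.arbitrary I, fun _ => Classical.arbitrary _, fun _ => none, ?_⟩
    intro x
    simp
  · obtain ⟨f, hf⟩ := hp.exists_eq_range hne
    have h1 : ∀ x : Fact I W, ∃ (i : I) (ξ : Coord I W) (y : (W × Bool) ⊕ (W × Bool)),
        dec i ξ y = x := by
      rintro (⟨i, β, v⟩ | ⟨ξ, i, ρ, e⟩)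
      · exact ⟨i, Classical.arbitrary _, Sum.inl (β, v), rfl⟩
      · exact ⟨i, ξ, Sum.inr (ρ, e), rfl⟩
    choose i ξ y hy using h1
    refine ⟨fun n => i (f n), fun n => ξ (f n), fun n => some (y (f n)), ?_⟩
    intro x
    rw [hf]
    constructor
    · rintro ⟨n, rfl⟩
      exact ⟨n, _, rfl, hy _⟩
    · rintro ⟨n, y', h2, h3⟩
      refine ⟨n, ?_⟩
      rw [← h3, ← Option.some.inj h2, hy]

/-- two conditions of the same type are compatible -/
theorem valid_union {p q : Set (Fact I W)} (hp : Valid p) (hq : Valid q)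
    {u u' : ℕ → I} {c c' : ℕ → Coord I W} {t : ℕ → Option ((W × Bool) ⊕ (W × Bool))}
    (hpc : ∀ x, x ∈ p ↔ ∃ n y, t n = some y ∧ dec (u n) (c n) y = x)
    (hqc : ∀ x, x ∈ q ↔ ∃ n y, t n = some y ∧ dec (u' n) (c' n) y = x)
    (hu : ∀ a b, u a = u b ↔ u' a = u' b)
    (hu' : ∀ a b, u a = u' b → u' a = u a ∧ u b = u a ∧ u' b = u a)
    (hc' : ∀ a b, c a = c' b → c' a = c a ∧ c b = c a ∧ c' b = c a) :
    Valid (p ∪ q) := by
  have hpff : ∀ {i β v}, ff i β v ∈ p → ∃ n, t n = some (Sum.inl (β, v)) ∧ u n = i := by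
    intro i β v h
    obtain ⟨n, y, h1, h2⟩ := (hpc _).1 h
    rcases y with ⟨β', v'⟩ | ⟨ρ, e⟩
    · have h3 : (Sum.inl (u n, β', v') : Fact I W) = Sum.inl (i, β, v) := h2
      simp only [Sum.inl.injEq, Prod.mk.injEq] at h3
      obtain ⟨h4, rfl, rfl⟩ := h3
      exact ⟨n, h1, h4⟩
    · exact absurd h2 Sum.inr_ne_inl
  have hqff : ∀ {i β v}, ff i β v ∈ q → ∃ n, t n = some (Sum.inl (β, v)) ∧ u' n = i := by
    intro i β v h
    obtain ⟨n, y, h1, h2⟩ := (hqc _).1 h
    rcases y with ⟨β', v'⟩ | ⟨ρ, e⟩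
    · have h3 : (Sum.inl (u' n, β', v') : Fact I W) = Sum.inl (i, β, v) := h2
      simp only [Sum.inl.injEq, Prod.mk.injEq] at h3
      obtain ⟨h4, rfl, rfl⟩ := h3
      exact ⟨n, h1, h4⟩
    · exact absurd h2 Sum.inr_ne_inl
  have hpgf : ∀ {ξ i ρ e}, gf ξ i ρ e ∈ p →
      ∃ n, t n = some (Sum.inr (ρ, e)) ∧ u n = i ∧ c n = ξ := by
    intro ξ i ρ e h
    obtain ⟨n, y, h1, h2⟩ := (hpc _).1 h
    rcases y with ⟨β', v'⟩ | ⟨ρ', e'⟩
    · exact absurd h2 Sum.inl_ne_inr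
    · have h3 : (Sum.inr (c n, u n, ρ', e') : Fact I W) = Sum.inr (ξ, i, ρ, e) := h2
      simp only [Sum.inr.injEq, Prod.mk.injEq] at h3
      obtain ⟨h4, h5, rfl, rfl⟩ := h3
      exact ⟨n, h1, h5, h4⟩
  have hqgf : ∀ {ξ i ρ e}, gf ξ i ρ e ∈ q →
      ∃ n, t n = some (Sum.inr (ρ, e)) ∧ u' n = i ∧ c' n = ξ := by
    intro ξ i ρ e h
    obtain ⟨n, y, h1, h2⟩ := (hqc _).1 h
    rcases y with ⟨β', v'⟩ | ⟨ρ', e'⟩
    · exact absurd h2 Sum.inl_ne_inr
    · have h3 : (Sum.inr (c' n, u' n, ρ', e') : Fact I W) = Sum.inr (ξ, i, ρ, e) := h2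
      simp only [Sum.inr.injEq, Prod.mk.injEq] at h3
      obtain ⟨h4, h5, rfl, rfl⟩ := h3
      exact ⟨n, h1, h5, h4⟩
  -- a fact of `q` about `i`, `i` occurring in `p`, is a fact of `p`
  have hfp : ∀ {i β v v'}, ff i β v ∈ p → ff i β v' ∈ q → v = v' := by
    intro i β v v' h h'
    obtain ⟨n, h1, h2⟩ := hpff h
    obtain ⟨m, h3, h4⟩ := hqff h'
    have h5 := (hu' n m (h2.trans h4.symm)).2.1
    refine hp.fun0 i β v v' h ((hpc _).2 ⟨m, _, h3, ?_⟩)
    change ff (u m) β v' = ff i β v'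
    rw [h5, h2]
  have hgp : ∀ {ξ i ρ e ρ' e'}, gf ξ i ρ e ∈ p → gf ξ i ρ' e' ∈ q → ρ = ρ' ∧ e = e' := by
    intro ξ i ρ e ρ' e' h h'
    obtain ⟨n, h1, h2, h3⟩ := hpgf h
    obtain ⟨m, h4, h5, h6⟩ := hqgf h'
    have h7 := (hu' n m (h2.trans h5.symm)).2.1
    have h8 := (hc' n m (h3.trans h6.symm)).2.1
    refine hp.fun1 ξ i ρ e ρ' e' h ((hpc _).2 ⟨m, _, h4, ?_⟩)
    change gf (c m) (u m) ρ' e' = gf ξ i ρ' e'
    rw [h7, h8, h2, h3]
  refine ⟨hp.ctb.union hq.ctb, ?_, ?_, ?_, ?_⟩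
  · rintro i β v v' (h | h) (h' | h')
    · exact hp.fun0 i β v v' h h'
    · exact hfp h h'
    · exact (hfp h' h).symm
    · exact hq.fun0 i β v v' h h'
  · rintro ξ i ρ e ρ' e' (h | h) (h' | h')
    · exact hp.fun1 ξ i ρ e ρ' e' h h'
    · exact hgp h h'
    · exact ⟨(hgp h' h).1.symm, (hgp h' h).2.symm⟩
    · exact hq.fun1 ξ i ρ e ρ' e' h h'
  · rintro ξ i ρ e (h | h)
    · obtain ⟨b, hb, hb'⟩ := hp.name ξ i ρ e h
      exact ⟨b, hb, fun n x hx => Or.inl (hb' n x hx)⟩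
    · obtain ⟨b, hb, hb'⟩ := hq.name ξ i ρ e h
      exact ⟨b, hb, fun n x hx => Or.inr (hb' n x hx)⟩
  · rintro ξ i j ρ σ (h | h) (h' | h')
    · obtain ⟨β, h1, v, h2, h3⟩ := hp.sep ξ i j ρ σ h h'
      exact ⟨β, h1, v, Or.inl h2, Or.inl h3⟩
    · obtain ⟨n, h1, h2, h3⟩ := hpgf h
      obtain ⟨m, h4, h5, h6⟩ := hqgf h'
      have h8 := (hc' n m (h3.trans h6.symm)).2.1
      have h9 : gf ξ (u m) σ false ∈ p := by
        refine (hpc _).2 ⟨m, _, h4, ?_⟩
        change gf (c m) (u m) σ false = _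
        rw [h8, h3]
      obtain ⟨β, h10, v, h11, h12⟩ := hp.sep ξ i (u m) ρ σ h h9
      obtain ⟨m', h13, h14⟩ := hpff h12
      refine ⟨β, h10, v, Or.inl h11, Or.inr ((hqc _).2 ⟨m', _, h13, ?_⟩)⟩
      change ff (u' m') β (!v) = ff j β (!v)
      rw [(hu m' m).1 h14, h5]
    · obtain ⟨n, h1, h2, h3⟩ := hpgf h'
      obtain ⟨m, h4, h5, h6⟩ := hqgf h
      have h8 := (hc' n m (h3.trans h6.symm)).2.1
      have h9 : gf ξ (u m) ρ true ∈ p := by
        refine (hpc _).2 ⟨m, _, h4, ?_⟩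
        change gf (c m) (u m) ρ true = _
        rw [h8, h3]
      obtain ⟨β, h10, v, h11, h12⟩ := hp.sep ξ (u m) j ρ σ h9 h'
      obtain ⟨m', h13, h14⟩ := hpff h11
      refine ⟨β, h10, v, Or.inr ((hqc _).2 ⟨m', _, h13, ?_⟩), Or.inl h12⟩
      change ff (u' m') β v = ff i β v
      rw [(hu m' m).1 h14, h5]
    · obtain ⟨β, h1, v, h2, h3⟩ := hq.sep ξ i j ρ σ h h'
      exact ⟨β, h1, v, Or.inr h2, Or.inr h3⟩

/-- Among more than `𝔠` conditions two of the same colour are compatible, for any colouring with at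
most `𝔠` colours. -/
theorem exists_compatible [Nonempty I] (hW : #W ≤ 𝔠) {K Ty : Type} (hTy : #Ty ≤ 𝔠) (hK : 𝔠 < #K)
    (p : K → Q I W) (τ : K → Ty) :
    ∃ k l, k ≠ l ∧ τ k = τ l ∧ ∃ q, q ≤ p k ∧ q ≤ p l := by
  choose u c t h using fun k => exists_code (p k).2.ctb
  have hC : Nonempty (Coord I W) := ⟨Coord.base⟩
  have hne : Nonempty (I ⊕ Coord I W) := ⟨Sum.inl (Classical.arbitrary I)⟩
  have hpat : #(ℕ → Option ((W × Bool) ⊕ (W × Bool))) ≤ 𝔠 := by
    have h1 : #(W × Bool) ≤ 𝔠 := by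
      rw [mk_prod, lift_id, lift_id]
      exact mul_le_of_le aleph0_le_continuum hW (mk_le_aleph0.trans aleph0_le_continuum)
    have h2 : #((W × Bool) ⊕ (W × Bool)) ≤ 𝔠 := by
      rw [mk_sum, lift_id]
      exact add_le_of_le aleph0_le_continuum h1 h1
    have h3 : #(Option ((W × Bool) ⊕ (W × Bool))) ≤ 𝔠 := by
      rw [mk_option]
      exact add_le_of_le aleph0_le_continuum h2 (one_le_aleph0.trans aleph0_le_continuum)
    calc #(ℕ → Option ((W × Bool) ⊕ (W × Bool)))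
        = #(Option ((W × Bool) ⊕ (W × Bool))) ^ ℵ₀ := by simp
      _ ≤ 𝔠 ^ ℵ₀ := power_le_power_right h3
      _ = 𝔠 := continuum_power_aleph0
  have hTy' : #(Ty × (ℕ → Option ((W × Bool) ⊕ (W × Bool)))) ≤ 𝔠 := by
    rw [mk_prod, lift_id, lift_id]
    exact mul_le_of_le aleph0_le_continuum hTy hpat
  obtain ⟨k, l, hkl, h1, h2, h3⟩ := delta (J := ℕ ⊕ ℕ) (T := I ⊕ Coord I W) hTy' hK
    (fun k => Sum.map (u k) (c k)) (fun k => (τ k, t k))
  have h4 : τ k = τ l := congrArg Prod.fst h1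
  have h5 : t k = t l := congrArg Prod.snd h1
  refine ⟨k, l, hkl, h4, ⟨(p k).1 ∪ (p l).1, ?_⟩, subset_union_left, subset_union_right⟩
  refine valid_union (p k).2 (p l).2 (h k) (h5 ▸ h l) ?_ ?_ ?_
  · intro a b
    have := h2 (Sum.inl a) (Sum.inl b)
    simpa using this
  · intro a b hab
    have := h3 (Sum.inl a) (Sum.inl b) (by simpa using hab)
    simpa using this
  · intro a b hab
    have := h3 (Sum.inr a) (Sum.inr b) (by simpa using hab)
    simpa using this

/-- The functions can be made defined everywhere. -/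
theorem exists_add (hb : ∀ s : Set W, s.Countable → ∃ b, ∀ x ∈ s, x < b) (p : Q I W)
    (ξ : Coord I W) (i : I) (b : ℕ → Bool) (h : ∀ n x, ξ.ent i b n = some x → x ∈ p.1) :
    ∃ q ≤ p, ∃ ρ e, gf ξ i ρ e ∈ q.1 := by
  by_cases hex : ∃ ρ e, gf ξ i ρ e ∈ p.1
  · exact ⟨p, le_rfl, hex⟩
  push Not at hex
  have hS : {β : W | ∃ i v, ff i β v ∈ p.1}.Countable := by
    have h1 : {β : W | ∃ i v, ff i β v ∈ p.1} ⊆
        (fun x : Fact I W => Sum.elim (fun y => y.2.1) (fun y => y.2.2.1) x) '' p.1 := by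
      rintro β ⟨i, v, hβ⟩
      exact ⟨_, hβ, rfl⟩
    exact (p.2.ctb.image _).mono h1
  have hJ : {j : I | ∃ ρ e, gf ξ j ρ e ∈ p.1}.Countable := by
    have h1 : {j : I | ∃ ρ e, gf ξ j ρ e ∈ p.1} ⊆
        (fun x : Fact I W => Sum.elim (fun y => y.1) (fun y => y.2.1) x) '' p.1 := by
      rintro j ⟨ρ, e, hj⟩
      exact ⟨_, hj, rfl⟩
    exact (p.2.ctb.image _).mono h1
  obtain ⟨b0, hb0⟩ := hb _ hS
  obtain ⟨ρ0, hρ0⟩ := hb {b0} (countable_singleton _)
  have hρ : b0 < ρ0 := hρ0 b0 rfl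
  let q : Set (Fact I W) := p.1 ∪ ({ff i b0 true} ∪
    ((fun j => ff j b0 false) '' {j : I | ∃ ρ e, gf ξ j ρ e ∈ p.1} ∪
      {gf ξ i ρ0 (ξ.val i b)}))
  have hqff : ∀ {j β v}, ff j β v ∈ q → ff j β v ∈ p.1 ∨ (β = b0 ∧ ((j = i ∧ v = true) ∨
      (v = false ∧ ∃ ρ e, gf ξ j ρ e ∈ p.1))) := by
    intro j β v hj
    rcases hj with hj | hj | ⟨k, hk, hj⟩ | hj
    · exact Or.inl hj
    · have h1 : (Sum.inl (j, β, v) : Fact I W) = Sum.inl (i, b0, true) := hj
      simp only [Sum.inl.injEq, Prod.mk.injEq] at h1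
      exact Or.inr ⟨h1.2.1, Or.inl ⟨h1.1, h1.2.2⟩⟩
    · have h1 : (Sum.inl (k, b0, false) : Fact I W) = Sum.inl (j, β, v) := hj
      simp only [Sum.inl.injEq, Prod.mk.injEq] at h1
      obtain ⟨rfl, h2, h3⟩ := h1
      exact Or.inr ⟨h2.symm, Or.inr ⟨h3.symm, hk⟩⟩
    · exact absurd hj Sum.inl_ne_inr
  have hqgf : ∀ {η j ρ e}, gf η j ρ e ∈ q → gf η j ρ e ∈ p.1 ∨
      (η = ξ ∧ j = i ∧ ρ = ρ0 ∧ e = ξ.val i b) := by
    intro η j ρ e hj
    rcases hj with hj | hj | ⟨k, hk, hj⟩ | hj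
    · exact Or.inl hj
    · exact absurd hj Sum.inr_ne_inl
    · exact absurd hj Sum.inl_ne_inr
    · have h1 : (Sum.inr (η, j, ρ, e) : Fact I W) = Sum.inr (ξ, i, ρ0, ξ.val i b) := hj
      simp only [Sum.inr.injEq, Prod.mk.injEq] at h1
      exact Or.inr h1
  have hi0 : ff i b0 true ∈ q := Or.inr (Or.inl rfl)
  have hj0 : ∀ {j ρ e}, gf ξ j ρ e ∈ p.1 → ff j b0 false ∈ q := fun {j ρ e} hj =>
    Or.inr (Or.inr (Or.inl ⟨j, ⟨ρ, e, hj⟩, rfl⟩))
  have hlt : ∀ {j β v}, ff j β v ∈ p.1 → β < b0 := fun {j β v} hj => hb0 β ⟨j, v, hj⟩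
  have hvalid : Valid q := by
    refine ⟨?_, ?_, ?_, ?_, ?_⟩
    · exact p.2.ctb.union ((countable_singleton _).union ((hJ.image _).union
        (countable_singleton _)))
    · intro j β v v' h1 h2
      rcases hqff h1 with h1 | ⟨h1, h1'⟩ <;> rcases hqff h2 with h2 | ⟨h2, h2'⟩
      · exact p.2.fun0 j β v v' h1 h2
      · exact absurd h2 (hlt h1).ne
      · exact absurd h1 (hlt h2).ne
      · rcases h1' with ⟨rfl, rfl⟩ | ⟨rfl, ρ, e, h3⟩ <;>
          rcases h2' with ⟨h4, rfl⟩ | ⟨rfl, ρ', e', h4⟩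
        · rfl
        · exact absurd h4 (hex _ _)
        · rw [h4] at h3
          exact absurd h3 (hex _ _)
        · rfl
    · intro η j ρ e ρ' e' h1 h2
      rcases hqgf h1 with h1 | ⟨rfl, rfl, rfl, rfl⟩ <;>
        rcases hqgf h2 with h2 | ⟨h2, h3, h4, h5⟩
      · exact p.2.fun1 η j ρ e ρ' e' h1 h2
      · rw [h2, h3] at h1
        exact absurd h1 (hex _ _)
      · exact absurd h2 (hex _ _)
      · exact ⟨h4.symm, h5.symm⟩
    · intro η j ρ e h1
      rcases hqgf h1 with h1 | ⟨rfl, rfl, rfl, rfl⟩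
      · obtain ⟨b', h2, h3⟩ := p.2.name η j ρ e h1
        exact ⟨b', h2, fun n x hx => Or.inl (h3 n x hx)⟩
      · exact ⟨b, rfl, fun n x hx => Or.inl (h n x hx)⟩
    · intro η j k ρ σ h1 h2
      rcases hqgf h1 with h1 | ⟨rfl, rfl, rfl, h6⟩ <;>
        rcases hqgf h2 with h2 | ⟨h2, h3, h4, h5⟩
      · obtain ⟨β, h3, v, h4, h5⟩ := p.2.sep η j k ρ σ h1 h2
        exact ⟨β, h3, v, Or.inl h4, Or.inl h5⟩
      · refine ⟨b0, Or.inr (by rw [h4]; exact hρ), false, hj0 (h2 ▸ h1), ?_⟩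
        rw [h3]
        exact hi0
      · exact ⟨b0, Or.inl hρ, true, hi0, hj0 h2⟩
      · exact Bool.noConfusion (h6.trans h5.symm)
  exact ⟨⟨q, hvalid⟩, subset_union_left, ρ0, ξ.val i b, Or.inr (Or.inr (Or.inr rfl))⟩

end

end Pool.Agent.R827.SN
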