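import Pool.Agent.R827.SN5

/-!
# All conditions force the principle
-/

set_option autoImplicit false

namespace Pool.Agent.R827.SN

open Set Cardinal
open Pool.Agent.Helper669.Forcing

section
variable {P : Type} [Preorder P]

theorem fimp_of {φ ψ : Set P} {p : P} (h : ∀ q ≤ p, q ∈ φ → q ∈ ψ) : p ∈ fimp φ ψ :=
  mem_fimp.2 fun q hq hφ => ⟨q, le_rfl, h q hq hφ⟩

theorem down_fiff (φ ψ : Set P) : Down (fiff φ ψ) := down_fand (down_fimp _ _) (down_fimp _ _)

/-- Countable decreasing sequences of conditions have lower bounds. -/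
def Closed (P : Type) [Preorder P] : Prop :=
  ∀ s : ℕ → P, (∀ m n, m ≤ n → s n ≤ s m) → ∃ q, ∀ n, q ≤ s n

theorem exists_all (hP : Closed P) (D : ℕ → Set P) (hD : ∀ n, Down (D n)) (q : P)
    (h : ∀ n, ∀ p ≤ q, ∃ r ≤ p, r ∈ D n) : ∃ r ≤ q, ∀ n, r ∈ D n := by
  choose! g hg1 hg2 using h
  let s : ℕ → P := fun n => Nat.rec q (fun n p => g n p) n
  have hs0 : s 0 = q := rfl
  have hs1 : ∀ n, s (n + 1) = g n (s n) := fun _ => rfl
  have hsq : ∀ n, s n ≤ q := by
    intro n
    induction n with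
    | zero => exact le_rfl
    | succ n ih => exact (hs1 n ▸ hg1 n (s n) ih : s (n + 1) ≤ s n).trans ih
  have hanti : Antitone s := antitone_nat_of_succ_le fun n => hs1 n ▸ hg1 n (s n) (hsq n)
  obtain ⟨r, hr⟩ := hP s (fun m n h => hanti h)
  exact ⟨r, (hr 0).trans (hsq 0), fun n => hD n _ (hs1 n ▸ hg2 n (s n) (hsq n)) _ (hr (n + 1))⟩

theorem exists_decide (hP : Closed P) (φ : ℕ → Set P) (hφ : ∀ n, Down (φ n)) (q : P) :
    ∃ r ≤ q, ∀ n, r ∈ φ n ∨ r ∈ fnot (φ n) := by
  refine exists_all hP (fun n => {p | p ∈ φ n ∨ p ∈ fnot (φ n)}) ?_ q ?_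
  · rintro n p (hp | hp) r hr
    · exact Or.inl (hφ n p hp r hr)
    · exact Or.inr (down_fnot _ p hp r hr)
  · intro n p _
    by_cases h : ∃ r ≤ p, r ∈ φ n
    · obtain ⟨r, hr, h⟩ := h
      exact ⟨r, hr, Or.inl h⟩
    · push Not at h
      exact ⟨p, le_rfl, Or.inr h⟩

theorem fiff_of_iff {φ ψ : Set P} {p : P} (hφ : Down φ) (hψ : Down ψ)
    (h1 : p ∈ φ ∨ p ∈ fnot φ) (h2 : p ∈ ψ ∨ p ∈ fnot ψ) (h : p ∈ φ ↔ p ∈ ψ) : p ∈ fiff φ ψ := by
  by_cases hp : p ∈ φ
  · exact ⟨fimp_of fun q hq _ => hψ p (h.1 hp) q hq, fimp_of fun q hq _ => hφ p hp q hq⟩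
  · have hp1 : p ∈ fnot φ := h1.resolve_left hp
    have hp2 : p ∈ fnot ψ := h2.resolve_left fun h' => hp (h.2 h')
    exact ⟨fimp_of fun q hq h' => absurd h' (hp1 q hq), fimp_of fun q hq h' => absurd h' (hp2 q hq)⟩

end

section
variable {I W : Type} [LinearOrder W]

theorem closed_Q : Closed (Q I W) := exists_lb

/-- (1) -/
theorem forced1 (hW : #W ≤ 𝔠) (hI : 𝔠 < #I) (p : Q I W) :
    p ∈ fall fun S : I → ℕ → Set (Q I W) => fex fun i => fex fun j =>
      fand (fground (i ≠ j)) (fall fun n => fiff (meets (S i n)) (meets (S j n))) := by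
  classical
  intro S
  have hIne : Nonempty I := by
    rw [← mk_ne_zero_iff]
    exact (bot_le.trans_lt hI).ne'
  rw [mem_fex]
  intro q _
  choose r hr hr' using fun i => exists_decide closed_Q (fun n => meets (S i n))
    (fun n => down_meets _) q
  obtain ⟨i, j, hij, h1, s, hs1, hs2⟩ := exists_compatible (Ty := Set ℕ) hW (by simp) hI r
    (fun i => {n | r i ∈ meets (S i n)})
  refine ⟨s, hs1.trans (hr i), i, ?_⟩
  refine mem_fex_of_mem j ?_ ?_
  · exact down_fand (down_fground _) (down_fall fun _ => down_fiff _ _)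
  · refine ⟨hij, fun n => ?_⟩
    have h2 : r i ∈ meets (S i n) ↔ r j ∈ meets (S j n) := Set.ext_iff.1 h1 n
    have h3 : s ∈ meets (S i n) ↔ r i ∈ meets (S i n) := by
      constructor
      · intro h
        exact (hr' i n).resolve_right fun h' => h' s hs1 h
      · exact fun h => down_meets _ _ h _ hs1
    have h4 : s ∈ meets (S j n) ↔ r j ∈ meets (S j n) := by
      constructor
      · intro h
        exact (hr' j n).resolve_right fun h' => h' s hs2 h
      · exact fun h => down_meets _ _ h _ hs2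
    refine fiff_of_iff (down_meets _) (down_meets _) ?_ ?_ (h3.trans (h2.trans h4.symm))
    · rcases hr' i n with h | h
      · exact Or.inl (down_meets _ _ h _ hs1)
      · exact Or.inr (down_fnot _ _ h _ hs1)
    · rcases hr' j n with h | h
      · exact Or.inl (down_meets _ _ h _ hs2)
      · exact Or.inr (down_fnot _ _ h _ hs2)

/-- (2) -/
theorem forced2 [WellFoundedLT W] (p : Q I W) :
    p ∈ fall fun S : W → Set (Q I W) => fimp (fex fun x => meets (S x))
      (fex fun x => fand (meets (S x))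
        (fall fun y => fimp (fground (y < x)) (fnot (meets (S y))))) := by
  intro S
  refine fimp_of fun q _ hq => ?_
  rw [mem_fex] at hq ⊢
  intro q' hq'
  have hne : {x | ∃ r ≤ q', r ∈ meets (S x)}.Nonempty := by
    obtain ⟨r, hr, x, hx⟩ := hq q' hq'
    exact ⟨x, r, hr, hx⟩
  obtain ⟨x, ⟨r, hr, hx⟩, hmin⟩ :=
    (wellFounded_lt (α := W)).has_min {x | ∃ r ≤ q', r ∈ meets (S x)} hne
  refine ⟨r, hr, x, hx, fun y => fimp_of fun r' hr' hy => ?_⟩
  intro r'' hr'' h
  exact hmin y ⟨r'', hr''.trans (hr'.trans hr), h⟩ hy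

/-- (3) -/
theorem forced3 [Nonempty W] (hW : ∀ b : W, (Iio b).Countable) (p : Q I W) :
    p ∈ fall fun b : W => fex fun R : ℕ → W → Set (Q I W) => fand (IsFun R)
      (fall fun x => fimp (fground (x < b)) (fex fun n => meets (R n x))) := by
  intro b
  obtain ⟨f, hf⟩ : ∃ f : ℕ → W, Iio b ⊆ range f := by
    rcases (Iio b).eq_empty_or_nonempty with h | h
    · exact ⟨fun _ => Classical.arbitrary W, by rw [h]; exact empty_subset _⟩
    · obtain ⟨f, hf⟩ := (hW b).exists_eq_range h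
      exact ⟨f, hf.le⟩
  refine mem_fex_of_mem (fun n x => {_q | f n = x}) ?_ ?_
  · exact down_fand (down_IsFun _) (down_fall fun _ => down_fimp _ _)
  · refine ⟨⟨fun n => ?_, fun n x y => ?_⟩, fun x => ?_⟩
    · exact mem_fex_of_mem (f n) (down_meets _) (meets_of_mem rfl)
    · refine fimp_of fun q _ hq => ?_
      obtain ⟨r1, _, s1, h1, _⟩ := hq.1 q le_rfl
      obtain ⟨r2, _, s2, h2, _⟩ := hq.2 q le_rfl
      exact (show f n = x from h1).symm.trans h2
    · refine fimp_of fun q _ hq => ?_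
      obtain ⟨n, hn⟩ := hf hq
      exact mem_fex_of_mem n (down_meets _) (meets_of_mem hn)

/-- (4) -/
theorem forced4 (hb : ∀ s : Set W, s.Countable → ∃ b, ∀ x ∈ s, x < b) (p : Q I W) :
    p ∈ fall fun R : ℕ → W → Set (Q I W) => fimp (IsFun R)
      (fex fun b => fall fun n => fall fun x => fimp (meets (R n x)) (fground (x < b))) := by
  intro R
  refine fimp_of fun q _ hq => ?_
  rw [mem_fex]
  intro q' hq'
  have hq1 := down_IsFun _ q hq q' hq'
  obtain ⟨r, hr, hr'⟩ := exists_all closed_Q (fun n => {p | ∃ x, p ∈ meets (R n x)})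
    (fun n p ⟨x, hx⟩ s hs => ⟨x, down_meets _ _ hx _ hs⟩) q' (fun n s hs => by
      obtain ⟨s', hs', x, hx⟩ := IsFun.total (down_IsFun _ _ hq1 s hs) n
      exact ⟨s', hs', x, hx⟩)
  choose f hf using hr'
  obtain ⟨b, hb'⟩ := hb (range f) (countable_range f)
  refine ⟨r, hr, b, fun n x => fimp_of fun s hs hx => ?_⟩
  have h1 : s ∈ IsFun R := down_IsFun _ _ hq1 s (hs.trans hr)
  have h2 := IsFun.unique h1 (down_meets _ _ (hf n) s hs) hx
  exact h2 ▸ hb' _ (mem_range_self n)

/-- every name for a subset of `I` has a code -/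
theorem exists_name (hW : #W ≤ 𝔠) (hI : 𝔠 < #I) (A : I → Set (Q I W)) :
    ∃ (ξ : Coord I W) (s : I → (ℕ → Bool) → Q I W),
      (∀ i b x, x ∈ (s i b).1 ↔ ∃ n, ξ.ent i b n = some x) ∧
      (∀ i b, ξ.val i b = true → s i b ∈ meets (A i)) ∧
      (∀ i b, ξ.val i b = false → s i b ∈ fnot (meets (A i))) ∧
      ∀ i q, ∃ b, ∃ r ≤ q, r ≤ s i b := by
  classical
  have hIne : Nonempty I := by
    rw [← mk_ne_zero_iff]
    exact (bot_le.trans_lt hI).ne'
  have h1 : ∀ i, ∃ s : (ℕ → Bool) → Q I W,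
      (∀ b, s b ∈ meets (A i) ∨ s b ∈ fnot (meets (A i))) ∧ ∀ q, ∃ b, ∃ r ≤ q, r ≤ s b := by
    intro i
    let 𝓐 : Set (Set (Q I W)) := {a | (∀ p ∈ a, p ∈ meets (A i) ∨ p ∈ fnot (meets (A i))) ∧
      ∀ p ∈ a, ∀ q ∈ a, p ≠ q → ¬ ∃ r, r ≤ p ∧ r ≤ q}
    obtain ⟨a, ha⟩ : ∃ a, Maximal (fun a => a ∈ 𝓐) a := by
      refine zorn_subset 𝓐 ?_
      intro c hc hchain
      refine ⟨⋃₀ c, ⟨?_, ?_⟩, fun s hs => subset_sUnion_of_mem hs⟩
      · rintro p ⟨s, hs, hp⟩
        exact (hc hs).1 p hp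
      · rintro p ⟨s, hs, hp⟩ q ⟨t, ht, hq⟩ hne
        rcases hchain.total hs ht with h | h
        · exact (hc ht).2 p (h hp) q hq hne
        · exact (hc hs).2 p hp q (h hq) hne
    have hcard : #a ≤ 𝔠 := by
      by_contra hcon
      push Not at hcon
      obtain ⟨k, l, hkl, _, r, hr1, hr2⟩ := exists_compatible (Ty := Unit) hW
        (by simpa using one_le_aleph0.trans aleph0_le_continuum) hcon (fun x : a => x.1)
        (fun _ => ())
      exact ha.prop.2 k.1 k.2 l.1 l.2 (fun h => hkl (Subtype.ext h)) ⟨r, hr1, hr2⟩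
    have hmax : ∀ q : Q I W, ∃ p ∈ a, ∃ r ≤ q, r ≤ p := by
      intro q
      obtain ⟨q', hq', hdec⟩ : ∃ q' ≤ q, q' ∈ meets (A i) ∨ q' ∈ fnot (meets (A i)) := by
        by_cases h : ∃ r ≤ q, r ∈ meets (A i)
        · obtain ⟨r, hr, h⟩ := h
          exact ⟨r, hr, Or.inl h⟩
        · push Not at h
          exact ⟨q, le_rfl, Or.inr h⟩
      by_contra hcon
      push Not at hcon
      have hno : ∀ p ∈ a, ¬ ∃ r, r ≤ p ∧ r ≤ q' := by
        rintro p hp ⟨r, hr1, hr2⟩
        exact hcon p hp r (hr2.trans hq') hr1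
      have hin : insert q' a ∈ 𝓐 := by
        refine ⟨?_, ?_⟩
        · rintro p (rfl | hp)
          · exact hdec
          · exact ha.prop.1 p hp
        · rintro p (rfl | hp) s (rfl | hs) hne
          · exact absurd rfl hne
          · rintro ⟨r, hr1, hr2⟩
            exact hno s hs ⟨r, hr2, hr1⟩
          · exact hno p hp
          · exact ha.prop.2 p hp s hs hne
      have hmem : q' ∈ a := ha.le_of_ge hin (subset_insert _ _) (mem_insert _ _)
      exact hno q' hmem ⟨q', le_rfl, le_rfl⟩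
    have hane : Nonempty a := by
      obtain ⟨p, hp, _⟩ := hmax (Classical.arbitrary _)
      exact ⟨⟨p, hp⟩⟩
    have hsurj : ∃ f : (ℕ → Bool) → a, Function.Surjective f := by
      have h2 : #a ≤ #(ℕ → Bool) := by
        refine hcard.trans_eq ?_
        simp
      obtain ⟨g⟩ := h2
      exact ⟨Function.invFun g, Function.invFun_surjective g.injective⟩
    obtain ⟨f, hf⟩ := hsurj
    refine ⟨fun b => (f b).1, fun b => ha.prop.1 _ (f b).2, fun q => ?_⟩
    obtain ⟨p, hp, r, hr1, hr2⟩ := hmax q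
    obtain ⟨b, hb⟩ := hf ⟨p, hp⟩
    exact ⟨b, r, hr1, by change r ≤ (f b).1; rw [hb]; exact hr2⟩
  choose s hs1 hs2 using h1
  have h2 : ∀ q : Q I W, ∃ f : ℕ → Option (Fact I W), ∀ x, x ∈ q.1 ↔ ∃ n, f n = some x := by
    intro q
    rcases q.1.eq_empty_or_nonempty with h | h
    · exact ⟨fun _ => none, fun x => by rw [h]; simp⟩
    · obtain ⟨f, hf⟩ := q.2.ctb.exists_eq_range h
      exact ⟨fun n => some (f n), fun x => by rw [hf]; simp⟩
  choose en hen using h2
  refine ⟨Coord.mk (fun i b n => ofFact (en (s i b) n)) (fun i b n => coFact (en (s i b) n))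
    (fun i b => decide (s i b ∈ meets (A i))), s, ?_, ?_, ?_, hs2⟩
  · intro i b x
    refine (hen (s i b) x).trans ?_
    refine exists_congr fun n => ?_
    change _ ↔ toFact (coFact (en (s i b) n)) (ofFact (en (s i b) n)) = some x
    rw [toFact_ofFact]
  · intro i b h
    exact of_decide_eq_true h
  · intro i b h
    exact (hs1 i b).resolve_left (of_decide_eq_false h)

/-- (5) -/
theorem forced5 (hW : #W ≤ 𝔠) (hI : 𝔠 < #I)
    (hb : ∀ s : Set W, s.Countable → ∃ b, ∀ x ∈ s, x < b) (p : Q I W) :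
    p ∈ fex fun F : I → W → Set (Q I W) => fall fun A : I → Set (Q I W) =>
      fex fun R : I → W → Set (Q I W) =>
      fand (IsFun R) (fall fun i => fall fun j => fall fun ρ => fall fun σ =>
        fimp (meets (A i)) (fimp (fnot (meets (A j))) (fimp (meets (R i ρ)) (fimp (meets (R j σ))
          (fex fun β => fand (fground (β < ρ ∨ β < σ))
            (fnot (fiff (meets (F i β)) (meets (F j β))))))))) := by
  refine mem_fex_of_mem (fun i β => {q | ff i β true ∈ q.1}) (down_fall fun _ => down_fex _) ?_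
  intro A
  obtain ⟨ξ, s, hs, hs1, hs2, hs3⟩ := exists_name hW hI A
  have hRd : ∀ i ρ, Down {q : Q I W | ∃ e, gf ξ i ρ e ∈ q.1} :=
    fun i ρ p ⟨e, he⟩ q hq => ⟨e, hq he⟩
  refine mem_fex_of_mem (fun i ρ => {q | ∃ e, gf ξ i ρ e ∈ q.1}) ?_ ?_
  · exact down_fand (down_IsFun _) (down_fall fun _ => down_fall fun _ => down_fall fun _ =>
      down_fall fun _ => down_fimp _ _)
  · refine ⟨⟨fun i => ?_, fun i ρ ρ' => ?_⟩, fun i j ρ σ => ?_⟩
    · rw [mem_fex]
      intro q _
      obtain ⟨b, r, hr1, hr2⟩ := hs3 i q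
      obtain ⟨r', hr', ρ, e, h⟩ := exists_add hb r ξ i b
        (fun n x hx => hr2 ((hs i b x).2 ⟨n, hx⟩))
      exact ⟨r', hr'.trans hr1, ρ, meets_of_mem ⟨e, h⟩⟩
    · refine fimp_of fun q _ hq => ?_
      obtain ⟨r1, hr1, e, h1⟩ := exists_of_meets (hRd i ρ) hq.1
      obtain ⟨r2, hr2, e', h2⟩ := exists_of_meets (hRd i ρ') (down_meets _ _ hq.2 _ hr1)
      exact (r2.2.fun1 ξ i ρ e ρ' e' (hr2 h1) h2).1
    · refine fimp_of fun q1 _ hAi => fimp_of fun q2 hq2 hAj => fimp_of fun q3 hq3 hRi =>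
        fimp_of fun q4 hq4 hRj => ?_
      rw [mem_fex]
      intro q hq
      obtain ⟨r1, hr1, e, h1⟩ := exists_of_meets (hRd i ρ)
        (down_meets _ _ hRi _ (hq.trans hq4))
      obtain ⟨r, hr2, e', h2⟩ := exists_of_meets (hRd j σ)
        (down_meets _ _ hRj _ (hr1.trans hq))
      have h1' : gf ξ i ρ e ∈ r.1 := hr2 h1
      have hrq : r ≤ q := hr2.trans hr1
      obtain ⟨b, hb1, hb2⟩ := r.2.name ξ i ρ e h1'
      obtain ⟨b', hb1', hb2'⟩ := r.2.name ξ j σ e' h2
      have hle : r ≤ s i b := by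
        intro x hx
        obtain ⟨n, hn⟩ := (hs i b x).1 hx
        exact hb2 n x hn
      have hle' : r ≤ s j b' := by
        intro x hx
        obtain ⟨n, hn⟩ := (hs j b' x).1 hx
        exact hb2' n x hn
      have he : e = true := by
        by_contra he
        rw [Bool.not_eq_true] at he
        exact hs2 i b (hb1.trans he) r hle
          (down_meets _ _ hAi _ (hrq.trans (hq.trans (hq4.trans (hq3.trans hq2)))))
      have he' : e' = false := by
        by_contra he'
        rw [Bool.not_eq_false] at he'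
        exact hAj r (hrq.trans (hq.trans (hq4.trans hq3)))
          (down_meets _ _ (hs1 j b' (hb1'.trans he')) _ hle')
      subst he
      subst he'
      obtain ⟨β, hβ, v, hv, hv'⟩ := r.2.sep ξ i j ρ σ h1' h2
      refine ⟨r, hrq, β, hβ, ?_⟩
      intro r' hr' hiff
      have hFd : ∀ i, Down {q : Q I W | ff i β true ∈ q.1} := fun i p hp q hq => hq hp
      cases v with
      | true =>
        have h3 : r' ∈ meets {q : Q I W | ff i β true ∈ q.1} := meets_of_mem (hr' hv)
        obtain ⟨t, ht, h4⟩ := mem_fimp.1 hiff.1 r' le_rfl h3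
        obtain ⟨t', ht', h5⟩ := exists_of_meets (hFd j) h4
        exact Bool.noConfusion (t'.2.fun0 j β true false h5 ((ht'.trans (ht.trans hr')) hv'))
      | false =>
        have h3 : r' ∈ meets {q : Q I W | ff j β true ∈ q.1} := meets_of_mem (hr' hv')
        obtain ⟨t, ht, h4⟩ := mem_fimp.1 hiff.2 r' le_rfl h3
        obtain ⟨t', ht', h5⟩ := exists_of_meets (hFd i) h4
        exact Bool.noConfusion (t'.2.fun0 i β true false h5 ((ht'.trans (ht.trans hr')) hv))

/-- All conditions force the principle. -/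
theorem forced [WellFoundedLT W] [Nonempty W] (hI : 𝔠 < #I)
    (hc : ∀ b : W, (Iio b).Countable)
    (hb : ∀ s : Set W, s.Countable → ∃ b, ∀ x ∈ s, x < b) (p : Q I W) :
    p ∈ PrincipleHolds (Q I W) I W := by
  have hW : #W ≤ 𝔠 := (mk_le_aleph_one hc).trans aleph_one_le_continuum
  exact ⟨forced1 hW hI p, forced2 p, forced3 hc p, forced4 hb p, forced5 hW hI hb p⟩

end

end Pool.Agent.R827.SN
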